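import Mathlib

open Set Metric Function

namespace Pool.Agent.ANC

/-- A homeomorphism `f` of a metric space with two families of relations: `S x y t` means that `y` lies on
the stable leaf of `x` at distance at most `t` (in an adapted leafwise metric), `U x y t` the same for the
unstable leaves. -/
structure Sys (M : Type) [MetricSpace M] where
  f : M ≃ₜ M
  S : M → M → ℝ → Prop
  U : M → M → ℝ → Prop
  a : ℝ
  b : ℝ
  c : ℝ
  e : ℝ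
  ha : 0 < a
  hab : a ≤ b
  hc : 0 < c
  hce : c ≤ e
  S_refl : ∀ x, S x x 0
  S_symm : ∀ x y t, S x y t → S y x t
  S_mono : ∀ x y t t', t ≤ t' → S x y t → S x y t'
  S_tri : ∀ x y z t t', S x y t → S y z t' → S x z (t + t')
  S_dist : ∀ x y t, S x y t → dist x y ≤ t
  S_fwd : ∀ x y t, S x y t → S (f x) (f y) (Real.exp (-a) * t)
  S_bwd : ∀ x y t, S x y t → S (f.symm x) (f.symm y) (Real.exp b * t)
  U_refl : ∀ x, U x x 0
  U_symm : ∀ x y t, U x y t → U y x t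
  U_mono : ∀ x y t t', t ≤ t' → U x y t → U x y t'
  U_tri : ∀ x y z t t', U x y t → U y z t' → U x z (t + t')
  U_dist : ∀ x y t, U x y t → dist x y ≤ t
  U_bwd : ∀ x y t, U x y t → U (f.symm x) (f.symm y) (Real.exp (-c) * t)
  U_fwd : ∀ x y t, U x y t → U (f x) (f y) (Real.exp e * t)
  r : ℝ
  hr : 0 < r
  C : ℝ
  hC : 1 ≤ C
  S_cmp : ∀ x y, S x y r → S x y (C * dist x y)
  U_cmp : ∀ x y, U x y r → U x y (C * dist x y)
  S_closed : ∀ t : ℝ, IsClosed {p : M × M | S p.1 p.2 t}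
  U_closed : ∀ t : ℝ, IsClosed {p : M × M | U p.1 p.2 t}
  br : ∀ ε > 0, ∃ δ > 0, ∀ x y, dist x y < δ → ∃ z, S x z ε ∧ U y z ε

/-- The same system for the inverse homeomorphism. -/
def Sys.symm {M : Type} [MetricSpace M] (D : Sys M) : Sys M where
  f := D.f.symm
  S := D.U
  U := D.S
  a := D.c
  b := D.e
  c := D.a
  e := D.b
  ha := D.hc
  hab := D.hce
  hc := D.ha
  hce := D.hab
  S_refl := D.U_refl
  S_symm := D.U_symm
  S_mono := D.U_mono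
  S_tri := D.U_tri
  S_dist := D.U_dist
  S_fwd := D.U_bwd
  S_bwd := D.U_fwd
  U_refl := D.S_refl
  U_symm := D.S_symm
  U_mono := D.S_mono
  U_tri := D.S_tri
  U_dist := D.S_dist
  U_bwd := D.S_fwd
  U_fwd := D.S_bwd
  r := D.r
  hr := D.hr
  C := D.C
  hC := D.hC
  S_cmp := D.U_cmp
  U_cmp := D.S_cmp
  S_closed := D.U_closed
  U_closed := D.S_closed
  br := fun ε hε => by
    obtain ⟨δ, hδ, h⟩ := D.br ε hε
    refine ⟨δ, hδ, fun x y hxy => ?_⟩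
    obtain ⟨z, h1, h2⟩ := h y x (by rwa [dist_comm])
    exact ⟨z, h2, h1⟩

/-- A map `h` on `A × B` is a rectangle if it moves along stable leaves in the first variable and along
unstable leaves in the second one, uniformly. -/
def Rect {M : Type} [MetricSpace M] (D : Sys M) {α β : Type} [PseudoMetricSpace α] [PseudoMetricSpace β]
    (A : Set α) (B : Set β) (h : α → β → M) : Prop :=
  (∀ ε > 0, ∃ ρ > 0, ∀ s ∈ A, ∀ s' ∈ A, ∀ t ∈ B, dist s s' < ρ → D.S (h s t) (h s' t) ε) ∧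
  (∀ ε > 0, ∃ ρ > 0, ∀ s ∈ A, ∀ t ∈ B, ∀ t' ∈ B, dist t t' < ρ → D.U (h s t) (h s t') ε)

/-- Parametrisations of the stable and unstable leaves of a system by linear spaces. -/
structure Leaves (M : Type) [MetricSpace M] (D : Sys M) (E : Type) [NormedAddCommGroup E]
    [NormedSpace ℝ E] where
  Es : M → Submodule ℝ E
  Eu : M → Submodule ℝ E
  θs : ∀ x, Es x → M
  θu : ∀ x, Eu x → M
  R0 : ℝ
  hR0 : 0 < R0
  K0 : ℝ
  hK0 : 1 ≤ K0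
  s_zero : ∀ x, θs x 0 = x
  u_zero : ∀ x, θu x 0 = x
  s_lip : ∀ (x : M) (R : ℝ), ∃ K : ℝ, 0 ≤ K ∧ ∀ v w : Es x, ‖v‖ ≤ R → ‖w‖ ≤ R →
    D.S (θs x v) (θs x w) (K * ‖v - w‖)
  u_lip : ∀ (x : M) (R : ℝ), ∃ K : ℝ, 0 ≤ K ∧ ∀ v w : Eu x, ‖v‖ ≤ R → ‖w‖ ≤ R →
    D.U (θu x v) (θu x w) (K * ‖v - w‖)
  s_inj : ∀ x, Injective (θs x)
  u_inj : ∀ x, Injective (θu x)
  s_surj : ∀ x y t, D.S x y t → ∃ v : Es x, θs x v = y
  u_surj : ∀ x y t, D.U x y t → ∃ v : Eu x, θu x v = y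
  s_inv : ∀ (x : M) (v : Es x) (ε : ℝ), 0 < ε → ∃ δ > 0, ∀ w : Es x,
    D.S (θs x v) (θs x w) δ → ‖v - w‖ < ε
  u_inv : ∀ (x : M) (v : Eu x) (ε : ℝ), 0 < ε → ∃ δ > 0, ∀ w : Eu x,
    D.U (θu x v) (θu x w) δ → ‖v - w‖ < ε
  s_unif : ∀ (x : M) (v w : Es x), ‖v‖ ≤ R0 → ‖w‖ ≤ R0 → D.S (θs x v) (θs x w) (K0 * ‖v - w‖)
  u_unif : ∀ (x : M) (v w : Eu x), ‖v‖ ≤ R0 → ‖w‖ ≤ R0 → D.U (θu x v) (θu x w) (K0 * ‖v - w‖)
  s_loc : ∀ (x y : M) (t : ℝ), t ≤ R0 → D.S x y t → ∃ v : Es x, ‖v‖ ≤ K0 * t ∧ θs x v = y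
  u_loc : ∀ (x y : M) (t : ℝ), t ≤ R0 → D.U x y t → ∃ v : Eu x, ‖v‖ ≤ K0 * t ∧ θu x v = y

/-- The leaves of the inverse system. -/
def Leaves.symm {M : Type} [MetricSpace M] {D : Sys M} {E : Type} [NormedAddCommGroup E]
    [NormedSpace ℝ E] (Λ : Leaves M D E) : Leaves M D.symm E where
  Es := Λ.Eu
  Eu := Λ.Es
  θs := Λ.θu
  θu := Λ.θs
  R0 := Λ.R0
  hR0 := Λ.hR0
  K0 := Λ.K0
  hK0 := Λ.hK0
  s_zero := Λ.u_zero
  u_zero := Λ.s_zero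
  s_lip := Λ.u_lip
  u_lip := Λ.s_lip
  s_inj := Λ.u_inj
  u_inj := Λ.s_inj
  s_surj := Λ.u_surj
  u_surj := Λ.s_surj
  s_inv := Λ.u_inv
  u_inv := Λ.s_inv
  s_unif := Λ.u_unif
  u_unif := Λ.s_unif
  s_loc := Λ.u_loc
  u_loc := Λ.s_loc

end Pool.Agent.ANC
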