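import Mathlib
import Pool.Agent.ANC.STP
import Pool.Agent.ANC.EXT
import Pool.Agent.ANC.UNI

open Set Metric Function

namespace Pool.Agent.ANC

variable {M : Type} [MetricSpace M] {E : Type} [NormedAddCommGroup E] [NormedSpace ℝ E]

/-- A global product chart over the leaves of `x`. -/
def IsPhi (D : Sys M) (Λ : Leaves M D E) (x : M) (Φ : Λ.Es x → Λ.Eu x → M) : Prop :=
  (∀ v, Φ v 0 = Λ.θs x v) ∧ (∀ w, Φ 0 w = Λ.θu x w) ∧
    ∀ R : ℝ, Rect D (closedBall 0 R) (closedBall 0 R) Φ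

theorem IsPhi.symm {D : Sys M} {Λ : Leaves M D E} {x : M} {Φ : Λ.Es x → Λ.Eu x → M}
    (h : IsPhi D Λ x Φ) : IsPhi D.symm Λ.symm x (fun w v => Φ v w) := by
  obtain ⟨h1, h2, h3⟩ := h
  refine ⟨fun w => h2 w, fun v => h1 v, fun R => ⟨fun ε hε => ?_, fun ε hε => ?_⟩⟩
  · obtain ⟨ρ, hρ, h4⟩ := (h3 R).2 ε hε
    exact ⟨ρ, hρ, fun s hs s' hs' t ht hd => h4 t ht s hs s' hs' hd⟩
  · obtain ⟨ρ, hρ, h4⟩ := (h3 R).1 ε hε
    exact ⟨ρ, hρ, fun s hs t ht t' ht' hd => h4 t ht t' ht' s hs hd⟩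

theorem Rect.mono_congr {D : Sys M} {α β : Type} [PseudoMetricSpace α] [PseudoMetricSpace β]
    {A A' : Set α} {B B' : Set β} (hA : A' ⊆ A) (hB : B' ⊆ B) {h h' : α → β → M}
    (hh : Rect D A B h) (he : ∀ s ∈ A', ∀ t ∈ B', h' s t = h s t) : Rect D A' B' h' := by
  refine ⟨fun ε hε => ?_, fun ε hε => ?_⟩
  · obtain ⟨ρ, hρ, h4⟩ := hh.1 ε hε
    refine ⟨ρ, hρ, fun s hs s' hs' t ht hd => ?_⟩
    rw [he s hs t ht, he s' hs' t ht]
    exact h4 s (hA hs) s' (hA hs') t (hB ht) hd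
  · obtain ⟨ρ, hρ, h4⟩ := hh.2 ε hε
    refine ⟨ρ, hρ, fun s hs t ht t' ht' hd => ?_⟩
    rw [he s hs t ht, he s hs t' ht']
    exact h4 s (hA hs) t (hB ht) t' (hB ht') hd

private theorem ph_scale_mem {F : Type} [NormedAddCommGroup F] [NormedSpace ℝ F] {R : ℝ} (hR : 0 < R)
    {v : F} (hv : v ∈ closedBall (0 : F) R) : R⁻¹ • v ∈ closedBall (0 : F) 1 := by
  rw [mem_closedBall_zero_iff] at hv ⊢
  rw [norm_smul, norm_inv, Real.norm_of_nonneg hR.le, inv_mul_le_iff₀ hR]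
  linarith

private theorem ph_scale_dist {F : Type} [NormedAddCommGroup F] [NormedSpace ℝ F] {R ρ : ℝ}
    (hR : 0 < R) {v w : F} (h : dist v w < R * ρ) : dist (R⁻¹ • v) (R⁻¹ • w) < ρ := by
  rw [dist_smul₀, norm_inv, Real.norm_of_nonneg hR.le, inv_mul_lt_iff₀ hR]
  exact h

private theorem ph_scale {D : Sys M} {α β : Type} [NormedAddCommGroup α] [NormedSpace ℝ α]
    [NormedAddCommGroup β] [NormedSpace ℝ β] {R : ℝ} (hR : 0 < R) {h : α → β → M}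
    (hh : Rect D (closedBall 0 1) (closedBall 0 1) h) :
    Rect D (closedBall 0 R) (closedBall 0 R) (fun v w => h (R⁻¹ • v) (R⁻¹ • w)) := by
  refine ⟨fun ε hε => ?_, fun ε hε => ?_⟩
  · obtain ⟨ρ, hρ, h4⟩ := hh.1 ε hε
    refine ⟨R * ρ, by positivity, fun s hs s' hs' t ht hd => ?_⟩
    exact h4 _ (ph_scale_mem hR hs) _ (ph_scale_mem hR hs') _ (ph_scale_mem hR ht)
      (ph_scale_dist hR hd)
  · obtain ⟨ρ, hρ, h4⟩ := hh.2 ε hε
    refine ⟨R * ρ, by positivity, fun s hs t ht t' ht' hd => ?_⟩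
    exact h4 _ (ph_scale_mem hR hs) _ (ph_scale_mem hR ht) _ (ph_scale_mem hR ht')
      (ph_scale_dist hR hd)

/-- The a priori bound for the rectangles over the leaves of `x`. -/
def APB (D : Sys M) (Λ : Leaves M D E) (x : M) : Prop :=
  ∀ R : ℝ, 0 < R → ∃ K : ℝ, ∀ t ∈ Icc (0 : ℝ) 1, ∀ h : Λ.Es x → Λ.Eu x → M,
    Rect D (closedBall 0 1) (closedBall 0 t) h →
    (∀ s ∈ closedBall (0 : Λ.Es x) 1, h s 0 = Λ.θs x (R • s)) →
    (∀ v ∈ closedBall (0 : Λ.Eu x) t, h 0 v = Λ.θu x (R • v)) →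
    ∀ s ∈ closedBall (0 : Λ.Es x) 1, ∀ v ∈ closedBall (0 : Λ.Eu x) t, D.S (h 0 v) (h s v) K

private theorem ph_one [CompactSpace M] (D : Sys M) (Λ : Leaves M D E) (x : M) (hx : APB D Λ x)
    {R : ℝ} (hR : 0 < R) :
    ∃ Φ : Λ.Es x → Λ.Eu x → M, Rect D (closedBall 0 R) (closedBall 0 R) Φ ∧
      (∀ v ∈ closedBall (0 : Λ.Es x) R, Φ v 0 = Λ.θs x v) ∧
      (∀ w ∈ closedBall (0 : Λ.Eu x) R, Φ 0 w = Λ.θu x w) := by
  obtain ⟨Ks, hKs, hs⟩ := Λ.s_lip x R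
  obtain ⟨Ku, hKu, hu⟩ := Λ.u_lip x R
  have hsc : ∀ {F : Type} [NormedAddCommGroup F] [NormedSpace ℝ F] (v : F), ‖v‖ ≤ 1 →
      ‖R • v‖ ≤ R := by
    intro F _ _ v hv
    rw [norm_smul, Real.norm_of_nonneg hR.le]
    exact mul_le_of_le_one_right hR.le hv
  have hss : ∀ v w : Λ.Es x, ‖v‖ ≤ 1 → ‖w‖ ≤ 1 →
      D.S (Λ.θs x (R • v)) (Λ.θs x (R • w)) (Ks * R * ‖v - w‖) := by
    intro v w hv hw
    have := hs (R • v) (R • w) (hsc v hv) (hsc w hw)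
    rw [← smul_sub, norm_smul, Real.norm_of_nonneg hR.le, ← mul_assoc] at this
    exact this
  have huu : ∀ v w : Λ.Eu x, ‖v‖ ≤ 1 → ‖w‖ ≤ 1 →
      D.U (Λ.θu x (R • v)) (Λ.θu x (R • w)) (Ku * R * ‖v - w‖) := by
    intro v w hv hw
    have := hu (R • v) (R • w) (hsc v hv) (hsc w hw)
    rw [← smul_sub, norm_smul, Real.norm_of_nonneg hR.le, ← mul_assoc] at this
    exact this
  have hS0 : 0 ≤ Ks * R := by positivity
  have hT0 : 0 ≤ Ku * R := by positivity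
  obtain ⟨K, hK⟩ := hx R hR
  obtain ⟨h, h1, h2, h3⟩ := D.extend (closedBall (0 : Λ.Es x) 1) 0 (mem_closedBall_self zero_le_one)
    (fun s => Λ.θs x (R • s))
    (by
      intro ε hε
      refine ⟨ε / (Ks * R + 1), by positivity, fun s hs' s' hs'' hd => ?_⟩
      rw [mem_closedBall_zero_iff] at hs' hs''
      refine D.S_mono _ _ _ _ ?_ (hss s s' hs' hs'')
      rw [dist_eq_norm] at hd
      have h5 : (Ks * R + 1) * ‖s - s'‖ < ε := by
        rw [lt_div_iff₀ (by positivity)] at hd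
        linarith
      nlinarith [norm_nonneg (s - s')])
    (fun v : Λ.Eu x => Λ.θu x (R • v)) (Ku * R) hT0 huu
    (by simp only [smul_zero, Λ.s_zero, Λ.u_zero]) K
    (by
      intro t ht h hh hs0 hu0
      exact hK t ht h hh hs0 hu0)
  refine ⟨fun v w => h (R⁻¹ • v) (R⁻¹ • w), ph_scale hR h1, fun v hv => ?_, fun w hw => ?_⟩
  · have := h2 (R⁻¹ • v) (ph_scale_mem hR hv)
    simp only [smul_zero]
    rw [this, smul_smul, mul_inv_cancel₀ hR.ne', one_smul]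
  · have := h3 (R⁻¹ • w) (ph_scale_mem hR hw)
    simp only [smul_zero]
    rw [this, smul_smul, mul_inv_cancel₀ hR.ne', one_smul]

theorem exists_phi [CompactSpace M] (D : Sys M) (Λ : Leaves M D E) (x : M) (hx : APB D Λ x) :
    ∃ Φ : Λ.Es x → Λ.Eu x → M, IsPhi D Λ x Φ := by
  have h0 : ∀ n : ℕ, (0 : ℝ) < (n : ℝ) + 1 := fun n => by positivity
  choose Ψ hΨ hs hu using fun n : ℕ => ph_one D Λ x hx (h0 n)
  have hun : ∀ n m : ℕ, n ≤ m → ∀ v ∈ closedBall (0 : Λ.Es x) ((n : ℝ) + 1),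
      ∀ w ∈ closedBall (0 : Λ.Eu x) ((n : ℝ) + 1), Ψ n v w = Ψ m v w := by
    intro n m hnm
    have hle : ((n : ℝ) + 1) ≤ (m : ℝ) + 1 := by
      have : (n : ℝ) ≤ m := by exact_mod_cast hnm
      linarith
    refine Rect.unique (convex_closedBall _ _) (convex_closedBall _ _) (a0 := (0 : Λ.Es x))
      (b0 := (0 : Λ.Eu x)) (mem_closedBall_self (h0 n).le) (mem_closedBall_self (h0 n).le) (hΨ n)
      (Rect.mono_congr (closedBall_subset_closedBall hle) (closedBall_subset_closedBall hle) (hΨ m)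
        fun _ _ _ _ => rfl) ?_ ?_
    · intro v hv
      rw [hs n v hv, hs m v (closedBall_subset_closedBall hle hv)]
    · intro w hw
      rw [hu n w hw, hu m w (closedBall_subset_closedBall hle hw)]
  let N : Λ.Es x → Λ.Eu x → ℕ := fun v w => ⌈max ‖v‖ ‖w‖⌉₊
  have hN1 : ∀ v w, v ∈ closedBall (0 : Λ.Es x) ((N v w : ℝ) + 1) := by
    intro v w
    rw [mem_closedBall_zero_iff]
    have := Nat.le_ceil (max ‖v‖ ‖w‖)
    have h2 := le_max_left ‖v‖ ‖w‖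
    show ‖v‖ ≤ ((⌈max ‖v‖ ‖w‖⌉₊ : ℕ) : ℝ) + 1
    linarith
  have hN2 : ∀ v w, w ∈ closedBall (0 : Λ.Eu x) ((N v w : ℝ) + 1) := by
    intro v w
    rw [mem_closedBall_zero_iff]
    have := Nat.le_ceil (max ‖v‖ ‖w‖)
    have h2 := le_max_right ‖v‖ ‖w‖
    show ‖w‖ ≤ ((⌈max ‖v‖ ‖w‖⌉₊ : ℕ) : ℝ) + 1
    linarith
  refine ⟨fun v w => Ψ (N v w) v w, fun v => ?_, fun w => ?_, fun R => ?_⟩
  · exact hs _ v (hN1 v 0)
  · exact hu _ w (hN2 0 w)
  · have hR : R ≤ ((⌈R⌉₊ : ℕ) : ℝ) + 1 := by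
      have := Nat.le_ceil R
      linarith
    refine Rect.mono_congr (closedBall_subset_closedBall hR) (closedBall_subset_closedBall hR)
      (hΨ ⌈R⌉₊) fun v hv w hw => ?_
    refine hun _ _ ?_ v (hN1 v w) w (hN2 v w)
    rw [mem_closedBall_zero_iff] at hv hw
    exact Nat.ceil_mono (max_le hv hw)

end Pool.Agent.ANC
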