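import Mathlib
import Pool.Agent.ANC.PHX

open Set Metric Function

namespace Pool.Agent.ANC

variable {M : Type} [MetricSpace M] {E : Type} [NormedAddCommGroup E] [NormedSpace ℝ E]

/-- Points joined by an unstable path with uniform steps are related. -/
theorem Sys.U_chain (D : Sys M) {F : Type} [NormedAddCommGroup F] [NormedSpace ℝ F] (g : F → M)
    (R ρ : ℝ) (hρ : 0 < ρ) (w : F) (hw : ‖w‖ ≤ R)
    (h : ∀ t ∈ closedBall (0 : F) R, ∀ t' ∈ closedBall (0 : F) R, dist t t' < ρ →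
      D.U (g t) (g t') 1) (N : ℕ) (hN : ‖w‖ / ρ < N) : D.U (g 0) (g w) N := by
  have hN0 : (0 : ℝ) < N := lt_of_le_of_lt (by positivity) hN
  have hR : 0 ≤ R := (norm_nonneg w).trans hw
  have key : ∀ j : ℕ, j ≤ N → D.U (g 0) (g (((j : ℝ) / N) • w)) j := by
    intro j
    induction j with
    | zero =>
      intro _
      have : ((((0 : ℕ) : ℝ)) / N) • w = 0 := by simp
      rw [this]
      simpa using D.U_refl (g 0)
    | succ j ih =>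
      intro hj
      have h1 := ih (by omega)
      have hmem : ∀ i : ℕ, i ≤ N → ((i : ℝ) / N) • w ∈ closedBall (0 : F) R := by
        intro i hi
        rw [mem_closedBall_zero_iff, norm_smul, Real.norm_of_nonneg (by positivity)]
        have : (i : ℝ) / N ≤ 1 := by
          rw [div_le_one hN0]; exact_mod_cast hi
        calc (i : ℝ) / N * ‖w‖ ≤ 1 * ‖w‖ := mul_le_mul_of_nonneg_right this (norm_nonneg _)
          _ ≤ R := by rw [one_mul]; exact hw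
      have h2 := h _ (hmem j (by omega)) _ (hmem (j + 1) hj) (by
        rw [dist_eq_norm, ← sub_smul, norm_smul]
        have : (j : ℝ) / N - ((j + 1 : ℕ) : ℝ) / N = - (1 / N) := by
          push_cast; ring
        rw [this, norm_neg, Real.norm_of_nonneg (by positivity)]
        rw [div_lt_iff₀ hρ] at hN
        rw [one_div, ← div_eq_inv_mul, div_lt_iff₀ hN0]
        linarith [mul_comm (N : ℝ) ρ])
      have h3 := D.U_tri _ _ _ _ _ h1 h2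
      have e1 : ((j + 1 : ℕ) : ℝ) = (j : ℝ) + 1 := Nat.cast_succ j
      rw [← e1] at h3
      exact h3
  have h4 := key N le_rfl
  rwa [div_self hN0.ne', one_smul] at h4

/-- Reparametrisations of a global product chart are rectangles. -/
theorem IsPhi.rect_comp {D : Sys M} {Λ : Leaves M D E} {x : M} {Φ : Λ.Es x → Λ.Eu x → M}
    (hΦ : IsPhi D Λ x Φ) {α β : Type} [PseudoMetricSpace α] [PseudoMetricSpace β] {A : Set α}
    {A' : Set β} (hA : IsCompact A) (hA' : IsCompact A') {ω : α → Λ.Es x} {ν : β → Λ.Eu x}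
    (hω : ContinuousOn ω A) (hν : ContinuousOn ν A') :
    Rect D A A' (fun s t => Φ (ω s) (ν t)) := by
  obtain ⟨R1, hR1⟩ := (hA.image_of_continuousOn hω).isBounded.subset_closedBall 0
  obtain ⟨R2, hR2⟩ := (hA'.image_of_continuousOn hν).isBounded.subset_closedBall 0
  have h1 : ∀ s ∈ A, ω s ∈ closedBall (0 : Λ.Es x) (max R1 R2) := fun s hs =>
    closedBall_subset_closedBall (le_max_left _ _) (hR1 (mem_image_of_mem _ hs))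
  have h2 : ∀ t ∈ A', ν t ∈ closedBall (0 : Λ.Eu x) (max R1 R2) := fun t ht =>
    closedBall_subset_closedBall (le_max_right _ _) (hR2 (mem_image_of_mem _ ht))
  obtain ⟨h3, h4⟩ := hΦ.2.2 (max R1 R2)
  have u1 := Metric.uniformContinuousOn_iff.1 (hA.uniformContinuousOn_of_continuous hω)
  have u2 := Metric.uniformContinuousOn_iff.1 (hA'.uniformContinuousOn_of_continuous hν)
  constructor
  · intro ε hε
    obtain ⟨ρ, hρ, h⟩ := h3 ε hε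
    obtain ⟨ρ', hρ', h'⟩ := u1 ρ hρ
    exact ⟨ρ', hρ', fun s hs s' hs' t ht hss =>
      h _ (h1 s hs) _ (h1 s' hs') _ (h2 t ht) (h' s hs s' hs' hss)⟩
  · intro ε hε
    obtain ⟨ρ, hρ, h⟩ := h4 ε hε
    obtain ⟨ρ', hρ', h'⟩ := u2 ρ hρ
    exact ⟨ρ', hρ', fun s hs t ht t' ht' htt =>
      h _ (h1 s hs) _ (h2 t ht) _ (h2 t' ht') (h' t ht t' ht' htt)⟩

/-- Lifting of unstable discs, given the global product charts over all leaves. -/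
theorem IsPhi.lift_u [CompactSpace M] [FiniteDimensional ℝ E] {D : Sys M} {Λ : Leaves M D E} {x : M}
    {Φ : Λ.Es x → Λ.Eu x → M} (hΦ : IsPhi D Λ x Φ)
    (hall : ∀ m, ∃ Ψ : Λ.Es m → Λ.Eu m → M, IsPhi D Λ m Ψ) (v : Λ.Es x) (w : Λ.Eu x) (ρ0 : ℝ) :
    ∃ ν : Λ.Eu (Φ v w) → Λ.Eu x, ContinuousOn ν (closedBall 0 1) ∧ ν 0 = w ∧
      ∀ ξ : Λ.Eu (Φ v w), ‖ξ‖ ≤ 1 → Φ v (ν ξ) = Λ.θu (Φ v w) (ρ0 • ξ) := by
  obtain ⟨Ψ, hΨ⟩ := hall (Φ v w)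
  obtain ⟨hΨ1, hΨ2, hΨ3⟩ := hΨ
  have hΨ' : IsPhi D Λ (Φ v w) Ψ := ⟨hΨ1, hΨ2, hΨ3⟩
  obtain ⟨hΦ1, hΦ2, hΦ3⟩ := hΦ
  set R : ℝ := max ‖v‖ ‖w‖ with hR
  have hvR : ‖v‖ ≤ R := le_max_left _ _
  have hwR : ‖w‖ ≤ R := le_max_right _ _
  have hsv : ∀ s ∈ Icc (0 : ℝ) 1, s • v ∈ closedBall (0 : Λ.Es x) ‖v‖ := by
    intro s hs
    rw [mem_closedBall_zero_iff, norm_smul, Real.norm_of_nonneg hs.1]
    calc s * ‖v‖ ≤ 1 * ‖v‖ := mul_le_mul_of_nonneg_right hs.2 (norm_nonneg _)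
      _ = ‖v‖ := one_mul _
  have hdsv : ∀ s s' : ℝ, dist (s • v) (s' • v) = |s - s'| * ‖v‖ := by
    intro s s'
    rw [dist_eq_norm, ← sub_smul, norm_smul, Real.norm_eq_abs]
  -- uniformity of the path `s ↦ Φ (s v) w'`
  have hpath : ∀ R' : ℝ, ‖v‖ ≤ R' → ∀ ε > 0, ∃ ρ > 0, ∀ s ∈ Icc (0 : ℝ) 1, ∀ s' ∈ Icc (0 : ℝ) 1,
      ∀ w' ∈ closedBall (0 : Λ.Eu x) R', dist s s' < ρ → D.S (Φ (s • v) w') (Φ (s' • v) w') ε := by
    intro R' hR' ε hε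
    obtain ⟨ρ, hρ, hh⟩ := (hΦ3 R').1 ε hε
    refine ⟨ρ / (‖v‖ + 1), by positivity, fun s hs s' hs' w' hw' hd => ?_⟩
    refine hh _ (closedBall_subset_closedBall hR' (hsv s hs)) _
      (closedBall_subset_closedBall hR' (hsv s' hs')) _ hw' ?_
    rw [hdsv]
    have hv1 : 0 < ‖v‖ + 1 := by positivity
    rw [Real.dist_eq, lt_div_iff₀ hv1] at hd
    have : |s - s'| * ‖v‖ ≤ |s - s'| * (‖v‖ + 1) :=
      mul_le_mul_of_nonneg_left (by linarith) (abs_nonneg _)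
    linarith
  have ha0 : (1 : ℝ) ∈ Icc (0 : ℝ) 1 := ⟨zero_le_one, le_rfl⟩
  have hz0 : (0 : ℝ) ∈ Icc (0 : ℝ) 1 := ⟨le_rfl, zero_le_one⟩
  -- the stable path in the coordinates of the leaf of `Φ v w`
  have hchain : ∀ s ∈ Icc (0 : ℝ) 1, ∃ t : ℝ, D.S (Φ 0 w) (Φ (s • v) w) t := by
    intro s hs
    obtain ⟨ρs, hρs, hρs'⟩ := (hΦ3 R).1 1 one_pos
    obtain ⟨N, hN⟩ := exists_nat_gt (‖s • v‖ / ρs)
    refine ⟨N, ?_⟩
    exact D.symm.U_chain (fun z : Λ.Es x => Φ z w) R ρs hρs (s • v)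
      ((mem_closedBall_zero_iff.1 (hsv s hs)).trans hvR)
      (fun z hz z' hz' hd => hρs' z hz z' hz' w (by simpa using hwR) hd) N hN
  have hσex : ∀ s : ℝ, ∃ σ : Λ.Es (Φ v w), s ∈ Icc (0 : ℝ) 1 → Λ.θs (Φ v w) σ = Φ (s • v) w := by
    intro s
    by_cases hs : s ∈ Icc (0 : ℝ) 1
    · obtain ⟨t1, ht1⟩ := hchain 1 ha0
      obtain ⟨t2, ht2⟩ := hchain s hs
      rw [one_smul] at ht1
      obtain ⟨σ, hσ⟩ := Λ.s_surj (Φ v w) _ _ (D.S_tri _ _ _ _ _ (D.S_symm _ _ _ ht1) ht2)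
      exact ⟨σ, fun _ => hσ⟩
    · exact ⟨0, fun h => absurd h hs⟩
  choose σ hσ using hσex
  have hσ1 : σ 1 = 0 := by
    apply Λ.s_inj (Φ v w)
    rw [hσ 1 ha0, one_smul, Λ.s_zero]
  have hσc : ContinuousOn σ (Icc (0 : ℝ) 1) := by
    rw [Metric.continuousOn_iff]
    intro s hs ε hε
    obtain ⟨δ, hδ, hinv⟩ := Λ.s_inv (Φ v w) (σ s) ε hε
    obtain ⟨ρ, hρ, hρ'⟩ := hpath R hvR δ hδ
    refine ⟨ρ, hρ, fun s' hs' hd => ?_⟩
    rw [dist_comm, dist_eq_norm]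
    apply hinv
    rw [hσ s hs, hσ s' hs']
    exact hρ' s hs s' hs' w (by simpa using hwR) (by rwa [dist_comm])
  have hscal : ContinuousOn (fun ξ : Λ.Eu (Φ v w) => ρ0 • ξ) (closedBall 0 1) :=
    (continuous_const_smul ρ0).continuousOn
  have hrect : Rect D (Icc (0 : ℝ) 1) (closedBall (0 : Λ.Eu (Φ v w)) 1) (fun s ξ => Ψ (σ s) (ρ0 • ξ)) :=
    hΨ'.rect_comp isCompact_Icc (isCompact_closedBall 0 1) hσc hscal
  set h : ℝ → Λ.Eu (Φ v w) → M := fun s ξ => Ψ (σ s) (ρ0 • ξ) with hh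
  have hh0 : ∀ s ∈ Icc (0 : ℝ) 1, h s 0 = Φ (s • v) w := by
    intro s hs
    show Ψ (σ s) (ρ0 • (0 : Λ.Eu (Φ v w))) = _
    rw [smul_zero, hΨ1, hσ s hs]
  have hh1 : ∀ ξ ∈ closedBall (0 : Λ.Eu (Φ v w)) 1, h 1 ξ = Λ.θu (Φ v w) (ρ0 • ξ) := by
    intro ξ _
    show Ψ (σ 1) (ρ0 • ξ) = _
    rw [hσ1, hΨ2]
  -- the lift over the unstable leaf of `x`
  have hex : ∀ ξ : Λ.Eu (Φ v w), ∃ u : Λ.Eu x, ‖ξ‖ ≤ 1 → Λ.θu x u = h 0 ξ := by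
    intro ξ
    by_cases hξ : ‖ξ‖ ≤ 1
    · obtain ⟨ρ1, hρ1, hρ1'⟩ := hrect.2 1 one_pos
      obtain ⟨N1, hN1⟩ := exists_nat_gt (‖ξ‖ / ρ1)
      have h1 : D.U (h 0 0) (h 0 ξ) N1 := D.U_chain (fun t => h 0 t) 1 ρ1 hρ1 ξ hξ
        (fun t ht t' ht' hd => hρ1' 0 hz0 t ht t' ht' hd) N1 hN1
      have h2 : h 0 0 = Λ.θu x w := by
        rw [hh0 0 hz0, zero_smul, hΦ2]
      obtain ⟨Ku, -, hKu⟩ := Λ.u_lip x ‖w‖
      have h3 := hKu 0 w (by simp) le_rfl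
      rw [Λ.u_zero, ← h2] at h3
      obtain ⟨u, hu⟩ := Λ.u_surj x _ _ (D.U_tri _ _ _ _ _ h3 h1)
      exact ⟨u, fun _ => hu⟩
    · exact ⟨0, fun hc => absurd hc hξ⟩
  choose ν hν using hex
  have hball : ∀ ξ : Λ.Eu (Φ v w), ξ ∈ closedBall (0 : Λ.Eu (Φ v w)) 1 ↔ ‖ξ‖ ≤ 1 := fun ξ => mem_closedBall_zero_iff
  have hν0 : ν 0 = w := by
    apply Λ.u_inj x
    rw [hν 0 (by simp), hh0 0 hz0, zero_smul, hΦ2]
  have hcont : ContinuousOn ν (closedBall 0 1) := by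
    rw [Metric.continuousOn_iff]
    intro ξ hξ ε hε
    obtain ⟨δ, hδ, hinv⟩ := Λ.u_inv x (ν ξ) ε hε
    obtain ⟨ρ, hρ, hρ'⟩ := hrect.2 δ hδ
    refine ⟨ρ, hρ, fun ξ' hξ' hd => ?_⟩
    rw [dist_comm, dist_eq_norm]
    apply hinv
    rw [hν ξ ((hball ξ).mp hξ), hν ξ' ((hball ξ').mp hξ')]
    exact hρ' 0 hz0 ξ hξ ξ' hξ' (by rwa [dist_comm])
  -- the two rectangles agree
  have hcpt : IsCompact (closedBall (0 : Λ.Eu (Φ v w)) 1) := isCompact_closedBall 0 1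
  obtain ⟨R1, hR1⟩ : ∃ R1 : ℝ, ∀ ξ ∈ closedBall (0 : Λ.Eu (Φ v w)) 1, ‖ν ξ‖ ≤ R1 :=
    hcpt.exists_bound_of_continuousOn hcont
  have hunif : UniformContinuousOn ν (closedBall 0 1) :=
    hcpt.uniformContinuousOn_of_continuous hcont
  rw [Metric.uniformContinuousOn_iff] at hunif
  set R2 : ℝ := max ‖v‖ R1 with hR2
  have hνR : ∀ ξ ∈ closedBall (0 : Λ.Eu (Φ v w)) 1, ν ξ ∈ closedBall (0 : Λ.Eu x) R2 := by
    intro ξ hξ
    rw [mem_closedBall_zero_iff]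
    exact (hR1 ξ hξ).trans (le_max_right _ _)
  have hrect2 : Rect D (Icc (0 : ℝ) 1) (closedBall (0 : Λ.Eu (Φ v w)) 1) (fun s ξ => Φ (s • v) (ν ξ)) := by
    constructor
    · intro ε hε
      obtain ⟨ρ, hρ, hρ'⟩ := hpath R2 (le_max_left _ _) ε hε
      exact ⟨ρ, hρ, fun s hs s' hs' ξ hξ hd => hρ' s hs s' hs' _ (hνR ξ hξ) hd⟩
    · intro ε hε
      obtain ⟨ρ, hρ, hρ'⟩ := (hΦ3 R2).2 ε hε
      obtain ⟨δ, hδ, hδ'⟩ := hunif ρ hρ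
      refine ⟨δ, hδ, fun s hs ξ hξ ξ' hξ' hd => ?_⟩
      exact hρ' _ (closedBall_subset_closedBall (le_max_left _ _) (hsv s hs)) _ (hνR ξ hξ) _
        (hνR ξ' hξ') (hδ' ξ hξ ξ' hξ' hd)
  have hfin := Rect.unique (convex_Icc (0 : ℝ) 1) (convex_closedBall (0 : Λ.Eu (Φ v w)) 1) hz0
    (mem_closedBall_self zero_le_one) hrect2 hrect
    (fun s hs => by
      show Φ (s • v) (ν 0) = h s 0
      rw [hν0, hh0 s hs])
    (fun ξ hξ => by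
      show Φ ((0 : ℝ) • v) (ν ξ) = h 0 ξ
      rw [zero_smul, hΦ2, hν ξ ((hball ξ).mp hξ)])
  refine ⟨ν, hcont, hν0, fun ξ hξ => ?_⟩
  have := hfin 1 ha0 ξ ((hball ξ).mpr hξ)
  simp only [one_smul] at this
  rw [this, hh1 ξ ((hball ξ).mpr hξ)]

/-- Lifting of stable discs, given the global product charts over all leaves. -/
theorem IsPhi.lift_s [CompactSpace M] [FiniteDimensional ℝ E] {D : Sys M} {Λ : Leaves M D E} {x : M}
    {Φ : Λ.Es x → Λ.Eu x → M} (hΦ : IsPhi D Λ x Φ)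
    (hall : ∀ m, ∃ Ψ : Λ.Es m → Λ.Eu m → M, IsPhi D Λ m Ψ) (v : Λ.Es x) (w : Λ.Eu x) (ρ0 : ℝ) :
    ∃ ω : Λ.Es (Φ v w) → Λ.Es x, ContinuousOn ω (closedBall 0 1) ∧ ω 0 = v ∧
      ∀ ξ : Λ.Es (Φ v w), ‖ξ‖ ≤ 1 → Φ (ω ξ) w = Λ.θs (Φ v w) (ρ0 • ξ) :=
  IsPhi.lift_u (D := D.symm) (Λ := Λ.symm) (Φ := fun w v => Φ v w) hΦ.symm
    (fun m => by
      obtain ⟨Ψ, hΨ⟩ := hall m
      exact ⟨_, hΨ.symm⟩) w v ρ0

end Pool.Agent.ANC
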