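import Mathlib
import Pool.Agent.ANC.LFT

open Set Metric Function Topology

namespace Pool.Agent.ANC

variable {M : Type} [MetricSpace M] {E : Type} [NormedAddCommGroup E] [NormedSpace ℝ E]

/-- The properties of a bracket. -/
structure SecPack (D : Sys M) (ε δ : ℝ) (B : M → M → M) : Prop where
  hε : 0 < ε
  hδ : 0 < δ
  h4 : 4 * ε ≤ D.r
  exp : ∀ x y, D.S x y (2 * ε) → D.U x y (2 * ε) → x = y
  close : ∀ x y, dist x y < δ → D.S x (B x y) ε ∧ D.U y (B x y) ε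
  modulus : ∀ η > 0, ∃ ρ > 0, ∀ x x' y y', dist x y < δ → dist x' y' < δ → dist x x' < ρ →
      dist y y' < ρ → dist (B x y) (B x' y') < η

theorem SecPack.symm {D : Sys M} {ε δ : ℝ} {B : M → M → M} (P : SecPack D ε δ B) :
    SecPack D.symm ε δ (fun x y => B y x) where
  hε := P.hε
  hδ := P.hδ
  h4 := P.h4
  exp := fun x y h1 h2 => P.exp x y h2 h1
  close := fun x y h => by
    have := P.close y x (by rwa [dist_comm])
    exact ⟨this.2, this.1⟩
  modulus := fun η hη => by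
    obtain ⟨ρ, hρ, h⟩ := P.modulus η hη
    exact ⟨ρ, hρ, fun x x' y y' h1 h2 h3 h4 => h y y' x x' (by rwa [dist_comm])
      (by rwa [dist_comm]) h4 h3⟩

theorem SecPack.uniq {D : Sys M} {ε δ : ℝ} {B : M → M → M} (P : SecPack D ε δ B) {x y z : M}
    (hxy : dist x y < δ) (h1 : D.S x z ε) (h2 : D.U y z ε) : B x y = z := by
  obtain ⟨h3, h4⟩ := P.close x y hxy
  refine P.exp _ _ ?_ ?_
  · have := D.S_tri _ _ _ _ _ (D.S_symm _ _ _ h3) h1
    exact D.S_mono _ _ _ _ (by linarith) this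
  · have := D.U_tri _ _ _ _ _ (D.U_symm _ _ _ h4) h2
    exact D.U_mono _ _ _ _ (by linarith) this

theorem SecPack.self {D : Sys M} {ε δ : ℝ} {B : M → M → M} (P : SecPack D ε δ B) (x : M) :
    B x x = x :=
  P.uniq (by rw [dist_self]; exact P.hδ) (D.S_mono _ _ _ _ P.hε.le (D.S_refl x))
    (D.U_mono _ _ _ _ P.hε.le (D.U_refl x))

/-- There are brackets. -/
theorem Sys.exists_pack [CompactSpace M] (D : Sys M) :
    ∃ (ε δ : ℝ) (B : M → M → M), SecPack D ε δ B := by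
  obtain ⟨ε, δ, B, hε, hδ, h4, hexp, hcl, hmod⟩ := D.exists_bracket
  exact ⟨ε, δ, B, hε, hδ, h4, hexp, hcl, hmod⟩

/-- Brackets of two families are rectangles. -/
theorem SecPack.rect {D : Sys M} {ε δ : ℝ} {B : M → M → M} (P : SecPack D ε δ B)
    {α β : Type} [PseudoMetricSpace α] [PseudoMetricSpace β] {A : Set α} {A' : Set β}
    {ψs : α → M} {ψu : β → M} {K : ℝ} (hK : 0 < K)
    (hs : ∀ s ∈ A, ∀ s' ∈ A, dist (ψs s) (ψs s') ≤ K * dist s s')
    (hu : ∀ t ∈ A', ∀ t' ∈ A', dist (ψu t) (ψu t') ≤ K * dist t t')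
    (hd : ∀ s ∈ A, ∀ t ∈ A', dist (ψu t) (ψs s) < δ) :
    Rect D A A' (fun s t => B (ψu t) (ψs s)) := by
  have hC : 0 < D.C := lt_of_lt_of_le one_pos D.hC
  constructor
  · intro ε' hε'
    obtain ⟨ρ, hρ, h⟩ := P.modulus (ε' / D.C) (div_pos hε' hC)
    refine ⟨ρ / K, div_pos hρ hK, fun s hs1 s' hs2 t ht hss => ?_⟩
    have h1 := (P.close _ _ (hd s hs1 t ht)).1
    have h2 := (P.close _ _ (hd s' hs2 t ht)).1
    have h3 : D.S (B (ψu t) (ψs s)) (B (ψu t) (ψs s')) D.r := by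
      have := D.S_tri _ _ _ _ _ (D.S_symm _ _ _ h1) h2
      exact D.S_mono _ _ _ _ (by linarith [P.h4, P.hε]) this
    refine D.S_mono _ _ _ _ ?_ (D.S_cmp _ _ h3)
    have h4 := h (ψu t) (ψu t) (ψs s) (ψs s') (hd s hs1 t ht) (hd s' hs2 t ht)
      (by rw [dist_self]; exact hρ) ?_
    · rw [lt_div_iff₀ hC] at h4
      linarith [mul_comm (dist (B (ψu t) (ψs s)) (B (ψu t) (ψs s'))) D.C]
    · refine (hs s hs1 s' hs2).trans_lt ?_
      rw [lt_div_iff₀ hK] at hss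
      linarith [mul_comm (dist s s') K]
  · intro ε' hε'
    obtain ⟨ρ, hρ, h⟩ := P.modulus (ε' / D.C) (div_pos hε' hC)
    refine ⟨ρ / K, div_pos hρ hK, fun s hs1 t ht t' ht' htt => ?_⟩
    have h1 := (P.close _ _ (hd s hs1 t ht)).2
    have h2 := (P.close _ _ (hd s hs1 t' ht')).2
    have h3 : D.U (B (ψu t) (ψs s)) (B (ψu t') (ψs s)) D.r := by
      have := D.U_tri _ _ _ _ _ (D.U_symm _ _ _ h1) h2
      exact D.U_mono _ _ _ _ (by linarith [P.h4, P.hε]) this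
    refine D.U_mono _ _ _ _ ?_ (D.U_cmp _ _ h3)
    have h4 := h (ψu t) (ψu t') (ψs s) (ψs s) (hd s hs1 t ht) (hd s hs1 t' ht')
      ?_ (by rw [dist_self]; exact hρ)
    · rw [lt_div_iff₀ hC] at h4
      linarith [mul_comm (dist (B (ψu t) (ψs s)) (B (ψu t') (ψs s))) D.C]
    · refine (hu t ht t' ht').trans_lt ?_
      rw [lt_div_iff₀ hK] at htt
      linarith [mul_comm (dist t t') K]

end Pool.Agent.ANC
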