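import Mathlib
import Pool.Agent.ANC.PCK

/-! CHN: chains.  A path with uniform modulus on a segment has finite leafwise length: walk with
small steps, each step costs at most 1. -/

open Set Metric Function

namespace Pool.Agent.ANC

variable {M : Type} [MetricSpace M]

theorem CHN_chain {X : Type} (R : X → X → ℝ → Prop) (refl : ∀ x, R x x 0)
    (tri : ∀ x y z t t', R x y t → R y z t' → R x z (t + t')) (p : ℝ → X) (N : ℕ) (hN : 0 < N)
    (h : ∀ j : ℕ, j < N → R (p ((j : ℝ) / N)) (p (((j : ℝ) + 1) / N)) 1) : R (p 0) (p 1) N := by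
  have hN0 : (0 : ℝ) < N := by exact_mod_cast hN
  have key : ∀ j : ℕ, j ≤ N → R (p 0) (p ((j : ℝ) / N)) j := by
    intro j
    induction j with
    | zero =>
      intro _
      simpa using refl (p 0)
    | succ j ih =>
      intro hj
      have h1 := tri _ _ _ _ _ (ih (by omega)) (h j (by omega))
      push_cast
      exact h1
  have h2 := key N le_rfl
  rwa [div_self hN0.ne'] at h2

/-- a stable path over `[0,1]` (with a parameter) has bounded length -/
theorem Sys.S_path (D : Sys M) {β : Type} (B : Set β) (g : ℝ → β → M)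
    (h : ∃ ρ > 0, ∀ s ∈ Icc (0 : ℝ) 1, ∀ s' ∈ Icc (0 : ℝ) 1, ∀ t ∈ B, dist s s' < ρ →
      D.S (g s t) (g s' t) 1) :
    ∃ K : ℝ, 0 ≤ K ∧ ∀ s ∈ Icc (0 : ℝ) 1, ∀ s' ∈ Icc (0 : ℝ) 1, ∀ t ∈ B,
      D.S (g s t) (g s' t) K := by
  obtain ⟨ρ, hρ, h⟩ := h
  obtain ⟨N, hN⟩ := exists_nat_gt (1 / ρ)
  have hN0 : (0 : ℝ) < N := lt_trans (by positivity) hN
  have hNpos : 0 < N := by exact_mod_cast hN0
  refine ⟨N, by positivity, ?_⟩
  intro s hs s' hs' t ht
  have hmem : ∀ τ ∈ Icc (0 : ℝ) 1, s + τ * (s' - s) ∈ Icc (0 : ℝ) 1 := by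
    intro τ hτ
    obtain ⟨h1, h2⟩ := hτ
    obtain ⟨h3, h4⟩ := hs
    obtain ⟨h5, h6⟩ := hs'
    constructor
    · nlinarith [mul_nonneg h1 h5, mul_nonneg (sub_nonneg.mpr h2) h3]
    · nlinarith [mul_nonneg h1 (sub_nonneg.mpr h6), mul_nonneg (sub_nonneg.mpr h2) (sub_nonneg.mpr h4)]
  have h5 := CHN_chain (fun x y r => D.S x y r) D.S_refl D.S_tri
    (fun τ => g (s + τ * (s' - s)) t) N hNpos (by
      intro j hj
      have hj' : (j : ℝ) + 1 ≤ N := by exact_mod_cast hj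
      have m1 : (j : ℝ) / N ∈ Icc (0 : ℝ) 1 :=
        ⟨by positivity, by rw [div_le_one hN0]; linarith⟩
      have m2 : ((j : ℝ) + 1) / N ∈ Icc (0 : ℝ) 1 :=
        ⟨by positivity, by rw [div_le_one hN0]; linarith⟩
      refine h _ (hmem _ m1) _ (hmem _ m2) t ht ?_
      rw [Real.dist_eq]
      have e1 : s + (j : ℝ) / N * (s' - s) - (s + ((j : ℝ) + 1) / N * (s' - s)) =
          -((s' - s) / N) := by
        field_simp
        ring
      rw [e1, abs_neg, abs_div, abs_of_pos hN0]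
      have e2 : |s' - s| ≤ 1 := by
        rw [abs_le]
        constructor
        · linarith [hs.2, hs'.1]
        · linarith [hs'.2, hs.1]
      rw [div_lt_iff₀ hρ] at hN
      rw [div_lt_iff₀ hN0]
      linarith [mul_comm (N : ℝ) ρ])
  have e0 : s + 0 * (s' - s) = s := by ring
  have e1 : s + 1 * (s' - s) = s' := by ring
  simp only [e0, e1] at h5
  exact h5

/-- the two sides of a rectangle over `[0,1] × closedBall 0 ρ` have bounded lengths -/
theorem Rect.bounds {D : Sys M} {F : Type} [NormedAddCommGroup F] [NormedSpace ℝ F] {ρ : ℝ}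
    {h : ℝ → F → M} (hR : Rect D (Icc (0 : ℝ) 1) (closedBall 0 ρ) h) :
    ∃ K : ℝ, 0 ≤ K ∧
      (∀ s ∈ Icc (0 : ℝ) 1, ∀ s' ∈ Icc (0 : ℝ) 1, ∀ u ∈ closedBall (0 : F) ρ,
        D.S (h s u) (h s' u) K) ∧
      (∀ s ∈ Icc (0 : ℝ) 1, ∀ u ∈ closedBall (0 : F) ρ, ∀ u' ∈ closedBall (0 : F) ρ,
        D.U (h s u) (h s u') K) := by
  obtain ⟨K, hK, h1⟩ := D.S_path (closedBall (0 : F) ρ) h (hR.1 1 one_pos)
  obtain ⟨τ, hτ, h2⟩ := hR.2 1 one_pos
  obtain ⟨N, hN⟩ := exists_nat_gt (2 * |ρ| / τ)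
  have hN0 : (0 : ℝ) < N := lt_of_le_of_lt (by positivity) hN
  have hNpos : 0 < N := by exact_mod_cast hN0
  have h3 : ∀ s ∈ Icc (0 : ℝ) 1, ∀ u ∈ closedBall (0 : F) ρ, ∀ u' ∈ closedBall (0 : F) ρ,
      D.U (h s u) (h s u') N := by
    intro s hs u hu u' hu'
    have hmem : ∀ t ∈ Icc (0 : ℝ) 1, u + t • (u' - u) ∈ closedBall (0 : F) ρ := by
      intro t ht
      have := (convex_closedBall (0 : F) ρ).add_smul_sub_mem hu hu' ht
      exact this
    have h5 := CHN_chain (fun x y r => D.U x y r) D.U_refl D.U_tri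
      (fun t => h s (u + t • (u' - u))) N hNpos (by
        intro j hj
        have hj' : (j : ℝ) + 1 ≤ N := by exact_mod_cast hj
        have m1 : (j : ℝ) / N ∈ Icc (0 : ℝ) 1 :=
          ⟨by positivity, by rw [div_le_one hN0]; linarith⟩
        have m2 : ((j : ℝ) + 1) / N ∈ Icc (0 : ℝ) 1 :=
          ⟨by positivity, by rw [div_le_one hN0]; linarith⟩
        refine h2 s hs _ (hmem _ m1) _ (hmem _ m2) ?_
        rw [dist_eq_norm]
        have e1 : u + ((j : ℝ) / N) • (u' - u) - (u + (((j : ℝ) + 1) / N) • (u' - u)) =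
            (-(1 / (N : ℝ))) • (u' - u) := by
          have : (-(1 / (N : ℝ))) = (j : ℝ) / N - ((j : ℝ) + 1) / N := by
            field_simp
            ring
          rw [this, sub_smul]
          abel
        rw [e1, norm_smul, norm_neg, Real.norm_of_nonneg (by positivity)]
        have e2 : ‖u' - u‖ ≤ 2 * |ρ| := by
          have a1 : ‖u‖ ≤ ρ := by simpa using hu
          have a2 : ‖u'‖ ≤ ρ := by simpa using hu'
          calc ‖u' - u‖ ≤ ‖u'‖ + ‖u‖ := norm_sub_le _ _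
            _ ≤ 2 * |ρ| := by linarith [le_abs_self ρ]
        rw [div_lt_iff₀ hτ] at hN
        rw [one_div, ← div_eq_inv_mul, div_lt_iff₀ hN0]
        linarith [mul_comm (N : ℝ) τ])
    have e0 : u + (0 : ℝ) • (u' - u) = u := by simp
    have e1 : u + (1 : ℝ) • (u' - u) = u' := by simp
    simp only [e0, e1] at h5
    exact h5
  refine ⟨max K N, le_max_of_le_left hK, ?_, ?_⟩
  · intro s hs s' hs' u hu
    exact D.S_mono _ _ _ _ (le_max_left _ _) (h1 s hs s' hs' u hu)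
  · intro s hs u hu u' hu'
    exact D.U_mono _ _ _ _ (le_max_right _ _) (h3 s hs u hu u' hu')

/-- the segment from `u` to `u'` (both in a convex set `A`) gives a path with uniform modulus -/
theorem Rect.segment {D : Sys M} {F : Type} [NormedAddCommGroup F] [NormedSpace ℝ F] {A : Set F}
    (hA : Convex ℝ A) {ψ : F → M}
    (hψ : ∀ ε > 0, ∃ ρ > 0, ∀ u ∈ A, ∀ u' ∈ A, dist u u' < ρ → D.U (ψ u) (ψ u') ε) (n : ℕ)
    {u u' : F} (hu : u ∈ A) (hu' : u' ∈ A) :
    ∀ ε > 0, ∃ ρ > 0, ∀ t ∈ Icc (0 : ℝ) 1, ∀ t' ∈ Icc (0 : ℝ) 1, |t - t'| < ρ →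
      D.U (D.f^[n] (ψ (u + t • (u' - u)))) (D.f^[n] (ψ (u + t' • (u' - u)))) ε := by
  intro ε hε
  obtain ⟨ρ, hρ, h1⟩ := hψ (ε / Real.exp (D.e * n)) (by positivity)
  refine ⟨ρ / (‖u' - u‖ + 1), by positivity, ?_⟩
  intro t ht t' ht' htt
  have m1 := hA.add_smul_sub_mem hu hu' ht
  have m2 := hA.add_smul_sub_mem hu hu' ht'
  have h2 := h1 _ m1 _ m2 (by
    rw [dist_eq_norm]
    have e1 : u + t • (u' - u) - (u + t' • (u' - u)) = (t - t') • (u' - u) := by
      rw [sub_smul]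
      abel
    rw [e1, norm_smul, Real.norm_eq_abs]
    have hp : 0 < ‖u' - u‖ + 1 := by positivity
    calc |t - t'| * ‖u' - u‖ ≤ |t - t'| * (‖u' - u‖ + 1) :=
          mul_le_mul_of_nonneg_left (by linarith) (abs_nonneg _)
      _ < ρ / (‖u' - u‖ + 1) * (‖u' - u‖ + 1) := mul_lt_mul_of_pos_right htt hp
      _ = ρ := div_mul_cancel₀ _ hp.ne')
  have h3 := D.U_iter n h2
  have e3 : Real.exp (D.e * n) * (ε / Real.exp (D.e * n)) = ε := by
    have := (Real.exp_pos (D.e * n)).ne'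
    field_simp
  rwa [e3] at h3

end Pool.Agent.ANC
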