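import Mathlib

/-! BCV: a closed ball of a subspace of a finite-dimensional space is covered by a number of small
balls that does not depend on the subspace. -/

open Set Metric

namespace Pool.Agent.ANC

theorem ball_cover (E : Type) [NormedAddCommGroup E] [NormedSpace ℝ E] [FiniteDimensional ℝ E]
    (R r : ℝ) (hr : 0 < r) : ∃ N : ℕ, ∀ V : Submodule ℝ E, ∃ s : Finset V, s.card ≤ N ∧
      (∀ v ∈ s, ‖v‖ ≤ R) ∧ ∀ v : V, ‖v‖ ≤ R → ∃ v' ∈ s, ‖v' - v‖ ≤ r := by
  classical
  have hP : ProperSpace E := FiniteDimensional.proper_real E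
  have hTB : TotallyBounded (closedBall (0 : E) R) := (isCompact_closedBall 0 R).totallyBounded
  obtain ⟨t, ht, hcov⟩ := Metric.totallyBounded_iff.mp hTB (r / 2) (by linarith)
  refine ⟨ht.toFinset.card, fun V => ?_⟩
  have hex : ∀ y : E, ∃ w : V, (∃ v : V, ‖v‖ ≤ R ∧ dist (v : E) y < r / 2) →
      ‖w‖ ≤ R ∧ dist (w : E) y < r / 2 := by
    intro y
    by_cases h : ∃ v : V, ‖v‖ ≤ R ∧ dist (v : E) y < r / 2
    · obtain ⟨v, hv⟩ := h
      exact ⟨v, fun _ => hv⟩
    · exact ⟨0, fun h' => absurd h' h⟩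
  choose g hg using hex
  refine ⟨(ht.toFinset.filter fun y => ∃ v : V, ‖v‖ ≤ R ∧ dist (v : E) y < r / 2).image g,
    Finset.card_image_le.trans (Finset.card_filter_le _ _), ?_, ?_⟩
  · intro v hv
    obtain ⟨y, hy, rfl⟩ := Finset.mem_image.mp hv
    exact (hg y (Finset.mem_filter.mp hy).2).1
  · intro v hv
    have hv' : (v : E) ∈ closedBall (0 : E) R := by
      rw [mem_closedBall_zero_iff]
      exact hv
    obtain ⟨y, hy, hvy⟩ := mem_iUnion₂.mp (hcov hv')
    have hvy' : dist (v : E) y < r / 2 := hvy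
    have hP : ∃ v : V, ‖v‖ ≤ R ∧ dist (v : E) y < r / 2 := ⟨v, hv, hvy'⟩
    refine ⟨g y, Finset.mem_image.mpr ⟨y, Finset.mem_filter.mpr ⟨ht.mem_toFinset.mpr hy, hP⟩, rfl⟩,
      ?_⟩
    have h1 := (hg y hP).2
    have h2 : dist ((g y : V) : E) (v : E) ≤ r := by
      have := dist_triangle ((g y : V) : E) y (v : E)
      rw [dist_comm y (v : E)] at this
      linarith
    rw [dist_eq_norm, ← Submodule.coe_sub] at h2
    exact h2

end Pool.Agent.ANC
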