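import Mathlib
import Pool.Agent.ANC.PCK

open Set Metric Function

namespace Pool.Agent.ANC

variable {M : Type} [MetricSpace M] {E : Type} [NormedAddCommGroup E] [NormedSpace ℝ E]

/-- Quasi-similarity structure on the unstable leaves: the inverse iterates of `f` and the changes of the
coordinates of one leaf are similarities up to the constant `C`. -/
structure QC (D : Sys M) (Λ : Leaves M D E) where
  C : ℝ
  hC : 1 ≤ C
  k : ℕ
  hk : 2 ≤ k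
  dim : ∀ x, Module.finrank ℝ (Λ.Eu x) = k
  mu : ℕ → M → ℝ
  mu_pos : ∀ (n : ℕ) (x : M), 0 < mu n x
  mu_le : ∀ (n : ℕ) (x : M), mu n x ≤ C * Real.exp (-(D.c * n))
  le_mu : ∀ (n : ℕ) (x : M), Real.exp (-(D.e * n)) ≤ C * mu n x
  scal : ∀ (n : ℕ) (x : M) (v w : Λ.Eu x) (v' w' : Λ.Eu (D.f.symm^[n] x)),
    Λ.θu (D.f.symm^[n] x) v' = D.f.symm^[n] (Λ.θu x v) →
    Λ.θu (D.f.symm^[n] x) w' = D.f.symm^[n] (Λ.θu x w) →
    ‖v' - w'‖ ≤ C * mu n x * ‖v - w‖ ∧ mu n x * ‖v - w‖ ≤ C * ‖v' - w'‖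
  trans : ∀ x y t, D.U x y t → ∃ κ > 0, ∀ (v w : Λ.Eu x) (v' w' : Λ.Eu y),
    Λ.θu y v' = Λ.θu x v → Λ.θu y w' = Λ.θu x w →
    ‖v' - w'‖ ≤ C * κ * ‖v - w‖ ∧ κ * ‖v - w‖ ≤ C * ‖v' - w'‖

/-- `z` lies in the unstable leaf of `x`. -/
def InL (D : Sys M) (x z : M) : Prop := ∃ t, D.U x z t

/-- The coordinate of the point `z` of the unstable leaf of `x`. -/
noncomputable def co {D : Sys M} (Λ : Leaves M D E) (x z : M) : Λ.Eu x := invFun (Λ.θu x) z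

/-- The distance of two points of the unstable leaf of `x` in the coordinates of `x`. -/
noncomputable def dd {D : Sys M} (Λ : Leaves M D E) (x z z' : M) : ℝ := ‖co Λ x z - co Λ x z'‖

/-- `w` lies in the ball of radius `ρ` around `z` in the unstable leaf. -/
def Near {D : Sys M} (Λ : Leaves M D E) (ρ : ℝ) (z w : M) : Prop := InL D z w ∧ dd Λ z z w ≤ ρ

/-- `f^n S` is covered by `m` balls of radius `ρ` of unstable leaves. -/
def CovLE {D : Sys M} (Λ : Leaves M D E) (ρ : ℝ) (n : ℕ) (S : Set M) (m : ℕ) : Prop :=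
  ∃ Z : Finset M, Z.card ≤ m ∧ ∀ w ∈ S, ∃ z ∈ Z, Near Λ ρ z (D.f^[n] w)

/-- `h` is a stable holonomy of the disc of radius `ρ` around `q`. -/
def Hol {D : Sys M} (Λ : Leaves M D E) (ρ : ℝ) (q : M) (h : ℝ → Λ.Eu q → M) : Prop :=
  Rect D (Icc (0 : ℝ) 1) (closedBall 0 ρ) h ∧ ∀ u ∈ closedBall (0 : Λ.Eu q) ρ, h 0 u = Λ.θu q u

/-- The unstable balls of a uniform radius are `δ`-dense, for every `δ`. -/
def UDense (D : Sys M) : Prop :=
  ∀ δ > 0, ∃ R : ℝ, ∀ x y : M, ∃ w, D.U y w R ∧ dist w x < δ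

end Pool.Agent.ANC
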