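import Mathlib
import Pool.Agent.ANC.QCD

/-! DST (easy): basic properties of the coordinates `co`, the distances `dd` and the leaves.
`co_θ` is leftInverse_invFun of u_inj, `θ_co` is invFun_eq of u_surj. -/

open Set Metric Function

namespace Pool.Agent.ANC

variable {M : Type} [MetricSpace M] {E : Type} [NormedAddCommGroup E] [NormedSpace ℝ E]

section

variable {D : Sys M}

theorem InL.refl (x : M) : InL D x x := ⟨0, D.U_refl x⟩

theorem InL.symm {x y : M} (h : InL D x y) : InL D y x := by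
  obtain ⟨t, ht⟩ := h
  exact ⟨t, D.U_symm _ _ _ ht⟩

theorem InL.trans {x y z : M} (h : InL D x y) (h' : InL D y z) : InL D x z := by
  obtain ⟨t, ht⟩ := h
  obtain ⟨t', ht'⟩ := h'
  exact ⟨t + t', D.U_tri _ _ _ _ _ ht ht'⟩

theorem InL.iter {x y : M} (h : InL D x y) (n : ℕ) : InL D (D.f^[n] x) (D.f^[n] y) := by
  induction n with
  | zero => exact h
  | succ n ih =>
    obtain ⟨t, ht⟩ := ih
    rw [iterate_succ_apply', iterate_succ_apply']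
    exact ⟨_, D.U_fwd _ _ _ ht⟩

theorem InL.iter_symm {x y : M} (h : InL D x y) (n : ℕ) :
    InL D (D.f.symm^[n] x) (D.f.symm^[n] y) := by
  induction n with
  | zero => exact h
  | succ n ih =>
    obtain ⟨t, ht⟩ := ih
    rw [iterate_succ_apply', iterate_succ_apply']
    exact ⟨_, D.U_bwd _ _ _ ht⟩

variable (Λ : Leaves M D E)

theorem InL_θ (x : M) (v : Λ.Eu x) : InL D x (Λ.θu x v) := by
  obtain ⟨K, _, h⟩ := Λ.u_lip x ‖v‖
  have := h 0 v (by simp) le_rfl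
  rw [Λ.u_zero] at this
  exact ⟨_, this⟩

theorem θ_co {x z : M} (h : InL D x z) : Λ.θu x (co Λ x z) = z := by
  obtain ⟨t, ht⟩ := h
  exact invFun_eq (Λ.u_surj x z t ht)

theorem co_θ (x : M) (v : Λ.Eu x) : co Λ x (Λ.θu x v) = v :=
  leftInverse_invFun (Λ.u_inj x) v

theorem co_self (x : M) : co Λ x x = 0 := by
  have := co_θ Λ x 0
  rwa [Λ.u_zero] at this

theorem dd_nonneg (x z z' : M) : 0 ≤ dd Λ x z z' := norm_nonneg _

theorem dd_self (x z : M) : dd Λ x z z = 0 := by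
  simp [dd]

theorem dd_comm (x z z' : M) : dd Λ x z z' = dd Λ x z' z := norm_sub_rev _ _

theorem dd_tri (x z z' z'' : M) : dd Λ x z z'' ≤ dd Λ x z z' + dd Λ x z' z'' :=
  norm_sub_le_norm_sub_add_norm_sub _ _ _

theorem dd_center (x z : M) : dd Λ x x z = ‖co Λ x z‖ := by
  rw [dd, co_self, zero_sub, norm_neg]

theorem dd_θ (x : M) (v w : Λ.Eu x) : dd Λ x (Λ.θu x v) (Λ.θu x w) = ‖v - w‖ := by
  rw [dd, co_θ, co_θ]

theorem dd_center_θ (x : M) (v : Λ.Eu x) : dd Λ x x (Λ.θu x v) = ‖v‖ := by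
  rw [dd_center, co_θ]

theorem eq_of_dd {x z z' : M} (h : InL D x z) (h' : InL D x z') (h0 : dd Λ x z z' = 0) : z = z' := by
  have h1 : co Λ x z = co Λ x z' := sub_eq_zero.mp (norm_eq_zero.mp h0)
  rw [← θ_co Λ h, ← θ_co Λ h', h1]

/-- from `u_unif` -/
theorem U_of_dd {x z z' : M} (h : InL D x z) (h' : InL D x z') (h1 : dd Λ x x z ≤ Λ.R0)
    (h2 : dd Λ x x z' ≤ Λ.R0) : D.U z z' (Λ.K0 * dd Λ x z z') := by
  rw [dd_center] at h1 h2
  have := Λ.u_unif x (co Λ x z) (co Λ x z') h1 h2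
  rwa [θ_co Λ h, θ_co Λ h'] at this

/-- from `u_loc` -/
theorem dd_of_U {x z : M} {t : ℝ} (ht : t ≤ Λ.R0) (h : D.U x z t) : dd Λ x x z ≤ Λ.K0 * t := by
  obtain ⟨v, hv, hz⟩ := Λ.u_loc x z t ht h
  rw [← hz, dd_center_θ]
  exact hv

theorem Near.self {ρ : ℝ} (hρ : 0 ≤ ρ) (z : M) : Near Λ ρ z z :=
  ⟨InL.refl z, by rw [dd_self]; exact hρ⟩

theorem Near.U {ρ : ℝ} (hρ : ρ ≤ Λ.R0) {z w : M} (h : Near Λ ρ z w) : D.U z w (Λ.K0 * ρ) := by
  have h1 := U_of_dd Λ (InL.refl z) h.1 (by rw [dd_self]; exact Λ.hR0.le) (h.2.trans hρ)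
  exact D.U_mono _ _ _ _ (mul_le_mul_of_nonneg_left h.2 (by linarith [Λ.hK0])) h1

end

section

variable {D : Sys M} {Λ : Leaves M D E} (Q : QC D Λ)

theorem QC.dd_symm (n : ℕ) {x z z' : M} (h : InL D x z) (h' : InL D x z') :
    dd Λ (D.f.symm^[n] x) (D.f.symm^[n] z) (D.f.symm^[n] z') ≤ Q.C * Q.mu n x * dd Λ x z z' ∧
    Q.mu n x * dd Λ x z z' ≤
      Q.C * dd Λ (D.f.symm^[n] x) (D.f.symm^[n] z) (D.f.symm^[n] z') := by
  refine Q.scal n x (co Λ x z) (co Λ x z') (co Λ (D.f.symm^[n] x) (D.f.symm^[n] z))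
    (co Λ (D.f.symm^[n] x) (D.f.symm^[n] z')) ?_ ?_
  · rw [θ_co Λ (h.iter_symm n), θ_co Λ h]
  · rw [θ_co Λ (h'.iter_symm n), θ_co Λ h']

private theorem DST_inv (D : Sys M) (n : ℕ) (x : M) : D.f.symm^[n] (D.f^[n] x) = x :=
  (LeftInverse.iterate (fun y => D.f.symm_apply_apply y) n) x

theorem QC.dd_fwd (n : ℕ) {x z z' : M} (h : InL D x z) (h' : InL D x z') :
    Q.mu n (D.f^[n] x) * dd Λ (D.f^[n] x) (D.f^[n] z) (D.f^[n] z') ≤ Q.C * dd Λ x z z' ∧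
    dd Λ x z z' ≤
      Q.C * Q.mu n (D.f^[n] x) * dd Λ (D.f^[n] x) (D.f^[n] z) (D.f^[n] z') := by
  have h1 := Q.dd_symm n (h.iter n) (h'.iter n)
  rw [DST_inv, DST_inv, DST_inv] at h1
  exact ⟨h1.2, h1.1⟩

theorem QC.dd_trans {x y : M} (h : InL D x y) :
    ∃ κ > 0, ∀ z z', InL D x z → InL D x z' →
      dd Λ y z z' ≤ Q.C * κ * dd Λ x z z' ∧ κ * dd Λ x z z' ≤ Q.C * dd Λ y z z' := by
  obtain ⟨t, ht⟩ := h
  obtain ⟨κ, hκ, H⟩ := Q.trans x y t ht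
  refine ⟨κ, hκ, fun z z' hz hz' => ?_⟩
  have hy : InL D y x := ⟨t, D.U_symm _ _ _ ht⟩
  refine H (co Λ x z) (co Λ x z') (co Λ y z) (co Λ y z') ?_ ?_
  · rw [θ_co Λ (hy.trans hz), θ_co Λ hz]
  · rw [θ_co Λ (hy.trans hz'), θ_co Λ hz']

private theorem DST_vec (Q : QC D Λ) (x : M) : ∃ z, InL D x z ∧ 0 < dd Λ x x z := by
  have h1 : 0 < Module.finrank ℝ (Λ.Eu x) := by
    rw [Q.dim]
    have := Q.hk
    omega
  have : Nontrivial (Λ.Eu x) := Module.nontrivial_of_finrank_pos h1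
  obtain ⟨v, hv⟩ := exists_ne (0 : Λ.Eu x)
  exact ⟨Λ.θu x v, InL_θ Λ x v, by rw [dd_center_θ]; exact norm_pos_iff.mpr hv⟩

/-- consecutive contraction factors are comparable: `mu (n+1) (f y)` is comparable with `mu n y * mu 1 (f y)`
(apply `scal` with `n+1` at `f y`, with `1` at `f y` and with `n` at `y` to two different vectors). -/
theorem QC.mu_succ (n : ℕ) (y : M) :
    Q.mu n y ≤ Q.C ^ 4 * Real.exp D.e * Q.mu (n + 1) (D.f y) := by
  obtain ⟨z, hz, hN⟩ := DST_vec Q y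
  have h1 := (Q.dd_symm n (InL.refl y) hz).2
  have hfz : InL D (D.f y) (D.f z) := by
    obtain ⟨t, ht⟩ := hz
    exact ⟨_, D.U_fwd _ _ _ ht⟩
  have h2 := (Q.dd_symm (n + 1) (InL.refl (D.f y)) hfz).1
  rw [iterate_succ_apply, iterate_succ_apply, D.f.symm_apply_apply, D.f.symm_apply_apply] at h2
  have h3 := (Q.dd_symm 1 (InL.refl (D.f y)) hfz).2
  rw [iterate_one, D.f.symm_apply_apply, D.f.symm_apply_apply] at h3
  have h4 := Q.le_mu 1 (D.f y)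
  rw [Nat.cast_one, mul_one, Real.exp_neg] at h4
  have hC0 : 0 < Q.C := by linarith [Q.hC]
  have he := Real.exp_pos D.e
  have h5 : 1 ≤ Real.exp D.e * (Q.C * Q.mu 1 (D.f y)) := by
    have := mul_le_mul_of_nonneg_left h4 he.le
    rwa [mul_inv_cancel₀ he.ne'] at this
  have hX := dd_nonneg Λ (D.f y) (D.f y) (D.f z)
  have h6 : dd Λ (D.f y) (D.f y) (D.f z) ≤ Real.exp D.e * Q.C * (Q.C * dd Λ y y z) := by
    calc dd Λ (D.f y) (D.f y) (D.f z)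
        ≤ Real.exp D.e * (Q.C * Q.mu 1 (D.f y)) * dd Λ (D.f y) (D.f y) (D.f z) :=
          le_mul_of_one_le_left hX h5
      _ = Real.exp D.e * Q.C * (Q.mu 1 (D.f y) * dd Λ (D.f y) (D.f y) (D.f z)) := by ring
      _ ≤ _ := mul_le_mul_of_nonneg_left h3 (by positivity)
  have hm := Q.mu_pos (n + 1) (D.f y)
  have h7 : Q.mu n y * dd Λ y y z ≤
      Q.C ^ 4 * Real.exp D.e * Q.mu (n + 1) (D.f y) * dd Λ y y z := by
    calc Q.mu n y * dd Λ y y z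
        ≤ Q.C * dd Λ (D.f.symm^[n] y) (D.f.symm^[n] y) (D.f.symm^[n] z) := h1
      _ ≤ Q.C * (Q.C * Q.mu (n + 1) (D.f y) * dd Λ (D.f y) (D.f y) (D.f z)) :=
          mul_le_mul_of_nonneg_left h2 hC0.le
      _ ≤ Q.C * (Q.C * Q.mu (n + 1) (D.f y) * (Real.exp D.e * Q.C * (Q.C * dd Λ y y z))) :=
          mul_le_mul_of_nonneg_left (mul_le_mul_of_nonneg_left h6 (by positivity)) hC0.le
      _ = _ := by ring
  exact le_of_mul_le_mul_right h7 hN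

theorem QC.mu_zero (x : M) : Q.mu 0 x ≤ Q.C ∧ 1 ≤ Q.C * Q.mu 0 x := by
  obtain ⟨z, hz, hN⟩ := DST_vec Q x
  have h1 := Q.dd_symm 0 (InL.refl x) hz
  simp only [iterate_zero, id_eq] at h1
  refine ⟨le_of_mul_le_mul_right h1.2 hN, le_of_mul_le_mul_right ?_ hN⟩
  rw [one_mul]
  exact h1.1

end

end Pool.Agent.ANC
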