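import Mathlib
import Pool.Agent.ANC.DST

/-! KAP: two points of one leaf at bounded distance have comparable coordinates, uniformly. -/

open Set Metric Function

namespace Pool.Agent.ANC

variable {M : Type} [MetricSpace M] {E : Type} [NormedAddCommGroup E] [NormedSpace ℝ E]
  {D : Sys M} {Λ : Leaves M D E} (Q : QC D Λ)

/-- An exponential factor makes everything small. -/
theorem KAP_exists_n {c : ℝ} (hc : 0 < c) (A ε : ℝ) (hε : 0 < ε) :
    ∃ n : ℕ, A * Real.exp (-(c * n)) ≤ ε := by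
  have hlim : Filter.Tendsto (fun n : ℕ => A * Real.exp (-(c * n))) Filter.atTop
      (nhds (A * 0)) := by
    apply Filter.Tendsto.const_mul
    apply Real.tendsto_exp_neg_atTop_nhds_zero.comp
    exact Filter.Tendsto.const_mul_atTop hc tendsto_natCast_atTop_atTop
  rw [mul_zero] at hlim
  obtain ⟨n, hn⟩ := (hlim.eventually (gt_mem_nhds hε)).exists
  exact ⟨n, le_of_lt hn⟩

include Q

/-- There is a vector of a given norm. -/
theorem KAP_vec (x : M) {s : ℝ} (hs : 0 ≤ s) : ∃ v : Λ.Eu x, ‖v‖ = s := by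
  have hk := Q.dim x
  have hk2 := Q.hk
  have hpos : 0 < Module.finrank ℝ (Λ.Eu x) := by omega
  obtain ⟨v, hv⟩ : ∃ v : Λ.Eu x, v ≠ 0 := by
    have := Module.nontrivial_of_finrank_pos hpos
    exact exists_ne 0
  have hn : ‖v‖ ≠ 0 := norm_ne_zero_iff.mpr hv
  refine ⟨(s / ‖v‖) • v, ?_⟩
  rw [norm_smul, Real.norm_eq_abs, abs_of_nonneg (div_nonneg hs (norm_nonneg _))]
  field_simp

/-- The local comparison, one inequality. -/
theorem KAP_loc {x y : M} (hU : D.U x y (Λ.R0 / (2 * Λ.K0))) {z z' : M} (hz : InL D x z)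
    (hz' : InL D x z') : dd Λ y z z' ≤ 3 * Q.C ^ 2 * Λ.K0 ^ 2 * dd Λ x z z' := by
  have hK0 := Λ.hK0
  have hK0p : 0 < Λ.K0 := by linarith
  have hR0 := Λ.hR0
  have hC := Q.hC
  set s : ℝ := Λ.R0 / (2 * Λ.K0) with hs
  have hsp : 0 < s := by positivity
  have hsK : Λ.K0 * s = Λ.R0 / 2 := by
    rw [hs]
    field_simp
  have hsR : s ≤ Λ.R0 / 2 := by
    rw [← hsK]
    nlinarith
  obtain ⟨v, hv⟩ := KAP_vec Q x hsp.le
  have hxy : InL D x y := ⟨_, hU⟩
  obtain ⟨κ, hκ, hκ2⟩ := Q.dd_trans hxy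
  have hL : InL D x (Λ.θu x v) := InL_θ Λ x v
  have h1 : dd Λ x x (Λ.θu x v) = s := by rw [dd_center_θ, hv]
  have h2 : D.U x (Λ.θu x v) (Λ.K0 * s) := by
    have := U_of_dd Λ (InL.refl x) hL (by rw [dd_self]; exact hR0.le) (by rw [h1]; linarith)
    rwa [h1] at this
  have h3 : D.U y (Λ.θu x v) (s + Λ.K0 * s) := D.U_tri _ _ _ _ _ (D.U_symm _ _ _ hU) h2
  have h4 : dd Λ y y (Λ.θu x v) ≤ Λ.K0 * (s + Λ.K0 * s) :=
    dd_of_U Λ (by rw [hsK]; linarith) h3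
  have h5 : dd Λ y y x ≤ Λ.K0 * s := dd_of_U Λ (by linarith) (D.U_symm _ _ _ hU)
  have h6 : dd Λ y x (Λ.θu x v) ≤ Λ.K0 * s + Λ.K0 * (s + Λ.K0 * s) := by
    have := dd_tri Λ y x y (Λ.θu x v)
    rw [dd_comm Λ y x y] at this
    linarith
  have h7 := (hκ2 x (Λ.θu x v) (InL.refl x) hL).2
  rw [h1] at h7
  have h8 : κ * s ≤ Q.C * (3 * Λ.K0 ^ 2) * s := by
    refine h7.trans ?_
    have h9 : Λ.K0 * s + Λ.K0 * (s + Λ.K0 * s) ≤ (3 * Λ.K0 ^ 2) * s := by
      have : Λ.K0 ≤ Λ.K0 ^ 2 := by nlinarith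
      nlinarith
    calc Q.C * dd Λ y x (Λ.θu x v) ≤ Q.C * ((3 * Λ.K0 ^ 2) * s) :=
          mul_le_mul_of_nonneg_left (h6.trans h9) (by linarith)
      _ = Q.C * (3 * Λ.K0 ^ 2) * s := by ring
  have h10 : κ ≤ Q.C * (3 * Λ.K0 ^ 2) := le_of_mul_le_mul_right h8 hsp
  have h11 := (hκ2 z z' hz hz').1
  have h12 : 0 ≤ dd Λ x z z' := dd_nonneg Λ x z z'
  calc dd Λ y z z' ≤ Q.C * κ * dd Λ x z z' := h11
    _ ≤ Q.C * (Q.C * (3 * Λ.K0 ^ 2)) * dd Λ x z z' := by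
        apply mul_le_mul_of_nonneg_right _ h12
        exact mul_le_mul_of_nonneg_left h10 (by linarith)
    _ = 3 * Q.C ^ 2 * Λ.K0 ^ 2 * dd Λ x z z' := by ring

/-- One inequality from the comparison at time `n`. -/
theorem KAP_pull (n : ℕ) {K1 : ℝ} (hK1 : 0 ≤ K1) {x y z z' : M} (hxy : InL D x y) (hz : InL D x z)
    (hz' : InL D x z')
    (h : dd Λ (D.f.symm^[n] y) (D.f.symm^[n] z) (D.f.symm^[n] z') ≤
      K1 * dd Λ (D.f.symm^[n] x) (D.f.symm^[n] z) (D.f.symm^[n] z')) :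
    dd Λ y z z' ≤ Q.C ^ 4 * K1 * Real.exp (D.e * n) * dd Λ x z z' := by
  have hC := Q.hC
  have hCp : 0 < Q.C := by linarith
  have hyx := InL.symm hxy
  have h1 := (Q.dd_symm n (InL.trans hyx hz) (InL.trans hyx hz')).2
  have h2 := (Q.dd_symm n hz hz').1
  have hd := dd_nonneg Λ x z z'
  have hd' := dd_nonneg Λ y z z'
  have hm := Q.mu_le n x
  have hm' := Q.le_mu n y
  have hmp := Q.mu_pos n y
  have hce : Real.exp (-(D.c * n)) ≤ 1 := by
    apply Real.exp_le_one_iff.mpr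
    have : 0 ≤ D.c * n := mul_nonneg D.hc.le (Nat.cast_nonneg n)
    linarith
  have h3 : Q.mu n x ≤ Q.C := by
    calc Q.mu n x ≤ Q.C * Real.exp (-(D.c * n)) := hm
      _ ≤ Q.C * 1 := mul_le_mul_of_nonneg_left hce hCp.le
      _ = Q.C := mul_one _
  have h4 : Q.mu n y * dd Λ y z z' ≤ Q.C ^ 3 * K1 * dd Λ x z z' := by
    calc Q.mu n y * dd Λ y z z' ≤ Q.C * dd Λ (D.f.symm^[n] y) (D.f.symm^[n] z) (D.f.symm^[n] z') :=
          h1
      _ ≤ Q.C * (K1 * (Q.C * Q.mu n x * dd Λ x z z')) := by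
          apply mul_le_mul_of_nonneg_left _ hCp.le
          exact h.trans (mul_le_mul_of_nonneg_left h2 hK1)
      _ = (Q.C * K1 * Q.C * dd Λ x z z') * Q.mu n x := by ring
      _ ≤ (Q.C * K1 * Q.C * dd Λ x z z') * Q.C := by
          apply mul_le_mul_of_nonneg_left h3
          positivity
      _ = Q.C ^ 3 * K1 * dd Λ x z z' := by ring
  have hE : Real.exp (D.e * n) * Real.exp (-(D.e * n)) = 1 := by
    rw [← Real.exp_add]
    simp
  calc dd Λ y z z' = Real.exp (D.e * n) * (Real.exp (-(D.e * n)) * dd Λ y z z') := by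
        rw [← mul_assoc, hE, one_mul]
    _ ≤ Real.exp (D.e * n) * (Q.C * Q.mu n y * dd Λ y z z') := by
        apply mul_le_mul_of_nonneg_left _ (Real.exp_pos _).le
        exact mul_le_mul_of_nonneg_right hm' hd'
    _ = Real.exp (D.e * n) * Q.C * (Q.mu n y * dd Λ y z z') := by ring
    _ ≤ Real.exp (D.e * n) * Q.C * (Q.C ^ 3 * K1 * dd Λ x z z') := by
        apply mul_le_mul_of_nonneg_left h4
        positivity
    _ = Q.C ^ 4 * K1 * Real.exp (D.e * n) * dd Λ x z z' := by ring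

theorem QC.kap (R : ℝ) : ∃ K : ℝ, 1 ≤ K ∧ ∀ x y, InL D x y → dd Λ x x y ≤ R →
    ∀ z z', InL D x z → InL D x z' →
      dd Λ y z z' ≤ K * dd Λ x z z' ∧ dd Λ x z z' ≤ K * dd Λ y z z' := by
  have hK0 := Λ.hK0
  have hK0p : 0 < Λ.K0 := by linarith
  have hR0 := Λ.hR0
  have hC := Q.hC
  have hCp : 0 < Q.C := by linarith
  set s : ℝ := Λ.R0 / (2 * Λ.K0) with hs
  have hsp : 0 < s := by positivity
  set ε : ℝ := s / Λ.K0 with hε
  have hεp : 0 < ε := by positivity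
  have hεK : Λ.K0 * ε = s := by
    rw [hε]
    field_simp
  have hsR : s ≤ Λ.R0 := by
    have : Λ.K0 * s = Λ.R0 / 2 := by
      rw [hs]
      field_simp
    nlinarith
  have hεR : ε ≤ Λ.R0 := by nlinarith
  obtain ⟨n, hn⟩ := KAP_exists_n D.hc (Q.C * Q.C * |R|) ε hεp
  set K1 : ℝ := 3 * Q.C ^ 2 * Λ.K0 ^ 2 with hK1
  have hK1p : 1 ≤ K1 := by
    rw [hK1]
    have h1 : 1 ≤ Q.C ^ 2 := one_le_pow₀ hC
    have h2 : 1 ≤ Λ.K0 ^ 2 := one_le_pow₀ hK0
    nlinarith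
  have hE1 : 1 ≤ Real.exp (D.e * n) := by
    apply Real.one_le_exp
    exact mul_nonneg (D.hc.le.trans D.hce) (Nat.cast_nonneg n)
  refine ⟨Q.C ^ 4 * K1 * Real.exp (D.e * n), ?_, ?_⟩
  · have h1 : 1 ≤ Q.C ^ 4 := one_le_pow₀ hC
    have h2 : 1 ≤ Q.C ^ 4 * K1 := by nlinarith
    nlinarith
  · intro x y hxy hR z z' hz hz'
    have h1 := (Q.dd_symm n (InL.refl x) hxy).1
    have h2 : dd Λ (D.f.symm^[n] x) (D.f.symm^[n] x) (D.f.symm^[n] y) ≤ ε := by
      refine h1.trans (le_trans ?_ hn)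
      calc Q.C * Q.mu n x * dd Λ x x y ≤ Q.C * (Q.C * Real.exp (-(D.c * n))) * |R| := by
            apply mul_le_mul
            · exact mul_le_mul_of_nonneg_left (Q.mu_le n x) hCp.le
            · exact hR.trans (le_abs_self R)
            · exact dd_nonneg _ _ _ _
            · positivity
        _ = Q.C * Q.C * |R| * Real.exp (-(D.c * n)) := by ring
    have h3 : D.U (D.f.symm^[n] x) (D.f.symm^[n] y) s := by
      have := U_of_dd Λ (InL.refl (D.f.symm^[n] x)) (InL.iter_symm hxy n)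
        (by rw [dd_self]; exact hR0.le) (h2.trans hεR)
      refine D.U_mono _ _ _ _ ?_ this
      rw [← hεK]
      exact mul_le_mul_of_nonneg_left h2 hK0p.le
    have hyx := InL.symm hxy
    constructor
    · exact KAP_pull Q n (by linarith) hxy hz hz'
        (KAP_loc Q h3 (InL.iter_symm hz n) (InL.iter_symm hz' n))
    · have hyz := InL.trans hyx hz
      have hyz' := InL.trans hyx hz'
      exact KAP_pull Q n (by linarith) hyx hyz hyz'
        (KAP_loc Q (D.U_symm _ _ _ h3) (InL.iter_symm hyz n) (InL.iter_symm hyz' n))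

theorem QC.U_unif (R : ℝ) : ∃ K : ℝ, 0 ≤ K ∧ ∀ x z, InL D x z → dd Λ x x z ≤ R → D.U x z K := by
  have hK0 := Λ.hK0
  have hK0p : 0 < Λ.K0 := by linarith
  have hR0 := Λ.hR0
  have hC := Q.hC
  have hCp : 0 < Q.C := by linarith
  obtain ⟨n, hn⟩ := KAP_exists_n D.hc (Q.C * Q.C * |R|) Λ.R0 hR0
  refine ⟨Real.exp (D.e * n) * (Λ.K0 * Λ.R0), by positivity, ?_⟩
  intro x z hz hR
  have h1 := (Q.dd_symm n (InL.refl x) hz).1
  have h2 : dd Λ (D.f.symm^[n] x) (D.f.symm^[n] x) (D.f.symm^[n] z) ≤ Λ.R0 := by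
    refine h1.trans (le_trans ?_ hn)
    calc Q.C * Q.mu n x * dd Λ x x z ≤ Q.C * (Q.C * Real.exp (-(D.c * n))) * |R| := by
          apply mul_le_mul
          · exact mul_le_mul_of_nonneg_left (Q.mu_le n x) hCp.le
          · exact hR.trans (le_abs_self R)
          · exact dd_nonneg _ _ _ _
          · positivity
      _ = Q.C * Q.C * |R| * Real.exp (-(D.c * n)) := by ring
  have h3 : D.U (D.f.symm^[n] x) (D.f.symm^[n] z) (Λ.K0 * Λ.R0) := by
    have := U_of_dd Λ (InL.refl (D.f.symm^[n] x)) (InL.iter_symm hz n)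
      (by rw [dd_self]; exact hR0.le) h2
    exact D.U_mono _ _ _ _ (mul_le_mul_of_nonneg_left h2 hK0p.le) this
  have h4 := D.U_iter n h3
  rwa [iter_symm_iter, iter_symm_iter] at h4

theorem QC.dd_unif (t : ℝ) : ∃ K : ℝ, 0 ≤ K ∧ ∀ x z, D.U x z t → dd Λ x x z ≤ K := by
  have hK0 := Λ.hK0
  have hK0p : 0 < Λ.K0 := by linarith
  have hR0 := Λ.hR0
  have hC := Q.hC
  have hCp : 0 < Q.C := by linarith
  obtain ⟨n, hn⟩ := KAP_exists_n D.hc t Λ.R0 hR0
  refine ⟨Q.C ^ 2 * (Λ.K0 * Λ.R0) * Real.exp (D.e * n), by positivity, ?_⟩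
  intro x z hU
  have hz : InL D x z := ⟨t, hU⟩
  have h1 : D.U (D.f.symm^[n] x) (D.f.symm^[n] z) Λ.R0 := by
    refine D.U_mono _ _ _ _ ?_ (D.U_iter_symm n hU)
    rw [mul_comm]
    exact hn
  have h2 : dd Λ (D.f.symm^[n] x) (D.f.symm^[n] x) (D.f.symm^[n] z) ≤ Λ.K0 * Λ.R0 :=
    dd_of_U Λ le_rfl h1
  have h3 := (Q.dd_symm n (InL.refl x) hz).2
  have h4 := Q.le_mu n x
  have hd := dd_nonneg Λ x x z
  have hE : Real.exp (D.e * n) * Real.exp (-(D.e * n)) = 1 := by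
    rw [← Real.exp_add]
    simp
  calc dd Λ x x z = Real.exp (D.e * n) * (Real.exp (-(D.e * n)) * dd Λ x x z) := by
        rw [← mul_assoc, hE, one_mul]
    _ ≤ Real.exp (D.e * n) * (Q.C * Q.mu n x * dd Λ x x z) := by
        apply mul_le_mul_of_nonneg_left _ (Real.exp_pos _).le
        exact mul_le_mul_of_nonneg_right h4 hd
    _ = Real.exp (D.e * n) * Q.C * (Q.mu n x * dd Λ x x z) := by ring
    _ ≤ Real.exp (D.e * n) * Q.C * (Q.C * (Λ.K0 * Λ.R0)) := by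
        apply mul_le_mul_of_nonneg_left _ (by positivity)
        exact h3.trans (mul_le_mul_of_nonneg_left h2 hCp.le)
    _ = Q.C ^ 2 * (Λ.K0 * Λ.R0) * Real.exp (D.e * n) := by ring

end Pool.Agent.ANC
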