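import Mathlib
import Pool.Agent.ANC.KAP
import Pool.Agent.ANC.BCV

/-! CV1: leaf balls are covered by a uniform number of standard balls; elementary facts about CovLE. -/

open Set Metric Function

namespace Pool.Agent.ANC

variable {M : Type} [MetricSpace M] {E : Type} [NormedAddCommGroup E] [NormedSpace ℝ E]
  {D : Sys M} {Λ : Leaves M D E}

theorem CovLE.mono {ρ : ℝ} {n : ℕ} {S S' : Set M} {m m' : ℕ} (h : CovLE Λ ρ n S m) (hS : S' ⊆ S)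
    (hm : m ≤ m') : CovLE Λ ρ n S' m' := by
  obtain ⟨Z, hZ, hw⟩ := h
  exact ⟨Z, hZ.trans hm, fun w hw' => hw w (hS hw')⟩

theorem CovLE.image {ρ : ℝ} {n j : ℕ} {S : Set M} {m : ℕ} (h : CovLE Λ ρ (n + j) S m) :
    CovLE Λ ρ n (D.f^[j] '' S) m := by
  obtain ⟨Z, hZ, hw⟩ := h
  refine ⟨Z, hZ, ?_⟩
  rintro _ ⟨w, hwS, rfl⟩
  rw [← Function.iterate_add_apply]
  exact hw w hwS

theorem CovLE.pos {ρ : ℝ} {n : ℕ} {S : Set M} {m : ℕ} (h : CovLE Λ ρ n S m) (hS : S.Nonempty) :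
    1 ≤ m := by
  obtain ⟨Z, hZ, hw⟩ := h
  obtain ⟨w, hwS⟩ := hS
  obtain ⟨z, hz, -⟩ := hw w hwS
  have : 0 < Z.card := Finset.card_pos.mpr ⟨z, hz⟩
  omega

variable [FiniteDimensional ℝ E] (Q : QC D Λ)

include Q

theorem QC.leaf_cover (R : ℝ) {ρ : ℝ} (hρ : 0 < ρ) : ∃ N : ℕ, ∀ y, ∃ Z : Finset M, Z.card ≤ N ∧
    ∀ w, InL D y w → dd Λ y y w ≤ R → ∃ z ∈ Z, Near Λ ρ z w := by
  classical
  obtain ⟨K, hK1, hK⟩ := Q.kap R
  have hKp : 0 < K := by linarith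
  obtain ⟨N, hN⟩ := ball_cover E R (ρ / K) (by positivity)
  refine ⟨N, fun y => ?_⟩
  obtain ⟨s, hs1, hs2, hs3⟩ := hN (Λ.Eu y)
  refine ⟨s.image (Λ.θu y), Finset.card_image_le.trans hs1, ?_⟩
  intro w hw hR
  rw [dd_center] at hR
  obtain ⟨v', hv', hv⟩ := hs3 (co Λ y w) hR
  refine ⟨Λ.θu y v', Finset.mem_image_of_mem _ hv', ?_, ?_⟩
  · exact InL.trans (InL.symm (InL_θ Λ y v')) hw
  · have hL := InL_θ Λ y v'
    have h1 : dd Λ y y (Λ.θu y v') ≤ R := by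
      rw [dd_center_θ]
      exact hs2 v' hv'
    have h2 := (hK y (Λ.θu y v') hL h1 (Λ.θu y v') w hL hw).1
    refine h2.trans ?_
    have h3 : dd Λ y (Λ.θu y v') w = ‖v' - co Λ y w‖ := by
      unfold dd
      rw [co_θ]
    rw [h3]
    calc K * ‖v' - co Λ y w‖ ≤ K * (ρ / K) := mul_le_mul_of_nonneg_left hv hKp.le
      _ = ρ := by field_simp

theorem QC.doubling {ρ : ℝ} (hρ : 0 < ρ) (j : ℕ) : ∃ C : ℕ, ∀ (n : ℕ) (S : Set M) (m : ℕ),
    CovLE Λ ρ n S m → CovLE Λ ρ (n + j) S (C * m) := by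
  classical
  obtain ⟨N, hN⟩ := Q.leaf_cover (Q.C ^ 2 * Real.exp (D.e * j) * ρ) hρ
  choose Zf hZ1 hZ2 using hN
  refine ⟨N, ?_⟩
  rintro n S m ⟨Z, hZ, hw⟩
  refine ⟨Z.biUnion (fun z => Zf (D.f^[j] z)), ?_, ?_⟩
  · calc (Z.biUnion (fun z => Zf (D.f^[j] z))).card ≤ Z.card * N :=
          Finset.card_biUnion_le_card_mul _ _ _ (fun z _ => hZ1 _)
      _ ≤ m * N := Nat.mul_le_mul_right _ hZ
      _ = N * m := mul_comm _ _
  · intro w hwS
    obtain ⟨z, hz, hL, hd⟩ := hw w hwS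
    have hC := Q.hC
    have hCp : 0 < Q.C := by linarith
    have hL' := InL.iter hL j
    have hE : Real.exp (D.e * j) * Real.exp (-(D.e * j)) = 1 := by
      rw [← Real.exp_add]
      simp
    have h1 := (Q.dd_fwd j (InL.refl z) hL).1
    have h2 := Q.le_mu j (D.f^[j] z)
    have h0 := dd_nonneg Λ (D.f^[j] z) (D.f^[j] z) (D.f^[j] (D.f^[n] w))
    have h3 : dd Λ (D.f^[j] z) (D.f^[j] z) (D.f^[j] (D.f^[n] w)) ≤
        Q.C ^ 2 * Real.exp (D.e * j) * ρ := by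
      calc dd Λ (D.f^[j] z) (D.f^[j] z) (D.f^[j] (D.f^[n] w))
          = Real.exp (D.e * j) * (Real.exp (-(D.e * j)) *
            dd Λ (D.f^[j] z) (D.f^[j] z) (D.f^[j] (D.f^[n] w))) := by
            rw [← mul_assoc, hE, one_mul]
        _ ≤ Real.exp (D.e * j) * (Q.C * Q.mu j (D.f^[j] z) *
            dd Λ (D.f^[j] z) (D.f^[j] z) (D.f^[j] (D.f^[n] w))) := by
            apply mul_le_mul_of_nonneg_left _ (Real.exp_pos _).le
            exact mul_le_mul_of_nonneg_right h2 h0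
        _ = Real.exp (D.e * j) * Q.C * (Q.mu j (D.f^[j] z) *
            dd Λ (D.f^[j] z) (D.f^[j] z) (D.f^[j] (D.f^[n] w))) := by ring
        _ ≤ Real.exp (D.e * j) * Q.C * (Q.C * ρ) := by
            apply mul_le_mul_of_nonneg_left _ (by positivity)
            exact h1.trans (mul_le_mul_of_nonneg_left hd hCp.le)
        _ = Q.C ^ 2 * Real.exp (D.e * j) * ρ := by ring
    obtain ⟨z', hz', hN'⟩ := hZ2 (D.f^[j] z) (D.f^[j] (D.f^[n] w)) hL' h3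
    refine ⟨z', Finset.mem_biUnion.mpr ⟨z, hz, hz'⟩, ?_⟩
    rw [add_comm n j, Function.iterate_add_apply]
    exact hN'

theorem QC.exists_cov {ρ : ℝ} (hρ : 0 < ρ) (n : ℕ) (q : M) :
    ∃ m : ℕ, CovLE Λ ρ n {w | Near Λ ρ q w} m := by
  obtain ⟨C, hC⟩ := Q.doubling hρ n
  have h := hC 0 {w | Near Λ ρ q w} 1 ⟨{q}, by simp, fun w hw => ⟨q, by simp, hw⟩⟩
  rw [zero_add] at h
  exact ⟨_, h⟩

end Pool.Agent.ANC
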