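import Mathlib
import Pool.Agent.ANC.PCK

/-! FOL: the following lemma.  Claim `D.U (ψ 0) (ψ t) (3 C η)` for all t, by a discrete induction along [0,1]
(Archimedean: steps < ρ where ρ belongs to ε' := D.r - 3 C η > 0, note 3 C η < ε ≤ D.r/4):
dist (ψ 0) (ψ t) ≤ dist (ψ 0) (φ 0) + dist (φ 0) (φ t) + dist (φ t) (ψ t) ≤ 3 η, and if U (ψ 0) (ψ t) r
holds, then U_cmp gives U (ψ 0) (ψ t) (3 C η).  The bracket formula is then P.uniq. -/

open Set Metric Function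

namespace Pool.Agent.ANC

variable {M : Type} [MetricSpace M]

theorem SecPack.follow {D : Sys M} {ε δ : ℝ} {B : M → M → M} (P : SecPack D ε δ B) {η : ℝ}
    (hη : 0 < η) (h1 : 2 * η < δ) (h2 : 3 * D.C * η < ε) {φ ψ : ℝ → M}
    (hψ : ∀ ε' > 0, ∃ ρ > 0, ∀ t ∈ Icc (0 : ℝ) 1, ∀ t' ∈ Icc (0 : ℝ) 1, |t - t'| < ρ →
      D.U (ψ t) (ψ t') ε')
    (hS : ∀ t ∈ Icc (0 : ℝ) 1, D.S (φ t) (ψ t) η) (hU : ∀ t ∈ Icc (0 : ℝ) 1, D.U (φ 0) (φ t) η) :
    ∀ t ∈ Icc (0 : ℝ) 1, ψ t = B (φ t) (ψ 0) ∧ D.U (ψ 0) (ψ t) (3 * D.C * η) := by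
  have hC := D.hC
  have hε := P.hε
  have h4 := P.h4
  have h3η : 0 < 3 * D.C * η := by positivity
  have h0m : (0 : ℝ) ∈ Icc (0 : ℝ) 1 := ⟨le_rfl, zero_le_one⟩
  have hηε : η ≤ ε := by nlinarith
  -- distances
  have hdist : ∀ t ∈ Icc (0 : ℝ) 1, dist (ψ 0) (ψ t) ≤ 3 * η := by
    intro t ht
    have e1 : dist (φ 0) (ψ 0) ≤ η := D.S_dist _ _ _ (hS 0 h0m)
    have e2 : dist (φ 0) (φ t) ≤ η := D.U_dist _ _ _ (hU t ht)
    have e3 : dist (φ t) (ψ t) ≤ η := D.S_dist _ _ _ (hS t ht)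
    have e4 := dist_triangle4 (ψ 0) (φ 0) (φ t) (ψ t)
    rw [dist_comm (ψ 0) (φ 0)] at e4
    linarith
  obtain ⟨ρ, hρ, hstep⟩ := hψ (D.r - 3 * D.C * η) (by linarith)
  obtain ⟨N, hN⟩ := exists_nat_gt (1 / ρ)
  have hN0 : (0 : ℝ) < N := lt_trans (by positivity) hN
  have hNρ : 1 / (N : ℝ) < ρ := by
    rw [div_lt_iff₀ hN0]
    rw [div_lt_iff₀ hρ] at hN
    linarith [mul_comm (N : ℝ) ρ]
  have hind : ∀ n : ℕ, ∀ t ∈ Icc (0 : ℝ) 1, t ≤ n / N → D.U (ψ 0) (ψ t) (3 * D.C * η) := by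
    intro n
    induction n with
    | zero =>
      intro t ht htn
      have : t = 0 := le_antisymm (by simpa using htn) ht.1
      rw [this]
      exact D.U_mono _ _ _ _ h3η.le (D.U_refl _)
    | succ n ih =>
      intro t ht htn
      have hn0 : (0 : ℝ) ≤ n / N := by positivity
      have hsucc : ((n + 1 : ℕ) : ℝ) / N = n / N + 1 / N := by
        push_cast
        ring
      have h1N : 0 < 1 / (N : ℝ) := by positivity
      set t' : ℝ := max (t - 1 / N) 0 with ht'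
      have ht'0 : 0 ≤ t' := le_max_right _ _
      have ht't : t' ≤ t := max_le (by linarith) ht.1
      have ht'n : t' ≤ n / N := max_le (by rw [hsucc] at htn; linarith) hn0
      have habs : |t' - t| < ρ := by
        rw [abs_sub_comm, abs_of_nonneg (by linarith)]
        have : t - 1 / N ≤ t' := le_max_left _ _
        linarith
      have hm : t' ∈ Icc (0 : ℝ) 1 := ⟨ht'0, ht't.trans ht.2⟩
      have e1 := ih t' hm ht'n
      have e2 := hstep t' hm t ht habs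
      have e3 := D.U_tri _ _ _ _ _ e1 e2
      have e4 : D.U (ψ 0) (ψ t) D.r := D.U_mono _ _ _ _ (by linarith) e3
      refine D.U_mono _ _ _ _ ?_ (D.U_cmp _ _ e4)
      have := hdist t ht
      nlinarith
  intro t ht
  have hUt : D.U (ψ 0) (ψ t) (3 * D.C * η) := by
    refine hind N t ht ?_
    rw [div_self hN0.ne']
    exact ht.2
  refine ⟨?_, hUt⟩
  refine (P.uniq ?_ (D.S_mono _ _ _ _ hηε (hS t ht)) (D.U_mono _ _ _ _ h2.le hUt)).symm
  have e1 : dist (φ 0) (ψ 0) ≤ η := D.S_dist _ _ _ (hS 0 h0m)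
  have e2 : dist (φ 0) (φ t) ≤ η := D.U_dist _ _ _ (hU t ht)
  have e3 := dist_triangle (φ t) (φ 0) (ψ 0)
  rw [dist_comm (φ t) (φ 0)] at e3
  linarith

end Pool.Agent.ANC
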