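import Mathlib
import Pool.Agent.ANC.DST

/-! SIM (easy from dd_fwd and dd_trans): forward iterates are quasi-similarities. `sim`: C1 = C^2,
lam = κ / mu n (f^n z).  `seg`: the distance to a point of the segment is at most C1^2 times the distance
to the end point, because |t (u' - u)| ≤ |u' - u|. -/

open Set Metric Function

namespace Pool.Agent.ANC

variable {M : Type} [MetricSpace M] {E : Type} [NormedAddCommGroup E] [NormedSpace ℝ E]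
  {D : Sys M} {Λ : Leaves M D E} (Q : QC D Λ)

include Q

theorem QC.sim : ∃ C1 : ℝ, 1 ≤ C1 ∧ ∀ (q z : M) (n : ℕ), InL D q z → ∃ lam > 0, ∀ w w',
    InL D q w → InL D q w' →
      dd Λ (D.f^[n] z) (D.f^[n] w) (D.f^[n] w') ≤ C1 * lam * dd Λ q w w' ∧
      lam * dd Λ q w w' ≤ C1 * dd Λ (D.f^[n] z) (D.f^[n] w) (D.f^[n] w') := by
  have hC := Q.hC
  have hC0 : 0 < Q.C := lt_of_lt_of_le one_pos hC
  refine ⟨Q.C ^ 2, one_le_pow₀ hC, fun q z n hqz => ?_⟩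
  obtain ⟨κ, hκ, h1⟩ := Q.dd_trans hqz
  have hmu := Q.mu_pos n (D.f^[n] z)
  refine ⟨κ / Q.mu n (D.f^[n] z), div_pos hκ hmu, fun w w' hw hw' => ?_⟩
  obtain ⟨h2, h3⟩ := h1 w w' hw hw'
  obtain ⟨h4, h5⟩ := Q.dd_fwd n (hqz.symm.trans hw) (hqz.symm.trans hw')
  constructor
  · have h6 : Q.mu n (D.f^[n] z) * dd Λ (D.f^[n] z) (D.f^[n] w) (D.f^[n] w') ≤
        Q.C ^ 2 * κ * dd Λ q w w' := by
      calc _ ≤ Q.C * dd Λ z w w' := h4
        _ ≤ Q.C * (Q.C * κ * dd Λ q w w') := mul_le_mul_of_nonneg_left h2 hC0.le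
        _ = _ := by ring
    have h7 : Q.C ^ 2 * (κ / Q.mu n (D.f^[n] z)) * dd Λ q w w' =
        (Q.C ^ 2 * κ * dd Λ q w w') / Q.mu n (D.f^[n] z) := by ring
    rw [h7, le_div_iff₀ hmu, mul_comm]
    exact h6
  · have h6 : κ * dd Λ q w w' ≤
        Q.C ^ 2 * dd Λ (D.f^[n] z) (D.f^[n] w) (D.f^[n] w') * Q.mu n (D.f^[n] z) := by
      calc _ ≤ Q.C * dd Λ z w w' := h3
        _ ≤ Q.C * (Q.C * Q.mu n (D.f^[n] z) * dd Λ (D.f^[n] z) (D.f^[n] w) (D.f^[n] w')) :=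
          mul_le_mul_of_nonneg_left h5 hC0.le
        _ = _ := by ring
    have h7 : κ / Q.mu n (D.f^[n] z) * dd Λ q w w' = (κ * dd Λ q w w') / Q.mu n (D.f^[n] z) := by ring
    rw [h7, div_le_iff₀ hmu]
    exact h6

theorem QC.seg : ∃ C2 : ℝ, 1 ≤ C2 ∧ ∀ (q z : M) (n : ℕ), InL D q z → ∀ (u u' : Λ.Eu q),
    ∀ t ∈ Icc (0 : ℝ) 1,
      dd Λ (D.f^[n] z) (D.f^[n] (Λ.θu q u)) (D.f^[n] (Λ.θu q (u + t • (u' - u)))) ≤
        C2 * dd Λ (D.f^[n] z) (D.f^[n] (Λ.θu q u)) (D.f^[n] (Λ.θu q u')) := by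
  obtain ⟨C1, hC1, h⟩ := Q.sim
  have hC0 : 0 < C1 := lt_of_lt_of_le one_pos hC1
  refine ⟨C1 ^ 2, one_le_pow₀ hC1, fun q z n hqz u u' t ht => ?_⟩
  obtain ⟨lam, hlam, h1⟩ := h q z n hqz
  have h2 := (h1 _ _ (InL_θ Λ q u) (InL_θ Λ q (u + t • (u' - u)))).1
  have h3 := (h1 _ _ (InL_θ Λ q u) (InL_θ Λ q u')).2
  rw [dd_θ] at h2 h3
  have h4 : ‖u - (u + t • (u' - u))‖ ≤ ‖u - u'‖ := by
    have e : u - (u + t • (u' - u)) = t • (u - u') := by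
      rw [smul_sub, smul_sub]
      abel
    rw [e, norm_smul, Real.norm_of_nonneg ht.1]
    exact mul_le_of_le_one_left (norm_nonneg _) ht.2
  calc _ ≤ C1 * lam * ‖u - (u + t • (u' - u))‖ := h2
    _ ≤ C1 * lam * ‖u - u'‖ := mul_le_mul_of_nonneg_left h4 (by positivity)
    _ = C1 * (lam * ‖u - u'‖) := by ring
    _ ≤ C1 * (C1 * dd Λ (D.f^[n] z) (D.f^[n] (Λ.θu q u)) (D.f^[n] (Λ.θu q u'))) :=
      mul_le_mul_of_nonneg_left h3 hC0.le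
    _ = _ := by ring

end Pool.Agent.ANC
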