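import Mathlib
import Pool.Agent.ANC.CV1
import Pool.Agent.ANC.SIM
import Pool.Agent.ANC.FOL
import Pool.Agent.ANC.CHN

/-! CVG: comparison of the covering numbers of a convex piece of a leaf and of its image under a map ψ which
moves along stable leaves, when the stable displacement is ≤ η at the time n. -/

open Set Metric Function

namespace Pool.Agent.ANC

variable {M : Type} [MetricSpace M] [CompactSpace M] {E : Type} [NormedAddCommGroup E]
  [NormedSpace ℝ E] [FiniteDimensional ℝ E] {D : Sys M} {Λ : Leaves M D E}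

theorem QC.cover_compare (Q : QC D Λ) : ∃ η > 0, ∃ ρ0 > 0, ρ0 ≤ Λ.R0 ∧ ∀ ρ, 0 < ρ → ρ ≤ ρ0 → ∃ N : ℕ,
    ∀ (q : M) (A : Set (Λ.Eu q)), Convex ℝ A → ∀ ψ : Λ.Eu q → M,
      (∀ ε > 0, ∃ τ > 0, ∀ u ∈ A, ∀ u' ∈ A, dist u u' < τ → D.U (ψ u) (ψ u') ε) →
      ∀ n : ℕ, (∀ u ∈ A, D.S (D.f^[n] (Λ.θu q u)) (D.f^[n] (ψ u)) η) →
      ∀ m : ℕ, CovLE Λ ρ n (Λ.θu q '' A) m → CovLE Λ ρ n (ψ '' A) (N * m) := by
  classical
  obtain ⟨ε, δ, B, P⟩ := D.exists_pack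
  obtain ⟨K, hK1, hK⟩ := Q.kap 1
  obtain ⟨C2, hC2, hseg⟩ := Q.seg
  have hC := D.hC
  have hC0 : 0 < D.C := lt_of_lt_of_le one_pos hC
  have hε := P.hε
  have hδ := P.hδ
  have hR0 := Λ.hR0
  have hK0 := Λ.hK0
  have hK0p : 0 < Λ.K0 := lt_of_lt_of_le one_pos hK0
  have hKp : 0 < K := lt_of_lt_of_le one_pos hK1
  have hC2p : 0 < C2 := lt_of_lt_of_le one_pos hC2
  -- the constant η
  set η : ℝ := min (δ / 4) (min (ε / (6 * D.C)) (Λ.R0 / (3 * D.C))) with hηdef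
  have hη : 0 < η := lt_min (by positivity) (lt_min (by positivity) (by positivity))
  have e1 : 2 * η < δ := by
    have : η ≤ δ / 4 := min_le_left _ _
    linarith
  have e2 : 3 * D.C * η < ε := by
    have h1 : η ≤ ε / (6 * D.C) := (min_le_right _ _).trans (min_le_left _ _)
    have h2 : 3 * D.C * η ≤ 3 * D.C * (ε / (6 * D.C)) :=
      mul_le_mul_of_nonneg_left h1 (by positivity)
    have h3 : 3 * D.C * (ε / (6 * D.C)) = ε / 2 := by
      field_simp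
      norm_num
    linarith
  have e3 : 3 * D.C * η ≤ Λ.R0 := by
    have h1 : η ≤ Λ.R0 / (3 * D.C) := (min_le_right _ _).trans (min_le_right _ _)
    have h2 : 3 * D.C * η ≤ 3 * D.C * (Λ.R0 / (3 * D.C)) :=
      mul_le_mul_of_nonneg_left h1 (by positivity)
    have h3 : 3 * D.C * (Λ.R0 / (3 * D.C)) = Λ.R0 := by
      field_simp
    linarith
  -- the constant ρ0
  set L : ℝ := C2 * (K * 2) with hL
  have hLp : 0 < L := by positivity
  set ρ0 : ℝ := min 1 (min Λ.R0 (min (Λ.R0 / L) (η / (Λ.K0 * L)))) with hρ0def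
  have hρ0 : 0 < ρ0 :=
    lt_min one_pos (lt_min hR0 (lt_min (by positivity) (by positivity)))
  have f1 : ρ0 ≤ 1 := min_le_left _ _
  have f2 : ρ0 ≤ Λ.R0 := (min_le_right _ _).trans (min_le_left _ _)
  have f3 : ρ0 ≤ Λ.R0 / L := (min_le_right _ _).trans ((min_le_right _ _).trans (min_le_left _ _))
  have f4 : ρ0 ≤ η / (Λ.K0 * L) :=
    (min_le_right _ _).trans ((min_le_right _ _).trans (min_le_right _ _))
  refine ⟨η, hη, ρ0, hρ0, f2, ?_⟩
  intro ρ hρ hρρ0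
  obtain ⟨N, hN⟩ := Q.leaf_cover (Λ.K0 * (3 * D.C * η)) hρ
  have g1 : L * ρ ≤ Λ.R0 := by
    have h1 : ρ ≤ Λ.R0 / L := hρρ0.trans f3
    rw [le_div_iff₀ hLp] at h1
    linarith [mul_comm L ρ]
  have g2 : Λ.K0 * (L * ρ) ≤ η := by
    have h1 : ρ ≤ η / (Λ.K0 * L) := hρρ0.trans f4
    rw [le_div_iff₀ (by positivity)] at h1
    have h2 : Λ.K0 * (L * ρ) = ρ * (Λ.K0 * L) := by ring
    rw [h2]
    exact h1
  refine ⟨N, ?_⟩
  intro q A hA ψ hψ n hS m hcov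
  obtain ⟨Z, hZ, hw⟩ := hcov
  choose T hT1 hT2 using hN
  let uz : M → Λ.Eu q := fun z =>
    if h : ∃ u ∈ A, Near Λ ρ z (D.f^[n] (Λ.θu q u)) then h.choose else 0
  have huz : ∀ z, (∃ u ∈ A, Near Λ ρ z (D.f^[n] (Λ.θu q u))) →
      uz z ∈ A ∧ Near Λ ρ z (D.f^[n] (Λ.θu q (uz z))) := by
    intro z hz
    have h1 : uz z = hz.choose := dif_pos hz
    rw [h1]
    exact hz.choose_spec
  refine ⟨Z.biUnion (fun z => T (D.f^[n] (ψ (uz z)))), ?_, ?_⟩
  · calc (Z.biUnion (fun z => T (D.f^[n] (ψ (uz z))))).card ≤ Z.card * N :=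
          Finset.card_biUnion_le_card_mul _ _ _ (fun z _ => hT1 _)
      _ ≤ m * N := Nat.mul_le_mul_right _ hZ
      _ = N * m := mul_comm _ _
  · rintro _ ⟨u, hu, rfl⟩
    obtain ⟨z, hz, hnear⟩ := hw (Λ.θu q u) (mem_image_of_mem _ hu)
    obtain ⟨hv, hvn⟩ := huz z ⟨u, hu, hnear⟩
    set v : Λ.Eu q := uz z with hvdef
    set y0 : M := D.f^[n] (Λ.θu q v) with hy0
    have k1 : dd Λ z y0 (D.f^[n] (Λ.θu q u)) ≤ 2 * ρ := by
      have := dd_tri Λ z y0 z (D.f^[n] (Λ.θu q u))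
      rw [dd_comm Λ z y0 z] at this
      linarith [hvn.2, hnear.2]
    have k2 : dd Λ y0 y0 (D.f^[n] (Λ.θu q u)) ≤ K * (2 * ρ) :=
      ((hK z y0 hvn.1 (hvn.2.trans (hρρ0.trans f1)) y0 _ hvn.1 hnear.1).1).trans
        (mul_le_mul_of_nonneg_left k1 hKp.le)
    have k3 : ∀ t ∈ Icc (0 : ℝ) 1,
        dd Λ y0 y0 (D.f^[n] (Λ.θu q (v + t • (u - v)))) ≤ L * ρ := by
      intro t ht
      have := hseg q (Λ.θu q v) n (InL_θ Λ q v) v u t ht
      refine this.trans ?_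
      calc C2 * dd Λ y0 y0 (D.f^[n] (Λ.θu q u)) ≤ C2 * (K * (2 * ρ)) :=
            mul_le_mul_of_nonneg_left k2 hC2p.le
        _ = L * ρ := by rw [hL]; ring
    have k4 : ∀ t ∈ Icc (0 : ℝ) 1,
        D.U y0 (D.f^[n] (Λ.θu q (v + t • (u - v)))) η := by
      intro t ht
      have hin : InL D y0 (D.f^[n] (Λ.θu q (v + t • (u - v)))) :=
        (InL.trans (InL.symm (InL_θ Λ q v)) (InL_θ Λ q (v + t • (u - v)))).iter n
      have := U_of_dd Λ (InL.refl y0) hin (by rw [dd_self]; exact hR0.le) ((k3 t ht).trans g1)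
      refine D.U_mono _ _ _ _ ?_ this
      exact (mul_le_mul_of_nonneg_left (k3 t ht) hK0p.le).trans g2
    have hfol := P.follow hη e1 e2 (φ := fun t => D.f^[n] (Λ.θu q (v + t • (u - v))))
      (ψ := fun t => D.f^[n] (ψ (v + t • (u - v))))
      (Rect.segment hA hψ n hv hu)
      (fun t ht => hS _ (hA.add_smul_sub_mem hv hu ht))
      (fun t ht => by
        have h0 : v + (0 : ℝ) • (u - v) = v := by simp
        simp only [h0]
        exact k4 t ht)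
    have k5 := (hfol 1 ⟨zero_le_one, le_rfl⟩).2
    have h0 : v + (0 : ℝ) • (u - v) = v := by simp
    have h1 : v + (1 : ℝ) • (u - v) = u := by simp
    simp only [h0, h1] at k5
    have k6 := dd_of_U Λ e3 k5
    obtain ⟨z', hz', hn'⟩ := hT2 (D.f^[n] (ψ v)) (D.f^[n] (ψ u)) ⟨_, k5⟩ k6
    exact ⟨z', Finset.mem_biUnion.mpr ⟨z, hz, hz'⟩, hn'⟩

end Pool.Agent.ANC
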