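import Mathlib
import Pool.Agent.ANC.CVG

/-! CV5: all standard balls have comparable covering numbers (needs the uniform density of unstable balls).
Take η, ρ0 from cover_compare, the pack P.  There are δ1, ρ1 > 0 (ρ1 ≤ R0) such that for dist w z < δ1 and
u ∈ A := closedBall 0 ρ1 of Eu w: dist (θ_w u) z < δ and S (θ_w u) (B (θ_w u) z) η: P.modulus compares B (θ_w u) z
with B (θ_w u) (θ_w u) = θ_w u, then S_cmp (both S-related by ε ≤ r).  ψ u := B (θ_w u) z has the modulus in U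
(U z (ψ u) ε, U z (ψ u') ε, so U (ψ u) (ψ u') (2ε), P.modulus and U_cmp).  At every time n ≥ 0
S (f^n θ u) (f^n ψ u) η (S_iter, e^{-an} ≤ 1; note 0 ≤ η).
Then ρ2 ≤ ρ0 and δ2 ≤ δ1 with: for dist w z < δ2, Near ρ z v (ρ ≤ ρ2): w' := B v w satisfies U w w' small, so
w' = θ_w u with |u| ≤ ρ1 (dd_of_U), and ψ u = B w' z = v by P.uniq.  So {v | Near ρ z v} ⊆ ψ '' A.
Density for δ2: R.  j with K0 e^{-cj} (R + K0 ρ1) ≤ ρ and e^{-cj}(..) ≤ R0.  Given y, z: w with U (f^j y) w R,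
dist w z < δ2; θ_w '' A ⊆ f^j '' {v | Near ρ y v}.  Chain: doubling j, CovLE.image, mono, cover_compare, mono. -/

open Set Metric Function

namespace Pool.Agent.ANC

variable {M : Type} [MetricSpace M] [CompactSpace M] {E : Type} [NormedAddCommGroup E]
  [NormedSpace ℝ E] [FiniteDimensional ℝ E] {D : Sys M} {Λ : Leaves M D E}

omit [CompactSpace M] [FiniteDimensional ℝ E] in
private theorem CV5_theta (Λ : Leaves M D E) (w : M) {u u' : Λ.Eu w} (hu : ‖u‖ ≤ Λ.R0) (hu' : ‖u'‖ ≤ Λ.R0) :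
    dist (Λ.θu w u) (Λ.θu w u') ≤ Λ.K0 * ‖u - u'‖ :=
  D.U_dist _ _ _ (Λ.u_unif w u u' hu hu')

omit [CompactSpace M] [FiniteDimensional ℝ E] in
private theorem CV5_local (Λ : Leaves M D E) {ε δ : ℝ} {B : M → M → M} (P : SecPack D ε δ B) {η : ℝ} (hη : 0 < η) :
    ∃ δ1 > 0, ∃ ρ1 > 0, ρ1 ≤ Λ.R0 ∧ δ1 ≤ δ ∧ ∀ w z : M, dist w z < δ1 → ∀ u : Λ.Eu w, ‖u‖ ≤ ρ1 →
      dist (Λ.θu w u) z < δ ∧ D.S (Λ.θu w u) (B (Λ.θu w u) z) η := by
  have hC0 : 0 < D.C := lt_of_lt_of_le one_pos D.hC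
  have hK0 : 0 < Λ.K0 := lt_of_lt_of_le one_pos Λ.hK0
  obtain ⟨τ, hτ, hm⟩ := P.modulus (η / D.C) (div_pos hη hC0)
  have hτ' : 0 < min τ δ := lt_min hτ P.hδ
  refine ⟨min τ δ / 2, by positivity, min Λ.R0 (min τ δ / (2 * Λ.K0)), lt_min Λ.hR0 (by positivity),
    min_le_left _ _, by linarith [min_le_right τ δ], fun w z hwz u hu => ?_⟩
  have hu1 : ‖u‖ ≤ Λ.R0 := hu.trans (min_le_left _ _)
  have hu2 : ‖u‖ ≤ min τ δ / (2 * Λ.K0) := hu.trans (min_le_right _ _)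
  have h1 : dist (Λ.θu w u) w ≤ Λ.K0 * ‖u‖ := by
    have := CV5_theta Λ w hu1 (u' := 0) (by simpa using Λ.hR0.le)
    rwa [Λ.u_zero, sub_zero] at this
  have h2 : Λ.K0 * ‖u‖ ≤ min τ δ / 2 := by
    calc Λ.K0 * ‖u‖ ≤ Λ.K0 * (min τ δ / (2 * Λ.K0)) := mul_le_mul_of_nonneg_left hu2 hK0.le
      _ = min τ δ / 2 := by field_simp
  have h3 : dist (Λ.θu w u) z < min τ δ := by
    calc dist (Λ.θu w u) z ≤ dist (Λ.θu w u) w + dist w z := dist_triangle _ _ _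
      _ < min τ δ := by linarith
  have h4 : dist (Λ.θu w u) z < δ := h3.trans_le (min_le_right _ _)
  have h5 : dist (Λ.θu w u) z < τ := h3.trans_le (min_le_left _ _)
  refine ⟨h4, ?_⟩
  have h6 := (P.close _ _ h4).1
  have h7 : D.S (Λ.θu w u) (B (Λ.θu w u) z) D.r := D.S_mono _ _ _ _ (by linarith [P.h4, P.hε]) h6
  refine D.S_mono _ _ _ _ ?_ (D.S_cmp _ _ h7)
  have h8 := hm (Λ.θu w u) (Λ.θu w u) (Λ.θu w u) z (by rw [dist_self]; exact P.hδ) h4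
    (by rw [dist_self]; exact hτ) h5
  rw [P.self, lt_div_iff₀ hC0] at h8
  linarith [mul_comm (dist (Λ.θu w u) (B (Λ.θu w u) z)) D.C]

omit [CompactSpace M] [FiniteDimensional ℝ E] in
private theorem CV5_modulus (Λ : Leaves M D E) {ε δ : ℝ} {B : M → M → M} (P : SecPack D ε δ B) (w z : M) {ρ1 : ℝ}
    (hρR : ρ1 ≤ Λ.R0) (h : ∀ u : Λ.Eu w, ‖u‖ ≤ ρ1 → dist (Λ.θu w u) z < δ) :
    ∀ ε' > 0, ∃ τ > 0, ∀ u ∈ closedBall (0 : Λ.Eu w) ρ1, ∀ u' ∈ closedBall (0 : Λ.Eu w) ρ1,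
      dist u u' < τ → D.U (B (Λ.θu w u) z) (B (Λ.θu w u') z) ε' := by
  intro ε' hε'
  have hC0 : 0 < D.C := lt_of_lt_of_le one_pos D.hC
  have hK0 : 0 < Λ.K0 := lt_of_lt_of_le one_pos Λ.hK0
  obtain ⟨τ, hτ, hm⟩ := P.modulus (ε' / D.C) (div_pos hε' hC0)
  refine ⟨τ / Λ.K0, div_pos hτ hK0, fun u hu u' hu' huu => ?_⟩
  rw [mem_closedBall, dist_zero_right] at hu hu'
  have h1 := h u hu
  have h2 := h u' hu'
  have h3 := (P.close _ _ h1).2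
  have h4 := (P.close _ _ h2).2
  have h5 : D.U (B (Λ.θu w u) z) (B (Λ.θu w u') z) D.r := by
    have := D.U_tri _ _ _ _ _ (D.U_symm _ _ _ h3) h4
    exact D.U_mono _ _ _ _ (by linarith [P.h4, P.hε]) this
  refine D.U_mono _ _ _ _ ?_ (D.U_cmp _ _ h5)
  have h6 : dist (Λ.θu w u) (Λ.θu w u') < τ := by
    refine (CV5_theta Λ w (hu.trans hρR) (hu'.trans hρR)).trans_lt ?_
    rw [← dist_eq_norm]
    rw [lt_div_iff₀ hK0] at huu
    linarith [mul_comm (dist u u') Λ.K0]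
  have h7 := hm _ _ z z h1 h2 h6 (by rw [dist_self]; exact hτ)
  rw [lt_div_iff₀ hC0] at h7
  linarith [mul_comm (dist (B (Λ.θu w u) z) (B (Λ.θu w u') z)) D.C]

omit [CompactSpace M] [FiniteDimensional ℝ E] in
private theorem CV5_cover (Λ : Leaves M D E) {ε δ : ℝ} {B : M → M → M} (P : SecPack D ε δ B) {ρ1 δ1 : ℝ}
    (hρ1 : 0 < ρ1) (hδ1 : 0 < δ1) (h : ∀ w z : M, dist w z < δ1 → ∀ u : Λ.Eu w, ‖u‖ ≤ ρ1 → dist (Λ.θu w u) z < δ) :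
    ∃ ρ2 > 0, ∃ δ2 > 0, δ2 ≤ δ1 ∧ ∀ w z v : M, dist w z < δ2 → ∀ ρ, 0 < ρ → ρ ≤ ρ2 → Near Λ ρ z v →
      ∃ u : Λ.Eu w, ‖u‖ ≤ ρ1 ∧ B (Λ.θu w u) z = v := by
  have hC0 : 0 < D.C := lt_of_lt_of_le one_pos D.hC
  have hK0 : 0 < Λ.K0 := lt_of_lt_of_le one_pos Λ.hK0
  set t : ℝ := min Λ.R0 (ρ1 / Λ.K0) with ht
  have ht0 : 0 < t := lt_min Λ.hR0 (div_pos hρ1 hK0)
  obtain ⟨τ, hτ, hm⟩ := P.modulus (t / D.C) (div_pos ht0 hC0)
  have hτ' : 0 < min τ δ := lt_min hτ P.hδ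
  have hsm : 0 < min (min τ δ / (2 * Λ.K0)) (ε / Λ.K0) :=
    lt_min (by positivity) (div_pos P.hε hK0)
  refine ⟨min Λ.R0 (min (min τ δ / (2 * Λ.K0)) (ε / Λ.K0)), lt_min Λ.hR0 hsm, min δ1 (min τ δ / 2),
    lt_min hδ1 (by positivity), min_le_left _ _, fun w z v hwz ρ hρ hρ2 hN => ?_⟩
  have hρR : ρ ≤ Λ.R0 := hρ2.trans (min_le_left _ _)
  have hρa : ρ ≤ min τ δ / (2 * Λ.K0) := (hρ2.trans (min_le_right _ _)).trans (min_le_left _ _)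
  have hρb : ρ ≤ ε / Λ.K0 := (hρ2.trans (min_le_right _ _)).trans (min_le_right _ _)
  have h1 : D.U z v (Λ.K0 * ρ) := Near.U Λ hρR hN
  have h2 : Λ.K0 * ρ ≤ min τ δ / 2 := by
    calc Λ.K0 * ρ ≤ Λ.K0 * (min τ δ / (2 * Λ.K0)) := mul_le_mul_of_nonneg_left hρa hK0.le
      _ = min τ δ / 2 := by field_simp
  have h3 : Λ.K0 * ρ ≤ ε := by
    rw [le_div_iff₀ hK0] at hρb
    linarith [mul_comm ρ Λ.K0]
  have hwz1 : dist w z < δ1 := hwz.trans_le (min_le_left _ _)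
  have hwz2 : dist w z < min τ δ / 2 := hwz.trans_le (min_le_right _ _)
  have h4 : dist v w < min τ δ := by
    have h5 := D.U_dist _ _ _ h1
    have h6 : dist v w ≤ dist v z + dist z w := dist_triangle _ _ _
    rw [dist_comm v z, dist_comm z w] at h6
    linarith
  have hvw : dist v w < δ := h4.trans_le (min_le_right _ _)
  have h5 := P.close v w hvw
  have h6 := hm v w w w hvw (by rw [dist_self]; exact P.hδ) (h4.trans_le (min_le_left _ _))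
    (by rw [dist_self]; exact hτ)
  rw [P.self] at h6
  have h7 : D.U w (B v w) t := by
    have h8 : D.U w (B v w) D.r := D.U_mono _ _ _ _ (by linarith [P.h4, P.hε]) h5.2
    refine D.U_mono _ _ _ _ ?_ (D.U_cmp _ _ h8)
    rw [lt_div_iff₀ hC0, dist_comm] at h6
    linarith [mul_comm (dist w (B v w)) D.C]
  obtain ⟨u, hu, hu2⟩ := Λ.u_loc w (B v w) t (min_le_left _ _) h7
  have hu3 : ‖u‖ ≤ ρ1 := by
    refine hu.trans ?_
    calc Λ.K0 * t ≤ Λ.K0 * (ρ1 / Λ.K0) := mul_le_mul_of_nonneg_left (min_le_right _ _) hK0.le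
      _ = ρ1 := by field_simp
  refine ⟨u, hu3, ?_⟩
  refine P.uniq (h w z hwz1 u hu3) ?_ (D.U_mono _ _ _ _ h3 h1)
  rw [hu2]
  exact D.S_symm _ _ _ h5.1

omit [CompactSpace M] [FiniteDimensional ℝ E] in
private theorem CV5_back (Λ : Leaves M D E) {ρ1 R ρ : ℝ} (hρ1R : ρ1 ≤ Λ.R0) (j : ℕ)
    (h1 : Λ.K0 * (Real.exp (-(D.c * j)) * (R + Λ.K0 * ρ1)) ≤ ρ)
    (h2 : Real.exp (-(D.c * j)) * (R + Λ.K0 * ρ1) ≤ Λ.R0) (y w : M) (hw : D.U (D.f^[j] y) w R) :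
    Λ.θu w '' closedBall (0 : Λ.Eu w) ρ1 ⊆ D.f^[j] '' {v | Near Λ ρ y v} := by
  have hK0 : 0 < Λ.K0 := lt_of_lt_of_le one_pos Λ.hK0
  rintro _ ⟨u, hu, rfl⟩
  rw [mem_closedBall, dist_zero_right] at hu
  have h3 : D.U w (Λ.θu w u) (Λ.K0 * ρ1) := by
    have h4 := Λ.u_unif w 0 u (by simpa using Λ.hR0.le) (hu.trans hρ1R)
    rw [Λ.u_zero, zero_sub, norm_neg] at h4
    exact D.U_mono _ _ _ _ (mul_le_mul_of_nonneg_left hu hK0.le) h4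
  have h4 := D.U_tri _ _ _ _ _ hw h3
  have h5 := D.U_iter_symm j h4
  rw [symm_iter_iter] at h5
  refine ⟨D.f.symm^[j] (Λ.θu w u), ⟨⟨_, h5⟩, ?_⟩, iter_symm_iter _ _ _⟩
  exact (dd_of_U Λ h2 h5).trans h1

theorem QC.cover_unif (Q : QC D Λ) (hd : UDense D) : ∃ ρ0 > 0, ∀ ρ, 0 < ρ → ρ ≤ ρ0 → ∃ N : ℕ,
    ∀ (y z : M) (n m : ℕ), CovLE Λ ρ n {w | Near Λ ρ y w} m →
      CovLE Λ ρ n {w | Near Λ ρ z w} (N * m) := by
  obtain ⟨η, hη, ρa, hρa, hρaR, hcc⟩ := Q.cover_compare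
  obtain ⟨ε, δ, B, P⟩ := D.exists_pack
  have hC0 : 0 < D.C := lt_of_lt_of_le one_pos D.hC
  have hK0 : 0 < Λ.K0 := lt_of_lt_of_le one_pos Λ.hK0
  obtain ⟨δ1, hδ1, ρ1, hρ1, hρ1R, _, hloc⟩ := CV5_local Λ P hη
  obtain ⟨ρ2, hρ2, δ2, hδ2, hδ21, hcov⟩ := CV5_cover Λ P hρ1 hδ1 (fun w z hwz u hu => (hloc w z hwz u hu).1)
  obtain ⟨R, hR⟩ := hd δ2 hδ2
  refine ⟨min ρa ρ2, lt_min hρa hρ2, fun ρ hρ hρ0 => ?_⟩
  obtain ⟨N, hN⟩ := hcc ρ hρ (hρ0.trans (min_le_left _ _))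
  -- the time j
  have hlim : Filter.Tendsto (fun j : ℕ => Real.exp (-(D.c * j)) * (R + Λ.K0 * ρ1)) Filter.atTop
      (nhds (0 * (R + Λ.K0 * ρ1))) := by
    apply Filter.Tendsto.mul_const
    apply Real.tendsto_exp_neg_atTop_nhds_zero.comp
    exact Filter.Tendsto.const_mul_atTop D.hc tendsto_natCast_atTop_atTop
  rw [zero_mul] at hlim
  have hpos : 0 < min (ρ / Λ.K0) Λ.R0 := lt_min (div_pos hρ hK0) Λ.hR0
  obtain ⟨j, hj⟩ := (hlim.eventually (gt_mem_nhds hpos)).exists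
  have hj1 : Λ.K0 * (Real.exp (-(D.c * j)) * (R + Λ.K0 * ρ1)) ≤ ρ := by
    have := hj.le.trans (min_le_left _ _)
    rw [le_div_iff₀ hK0] at this
    linarith [mul_comm (Real.exp (-(D.c * j)) * (R + Λ.K0 * ρ1)) Λ.K0]
  have hj2 : Real.exp (-(D.c * j)) * (R + Λ.K0 * ρ1) ≤ Λ.R0 := hj.le.trans (min_le_right _ _)
  obtain ⟨C, hC⟩ := Q.doubling hρ j
  refine ⟨N * C, fun y z n m hm => ?_⟩
  obtain ⟨w, hw1, hw2⟩ := hR z (D.f^[j] y)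
  have hwz : dist w z < δ1 := hw2.trans_le hδ21
  have h1 : CovLE Λ ρ n (D.f^[j] '' {v | Near Λ ρ y v}) (C * m) := (hC n _ m hm).image
  have h2 : CovLE Λ ρ n (Λ.θu w '' closedBall (0 : Λ.Eu w) ρ1) (C * m) :=
    h1.mono (CV5_back Λ hρ1R j hj1 hj2 y w hw1) le_rfl
  have h3 := hN w (closedBall (0 : Λ.Eu w) ρ1) (convex_closedBall _ _) (fun u => B (Λ.θu w u) z)
    (CV5_modulus Λ P w z hρ1R (fun u hu => (hloc w z hwz u hu).1)) n (fun u hu => by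
      rw [mem_closedBall, dist_zero_right] at hu
      have h4 := D.S_iter n (hloc w z hwz u hu).2
      refine D.S_mono _ _ _ _ ?_ h4
      have hle : Real.exp (-(D.a * n)) ≤ 1 := by
        apply Real.exp_le_one_iff.mpr
        have : 0 ≤ D.a * n := mul_nonneg D.ha.le (Nat.cast_nonneg n)
        linarith
      nlinarith) (C * m) h2
  rw [Nat.mul_assoc]
  refine h3.mono ?_ le_rfl
  intro v hv
  obtain ⟨u, hu, huv⟩ := hcov w z v hw2 ρ hρ (hρ0.trans (min_le_right _ _)) hv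
  exact ⟨u, by rw [mem_closedBall, dist_zero_right]; exact hu, huv⟩

end Pool.Agent.ANC
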