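import Mathlib
import Pool.Agent.ANC.CV1

/-! CV6: a big unstable ball contains k0 standard balls which are far apart, so its covering number is at
least k0 times the smallest one.  K = kap R0 (or kap 1).  Points: y' = f^-L y, a_i = (i/k0) R0 v, |v| = 1 (a unit vector of
Eu y'), i < k0; z_i = f^L (θ_{y'} a_i).  If U z_i z_j (4 K0 ρ) then U (θ a_i) (θ a_j) (e^{-cL} 4 K0 ρ), dd_of_U at
θ a_i, kap: |a_i - a_j| ≤ K K0 e^{-cL} 4 K0 ρ < R0/k0 for L large, impossible for i ≠ j.  U y z_i (e^{eL} K0 R0).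
R := e^{eL} K0 R0 + K0 ρ.  Given Z covering f^n {U y w R}: Z_i := those z ∈ Z which are Near-related to some
f^n w, Near ρ z_i w.  They are disjoint for different i (two points of one ball Near ρ z have U-distance ≤ 2 K0 ρ,
apply f^-n, U z_i z_j (4 K0 ρ)).  So some Z_i has card ≤ m / k0 (Finset.exists_lt/sum argument): m' = card Z_i.
For k0 = 0 take m' := m of the ball around y itself. -/

open Set Metric Function

namespace Pool.Agent.ANC

variable {M : Type} [MetricSpace M] {E : Type} [NormedAddCommGroup E]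
  [NormedSpace ℝ E] [FiniteDimensional ℝ E] {D : Sys M} {Λ : Leaves M D E}

private theorem CV6_time (D : Sys M) (A B : ℝ) (hB : 0 < B) : ∃ L : ℕ, A * Real.exp (-(D.c * L)) < B := by
  have hlim : Filter.Tendsto (fun n : ℕ => A * Real.exp (-(D.c * n))) Filter.atTop (nhds (A * 0)) := by
    apply Filter.Tendsto.const_mul
    apply Real.tendsto_exp_neg_atTop_nhds_zero.comp
    exact Filter.Tendsto.const_mul_atTop D.hc tendsto_natCast_atTop_atTop
  rw [mul_zero] at hlim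
  exact (hlim.eventually (gt_mem_nhds hB)).exists

theorem QC.cover_many (Q : QC D Λ) {ρ : ℝ} (hρ : 0 < ρ) (hρ' : ρ ≤ Λ.R0) (k0 : ℕ) : ∃ R : ℝ,
    ∀ (y : M) (n m : ℕ), CovLE Λ ρ n {w | D.U y w R} m →
      ∃ (z : M) (m' : ℕ), CovLE Λ ρ n {w | Near Λ ρ z w} m' ∧ k0 * m' ≤ m := by
  classical
  rcases Nat.eq_zero_or_pos k0 with hk | hk
  · subst hk
    refine ⟨Λ.K0 * ρ, fun y n m h => ⟨y, m, h.mono ?_ le_rfl, by simp⟩⟩
    intro w hw
    exact Near.U Λ hρ' hw
  · obtain ⟨K, hK, hkap⟩ := Q.kap Λ.R0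
    have hK0 := Λ.hK0
    have hR0 := Λ.hR0
    have hk' : (0 : ℝ) < (k0 : ℝ) := by exact_mod_cast hk
    have hk1 : (1 : ℝ) ≤ (k0 : ℝ) := by exact_mod_cast hk
    obtain ⟨L, hL⟩ := CV6_time D (K * (Λ.K0 * (4 * Λ.K0 * ρ))) (Λ.R0 / k0) (by positivity)
    set ex := Real.exp (-(D.c * L)) with hex
    have hex0 : 0 < ex := Real.exp_pos _
    have hL2 : K * (Λ.K0 * (ex * (4 * Λ.K0 * ρ))) < Λ.R0 / k0 := by
      calc K * (Λ.K0 * (ex * (4 * Λ.K0 * ρ))) = K * (Λ.K0 * (4 * Λ.K0 * ρ)) * ex := by ring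
        _ < _ := hL
    have hL3 : ex * (4 * Λ.K0 * ρ) ≤ Λ.R0 := by
      have h1 : 0 ≤ ex * (4 * Λ.K0 * ρ) := by positivity
      have h2 : ex * (4 * Λ.K0 * ρ) ≤ Λ.K0 * (ex * (4 * Λ.K0 * ρ)) := le_mul_of_one_le_left h1 hK0
      have h3 : Λ.K0 * (ex * (4 * Λ.K0 * ρ)) ≤ K * (Λ.K0 * (ex * (4 * Λ.K0 * ρ))) :=
        le_mul_of_one_le_left (h1.trans h2) hK
      have h4 : Λ.R0 / k0 ≤ Λ.R0 := div_le_self hR0.le hk1
      linarith
    refine ⟨Real.exp (D.e * L) * (Λ.K0 * Λ.R0) + Λ.K0 * ρ, fun y n m h => ?_⟩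
    set y' := D.f.symm^[L] y with hy'
    have hnt : Nontrivial (Λ.Eu y') := by
      apply Module.nontrivial_of_finrank_pos (R := ℝ)
      rw [Q.dim]
      have := Q.hk
      omega
    obtain ⟨v, hv⟩ := exists_norm_eq (Λ.Eu y') (zero_le_one (α := ℝ))
    set a : ℕ → Λ.Eu y' := fun i => ((i : ℝ) / k0 * Λ.R0) • v with ha
    set p : ℕ → M := fun i => Λ.θu y' (a i) with hp
    set z : ℕ → M := fun i => D.f^[L] (p i) with hz
    have hna : ∀ i, i < k0 → ‖a i‖ ≤ Λ.R0 := by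
      intro i hi
      rw [ha]
      simp only
      rw [norm_smul, hv, mul_one, Real.norm_of_nonneg (by positivity)]
      have : (i : ℝ) / k0 ≤ 1 := by
        rw [div_le_one hk']
        exact_mod_cast hi.le
      exact mul_le_of_le_one_left hR0.le this
    have hsub : ∀ i j : ℕ, i ≠ j → Λ.R0 / k0 ≤ ‖a i - a j‖ := by
      intro i j hij
      rw [ha]
      simp only
      rw [← sub_smul, norm_smul, hv, mul_one]
      have h1 : (i : ℝ) / k0 * Λ.R0 - (j : ℝ) / k0 * Λ.R0 = ((i : ℝ) - j) * (Λ.R0 / k0) := by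
        field_simp
      rw [h1, norm_mul, Real.norm_of_nonneg (show 0 ≤ Λ.R0 / k0 by positivity)]
      apply le_mul_of_one_le_left (by positivity)
      rw [Real.norm_eq_abs]
      have h2 : ((i : ℝ) - j) = (((i : ℤ) - (j : ℤ) : ℤ) : ℝ) := by push_cast; ring
      rw [h2, ← Int.cast_abs]
      have h3 : 1 ≤ |(i : ℤ) - (j : ℤ)| := by
        apply Int.one_le_abs
        omega
      exact_mod_cast h3
    have hpz : ∀ i, D.f.symm^[L] (z i) = p i := fun i => symm_iter_iter D.f L (p i)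
    have hsep : ∀ i < k0, ∀ j < k0, D.U (z i) (z j) (4 * Λ.K0 * ρ) → i = j := by
      intro i hi j hj hU
      by_contra hne
      have h1 := D.U_iter_symm L hU
      rw [hpz, hpz] at h1
      have h2 := dd_of_U Λ hL3 h1
      have hi' : InL D y' (p i) := InL_θ Λ y' (a i)
      have hj' : InL D y' (p j) := InL_θ Λ y' (a j)
      have h3 := (hkap y' (p i) hi' (by rw [hp]; simp only; rw [dd_center_θ]; exact hna i hi)
        (p i) (p j) hi' hj').2
      have h4 : dd Λ y' (p i) (p j) = ‖a i - a j‖ := dd_θ Λ y' (a i) (a j)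
      rw [h4] at h3
      have h5 := hsub i j hne
      have h6 : K * dd Λ (p i) (p i) (p j) ≤ K * (Λ.K0 * (ex * (4 * Λ.K0 * ρ))) :=
        mul_le_mul_of_nonneg_left h2 (by linarith)
      linarith
    have hyz : ∀ i < k0, D.U y (z i) (Real.exp (D.e * L) * (Λ.K0 * Λ.R0)) := by
      intro i hi
      have h1 := Λ.u_unif y' 0 (a i) (by rw [norm_zero]; exact hR0.le) (hna i hi)
      rw [Λ.u_zero, zero_sub, norm_neg] at h1
      have h2 := D.U_iter L (D.U_mono _ _ _ _ (mul_le_mul_of_nonneg_left (hna i hi) (by linarith)) h1)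
      have h3 : D.f^[L] y' = y := iter_symm_iter D.f L y
      rw [h3] at h2
      exact h2
    obtain ⟨Z, hZ, hcov⟩ := h
    set Zi : ℕ → Finset M := fun i => Z.filter fun x => ∃ w, Near Λ ρ (z i) w ∧ Near Λ ρ x (D.f^[n] w) with hZi
    have hdisj : ∀ i ∈ Finset.range k0, ∀ j ∈ Finset.range k0, i ≠ j → Disjoint (Zi i) (Zi j) := by
      intro i hi j hj hne
      rw [Finset.disjoint_left]
      intro x hx hx'
      obtain ⟨_, w, hw1, hw2⟩ := Finset.mem_filter.1 hx
      obtain ⟨_, w', hw1', hw2'⟩ := Finset.mem_filter.1 hx'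
      apply hne
      apply hsep i (Finset.mem_range.1 hi) j (Finset.mem_range.1 hj)
      have h1 := D.U_tri _ _ _ _ _ (D.U_symm _ _ _ (Near.U Λ hρ' hw2)) (Near.U Λ hρ' hw2')
      have h2 := D.U_iter_symm n h1
      rw [symm_iter_iter, symm_iter_iter] at h2
      have h3 : Real.exp (-(D.c * n)) * (Λ.K0 * ρ + Λ.K0 * ρ) ≤ Λ.K0 * ρ + Λ.K0 * ρ := by
        apply mul_le_of_le_one_left (by positivity)
        apply Real.exp_le_one_iff.mpr
        have : 0 ≤ D.c * n := mul_nonneg D.hc.le (Nat.cast_nonneg n)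
        linarith
      have h4 := D.U_mono _ _ _ _ h3 h2
      have h5 := D.U_tri _ _ _ _ _ (D.U_tri _ _ _ _ _ (Near.U Λ hρ' hw1) h4)
        (D.U_symm _ _ _ (Near.U Λ hρ' hw1'))
      exact D.U_mono _ _ _ _ (by linarith) h5
    have hsum : ∑ i ∈ Finset.range k0, (Zi i).card ≤ m := by
      rw [← Finset.card_biUnion hdisj]
      refine (Finset.card_le_card ?_).trans hZ
      apply Finset.biUnion_subset.2
      intro i _
      exact Finset.filter_subset _ _
    obtain ⟨i0, hi0, hmin⟩ := Finset.exists_min_image (Finset.range k0) (fun i => (Zi i).card)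
      ⟨0, Finset.mem_range.2 hk⟩
    refine ⟨z i0, (Zi i0).card, ⟨Zi i0, le_rfl, ?_⟩, ?_⟩
    · intro w hw
      have hw' : Near Λ ρ (z i0) w := hw
      have h1 := D.U_tri _ _ _ _ _ (hyz i0 (Finset.mem_range.1 hi0)) (Near.U Λ hρ' hw')
      obtain ⟨x, hx, hx2⟩ := hcov w h1
      exact ⟨x, Finset.mem_filter.2 ⟨hx, w, hw', hx2⟩, hx2⟩
    · have h1 : ∑ _i ∈ Finset.range k0, (Zi i0).card ≤ ∑ i ∈ Finset.range k0, (Zi i).card :=
        Finset.sum_le_sum fun i hi => hmin i hi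
      rw [Finset.sum_const, Finset.card_range, smul_eq_mul] at h1
      exact h1.trans hsum

end Pool.Agent.ANC
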