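import Mathlib
import Pool.Agent.ANC.CV5
import Pool.Agent.ANC.CV6

/-! CVM (Lemma M).  ρ0 = min of the two.  N1 from cover_compare, N2 from cover_unif, k0 = N1 * N2 + 1, R from
cover_many.  Suppose every w with U (h 1 0) w R lies in h 1 '' closedBall 0 ρ.  K from Rect.bounds, n with
e^{-an} K ≤ η.  Let m be the minimal number with CovLE ρ n {w | Near ρ q w} m (exists_cov, Nat.find);
θ_q '' closedBall 0 ρ ⊆ {w | Near ρ q w} (dd_center_θ), h 0 u = θ_q u.  cover_compare with A = closedBall 0 ρ,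
ψ = h 1 gives CovLE (h 1 '' A) (N1 m), mono, cover_many gives z, m' with k0 m' ≤ N1 m, cover_unif
(y := z, z := q): CovLE {Near ρ q} (N2 m') so m ≤ N2 m', and m' ≥ 1 (CovLE.pos): contradiction. -/

open Set Metric Function

namespace Pool.Agent.ANC

variable {M : Type} [MetricSpace M] [CompactSpace M] {E : Type} [NormedAddCommGroup E]
  [NormedSpace ℝ E] [FiniteDimensional ℝ E] {D : Sys M} {Λ : Leaves M D E}

theorem QC.lemmaM (Q : QC D Λ) (hd : UDense D) : ∃ ρ0 > 0, ∀ ρ, 0 < ρ → ρ ≤ ρ0 → ∃ R : ℝ,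
    ∀ (q : M) (h : ℝ → Λ.Eu q → M), Hol Λ ρ q h →
      ∃ w, D.U (h 1 0) w R ∧ w ∉ h 1 '' closedBall 0 ρ := by
  classical
  obtain ⟨η, hη, ρ0, hρ0, hρR, hcmp⟩ := Q.cover_compare
  obtain ⟨ρ0', hρ0', huni⟩ := Q.cover_unif hd
  refine ⟨min ρ0 ρ0', lt_min hρ0 hρ0', fun ρ hρ hρle => ?_⟩
  obtain ⟨N1, hN1⟩ := hcmp ρ hρ (hρle.trans (min_le_left _ _))
  obtain ⟨N2, hN2⟩ := huni ρ hρ (hρle.trans (min_le_right _ _))
  obtain ⟨R, hR⟩ := Q.cover_many hρ ((hρle.trans (min_le_left _ _)).trans hρR) (N1 * N2 + 1)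
  refine ⟨R, fun q h hh => ?_⟩
  by_contra hcon
  push Not at hcon
  obtain ⟨K, hK0, hKS, -⟩ := Rect.bounds hh.1
  obtain ⟨n, hn⟩ : ∃ n : ℕ, Real.exp (-(D.a * n)) * K ≤ η := by
    have h1 : Filter.Tendsto (fun j : ℕ => D.a * (j : ℝ)) Filter.atTop Filter.atTop :=
      tendsto_natCast_atTop_atTop.const_mul_atTop D.ha
    have h2 : Filter.Tendsto (fun j : ℕ => Real.exp (-(D.a * j))) Filter.atTop (nhds 0) :=
      Real.tendsto_exp_neg_atTop_nhds_zero.comp h1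
    have h3 : Filter.Tendsto (fun j : ℕ => Real.exp (-(D.a * j)) * K) Filter.atTop (nhds 0) := by
      simpa using h2.mul_const K
    obtain ⟨n, hn⟩ := (h3.eventually (gt_mem_nhds hη)).exists
    exact ⟨n, hn.le⟩
  have hex := Q.exists_cov hρ n q
  have hm := Nat.find_spec hex
  have h1 : CovLE Λ ρ n (Λ.θu q '' closedBall 0 ρ) (Nat.find hex) := by
    refine hm.mono ?_ le_rfl
    rintro w ⟨u, hu, rfl⟩
    refine ⟨InL_θ Λ q u, ?_⟩
    rw [dd_center_θ]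
    exact mem_closedBall_zero_iff.1 hu
  have h2 : CovLE Λ ρ n (h 1 '' closedBall 0 ρ) (N1 * Nat.find hex) := by
    refine hN1 q (closedBall 0 ρ) (convex_closedBall 0 ρ) (h 1) ?_ n ?_ _ h1
    · intro ε hε
      obtain ⟨τ, hτ, hτ2⟩ := hh.1.2 ε hε
      exact ⟨τ, hτ, fun u hu u' hu' huu => hτ2 1 ⟨zero_le_one, le_rfl⟩ u hu u' hu' huu⟩
    · intro u hu
      have e1 := hKS 0 ⟨le_rfl, zero_le_one⟩ 1 ⟨zero_le_one, le_rfl⟩ u hu
      rw [hh.2 u hu] at e1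
      exact D.S_mono _ _ _ _ hn (D.S_iter n e1)
  have h3 : CovLE Λ ρ n {w | D.U (h 1 0) w R} (N1 * Nat.find hex) :=
    h2.mono (fun w hw => hcon w hw) le_rfl
  obtain ⟨z, m', hm', hk⟩ := hR (h 1 0) n _ h3
  have h4 := hN2 z q n m' hm'
  have h5 : Nat.find hex ≤ N2 * m' := Nat.find_min' hex h4
  have h6 : 1 ≤ m' := hm'.pos ⟨z, Near.self Λ hρ.le z⟩
  have h7 : N1 * Nat.find hex ≤ N1 * (N2 * m') := Nat.mul_le_mul_left _ h5
  have h8 : (N1 * N2 + 1) * m' = N1 * (N2 * m') + m' := by ring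
  omega

end Pool.Agent.ANC
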