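import Mathlib

/-! EGD: the hypotheses of the egg yolk principle. -/

open Set Metric

namespace Pool.Agent.ANC

/-- `g` is a continuous injective map of the closed unit ball of `ℝ^k` with `g 0 = 0`, which is quasiconformal at
all small scales with the constant `Cf`. -/
structure EggMap (k : ℕ) (Cf : ℝ) (g : EuclideanSpace ℝ (Fin k) → EuclideanSpace ℝ (Fin k)) : Prop where
  cont : ContinuousOn g (closedBall 0 1)
  inj : InjOn g (closedBall 0 1)
  zero : g 0 = 0
  qc : ∃ ε1 > 0, ∀ u ∈ closedBall (0 : EuclideanSpace ℝ (Fin k)) (3 / 4), ∀ ε, 0 < ε → ε < ε1 →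
    ∃ r > 0, Cf * r ≤ 1 / 8 ∧ (∀ u' ∈ closedBall u r, ‖g u' - g u‖ < ε / 2) ∧
      (∀ w, ‖w - g u‖ ≤ ε → ∃ u' ∈ closedBall u (Cf * r), g u' = w)

end Pool.Agent.ANC
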