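import Mathlib
import Pool.Agent.ANC.EGD
import Pool.Agent.BRW.BFIX

/-! EBR: the Brouwer step (use Pool.Agent.BRW.brouwer).  Suppose that every z with sup norm τ lies in g(ball).
For p ≠ w0 let π p be the point of the ray from w0 through p with sup norm τ (w0 has sup norm < τ, so it exists and is
unique; continuity: π p = w0 + (p - w0)/G(p - w0) where G is the gauge of the convex open neighbourhood
{v | sup norm of w0 + v < τ} of 0 (continuous_gauge, gauge of a bounded set is positive off 0)); π p = p if p has sup norm τ.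
The inverse g^{-1} : g(ball) → ball is continuous (compactness).  T u = g^{-1}(-π(g u)) is a continuous self-map of the
closed unit ball; a fixed point has g u = -π(g u), so g u has sup norm τ, π(g u) = g u, g u = 0, contradiction. -/

open Set Metric

namespace Pool.Agent.ANC

private theorem ebr_inv {E : Type} [TopologicalSpace E] [T2Space E] [Nonempty E] {K : Set E}
    (hK : IsCompact K) {g : E → E} (hg : ContinuousOn g K) (hi : InjOn g K) :
    ContinuousOn (Function.invFunOn g K) (g '' K) := by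
  rw [continuousOn_iff_isClosed]
  intro t ht
  refine ⟨g '' (K ∩ t), ((hK.inter_right ht).image_of_continuousOn
    (hg.mono inter_subset_left)).isClosed, ?_⟩
  ext y
  constructor
  · rintro ⟨h1, x, hx, rfl⟩
    rw [mem_preimage, hi.leftInvOn_invFunOn hx] at h1
    exact ⟨⟨x, ⟨hx, h1⟩, rfl⟩, x, hx, rfl⟩
  · rintro ⟨⟨x, ⟨hx, hxt⟩, rfl⟩, -⟩
    refine ⟨?_, x, hx, rfl⟩
    rw [mem_preimage, hi.leftInvOn_invFunOn hx]
    exact hxt

theorem sphere_not_covered {k : ℕ} {g : EuclideanSpace ℝ (Fin k) → EuclideanSpace ℝ (Fin k)}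
    (hg : ContinuousOn g (closedBall 0 1)) (hi : InjOn g (closedBall 0 1))
    {w0 : EuclideanSpace ℝ (Fin k)} (hw : w0 ∉ g '' closedBall 0 1) {τ : ℝ} (hτ : ‖fun i => w0 i‖ < τ) :
    ∃ z : EuclideanSpace ℝ (Fin k), ‖fun i => z i‖ = τ ∧ z ∉ g '' closedBall 0 1 := by
  by_contra hcon
  push Not at hcon
  have hτ0 : 0 < τ := lt_of_le_of_lt (norm_nonneg _) hτ
  set L : EuclideanSpace ℝ (Fin k) ≃L[ℝ] (Fin k → ℝ) := EuclideanSpace.equiv (Fin k) ℝ with hL
  have hLn : ∀ z : EuclideanSpace ℝ (Fin k), ‖fun i => z i‖ = ‖L z‖ := fun z => rfl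
  rw [hLn] at hτ
  simp only [hLn] at hcon
  set S : Set (Fin k → ℝ) := ball (-(L w0)) τ with hS
  have hSc : Convex ℝ S := convex_ball _ _
  have hS0 : S ∈ nhds (0 : Fin k → ℝ) := by
    refine isOpen_ball.mem_nhds ?_
    rw [mem_ball, dist_eq_norm, zero_sub, neg_neg]
    exact hτ
  have hSb : Bornology.IsVonNBounded ℝ S := NormedSpace.isVonNBounded_of_isBounded ℝ isBounded_ball
  have hSa : Absorbent ℝ S := absorbent_nhds_zero hS0
  have hfr : ∀ v : Fin k → ℝ, gauge S v = 1 ↔ ‖v + L w0‖ = τ := by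
    intro v
    rw [gauge_eq_one_iff_mem_frontier hSc hS0, hS, frontier_ball _ hτ0.ne', mem_sphere,
      dist_eq_norm, sub_neg_eq_add]
  set G : EuclideanSpace ℝ (Fin k) → ℝ := fun v => gauge S (L v) with hG
  have hGc : Continuous G := (continuous_gauge hSc hS0).comp L.continuous
  have hGpos : ∀ v, v ≠ 0 → 0 < G v := by
    intro v hv
    have h1 : L v ≠ 0 := by
      intro h
      exact hv (L.map_eq_zero_iff.1 h)
    exact (gauge_pos hSa hSb).2 h1
  set π : EuclideanSpace ℝ (Fin k) → EuclideanSpace ℝ (Fin k) :=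
    fun p => w0 + (G (p - w0))⁻¹ • (p - w0) with hπ
  have hπ1 : ∀ p, p ≠ w0 → ‖L (π p)‖ = τ := by
    intro p hp
    have h0 := hGpos (p - w0) (sub_ne_zero.2 hp)
    have h1 : gauge S ((G (p - w0))⁻¹ • L (p - w0)) = 1 := by
      rw [gauge_smul_of_nonneg (inv_nonneg.2 h0.le), smul_eq_mul]
      exact inv_mul_cancel₀ h0.ne'
    rw [hfr] at h1
    rw [hπ]
    show ‖L (w0 + (G (p - w0))⁻¹ • (p - w0))‖ = τ
    rw [map_add, map_smul, add_comm]
    exact h1
  have hπ2 : ∀ p, ‖L p‖ = τ → π p = p := by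
    intro p hp
    have h1 : G (p - w0) = 1 := by
      rw [hG]
      show gauge S (L (p - w0)) = 1
      rw [hfr, ← map_add, sub_add_cancel]
      exact hp
    rw [hπ]
    show w0 + (G (p - w0))⁻¹ • (p - w0) = p
    rw [h1, inv_one, one_smul]
    abel
  have hπc : ContinuousOn π {w0}ᶜ := by
    have h1 : ContinuousOn (fun p => (G (p - w0))⁻¹) {w0}ᶜ :=
      ContinuousOn.inv₀ (hGc.comp (continuous_id.sub continuous_const)).continuousOn
        (fun p hp => (hGpos _ (sub_ne_zero.2 hp)).ne')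
    exact continuousOn_const.add (h1.smul (continuous_id.sub continuous_const).continuousOn)
  have hne : ∀ u ∈ closedBall (0 : EuclideanSpace ℝ (Fin k)) 1, g u ≠ w0 := by
    intro u hu h
    exact hw ⟨u, hu, h⟩
  have hmem : ∀ u ∈ closedBall (0 : EuclideanSpace ℝ (Fin k)) 1, -π (g u) ∈ g '' closedBall 0 1 := by
    intro u hu
    refine hcon _ ?_
    rw [map_neg, norm_neg]
    exact hπ1 _ (hne u hu)
  have hT1 : ContinuousOn (fun u => Function.invFunOn g (closedBall 0 1) (-π (g u))) (closedBall 0 1) := by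
    refine (ebr_inv (isCompact_closedBall _ _) hg hi).comp (f := fun u => -π (g u)) ?_ hmem
    exact (hπc.comp hg (fun u hu => hne u hu)).neg
  have hT2 : MapsTo (fun u => Function.invFunOn g (closedBall 0 1) (-π (g u))) (closedBall 0 1)
      (closedBall 0 1) := fun u hu => Function.invFunOn_mem (hmem u hu)
  obtain ⟨u, hu, hfix⟩ := Pool.Agent.BRW.brouwer zero_le_one hT1 hT2
  have h1 : g u = -π (g u) := by
    have h2 := Function.invFunOn_eq (hmem u hu)
    have h3 : Function.invFunOn g (closedBall 0 1) (-π (g u)) = u := hfix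
    rwa [h3] at h2
  have h4 : ‖L (g u)‖ = τ := by
    rw [h1, map_neg, norm_neg]
    exact hπ1 _ (hne u hu)
  rw [hπ2 _ h4] at h1
  have h5 : g u = 0 := by
    have : g u + g u = 0 := by
      nth_rewrite 1 [h1]
      exact neg_add_cancel _
    have h6 : (2 : ℝ) • g u = 0 := by rw [two_smul]; exact this
    exact (smul_eq_zero.1 h6).resolve_left two_ne_zero
  rw [h5, map_zero, norm_zero] at h4
  exact hτ0.ne h4

end Pool.Agent.ANC
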