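import Mathlib

/-! EDA: discrete energy on ℤ^k, boxes, averages.
`avg_adj`: |avg φ a s - avg φ (a + s e_i) s| ≤ s^{-k} Σ_{y ∈ box a s} Σ_{t < s} |φ(y+(t+1)e_i) - φ(y + t e_i)|; every edge
is counted at most s times, so ≤ s^{1-k} Σ_{edges of direction i in the union} |dφ| ≤ (Hölder, at most 2 s^k edges)
s^{1-k} (2 s^k)^{1-1/k} en^{1/k} ≤ 2 en^{1/k}; take k-th powers.
`avg_child`: children of box a (2s): corners a + s b, b ∈ {0,1}^k; two children are joined by ≤ k steps between
adjacent children, each costs ≤ 2 en(box a (2s))^{1/k} (avg_adj, en_mono); avg φ a (2s) is the mean of the averages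
of the 2^k children. -/

open Finset

namespace Pool.Agent.ANC

/-- the energy of `φ` over the edges contained in `S` -/
noncomputable def en {k : ℕ} (φ : (Fin k → ℤ) → ℝ) (S : Finset (Fin k → ℤ)) : ℝ :=
  ∑ y ∈ S, ∑ i : Fin k, if y + Pi.single i 1 ∈ S then |φ (y + Pi.single i 1) - φ y| ^ k else 0

/-- the box with lowest corner `a` and side `s` -/
noncomputable def box {k : ℕ} (a : Fin k → ℤ) (s : ℕ) : Finset (Fin k → ℤ) :=
  Fintype.piFinset (fun i => Finset.Ico (a i) (a i + s))

/-- the average of `φ` over a box -/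
noncomputable def avg {k : ℕ} (φ : (Fin k → ℤ) → ℝ) (a : Fin k → ℤ) (s : ℕ) : ℝ :=
  (∑ y ∈ box a s, φ y) / (s : ℝ) ^ k

theorem mem_box {k : ℕ} (a y : Fin k → ℤ) (s : ℕ) : y ∈ box a s ↔ ∀ i, a i ≤ y i ∧ y i < a i + s := by
  simp [box]

theorem card_box {k : ℕ} (a : Fin k → ℤ) (s : ℕ) : (box a s).card = s ^ k := by
  simp [box]

theorem en_nonneg {k : ℕ} (φ : (Fin k → ℤ) → ℝ) (S : Finset (Fin k → ℤ)) : 0 ≤ en φ S := by
  unfold en
  refine Finset.sum_nonneg fun y _ => Finset.sum_nonneg fun i _ => ?_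
  split_ifs
  · positivity
  · exact le_rfl

private theorem en_term_mono {k : ℕ} (φ : (Fin k → ℤ) → ℝ) {S T : Finset (Fin k → ℤ)} (h : S ⊆ T)
    (y : Fin k → ℤ) : (∑ i : Fin k, if y + Pi.single i 1 ∈ S then |φ (y + Pi.single i 1) - φ y| ^ k else 0) ≤
      ∑ i : Fin k, if y + Pi.single i 1 ∈ T then |φ (y + Pi.single i 1) - φ y| ^ k else 0 := by
  refine Finset.sum_le_sum fun i _ => ?_
  by_cases h1 : y + Pi.single i 1 ∈ S
  · rw [if_pos h1, if_pos (h h1)]
  · rw [if_neg h1]
    split_ifs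
    · positivity
    · exact le_rfl

private theorem en_term_nonneg {k : ℕ} (φ : (Fin k → ℤ) → ℝ) (T : Finset (Fin k → ℤ))
    (y : Fin k → ℤ) : 0 ≤ 
      ∑ i : Fin k, if y + Pi.single i 1 ∈ T then |φ (y + Pi.single i 1) - φ y| ^ k else 0 := by
  refine Finset.sum_nonneg fun i _ => ?_
  split_ifs
  · positivity
  · exact le_rfl

theorem en_mono {k : ℕ} (φ : (Fin k → ℤ) → ℝ) {S T : Finset (Fin k → ℤ)} (h : S ⊆ T) : en φ S ≤ en φ T := by
  unfold en
  refine (Finset.sum_le_sum fun y _ => en_term_mono φ h y).trans ?_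
  exact Finset.sum_le_sum_of_subset_of_nonneg h (fun y _ _ => en_term_nonneg φ T y)

/-- the energies of disjoint sets add up -/
theorem en_sum {k : ℕ} (φ : (Fin k → ℤ) → ℝ) {ι : Type} [DecidableEq ι] (I : Finset ι)
    (S : ι → Finset (Fin k → ℤ)) (T : Finset (Fin k → ℤ)) (hS : ∀ i ∈ I, S i ⊆ T)
    (hd : ∀ i ∈ I, ∀ j ∈ I, i ≠ j → Disjoint (S i) (S j)) : ∑ i ∈ I, en φ (S i) ≤ en φ T := by
  have h1 : ∑ i ∈ I, en φ (S i) ≤ ∑ i ∈ I, ∑ y ∈ S i,
      ∑ l : Fin k, if y + Pi.single l 1 ∈ T then |φ (y + Pi.single l 1) - φ y| ^ k else 0 := by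
    refine Finset.sum_le_sum fun i hi => ?_
    unfold en
    exact Finset.sum_le_sum fun y _ => en_term_mono φ (hS i hi) y
  refine h1.trans ?_
  rw [← Finset.sum_biUnion (s := I) (t := S)]
  · unfold en
    refine Finset.sum_le_sum_of_subset_of_nonneg ?_ (fun y _ _ => en_term_nonneg φ T y)
    intro y hy
    obtain ⟨i, hi, hy⟩ := Finset.mem_biUnion.mp hy
    exact hS i hi hy
  · intro i hi j hj hij
    exact hd i hi j hj hij

private theorem box_shift {k : ℕ} (φ : (Fin k → ℤ) → ℝ) (a : Fin k → ℤ) (s : ℕ) (v : Fin k → ℤ) :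
    ∑ y ∈ box (a + v) s, φ y = ∑ y ∈ box a s, φ (y + v) := by
  symm
  refine Finset.sum_bij (fun y _ => y + v) ?_ ?_ ?_ ?_
  · intro y hy
    rw [mem_box] at hy ⊢
    intro i
    have := hy i
    simp only [Pi.add_apply]
    constructor <;> linarith [this.1, this.2]
  · intro y _ z _ h
    exact add_right_cancel h
  · intro z hz
    refine ⟨z - v, ?_, by simp⟩
    rw [mem_box] at hz ⊢
    intro i
    have := hz i
    simp only [Pi.add_apply] at this
    simp only [Pi.sub_apply]
    constructor <;> linarith [this.1, this.2]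
  · intro y _
    rfl

private theorem smul_single {k : ℕ} (i : Fin k) (t : ℤ) (j : Fin k) :
    (Pi.single i t : Fin k → ℤ) j = if j = i then t else 0 := by
  simp [Pi.single_apply]

private theorem line_tele {k : ℕ} (φ : (Fin k → ℤ) → ℝ) (y : Fin k → ℤ) (i : Fin k) (s : ℕ) :
    |φ (y + Pi.single i (s : ℤ)) - φ y| ≤ ∑ t ∈ Finset.range s,
      |φ (y + Pi.single i (t : ℤ) + Pi.single i 1) - φ (y + Pi.single i (t : ℤ))| := by
  induction s with
  | zero => simp
  | succ s ih =>
    rw [Finset.sum_range_succ]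
    have e1 : y + Pi.single i ((s + 1 : ℕ) : ℤ) = y + Pi.single i (s : ℤ) + Pi.single i 1 := by
      rw [add_assoc, ← Pi.single_add]
      push_cast
      rfl
    rw [e1]
    calc |φ (y + Pi.single i (s : ℤ) + Pi.single i 1) - φ y| 
        = |(φ (y + Pi.single i (s : ℤ)) - φ y) + (φ (y + Pi.single i (s : ℤ) + Pi.single i 1) -
            φ (y + Pi.single i (s : ℤ)))| := by ring_nf
      _ ≤ _ := abs_add_le _ _
      _ ≤ _ := by gcongr

theorem avg_adj {k : ℕ} (hk : 1 ≤ k) (φ : (Fin k → ℤ) → ℝ) (a : Fin k → ℤ) {s : ℕ} (hs : 1 ≤ s) (i : Fin k) :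
    |avg φ (a + Pi.single i (s : ℤ)) s - avg φ a s| ≤
      2 * (en φ (box a s ∪ box (a + Pi.single i (s : ℤ)) s)) ^ (1 / (k : ℝ)) := by
  set U := box a s ∪ box (a + Pi.single i (s : ℤ)) s with hU
  set d : (Fin k → ℤ) → ℝ := fun z => if z + Pi.single i 1 ∈ U then |φ (z + Pi.single i 1) - φ z| else 0 with hd
  have hd0 : ∀ z, 0 ≤ d z := by
    intro z
    simp only [hd]
    split_ifs
    · exact abs_nonneg _
    · exact le_rfl
  have hsR : (0 : ℝ) < s := by exact_mod_cast hs
  -- membership in the union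
  have hmem : ∀ y ∈ box a s, ∀ t : ℕ, t < 2 * s → t ≤ s → y + Pi.single i (t : ℤ) ∈ U := by
    intro y hy t _ ht
    rw [hU, Finset.mem_union, mem_box, mem_box]
    rw [mem_box] at hy
    by_cases h : y i + t < a i + s
    · left
      intro j
      simp only [Pi.add_apply, smul_single]
      have := hy j
      by_cases hj : j = i
      · subst hj
        rw [if_pos rfl]
        constructor
        · have : (0 : ℤ) ≤ t := by positivity
          linarith [(hy j).1]
        · exact h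
      · rw [if_neg hj]
        constructor <;> linarith [this.1, this.2]
    · right
      intro j
      simp only [Pi.add_apply, smul_single]
      have := hy j
      by_cases hj : j = i
      · subst hj
        rw [if_pos rfl, if_pos rfl]
        constructor
        · linarith
        · have h2 : (t : ℤ) ≤ s := by exact_mod_cast ht
          linarith [(hy j).2]
      · rw [if_neg hj, if_neg hj]
        constructor <;> linarith [this.1, this.2]
  have hcard : (U.card : ℝ) ≤ 2 * (s : ℝ) ^ k := by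
    have h1 : U.card ≤ (box a s).card + (box (a + Pi.single i (s : ℤ)) s).card := Finset.card_union_le _ _
    rw [card_box, card_box] at h1
    have h2 : (U.card : ℝ) ≤ ((s ^ k + s ^ k : ℕ) : ℝ) := by exact_mod_cast h1
    push_cast at h2
    linarith
  -- the difference
  have h0 : ∑ y ∈ box a s, |φ (y + Pi.single i (s : ℤ)) - φ y| ≤ s * ∑ z ∈ U, d z := by
    have q1 : ∑ y ∈ box a s, |φ (y + Pi.single i (s : ℤ)) - φ y| ≤ ∑ y ∈ box a s, ∑ t ∈ Finset.range s,
          |φ (y + Pi.single i (t : ℤ) + Pi.single i 1) - φ (y + Pi.single i (t : ℤ))| :=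
      Finset.sum_le_sum fun y _ => line_tele φ y i s
    rw [Finset.sum_comm] at q1
    refine q1.trans ?_
    have q2 : ∑ t ∈ Finset.range s, ∑ z ∈ U, d z = s * ∑ z ∈ U, d z := by
      rw [Finset.sum_const, Finset.card_range, nsmul_eq_mul]
    rw [← q2]
    refine Finset.sum_le_sum fun t ht => ?_
    rw [Finset.mem_range] at ht
    have e1 : ∑ y ∈ box a s, |φ (y + Pi.single i (t : ℤ) + Pi.single i 1) - φ (y + Pi.single i (t : ℤ))| =
        ∑ y ∈ box a s, d (y + Pi.single i (t : ℤ)) := by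
      refine Finset.sum_congr rfl fun y hy => ?_
      have h3 : y + Pi.single i (t : ℤ) + Pi.single i 1 ∈ U := by
        have h4 := hmem y hy (t + 1) (by omega) (by omega)
        have e2 : y + Pi.single i ((t + 1 : ℕ) : ℤ) = y + Pi.single i (t : ℤ) + Pi.single i 1 := by
          rw [add_assoc, ← Pi.single_add]
          push_cast
          rfl
        rwa [e2] at h4
      simp only [hd]
      rw [if_pos h3]
    rw [e1]
    have e2 : ∑ y ∈ box a s, d (y + Pi.single i (t : ℤ)) = 
        ∑ z ∈ (box a s).image (fun y => y + Pi.single i (t : ℤ)), d z := by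
      rw [Finset.sum_image]
      intro y _ z _ h
      exact add_right_cancel h
    rw [e2]
    refine Finset.sum_le_sum_of_subset_of_nonneg ?_ (fun z _ _ => hd0 z)
    intro z hz
    obtain ⟨y, hy, rfl⟩ := Finset.mem_image.mp hz
    exact hmem y hy t (by omega) (by omega)
  have h1 : |avg φ (a + Pi.single i (s : ℤ)) s - avg φ a s| ≤ (s * ∑ z ∈ U, d z) / (s : ℝ) ^ k := by
    unfold avg
    rw [box_shift φ a s (Pi.single i (s : ℤ)), ← sub_div, ← Finset.sum_sub_distrib, abs_div,
      abs_of_pos (by positivity : (0 : ℝ) < (s : ℝ) ^ k)]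
    refine div_le_div_of_nonneg_right ?_ (by positivity)
    exact (Finset.abs_sum_le_sum_abs _ _).trans h0
  -- energy
  have h2 : ∑ z ∈ U, d z ^ k ≤ en φ U := by
    unfold en
    refine Finset.sum_le_sum fun z _ => ?_
    have h3 : d z ^ k = (fun l : Fin k => if z + Pi.single l 1 ∈ U then |φ (z + Pi.single l 1) - φ z| ^ k else 0) i := by
      simp only [hd]
      split_ifs
      · rfl
      · exact zero_pow (by omega)
    rw [h3]
    refine Finset.single_le_sum (f := fun l : Fin k => if z + Pi.single l 1 ∈ U then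
      |φ (z + Pi.single l 1) - φ z| ^ k else 0) ?_ (Finset.mem_univ i)
    intro l _
    split_ifs
    · positivity
    · exact le_rfl
  have hE := en_nonneg φ U
  -- the power mean inequality
  have h3 : (∑ z ∈ U, d z) ^ k ≤ (U.card : ℝ) ^ (k - 1) * ∑ z ∈ U, d z ^ k := by
    obtain ⟨n, rfl⟩ : ∃ n, k = n + 1 := ⟨k - 1, by omega⟩
    have h4 := pow_sum_div_card_le_sum_pow (s := U) (f := d) (fun z _ => hd0 z) n
    rcases Nat.eq_zero_or_pos U.card with h0 | h0
    · rw [Finset.card_eq_zero] at h0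
      rw [h0]
      simp
    · have h5 : (0 : ℝ) < (U.card : ℝ) ^ n := by positivity
      rw [div_le_iff₀ h5] at h4
      simp only [Nat.add_sub_cancel]
      linarith [mul_comm (∑ z ∈ U, d z ^ (n + 1)) ((U.card : ℝ) ^ n)]
  set X := (s * ∑ z ∈ U, d z) / (s : ℝ) ^ k with hX
  have hsum0 : 0 ≤ ∑ z ∈ U, d z := Finset.sum_nonneg fun z _ => hd0 z
  have hX0 : 0 ≤ X := by positivity
  have h4 : X ^ k ≤ 2 ^ k * en φ U := by
    have h5 : (∑ z ∈ U, d z) ^ k ≤ (2 * (s : ℝ) ^ k) ^ (k - 1) * en φ U := by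
      refine h3.trans ?_
      gcongr
    rw [hX, div_pow, mul_pow, div_le_iff₀ (by positivity)]
    calc (s : ℝ) ^ k * (∑ z ∈ U, d z) ^ k ≤ (s : ℝ) ^ k * ((2 * (s : ℝ) ^ k) ^ (k - 1) * en φ U) := by gcongr
      _ = 2 ^ (k - 1) * en φ U * ((s : ℝ) ^ k) ^ k := by
        obtain ⟨n, rfl⟩ : ∃ n, k = n + 1 := ⟨k - 1, by omega⟩
        simp only [Nat.add_sub_cancel]
        rw [mul_pow]
        ring
      _ ≤ 2 ^ k * en φ U * ((s : ℝ) ^ k) ^ k := by
        gcongr
        · norm_num
        · omega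
  have h5 : X ≤ 2 * (en φ U) ^ (1 / (k : ℝ)) := by
    have hk0 : (k : ℝ) ≠ 0 := by
      have : (0 : ℝ) < k := by exact_mod_cast hk
      exact this.ne'
    have h6 : X ^ k ≤ (2 * (en φ U) ^ (1 / (k : ℝ))) ^ k := by
      rw [mul_pow, ← Real.rpow_natCast ((en φ U) ^ (1 / (k : ℝ))) k, ← Real.rpow_mul hE, one_div,
        inv_mul_cancel₀ hk0, Real.rpow_one]
      exact h4
    exact le_of_pow_le_pow_left₀ (by omega) (by positivity) h6
  exact h1.trans h5

end Pool.Agent.ANC
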