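import Mathlib
import Pool.Agent.ANC.EDA

/-! EDB: dyadic chains.  `dc j y` is the lowest corner of the dyadic box of side 2^j which contains y. -/

open Finset

namespace Pool.Agent.ANC

/-- the corner of the dyadic box of side `2^j` around `y` -/
def dc {k : ℕ} (j : ℕ) (y : Fin k → ℤ) : Fin k → ℤ := fun i => 2 ^ j * (y i / 2 ^ j)

private theorem edb_pow (j : ℕ) : (0 : ℤ) < 2 ^ j := by positivity

private theorem edb_mem {k : ℕ} (j : ℕ) (y z : Fin k → ℤ) :
    z ∈ box (dc j y) (2 ^ j) ↔ ∀ i, z i / 2 ^ j = y i / 2 ^ j := by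
  rw [mem_box]
  refine forall_congr' (fun i => ?_)
  have h := edb_pow j
  rw [Int.ediv_eq_iff_of_pos h]
  unfold dc
  push_cast
  constructor
  · rintro ⟨h1, h2⟩
    constructor <;> nlinarith
  · rintro ⟨h1, h2⟩
    constructor <;> nlinarith

theorem mem_dbox {k : ℕ} (j : ℕ) (y : Fin k → ℤ) : y ∈ box (dc j y) (2 ^ j) :=
  (edb_mem j y y).2 (fun _ => rfl)

/-- two dyadic boxes of the same side are equal or disjoint -/
theorem dbox_disj {k : ℕ} (j : ℕ) (y y' : Fin k → ℤ) (h : dc j y ≠ dc j y') :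
    Disjoint (box (dc j y) (2 ^ j)) (box (dc j y') (2 ^ j)) := by
  rw [Finset.disjoint_left]
  intro z hz hz'
  rw [edb_mem] at hz hz'
  refine h ?_
  funext i
  unfold dc
  rw [← hz i, ← hz' i]

private theorem edb_div {i j : ℕ} (h : i ≤ j) (a : ℤ) : a / 2 ^ j = a / 2 ^ i / 2 ^ (j - i) := by
  rw [Int.ediv_ediv_of_nonneg (edb_pow i).le, ← pow_add, Nat.add_sub_cancel' h]

theorem dbox_mono {k : ℕ} {i j : ℕ} (h : i ≤ j) (y : Fin k → ℤ) :
    box (dc i y) (2 ^ i) ⊆ box (dc j y) (2 ^ j) := by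
  intro z hz
  rw [edb_mem] at hz ⊢
  intro l
  rw [edb_div h, edb_div h, hz l]

/-- the corner of a child -/
private def edb_c {k : ℕ} (a : Fin k → ℤ) (s : ℕ) (T : Finset (Fin k)) : Fin k → ℤ :=
  fun i => a i + if i ∈ T then (s : ℤ) else 0

private theorem edb_c_insert {k : ℕ} (a : Fin k → ℤ) (s : ℕ) (T : Finset (Fin k)) {i : Fin k}
    (hi : i ∉ T) : edb_c a s (insert i T) = edb_c a s T + Pi.single i (s : ℤ) := by
  funext l
  unfold edb_c
  rw [Pi.add_apply]
  by_cases h : l = i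
  · subst h
    simp [hi]
  · simp [h, Finset.mem_insert]

private theorem edb_c_sub {k : ℕ} (a : Fin k → ℤ) (s : ℕ) (T : Finset (Fin k)) :
    box (edb_c a s T) s ⊆ box a (2 * s) := by
  intro y hy
  rw [mem_box] at hy ⊢
  intro i
  have := hy i
  unfold edb_c at this
  push_cast
  split_ifs at this <;> constructor <;> linarith

private theorem edb_sum {k : ℕ} (φ : (Fin k → ℤ) → ℝ) (a : Fin k → ℤ) (s : ℕ) :
    ∑ T : Finset (Fin k), ∑ y ∈ box (edb_c a s T) s, φ y = ∑ y ∈ box a (2 * s), φ y := by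
  classical
  rw [← Finset.sum_fiberwise (box a (2 * s))
    (fun y => Finset.univ.filter (fun i => a i + s ≤ y i)) φ]
  refine Finset.sum_congr rfl (fun T _ => ?_)
  refine Finset.sum_congr ?_ (fun _ _ => rfl)
  ext y
  rw [Finset.mem_filter, mem_box, mem_box, Finset.ext_iff, ← forall_and]
  refine forall_congr' (fun i => ?_)
  unfold edb_c
  push_cast
  rw [Finset.mem_filter]
  by_cases h : i ∈ T
  · simp only [h, if_true, iff_true, Finset.mem_univ, true_and]
    constructor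
    · rintro ⟨h1, h2⟩
      exact ⟨⟨by linarith, by linarith⟩, h1⟩
    · rintro ⟨⟨h1, h2⟩, h3⟩
      exact ⟨h3, by linarith⟩
  · simp only [h, if_false, iff_false, Finset.mem_univ, true_and, not_le]
    constructor
    · rintro ⟨h1, h2⟩
      exact ⟨⟨by linarith, by linarith⟩, by linarith⟩
    · rintro ⟨⟨h1, h2⟩, h3⟩
      exact ⟨by linarith, by linarith⟩

private theorem edb_walk {k : ℕ} (F : Finset (Fin k) → ℝ) {c : ℝ} (hc : 0 ≤ c)
    (h : ∀ T : Finset (Fin k), ∀ i ∉ T, |F (insert i T) - F T| ≤ c) (T R : Finset (Fin k)) :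
    |F (T ∪ R) - F T| ≤ c * R.card := by
  classical
  induction R using Finset.induction_on with
  | empty => simp
  | insert i R hi ih =>
    rw [Finset.union_insert, Finset.card_insert_of_notMem hi]
    push_cast
    by_cases h1 : i ∈ T ∪ R
    · rw [Finset.insert_eq_self.2 h1]
      linarith
    · have h2 := h _ i h1
      have h3 := abs_sub_le (F (insert i (T ∪ R))) (F (T ∪ R)) (F T)
      linarith

private theorem edb_walk2 {k : ℕ} (F : Finset (Fin k) → ℝ) {c : ℝ} (hc : 0 ≤ c)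
    (h : ∀ T : Finset (Fin k), ∀ i ∉ T, |F (insert i T) - F T| ≤ c) (T R : Finset (Fin k)) :
    |F T - F R| ≤ c * k := by
  classical
  have h1 := edb_walk F hc h T (R \ T)
  have h2 := edb_walk F hc h R (T \ R)
  rw [Finset.union_sdiff_self_eq_union] at h1 h2
  rw [Finset.union_comm R T] at h2
  have h3 : ((R \ T).card : ℝ) + (T \ R).card ≤ k := by
    have h4 : (R \ T).card + (T \ R).card ≤ k := by
      rw [← Finset.card_union_of_disjoint]
      · exact (Finset.card_le_univ _).trans (by simp)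
      · rw [Finset.disjoint_left]
        intro x hx hx'
        rw [Finset.mem_sdiff] at hx hx'
        exact hx.2 hx'.1
    exact_mod_cast h4
  have h5 := abs_sub_le (F T) (F (T ∪ R)) (F R)
  rw [abs_sub_comm (F T) (F (T ∪ R))] at h5
  have h6 := mul_le_mul_of_nonneg_left h3 hc
  rw [mul_add] at h6
  linarith

private theorem edb_parent {k : ℕ} (hk : 1 ≤ k) (φ : (Fin k → ℤ) → ℝ) (a : Fin k → ℤ) {s : ℕ}
    (hs : 1 ≤ s) (T : Finset (Fin k)) :
    |avg φ (edb_c a s T) s - avg φ a (2 * s)| ≤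
      2 * k * (en φ (box a (2 * s))) ^ (1 / (k : ℝ)) := by
  classical
  set E : ℝ := (en φ (box a (2 * s))) ^ (1 / (k : ℝ)) with hE
  have hE0 : 0 ≤ E := Real.rpow_nonneg (en_nonneg _ _) _
  have hstep : ∀ T : Finset (Fin k), ∀ i ∉ T,
      |avg φ (edb_c a s (insert i T)) s - avg φ (edb_c a s T) s| ≤ 2 * E := by
    intro T i hi
    have h1 := avg_adj hk φ (edb_c a s T) hs i
    rw [← edb_c_insert a s T hi] at h1
    refine h1.trans (mul_le_mul_of_nonneg_left ?_ (by norm_num))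
    refine Real.rpow_le_rpow (en_nonneg _ _) (en_mono _ ?_) (by positivity)
    exact Finset.union_subset (edb_c_sub _ _ _) (edb_c_sub _ _ _)
  have hF := edb_walk2 (fun T => avg φ (edb_c a s T) s) (c := 2 * E) (by positivity) hstep
  have hs0 : (0 : ℝ) < s := by exact_mod_cast hs
  have hpar : avg φ a (2 * s) = (∑ R : Finset (Fin k), avg φ (edb_c a s R) s) / 2 ^ k := by
    unfold avg
    rw [← Finset.sum_div, edb_sum, div_div]
    congr 1
    push_cast
    rw [mul_pow, mul_comm]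
  have hcard : (∑ _R : Finset (Fin k), (1 : ℝ)) = 2 ^ k := by
    rw [Finset.sum_const, nsmul_eq_mul, mul_one, Finset.card_univ, Fintype.card_finset, Fintype.card_fin]
    push_cast
    rfl
  have h2k : (0 : ℝ) < 2 ^ k := by positivity
  have hdiff : avg φ (edb_c a s T) s - avg φ a (2 * s) =
      (∑ R : Finset (Fin k), (avg φ (edb_c a s T) s - avg φ (edb_c a s R) s)) / 2 ^ k := by
    rw [Finset.sum_sub_distrib, hpar, sub_div]
    congr 1
    rw [Finset.sum_const, nsmul_eq_mul, Finset.card_univ, Fintype.card_finset, Fintype.card_fin]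
    push_cast
    field_simp
  rw [hdiff, abs_div, abs_of_pos h2k, div_le_iff₀ h2k]
  calc |∑ R : Finset (Fin k), (avg φ (edb_c a s T) s - avg φ (edb_c a s R) s)|
      ≤ ∑ R : Finset (Fin k), |avg φ (edb_c a s T) s - avg φ (edb_c a s R) s| :=
        Finset.abs_sum_le_sum_abs _ _
    _ ≤ ∑ _R : Finset (Fin k), 2 * E * k := Finset.sum_le_sum (fun R _ => hF T R)
    _ = 2 * k * E * 2 ^ k := by
        rw [← hcard, Finset.mul_sum]
        refine Finset.sum_congr rfl (fun _ _ => ?_)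
        ring

private theorem edb_child {k : ℕ} (j : ℕ) (y : Fin k → ℤ) :
    ∃ T : Finset (Fin k), dc j y = edb_c (dc (j + 1) y) (2 ^ j) T := by
  classical
  refine ⟨Finset.univ.filter (fun i => y i / 2 ^ j % 2 = 1), ?_⟩
  funext i
  unfold edb_c dc
  simp only [Finset.mem_filter, Finset.mem_univ, true_and]
  have h1 : y i / 2 ^ (j + 1) = y i / 2 ^ j / 2 := by
    have := edb_div (Nat.le_succ j) (y i)
    rw [Nat.succ_eq_add_one, Nat.add_sub_cancel_left, pow_one] at this
    exact this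
  rw [h1, pow_succ]
  push_cast
  have h2 := Int.emod_add_mul_ediv (y i / 2 ^ j) 2
  rcases Int.emod_two_eq_zero_or_one (y i / 2 ^ j) with h | h
  · rw [h] at h2 ⊢
    simp only [zero_ne_one, if_false, add_zero]
    have h3 : y i / 2 ^ j = 0 + 2 * (y i / 2 ^ j / 2) := h2.symm
    calc (2 : ℤ) ^ j * (y i / 2 ^ j) = 2 ^ j * (0 + 2 * (y i / 2 ^ j / 2)) := by rw [← h3]
      _ = _ := by ring
  · rw [h] at h2 ⊢
    simp only [if_true]
    have h3 : y i / 2 ^ j = 1 + 2 * (y i / 2 ^ j / 2) := h2.symm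
    calc (2 : ℤ) ^ j * (y i / 2 ^ j) = 2 ^ j * (1 + 2 * (y i / 2 ^ j / 2)) := by rw [← h3]
      _ = _ := by ring

/-- one dyadic step: parent and child averages -/
theorem avg_child {k : ℕ} (hk : 1 ≤ k) (φ : (Fin k → ℤ) → ℝ) (j : ℕ) (y : Fin k → ℤ) :
    |avg φ (dc j y) (2 ^ j) - avg φ (dc (j + 1) y) (2 ^ (j + 1))| ≤
      2 * k * (en φ (box (dc (j + 1) y) (2 ^ (j + 1)))) ^ (1 / (k : ℝ)) := by
  obtain ⟨T, hT⟩ := edb_child j y
  have h := edb_parent hk φ (dc (j + 1) y) (s := 2 ^ j) Nat.one_le_two_pow T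
  rw [← hT, ← pow_succ'] at h
  exact h

/-- the chain from the box of side `2^m` to the point -/
theorem chain {k : ℕ} (hk : 1 ≤ k) (φ : (Fin k → ℤ) → ℝ) (m : ℕ) (y : Fin k → ℤ) :
    |φ y - avg φ (dc m y) (2 ^ m)| ≤
      2 * k * ∑ j ∈ Finset.range m, (en φ (box (dc (j + 1) y) (2 ^ (j + 1)))) ^ (1 / (k : ℝ)) := by
  induction m with
  | zero =>
    have h1 : box (dc 0 y) (2 ^ 0) = {y} := by
      ext z
      rw [edb_mem, Finset.mem_singleton, funext_iff]
      simp
    have h2 : avg φ (dc 0 y) (2 ^ 0) = φ y := by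
      unfold avg
      rw [h1]
      simp
    rw [h2]
    simp
  | succ m ih =>
    rw [Finset.sum_range_succ, mul_add]
    have h1 := avg_child hk φ m y
    have h2 := abs_sub_le (φ y) (avg φ (dc m y) (2 ^ m)) (avg φ (dc (m + 1) y) (2 ^ (m + 1)))
    linarith

end Pool.Agent.ANC
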