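import Mathlib
import Pool.Agent.ANC.EDB

/-! EDC: summation of the chains over the points y τ, n < τ < 2n, n = 2^m, with sup norm τ.
For each level j ≤ m: Σ_τ en(box_j (y τ)) ≤ 2^j en(A) (a dyadic box of side 2^j contains y τ for at most 2^j values of τ:
on a dyadic box no coordinate changes sign, every |y i| runs over 2^j consecutive numbers, hence so does the maximum;
boxes of one level are disjoint, en_sum).  Hölder in τ (at most 2^m terms): Σ_τ en(box_j (y τ))^{1/k} ≤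
(2^m)^{1-1/k} (2^j en A)^{1/k} = 2^m (2^{j-m})^{1/k} (en A)^{1/k}; geometric series over j ≤ m with ratio 2^{-1/k}. -/

open Finset

namespace Pool.Agent.ANC

/-- the sup norm of an integer vector -/
def sn {k : ℕ} (y : Fin k → ℤ) : ℕ := Finset.univ.sup (fun i => (y i).natAbs)

/-- the annulus between the boxes `[-n,n)^k` and `[-2n,2n)^k` -/
noncomputable def ann {k : ℕ} (n : ℕ) : Finset (Fin k → ℤ) :=
  box (fun _ => -(2 * n : ℤ)) (4 * n) \ box (fun _ => -(n : ℤ)) (2 * n)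

private theorem EDC_le_sn {k : ℕ} (y : Fin k → ℤ) (i : Fin k) : (y i).natAbs ≤ sn y := by
  unfold sn
  exact Finset.le_sup (f := fun i => (y i).natAbs) (Finset.mem_univ i)

private theorem EDC_sn_le {k : ℕ} (y y' : Fin k → ℤ) (j : ℕ) (h : dc j y = dc j y') : sn y ≤ sn y' + (2 ^ j - 1) := by
  unfold sn
  apply Finset.sup_le
  intro i _
  have h1 := congrFun h i
  unfold dc at h1
  have hp : (0 : ℤ) < 2 ^ j := by positivity
  have h2 : y i / 2 ^ j = y' i / 2 ^ j := mul_left_cancel₀ hp.ne' h1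
  have h3 := Int.emod_add_mul_ediv (y i) (2 ^ j)
  have h4 := Int.emod_add_mul_ediv (y' i) (2 ^ j)
  have h5 := Int.emod_lt_of_pos (y i) hp
  have h6 := Int.emod_lt_of_pos (y' i) hp
  have h7 := Int.emod_nonneg (y i) hp.ne'
  have h8 := Int.emod_nonneg (y' i) hp.ne'
  rw [h2] at h3
  have h9 : (y' i).natAbs ≤ Finset.univ.sup (fun i => (y' i).natAbs) :=
    Finset.le_sup (f := fun i => (y' i).natAbs) (Finset.mem_univ i)
  have h10 : ((2 ^ j : ℕ) : ℤ) = (2 : ℤ) ^ j := by push_cast; rfl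
  have h11 : 1 ≤ 2 ^ j := Nat.one_le_two_pow
  generalize (2 : ℤ) ^ j * (y' i / 2 ^ j) = w at h3 h4
  generalize y i % 2 ^ j = u at h3 h5 h7
  generalize y' i % 2 ^ j = v at h4 h6 h8
  have h12 : (y i).natAbs ≤ (y' i).natAbs + (2 ^ j - 1) := by
    rw [← h10] at h5 h6
    omega
  omega

private theorem EDC_box_sub {k : ℕ} (m : ℕ) (y : Fin k → ℤ) (h1 : 2 ^ m < sn y) (h2 : sn y < 2 ^ (m + 1)) :
    box (dc m y) (2 ^ m) ⊆ ann (2 ^ m) := by
  have hne : (Finset.univ : Finset (Fin k)).Nonempty := by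
    by_contra hcon
    rw [Finset.not_nonempty_iff_eq_empty] at hcon
    unfold sn at h1
    rw [hcon, Finset.sup_empty] at h1
    exact absurd h1 (Nat.not_lt_zero _)
  obtain ⟨i0, _, hi0⟩ := Finset.exists_mem_eq_sup Finset.univ hne (fun i => (y i).natAbs)
  have hi1 : sn y = (y i0).natAbs := hi0
  have hp : (0 : ℤ) < 2 ^ m := by positivity
  have hc : ((2 ^ m : ℕ) : ℤ) = (2 : ℤ) ^ m := by push_cast; rfl
  have hall : ∀ i, -2 ≤ y i / 2 ^ m ∧ y i / 2 ^ m ≤ 1 := by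
    intro i
    have h3 := EDC_le_sn y i
    have h4 : (y i).natAbs < 2 ^ (m + 1) := lt_of_le_of_lt h3 h2
    rw [pow_succ] at h4
    constructor
    · rw [Int.le_ediv_iff_mul_le hp, ← hc]
      omega
    · have : y i / 2 ^ m < 2 := by
        rw [Int.ediv_lt_iff_lt_mul hp, ← hc]
        omega
      omega
  intro z hz
  rw [mem_box] at hz
  unfold ann
  rw [Finset.mem_sdiff, mem_box, mem_box]
  constructor
  · intro i
    have h3 := hz i
    have h4 := hall i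
    unfold dc at h3
    push_cast at h3 ⊢
    constructor
    · nlinarith [h3.1, h4.1]
    · nlinarith [h3.2, h4.2]
  · intro hcon
    have h3 := hz i0
    have h4 := hcon i0
    have h5 := hall i0
    unfold dc at h3
    push_cast at h3 h4
    have h6 : y i0 / 2 ^ m = 1 ∨ y i0 / 2 ^ m = -2 := by
      rw [hi1] at h1
      rcases le_or_gt 0 (y i0) with h7 | h7
      · left
        apply le_antisymm h5.2
        rw [Int.le_ediv_iff_mul_le hp, ← hc]
        omega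
      · right
        apply le_antisymm _ h5.1
        have : y i0 / 2 ^ m < -1 := by
          rw [Int.ediv_lt_iff_lt_mul hp, ← hc]
          omega
        omega
    rcases h6 with h6 | h6
    · rw [h6] at h3
      linarith [h3.1, h4.2]
    · rw [h6] at h3
      linarith [h3.2, h4.1]

/-- the number of indices with the same corner -/
private theorem EDC_fiber {k : ℕ} (T : Finset ℕ) (y : ℕ → Fin k → ℤ) (hy : ∀ τ ∈ T, sn (y τ) = τ) (j : ℕ)
    (c : Fin k → ℤ) : (T.filter fun τ => dc j (y τ) = c).card ≤ 2 ^ j := by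
  rcases (T.filter fun τ => dc j (y τ) = c).eq_empty_or_nonempty with h | h
  · rw [h, Finset.card_empty]
    exact Nat.zero_le _
  · set τ0 := (T.filter fun τ => dc j (y τ) = c).min' h with hτ0
    have h0 := Finset.mem_filter.1 (Finset.min'_mem _ h)
    have hsub : (T.filter fun τ => dc j (y τ) = c) ⊆ Finset.Ico τ0 (τ0 + 2 ^ j) := by
      intro τ hτ
      have h1 := Finset.mem_filter.1 hτ
      have h2 : τ0 ≤ τ := Finset.min'_le _ _ hτ
      have h3 := EDC_sn_le (y τ) (y τ0) j (by rw [h1.2]; exact h0.2.symm)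
      rw [hy τ h1.1, hy τ0 h0.1] at h3
      have h4 : 1 ≤ 2 ^ j := Nat.one_le_two_pow
      rw [Finset.mem_Ico]
      omega
    refine (Finset.card_le_card hsub).trans ?_
    rw [Nat.card_Ico, Nat.add_sub_cancel_left]

private theorem EDC_level {k : ℕ} (m : ℕ) (φ : (Fin k → ℤ) → ℝ) (y : ℕ → Fin k → ℤ)
    (hy : ∀ τ ∈ Finset.Ioo (2 ^ m) (2 ^ (m + 1)), sn (y τ) = τ) (j : ℕ) (hj : j ≤ m) :
    ∑ τ ∈ Finset.Ioo (2 ^ m) (2 ^ (m + 1)), en φ (box (dc j (y τ)) (2 ^ j)) ≤ 2 ^ j * en φ (ann (2 ^ m)) := by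
  classical
  set T := Finset.Ioo (2 ^ m) (2 ^ (m + 1)) with hT
  set C := T.image (fun τ => dc j (y τ)) with hC
  have h1 : ∑ τ ∈ T, en φ (box (dc j (y τ)) (2 ^ j)) =
      ∑ c ∈ C, ∑ τ ∈ T.filter (fun τ => dc j (y τ) = c), en φ (box (dc j (y τ)) (2 ^ j)) :=
    (Finset.sum_fiberwise_of_maps_to (fun τ hτ => Finset.mem_image_of_mem _ hτ) _).symm
  rw [h1]
  have h2 : ∀ c ∈ C, ∑ τ ∈ T.filter (fun τ => dc j (y τ) = c), en φ (box (dc j (y τ)) (2 ^ j)) ≤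
      2 ^ j * en φ (box c (2 ^ j)) := by
    intro c _
    have h3 : ∑ τ ∈ T.filter (fun τ => dc j (y τ) = c), en φ (box (dc j (y τ)) (2 ^ j)) =
        ∑ τ ∈ T.filter (fun τ => dc j (y τ) = c), en φ (box c (2 ^ j)) := by
      apply Finset.sum_congr rfl
      intro τ hτ
      rw [(Finset.mem_filter.1 hτ).2]
    rw [h3, Finset.sum_const, nsmul_eq_mul]
    apply mul_le_mul_of_nonneg_right _ (en_nonneg _ _)
    exact_mod_cast EDC_fiber T y hy j c
  refine (Finset.sum_le_sum h2).trans ?_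
  rw [← Finset.mul_sum]
  apply mul_le_mul_of_nonneg_left _ (by positivity)
  apply en_sum φ C (fun c => box c (2 ^ j)) (ann (2 ^ m))
  · intro c hc
    obtain ⟨τ, hτ, rfl⟩ := Finset.mem_image.1 hc
    have h4 := hy τ hτ
    rw [hT, Finset.mem_Ioo] at hτ
    exact (dbox_mono hj (y τ)).trans (EDC_box_sub m (y τ) (by rw [h4]; exact hτ.1) (by rw [h4]; exact hτ.2))
  · intro c hc c' hc' hne
    obtain ⟨τ, hτ, rfl⟩ := Finset.mem_image.1 hc
    obtain ⟨τ', hτ', rfl⟩ := Finset.mem_image.1 hc'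
    exact dbox_disj j (y τ) (y τ') hne

private theorem EDC_holder {k : ℕ} (hk : 1 ≤ k) (T : Finset ℕ) (a : ℕ → ℝ) (ha : ∀ τ, 0 ≤ a τ) (N B : ℝ)
    (hN : (T.card : ℝ) ≤ N) (hB : ∑ τ ∈ T, a τ ≤ B) :
    ∑ τ ∈ T, (a τ) ^ (1 / (k : ℝ)) ≤ (N ^ (k - 1) * B) ^ (1 / (k : ℝ)) := by
  have hk0 : (k : ℝ) ≠ 0 := by exact_mod_cast (by omega : k ≠ 0)
  have h0 : ∀ τ, 0 ≤ (a τ) ^ (1 / (k : ℝ)) := fun τ => Real.rpow_nonneg (ha τ) _
  have hk1 : (1 : ℝ) ≤ (k : ℝ) := by exact_mod_cast hk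
  have h1 : (∑ τ ∈ T, (a τ) ^ (1 / (k : ℝ))) ^ k ≤ N ^ (k - 1) * B := by
    have h2 := Real.rpow_sum_le_const_mul_sum_rpow_of_nonneg (s := T) (f := fun τ => a τ ^ (1 / (k : ℝ)))
      (p := (k : ℝ)) hk1 (fun τ _ => h0 τ)
    have h4 : ∀ τ ∈ T, (a τ ^ (1 / (k : ℝ))) ^ (k : ℝ) = a τ := by
      intro τ _
      rw [← Real.rpow_mul (ha τ), one_div_mul_cancel hk0, Real.rpow_one]
    rw [Finset.sum_congr rfl h4, Real.rpow_natCast] at h2
    have h5 : ((k : ℝ) - 1) = ((k - 1 : ℕ) : ℝ) := by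
      rw [Nat.cast_sub hk, Nat.cast_one]
    rw [h5, Real.rpow_natCast] at h2
    refine h2.trans ?_
    have h6 : 0 ≤ ∑ τ ∈ T, a τ := Finset.sum_nonneg fun τ _ => ha τ
    exact mul_le_mul (pow_le_pow_left₀ (Nat.cast_nonneg _) hN _) hB h6
      (pow_nonneg ((Nat.cast_nonneg _).trans hN) _)
  have h3 : 0 ≤ ∑ τ ∈ T, (a τ) ^ (1 / (k : ℝ)) := Finset.sum_nonneg fun τ _ => h0 τ
  calc ∑ τ ∈ T, (a τ) ^ (1 / (k : ℝ))
      = ((∑ τ ∈ T, (a τ) ^ (1 / (k : ℝ))) ^ k) ^ (1 / (k : ℝ)) := by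
        rw [← Real.rpow_natCast, ← Real.rpow_mul h3, mul_one_div_cancel hk0, Real.rpow_one]
    _ ≤ (N ^ (k - 1) * B) ^ (1 / (k : ℝ)) := Real.rpow_le_rpow (by positivity) h1 (by positivity)

theorem chain_sum {k : ℕ} (hk : 1 ≤ k) : ∃ K : ℝ, 0 < K ∧ ∀ (m : ℕ) (φ : (Fin k → ℤ) → ℝ)
    (y : ℕ → Fin k → ℤ), (∀ τ ∈ Finset.Ioo (2 ^ m) (2 ^ (m + 1)), sn (y τ) = τ) →
    ∑ τ ∈ Finset.Ioo (2 ^ m) (2 ^ (m + 1)), |φ (y τ) - avg φ (dc m (y τ)) (2 ^ m)| ≤
      K * 2 ^ m * (en φ (ann (2 ^ m))) ^ (1 / (k : ℝ)) := by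
  have hk0 : (0 : ℝ) < (k : ℝ) := by exact_mod_cast hk
  have hkn : (k : ℝ) ≠ 0 := hk0.ne'
  set q : ℝ := (1 / 2) ^ (1 / (k : ℝ)) with hq
  have hq0 : 0 < q := Real.rpow_pos_of_pos (by norm_num) _
  have hq1 : q < 1 := Real.rpow_lt_one (by norm_num) (by norm_num) (by positivity)
  have hq2 : 0 < 1 - q := by linarith
  refine ⟨2 * k / (1 - q), by positivity, ?_⟩
  intro m φ y hy
  set T := Finset.Ioo (2 ^ m) (2 ^ (m + 1)) with hT
  set E := en φ (ann (2 ^ m)) with hE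
  have hE0 : 0 ≤ E := en_nonneg _ _
  have hcard : ((T.card : ℕ) : ℝ) ≤ (2 : ℝ) ^ m := by
    have : T.card ≤ 2 ^ m := by
      rw [hT, Nat.card_Ioo, pow_succ]
      omega
    exact_mod_cast this
  have hlev : ∀ j ∈ Finset.range m, ∑ τ ∈ T, (en φ (box (dc (j + 1) (y τ)) (2 ^ (j + 1)))) ^ (1 / (k : ℝ)) ≤
      2 ^ m * E ^ (1 / (k : ℝ)) * q ^ (m - 1 - j) := by
    intro j hj
    have hj' := Finset.mem_range.1 hj
    have h1 := EDC_level m φ y hy (j + 1) (by omega)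
    have h2 := EDC_holder hk T (fun τ => en φ (box (dc (j + 1) (y τ)) (2 ^ (j + 1)))) (fun τ => en_nonneg _ _)
      (2 ^ m) (2 ^ (j + 1) * E) hcard h1
    refine h2.trans (le_of_eq ?_)
    have h3 : ((2 : ℝ) ^ m) ^ (k - 1) * (2 ^ (j + 1) * E) = ((2 : ℝ) ^ m) ^ k * ((1 / 2) ^ (m - 1 - j) * E) := by
      have h4 : ((2 : ℝ) ^ m) ^ k = ((2 : ℝ) ^ m) ^ (k - 1) * 2 ^ m := by
        rw [← pow_succ, Nat.sub_add_cancel hk]
      have h5 : (2 : ℝ) ^ m * (1 / 2) ^ (m - 1 - j) = 2 ^ (j + 1) := by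
        have h6 : (2 : ℝ) ^ m = 2 ^ (j + 1) * 2 ^ (m - 1 - j) := by
          rw [← pow_add]
          congr 1
          omega
        rw [h6, mul_assoc, ← mul_pow]
        norm_num
      rw [h4, ← h5]
      ring
    rw [h3, Real.mul_rpow (by positivity) (by positivity), Real.mul_rpow (by positivity) hE0]
    have h7 : (((2 : ℝ) ^ m) ^ k) ^ (1 / (k : ℝ)) = 2 ^ m := by
      rw [← Real.rpow_natCast ((2 : ℝ) ^ m) k, ← Real.rpow_mul (by positivity), mul_one_div_cancel hkn,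
        Real.rpow_one]
    have h8 : (((1 : ℝ) / 2) ^ (m - 1 - j)) ^ (1 / (k : ℝ)) = q ^ (m - 1 - j) := by
      rw [hq, ← Real.rpow_natCast, ← Real.rpow_natCast, ← Real.rpow_mul (by norm_num),
        ← Real.rpow_mul (by norm_num), mul_comm]
    rw [h7, h8]
    ring
  calc ∑ τ ∈ T, |φ (y τ) - avg φ (dc m (y τ)) (2 ^ m)|
      ≤ ∑ τ ∈ T, 2 * k * ∑ j ∈ Finset.range m,
          (en φ (box (dc (j + 1) (y τ)) (2 ^ (j + 1)))) ^ (1 / (k : ℝ)) :=
        Finset.sum_le_sum fun τ _ => chain hk φ m (y τ)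
    _ = 2 * k * ∑ j ∈ Finset.range m, ∑ τ ∈ T,
          (en φ (box (dc (j + 1) (y τ)) (2 ^ (j + 1)))) ^ (1 / (k : ℝ)) := by
        rw [← Finset.mul_sum, Finset.sum_comm]
    _ ≤ 2 * k * ∑ j ∈ Finset.range m, 2 ^ m * E ^ (1 / (k : ℝ)) * q ^ (m - 1 - j) := by
        apply mul_le_mul_of_nonneg_left (Finset.sum_le_sum hlev) (by positivity)
    _ = 2 * k * (2 ^ m * E ^ (1 / (k : ℝ)) * ∑ j ∈ Finset.range m, q ^ j) := by
        rw [← Finset.mul_sum, Finset.sum_range_reflect (fun j => q ^ j) m]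
    _ ≤ 2 * k * (2 ^ m * E ^ (1 / (k : ℝ)) * (1 / (1 - q))) := by
        apply mul_le_mul_of_nonneg_left _ (by positivity)
        apply mul_le_mul_of_nonneg_left _ (by positivity)
        rw [geom_sum_eq hq1.ne, ← neg_div_neg_eq, neg_sub, neg_sub]
        apply div_le_div_of_nonneg_right _ hq2.le
        have : 0 ≤ q ^ m := by positivity
        linarith
    _ = 2 * k / (1 - q) * 2 ^ m * E ^ (1 / (k : ℝ)) := by ring

end Pool.Agent.ANC
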