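import Mathlib
import Pool.Agent.ANC.EDC

/-! EDI: the averages of φ over the big cubes of the annulus (side n = 2^m, corners n a, a ∈ {-2,..,1}^k, some a_i not in
{-1,0}) differ by at most K en(ann)^{1/k}.  Change one coordinate at a time by ±1 steps (avg_adj, en_mono), always
keeping one coordinate outside {-1,0}: from a (coordinate i outside) to a' (coordinate j outside): if i ≠ j first
change all the coordinates except i, then i; if i = j first make another coordinate l equal to -2 (k ≥ 2).
Every y with 2^m < sn y < 2^(m+1) lies in such a cube: dc m y = n a with a_i = y_i / 2^m. -/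

open Finset

namespace Pool.Agent.ANC

private theorem edi_line {k : ℕ} (F : (Fin k → ℤ) → ℝ) (c : ℝ)
    (hstep : ∀ (a : Fin k → ℤ) (i : Fin k), (∀ l, -2 ≤ a l ∧ a l ≤ 1) → a i ≤ 0 →
      (∃ j, j ≠ i ∧ (a j = -2 ∨ a j = 1)) → |F (Function.update a i (a i + 1)) - F a| ≤ c)
    (a : Fin k → ℤ) (i : Fin k) (ha : ∀ l, -2 ≤ a l ∧ a l ≤ 1) (hO : ∃ j, j ≠ i ∧ (a j = -2 ∨ a j = 1))
    (b : ℤ) (hb : -2 ≤ b) (t : ℕ) (ht : b + t ≤ 1) :
    |F (Function.update a i (b + t)) - F (Function.update a i b)| ≤ t * c := by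
  induction t with
  | zero => simp
  | succ t ih =>
    have h1 := ih (by push_cast at ht; linarith)
    push_cast at ht
    have h2 := hstep (Function.update a i (b + t)) i (by
      intro l
      by_cases hl : l = i
      · subst hl
        simp only [Function.update_self]
        constructor <;> omega
      · rw [Function.update_of_ne hl]; exact ha l) (by
        simp only [Function.update_self]; omega) (by
        obtain ⟨j, hj, hj2⟩ := hO
        exact ⟨j, hj, by rw [Function.update_of_ne hj]; exact hj2⟩)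
    simp only [Function.update_self, Function.update_idem] at h2
    have h3 : b + ((t + 1 : ℕ) : ℤ) = b + t + 1 := by push_cast; ring
    rw [h3]
    have h4 := abs_sub_le (F (Function.update a i (b + t + 1))) (F (Function.update a i (b + t)))
      (F (Function.update a i b))
    push_cast
    linarith

private theorem edi_coord {k : ℕ} (F : (Fin k → ℤ) → ℝ) (c : ℝ) (hc : 0 ≤ c)
    (hstep : ∀ (a : Fin k → ℤ) (i : Fin k), (∀ l, -2 ≤ a l ∧ a l ≤ 1) → a i ≤ 0 →
      (∃ j, j ≠ i ∧ (a j = -2 ∨ a j = 1)) → |F (Function.update a i (a i + 1)) - F a| ≤ c)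
    (a : Fin k → ℤ) (i : Fin k) (ha : ∀ l, -2 ≤ a l ∧ a l ≤ 1) (hO : ∃ j, j ≠ i ∧ (a j = -2 ∨ a j = 1))
    (b : ℤ) (hb : -2 ≤ b) (hb' : b ≤ 1) :
    |F (Function.update a i b) - F a| ≤ 3 * c := by
  have key : ∀ x y : ℤ, -2 ≤ x → x ≤ y → y ≤ 1 →
      |F (Function.update a i y) - F (Function.update a i x)| ≤ 3 * c := by
    intro x y hx hxy hy
    obtain ⟨t, ht⟩ := Int.le.dest hxy
    have h1 := edi_line F c hstep a i ha hO x hx t (by omega)
    rw [ht] at h1
    have h2 : (t : ℝ) ≤ 3 := by
      have : t ≤ 3 := by omega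
      exact_mod_cast this
    calc _ ≤ t * c := h1
      _ ≤ 3 * c := by gcongr
  have hself : Function.update a i (a i) = a := Function.update_eq_self i a
  rcases le_total (a i) b with h | h
  · have := key (a i) b (ha i).1 h hb'
    rwa [hself] at this
  · have := key b (a i) hb h (ha i).2
    rw [hself] at this
    rwa [abs_sub_comm]

private theorem edi_all {k : ℕ} (F : (Fin k → ℤ) → ℝ) (c : ℝ) (hc : 0 ≤ c)
    (hstep : ∀ (a : Fin k → ℤ) (i : Fin k), (∀ l, -2 ≤ a l ∧ a l ≤ 1) → a i ≤ 0 →
      (∃ j, j ≠ i ∧ (a j = -2 ∨ a j = 1)) → |F (Function.update a i (a i + 1)) - F a| ≤ c)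
    (a a' : Fin k → ℤ) (ha : ∀ l, -2 ≤ a l ∧ a l ≤ 1) (ha' : ∀ l, -2 ≤ a' l ∧ a' l ≤ 1)
    (j : Fin k) (hj : a j = -2 ∨ a j = 1) (hjj : a' j = a j) :
    |F a' - F a| ≤ k * (3 * c) := by
  have key : ∀ s : Finset (Fin k), j ∉ s →
      |F (fun l => if l ∈ s then a' l else a l) - F a| ≤ s.card * (3 * c) := by
    intro s
    induction s using Finset.induction_on with
    | empty => intro _; simp
    | insert i s his ih =>
      intro hjs
      rw [Finset.mem_insert, not_or] at hjs
      have h1 := ih hjs.2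
      have h2 := edi_coord F c hc hstep (fun l => if l ∈ s then a' l else a l) i (by
        intro l
        by_cases hl : l ∈ s
        · simp only [hl, if_true]; exact ha' l
        · simp only [hl, if_false]; exact ha l) ⟨j, hjs.1, by simp only [hjs.2, if_false]; exact hj⟩ (a' i) (ha' i).1 (ha' i).2
      have h3 : Function.update (fun l => if l ∈ s then a' l else a l) i (a' i) =
          (fun l => if l ∈ insert i s then a' l else a l) := by
        funext l
        by_cases hl : l = i
        · subst hl; simp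
        · rw [Function.update_of_ne hl]
          simp [Finset.mem_insert, hl]
      rw [h3] at h2
      rw [Finset.card_insert_of_notMem his]
      have h4 := abs_sub_le (F (fun l => if l ∈ insert i s then a' l else a l))
        (F (fun l => if l ∈ s then a' l else a l)) (F a)
      push_cast
      linarith
  have h1 := key (Finset.univ.erase j) (by simp)
  have h2 : (fun l => if l ∈ Finset.univ.erase j then a' l else a l) = a' := by
    funext l
    by_cases hl : l = j
    · subst hl; simp [hjj]
    · simp [hl]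
  rw [h2] at h1
  refine h1.trans ?_
  have h3 : ((Finset.univ.erase j).card : ℝ) ≤ k := by
    have : (Finset.univ.erase j).card ≤ k := by
      calc _ ≤ (Finset.univ : Finset (Fin k)).card := Finset.card_erase_le
        _ = k := by simp
    exact_mod_cast this
  gcongr

private theorem edi_path {k : ℕ} (hk : 2 ≤ k) (F : (Fin k → ℤ) → ℝ) (c : ℝ) (hc : 0 ≤ c)
    (hstep : ∀ (a : Fin k → ℤ) (i : Fin k), (∀ l, -2 ≤ a l ∧ a l ≤ 1) → a i ≤ 0 →
      (∃ j, j ≠ i ∧ (a j = -2 ∨ a j = 1)) → |F (Function.update a i (a i + 1)) - F a| ≤ c)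
    (a a' : Fin k → ℤ) (ha : ∀ l, -2 ≤ a l ∧ a l ≤ 1) (ha' : ∀ l, -2 ≤ a' l ∧ a' l ≤ 1)
    (hO : ∃ i, a i = -2 ∨ a i = 1) (hO' : ∃ i, a' i = -2 ∨ a' i = 1) :
    |F a - F a'| ≤ 9 * k * c := by
  have key : ∀ (a : Fin k → ℤ), (∀ l, -2 ≤ a l ∧ a l ≤ 1) → ∀ i j, i ≠ j → (a i = -2 ∨ a i = 1) →
      (a' j = -2 ∨ a' j = 1) → |F a - F a'| ≤ 6 * k * c := by
    intro a ha i j hij hi hj
    have hb : ∀ l, -2 ≤ Function.update a' i (a i) l ∧ Function.update a' i (a i) l ≤ 1 := by
      intro l
      by_cases hl : l = i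
      · subst hl; simp only [Function.update_self]; exact ha l
      · rw [Function.update_of_ne hl]; exact ha' l
    have h1 := edi_all F c hc hstep a (Function.update a' i (a i)) ha hb i hi (by simp)
    have h2 := edi_all F c hc hstep a' (Function.update a' i (a i)) ha' hb j hj
      (Function.update_of_ne (Ne.symm hij) _ _)
    have h3 := abs_sub_le (F a) (F (Function.update a' i (a i))) (F a')
    rw [abs_sub_comm (F a) (F (Function.update a' i (a i)))] at h3
    linarith
  have hkc : 0 ≤ (k : ℝ) * c := by positivity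
  obtain ⟨i, hi⟩ := hO
  obtain ⟨j, hj⟩ := hO'
  by_cases hij : i = j
  · subst hij
    have : Nontrivial (Fin k) := Fin.nontrivial_iff_two_le.mpr hk
    obtain ⟨l, hl⟩ := exists_ne i
    have hb : ∀ r, -2 ≤ Function.update a l (-2) r ∧ Function.update a l (-2) r ≤ 1 := by
      intro r
      by_cases hr : r = l
      · subst hr; simp
      · rw [Function.update_of_ne hr]; exact ha r
    have h1 := edi_all F c hc hstep a (Function.update a l (-2)) ha hb i hi
      (Function.update_of_ne (Ne.symm hl) _ _)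
    have h2 := key (Function.update a l (-2)) hb l i hl (by simp) hj
    have h3 := abs_sub_le (F a) (F (Function.update a l (-2))) (F a')
    rw [abs_sub_comm (F a) (F (Function.update a l (-2)))] at h3
    linarith
  · have := key a ha i j hij hi hj
    linarith

theorem avg_close {k : ℕ} (hk : 2 ≤ k) : ∃ K : ℝ, 0 < K ∧ ∀ (m : ℕ) (φ : (Fin k → ℤ) → ℝ)
    (y y' : Fin k → ℤ), 2 ^ m < sn y → sn y < 2 ^ (m + 1) → 2 ^ m < sn y' → sn y' < 2 ^ (m + 1) →
    |avg φ (dc m y) (2 ^ m) - avg φ (dc m y') (2 ^ m)| ≤ K * (en φ (ann (2 ^ m))) ^ (1 / (k : ℝ)) := by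
  refine ⟨9 * k * 2, by positivity, ?_⟩
  intro m φ y y' hy1 hy2 hy1' hy2'
  set n : ℤ := 2 ^ m with hn
  have hn0 : 0 < n := by positivity
  have hnn : ((2 ^ m : ℕ) : ℤ) = n := by push_cast; rfl
  have hE : 0 ≤ (en φ (ann (k := k) (2 ^ m))) ^ (1 / (k : ℝ)) := Real.rpow_nonneg (en_nonneg _ _) _
  -- boxes of the annulus
  have hbox : ∀ a : Fin k → ℤ, (∀ l, -2 ≤ a l ∧ a l ≤ 1) → (∃ j, a j = -2 ∨ a j = 1) →
      box (fun l => n * a l) (2 ^ m) ⊆ ann (2 ^ m) := by
    intro a ha hO z hz
    rw [mem_box] at hz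
    rw [hnn] at hz
    unfold ann
    rw [Finset.mem_sdiff, mem_box, mem_box]
    push_cast
    rw [← hn]
    constructor
    · intro i
      obtain ⟨h1, h2⟩ := hz i
      obtain ⟨h3, h4⟩ := ha i
      constructor <;> nlinarith
    · intro hcon
      obtain ⟨j, hj⟩ := hO
      obtain ⟨h1, h2⟩ := hz j
      obtain ⟨h3, h4⟩ := hcon j
      rcases hj with hj | hj
      · rw [hj] at h1 h2; linarith
      · rw [hj] at h1 h2; linarith
  -- from points to corners
  have hcorner : ∀ y : Fin k → ℤ, 2 ^ m < sn y → sn y < 2 ^ (m + 1) →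
      (∀ l, -2 ≤ y l / n ∧ y l / n ≤ 1) ∧ (∃ i, y i / n = -2 ∨ y i / n = 1) := by
    intro y hy1 hy2
    have hb : ∀ l, -2 ≤ y l / n ∧ y l / n ≤ 1 := by
      intro l
      have h1 : (y l).natAbs < 2 ^ (m + 1) :=
        lt_of_le_of_lt (Finset.le_sup (f := fun i => (y i).natAbs) (Finset.mem_univ l)) hy2
      have h2 : |y l| < 2 * n := by
        rw [Int.abs_eq_natAbs]
        have h3 : ((y l).natAbs : ℤ) < ((2 ^ (m + 1) : ℕ) : ℤ) := Int.ofNat_lt.mpr h1
        have h4 : ((2 ^ (m + 1) : ℕ) : ℤ) = 2 * n := by rw [hn]; push_cast; ring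
        rwa [h4] at h3
      rw [abs_lt] at h2
      constructor
      · rw [Int.le_ediv_iff_mul_le hn0]; linarith
      · have : y l / n < 2 := by rw [Int.ediv_lt_iff_lt_mul hn0]; linarith
        omega
    refine ⟨hb, ?_⟩
    obtain ⟨i, _, hi⟩ := Finset.lt_sup_iff.mp hy1
    have h1 : n < |y i| := by
      rw [Int.abs_eq_natAbs]
      have : ((2 ^ m : ℕ) : ℤ) < ((y i).natAbs : ℤ) := by exact_mod_cast hi
      rwa [hnn] at this
    refine ⟨i, ?_⟩
    rcases lt_abs.mp h1 with h | h
    · right
      have : 1 ≤ y i / n := by rw [Int.le_ediv_iff_mul_le hn0]; linarith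
      have := (hb i).2
      omega
    · left
      have : y i / n < -1 := by rw [Int.ediv_lt_iff_lt_mul hn0]; linarith
      have := (hb i).1
      omega
  obtain ⟨hb, hO⟩ := hcorner y hy1 hy2
  obtain ⟨hb', hO'⟩ := hcorner y' hy1' hy2'
  have hfin := edi_path hk (fun a => avg φ (fun l => n * a l) (2 ^ m))
    (2 * (en φ (ann (2 ^ m))) ^ (1 / (k : ℝ))) (by positivity) (by
      intro a i ha hai hO
      obtain ⟨j, hji, hj⟩ := hO
      have h1 := avg_adj (by omega : 1 ≤ k) φ (fun l => n * a l) (Nat.one_le_two_pow (n := m)) i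
      have h2 : (fun l => n * (Function.update a i (a i + 1)) l) =
          (fun l => n * a l) + Pi.single i ((2 ^ m : ℕ) : ℤ) := by
        funext l
        by_cases hl : l = i
        · subst hl
          simp only [Function.update_self, Pi.add_apply, Pi.single_eq_same]
          rw [hnn]; ring
        · rw [Function.update_of_ne hl]
          simp [Pi.single_eq_of_ne hl]
      rw [h2]
      refine h1.trans ?_
      have h3 : box (fun l => n * a l) (2 ^ m) ∪
          box ((fun l => n * a l) + Pi.single i ((2 ^ m : ℕ) : ℤ)) (2 ^ m) ⊆ ann (2 ^ m) := by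
        refine Finset.union_subset (hbox a ha ⟨j, hj⟩) ?_
        rw [← h2]
        refine hbox _ ?_ ⟨j, by rw [Function.update_of_ne hji]; exact hj⟩
        intro l
        by_cases hl : l = i
        · subst hl
          simp only [Function.update_self]
          have := ha l
          constructor <;> omega
        · rw [Function.update_of_ne hl]; exact ha l
      have h4 := Real.rpow_le_rpow (en_nonneg φ _) (en_mono φ h3)
        (by positivity : (0 : ℝ) ≤ 1 / (k : ℝ))
      linarith)
    (fun i => y i / n) (fun i => y' i / n) hb hb' hO hO'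
  have e1 : (fun l => n * (y l / n)) = dc m y := rfl
  have e2 : (fun l => n * (y' l / n)) = dc m y' := rfl
  rw [e1, e2] at hfin
  refine hfin.trans (le_of_eq ?_)
  ring

end Pool.Agent.ANC
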