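import Mathlib
import Pool.Agent.ANC.EDI

/-! EDN: the energy of an annulus (m ≥ 1) is bounded below if φ has a point ≤ 1/100 and a point ≥ 99/100 on every
sphere sn = τ, 2^m < τ < 2^(m+1).  Let A be the average of the cube of one such point.  If K2 en^{1/k} ≤ 1/10 all the
averages are within 1/10 of A.  If A ≥ 1/2 then |φ (y τ) - avg| ≥ 39/100 for all τ, if A < 1/2 then
|φ (z τ) - avg| ≥ 39/100; sum over the 2^m - 1 ≥ 2^m / 2 values τ and use chain_sum. -/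

open Finset

namespace Pool.Agent.ANC

private theorem edn_sum {k : ℕ} {K1 : ℝ} (m : ℕ) (hm : 1 ≤ m) (φ : (Fin k → ℤ) → ℝ) (B : ℝ)
    (h1 : ∀ (y : ℕ → Fin k → ℤ), (∀ τ ∈ Finset.Ioo (2 ^ m) (2 ^ (m + 1)), sn (y τ) = τ) →
      ∑ τ ∈ Finset.Ioo (2 ^ m) (2 ^ (m + 1)), |φ (y τ) - avg φ (dc m (y τ)) (2 ^ m)| ≤ K1 * 2 ^ m * B)
    (y : ℕ → Fin k → ℤ) (hy : ∀ τ ∈ Finset.Ioo (2 ^ m) (2 ^ (m + 1)), sn (y τ) = τ)
    (hd : ∀ τ ∈ Finset.Ioo (2 ^ m) (2 ^ (m + 1)),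
      39 / 100 ≤ |φ (y τ) - avg φ (dc m (y τ)) (2 ^ m)|) : 39 / 200 ≤ K1 * B := by
  have h2 := h1 y hy
  have h3 := Finset.card_nsmul_le_sum _ _ _ hd
  have hcard : (Finset.Ioo (2 ^ m) (2 ^ (m + 1))).card = 2 ^ m - 1 := by
    rw [Nat.card_Ioo, pow_succ]; omega
  rw [hcard, nsmul_eq_mul] at h3
  have h4 : (2 : ℕ) ≤ 2 ^ m := by
    calc 2 = 2 ^ 1 := by norm_num
      _ ≤ 2 ^ m := Nat.pow_le_pow_right (by norm_num) hm
  have h5 : ((2 ^ m - 1 : ℕ) : ℝ) = (2 : ℝ) ^ m - 1 := by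
    rw [Nat.cast_sub (by omega)]; push_cast; ring
  rw [h5] at h3
  have h6 : (2 : ℝ) ≤ 2 ^ m := by exact_mod_cast h4
  have h7 : ((2 : ℝ) ^ m - 1) * (39 / 100) ≤ K1 * 2 ^ m * B := h3.trans h2
  have h8 : (2 : ℝ) ^ m * (39 / 200) ≤ 2 ^ m * (K1 * B) := by nlinarith
  exact le_of_mul_le_mul_left h8 (by positivity)

theorem annulus_energy {k : ℕ} (hk : 2 ≤ k) : ∃ c0 : ℝ, 0 < c0 ∧ ∀ (m : ℕ), 1 ≤ m → ∀ φ : (Fin k → ℤ) → ℝ,
    (∀ τ : ℕ, 2 ^ m < τ → τ < 2 ^ (m + 1) → ∃ y, sn y = τ ∧ φ y ≤ 1 / 100) →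
    (∀ τ : ℕ, 2 ^ m < τ → τ < 2 ^ (m + 1) → ∃ y, sn y = τ ∧ 99 / 100 ≤ φ y) →
    c0 ≤ en φ (ann (2 ^ m)) := by
  obtain ⟨K1, hK1, hchain⟩ := chain_sum (k := k) (by omega)
  obtain ⟨K2, hK2, hclose⟩ := avg_close hk
  set b : ℝ := min (1 / (10 * K2)) (39 / (200 * K1)) with hb
  have hb0 : 0 < b := lt_min (by positivity) (by positivity)
  refine ⟨b ^ k, by positivity, ?_⟩
  intro m hm φ hlo hhi
  by_contra hcon
  rw [not_le] at hcon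
  set B : ℝ := (en φ (ann (k := k) (2 ^ m))) ^ (1 / (k : ℝ)) with hB
  have hk0 : (k : ℝ) ≠ 0 := by
    have : 0 < k := by omega
    exact_mod_cast this.ne'
  have hBb : B < b := by
    have h1 := Real.rpow_lt_rpow (en_nonneg φ _) hcon (by positivity : 0 < 1 / (k : ℝ))
    rw [← Real.rpow_natCast, ← Real.rpow_mul hb0.le, mul_one_div_cancel hk0, Real.rpow_one] at h1
    exact h1
  have hB2 : K2 * B < 1 / 10 := by
    have h1 : B < 1 / (10 * K2) := lt_of_lt_of_le hBb (min_le_left _ _)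
    rw [lt_div_iff₀ (by positivity)] at h1
    linarith
  have hB1 : K1 * B < 39 / 200 := by
    have h1 : B < 39 / (200 * K1) := lt_of_lt_of_le hBb (min_le_right _ _)
    rw [lt_div_iff₀ (by positivity)] at h1
    linarith
  have hlo' : ∀ τ : ℕ, ∃ y : Fin k → ℤ, 2 ^ m < τ → τ < 2 ^ (m + 1) → sn y = τ ∧ φ y ≤ 1 / 100 := by
    intro τ
    by_cases h : 2 ^ m < τ ∧ τ < 2 ^ (m + 1)
    · obtain ⟨y, hy⟩ := hlo τ h.1 h.2
      exact ⟨y, fun _ _ => hy⟩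
    · exact ⟨0, fun h1 h2 => absurd ⟨h1, h2⟩ h⟩
  have hhi' : ∀ τ : ℕ, ∃ y : Fin k → ℤ, 2 ^ m < τ → τ < 2 ^ (m + 1) → sn y = τ ∧ 99 / 100 ≤ φ y := by
    intro τ
    by_cases h : 2 ^ m < τ ∧ τ < 2 ^ (m + 1)
    · obtain ⟨y, hy⟩ := hhi τ h.1 h.2
      exact ⟨y, fun _ _ => hy⟩
    · exact ⟨0, fun h1 h2 => absurd ⟨h1, h2⟩ h⟩
  choose y hy using hlo'
  choose z hz using hhi'
  have hτ0 : 2 ^ m < 2 ^ m + 1 ∧ 2 ^ m + 1 < 2 ^ (m + 1) := by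
    have h4 : (2 : ℕ) ≤ 2 ^ m := by
      calc 2 = 2 ^ 1 := by norm_num
        _ ≤ 2 ^ m := Nat.pow_le_pow_right (by norm_num) hm
    rw [pow_succ]
    omega
  have hy0 := (hy (2 ^ m + 1) hτ0.1 hτ0.2).1
  set A : ℝ := avg φ (dc m (y (2 ^ m + 1))) (2 ^ m) with hA
  rcases le_or_gt (1 / 2) A with hA2 | hA2
  · have := edn_sum (K1 := K1) m hm φ B (fun y hy => hchain m φ y hy) y
      (fun τ hτ => by rw [Finset.mem_Ioo] at hτ; exact (hy τ hτ.1 hτ.2).1)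
      (fun τ hτ => by
        rw [Finset.mem_Ioo] at hτ
        obtain ⟨h1, h2⟩ := hy τ hτ.1 hτ.2
        have h3 := hclose m φ (y (2 ^ m + 1)) (y τ) (by rw [hy0]; exact hτ0.1) (by rw [hy0]; exact hτ0.2)
          (by rw [h1]; exact hτ.1) (by rw [h1]; exact hτ.2)
        rw [← hA, ← hB] at h3
        have h4 := (abs_le.mp h3).2
        rw [abs_sub_comm]
        refine le_trans ?_ (le_abs_self _)
        linarith)
    linarith
  · have := edn_sum (K1 := K1) m hm φ B (fun y hy => hchain m φ y hy) z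
      (fun τ hτ => by rw [Finset.mem_Ioo] at hτ; exact (hz τ hτ.1 hτ.2).1)
      (fun τ hτ => by
        rw [Finset.mem_Ioo] at hτ
        obtain ⟨h1, h2⟩ := hz τ hτ.1 hτ.2
        have h3 := hclose m φ (y (2 ^ m + 1)) (z τ) (by rw [hy0]; exact hτ0.1) (by rw [hy0]; exact hτ0.2)
          (by rw [h1]; exact hτ.1) (by rw [h1]; exact hτ.2)
        rw [← hA, ← hB] at h3
        have h4 := (abs_le.mp h3).1
        refine le_trans ?_ (le_abs_self _)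
        linarith)
    linarith

end Pool.Agent.ANC
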