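import Mathlib
import Pool.Agent.ANC.EGD

/-! EPH: the test function.  φ y = max 0 (min 1 (4 (|g^{-1} y| - 1/2))) for y ∈ g(closedBall 0 (3/4)), φ y = 1 otherwise;
then φ (g u) = clamp(4(|u| - 1/2)) for ALL u in the unit ball.
Continuity: at y = g u with |u| < 3/4 a ball around y lies in g(ball) (qc) and g^{-1} is continuous on the compact image; at
every other y we have φ y = 1 and if y_n → y with φ y_n ≤ 1 - δ then y_n = g u_n with |u_n| ≤ 3/4 - δ/4, a limit point u of
u_n satisfies g u = y, |u| < 3/4, contradiction.  Outside a big ball φ = 1, so φ is uniformly continuous.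
Energy: ε < ε1.  For a grid point y with φ(ε y) < 1 write ε y = g(u_y), |u_y| < 3/4, r_y from qc.  Neighbours at distance
ε are g(u') with |u' - u_y| ≤ Cf r_y, so |dφ| ≤ 4 Cf r_y.  The balls closedBall u_y r_y (in the unit ball) are pairwise disjoint
because their images lie in the disjoint balls ball (ε y) (ε/2); volumes: Σ r_y^k ≤ 1.  Every edge with dφ ≠ 0 has an end
point with φ < 1, every point has ≤ 2k edges: total ≤ 2 k (4 Cf)^k. -/

open Set Metric MeasureTheory

namespace Pool.Agent.ANC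

/-- the grid point `ε y` -/
noncomputable def gp {k : ℕ} (ε : ℝ) (y : Fin k → ℤ) : EuclideanSpace ℝ (Fin k) :=
  WithLp.toLp 2 (fun i => ε * (y i : ℝ))

theorem gp_apply {k : ℕ} (ε : ℝ) (y : Fin k → ℤ) (i : Fin k) : gp ε y i = ε * (y i : ℝ) := rfl

theorem gp_step {k : ℕ} {ε : ℝ} (hε : 0 < ε) (y : Fin k → ℤ) (i : Fin k) :
    ‖gp ε (y + Pi.single i 1) - gp ε y‖ = ε := by
  have h : gp ε (y + Pi.single i 1) - gp ε y = EuclideanSpace.single i ε := by
    ext j
    rw [PiLp.sub_apply, gp_apply, gp_apply, Pi.add_apply]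
    rcases eq_or_ne j i with rfl | hj
    · simp [mul_add]
    · simp [hj]
  rw [h, EuclideanSpace.norm_single, Real.norm_of_nonneg hε.le]

theorem gp_sep {k : ℕ} {ε : ℝ} (hε : 0 < ε) {y y' : Fin k → ℤ} (h : y ≠ y') :
    ε ≤ ‖gp ε y - gp ε y'‖ := by
  obtain ⟨i, hi⟩ := Function.ne_iff.1 h
  refine le_trans ?_ (PiLp.norm_apply_le (gp ε y - gp ε y') i)
  rw [PiLp.sub_apply, gp_apply, gp_apply, ← mul_sub, norm_mul, Real.norm_of_nonneg hε.le]
  have h1 : (1 : ℝ) ≤ ‖((y i : ℝ) - (y' i : ℝ))‖ := by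
    have h2 : (1 : ℤ) ≤ |y i - y' i| := Int.one_le_abs (sub_ne_zero.2 hi)
    rw [Real.norm_eq_abs]
    exact_mod_cast h2
  nlinarith

/-- the profile -/
noncomputable def eph_c (t : ℝ) : ℝ := max 0 (min 1 (4 * (t - 1 / 2)))

theorem eph_c_cont : Continuous eph_c := by
  unfold eph_c; fun_prop

theorem eph_c_le (t : ℝ) : eph_c t ≤ 1 := by
  unfold eph_c; exact max_le zero_le_one (min_le_left _ _)

theorem eph_c_nonneg (t : ℝ) : 0 ≤ eph_c t := le_max_left _ _

theorem eph_c_zero {t : ℝ} (ht : t ≤ 1 / 2) : eph_c t = 0 := by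
  unfold eph_c
  exact max_eq_left (le_trans (min_le_right _ _) (by linarith))

theorem eph_c_ge (t : ℝ) (δ : ℝ) (hδ : 0 ≤ δ) (h : 3 / 4 - δ / 4 ≤ t) : 1 - δ ≤ eph_c t := by
  unfold eph_c
  exact le_max_of_le_right (le_min (by linarith) (by linarith))

theorem eph_c_one {t : ℝ} (ht : 3 / 4 ≤ t) : eph_c t = 1 :=
  le_antisymm (eph_c_le t) (by have := eph_c_ge t 0 le_rfl (by linarith); linarith)

theorem eph_c_lip (s t : ℝ) : |eph_c s - eph_c t| ≤ 4 * |s - t| := by
  unfold eph_c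
  have h1 : |max 0 (min 1 (4 * (s - 1 / 2))) - max 0 (min 1 (4 * (t - 1 / 2)))| ≤
      |min 1 (4 * (s - 1 / 2)) - min 1 (4 * (t - 1 / 2))| := by
    have := abs_max_sub_max_le_max (0 : ℝ) (min 1 (4 * (s - 1 / 2))) 0 (min 1 (4 * (t - 1 / 2)))
    simpa using this
  have h2 : |min 1 (4 * (s - 1 / 2)) - min 1 (4 * (t - 1 / 2))| ≤
      |4 * (s - 1 / 2) - 4 * (t - 1 / 2)| := by
    have := abs_min_sub_min_le_max (1 : ℝ) (4 * (s - 1 / 2)) 1 (4 * (t - 1 / 2))
    simpa using this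
  have h3 : |4 * (s - 1 / 2) - 4 * (t - 1 / 2)| = 4 * |s - t| := by
    rw [show 4 * (s - 1 / 2) - 4 * (t - 1 / 2) = 4 * (s - t) by ring, abs_mul]
    norm_num
  linarith

open Classical in
/-- the test function of `g` -/
noncomputable def eph_phi {k : ℕ} (g : EuclideanSpace ℝ (Fin k) → EuclideanSpace ℝ (Fin k))
    (y : EuclideanSpace ℝ (Fin k)) : ℝ :=
  if y ∈ g '' closedBall 0 1 then eph_c ‖Function.invFunOn g (closedBall 0 1) y‖ else 1

theorem eph_phi_g {k : ℕ} {Cf : ℝ} {g : EuclideanSpace ℝ (Fin k) → EuclideanSpace ℝ (Fin k)}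
    (hg : EggMap k Cf g) {u : EuclideanSpace ℝ (Fin k)} (hu : u ∈ closedBall (0 : EuclideanSpace ℝ (Fin k)) 1) :
    eph_phi g (g u) = eph_c ‖u‖ := by
  unfold eph_phi
  rw [if_pos (mem_image_of_mem g hu), hg.inj.leftInvOn_invFunOn hu]

theorem eph_phi_out {k : ℕ} {g : EuclideanSpace ℝ (Fin k) → EuclideanSpace ℝ (Fin k)}
    {y : EuclideanSpace ℝ (Fin k)} (hy : y ∉ g '' closedBall 0 1) : eph_phi g y = 1 := by
  unfold eph_phi
  rw [if_neg hy]

theorem eph_phi_le {k : ℕ} (g : EuclideanSpace ℝ (Fin k) → EuclideanSpace ℝ (Fin k))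
    (y : EuclideanSpace ℝ (Fin k)) : eph_phi g y ≤ 1 := by
  unfold eph_phi
  split_ifs
  · exact eph_c_le _
  · exact le_rfl

theorem eph_phi_lt {k : ℕ} {Cf : ℝ} {g : EuclideanSpace ℝ (Fin k) → EuclideanSpace ℝ (Fin k)}
    (hg : EggMap k Cf g) {y : EuclideanSpace ℝ (Fin k)} (hy : eph_phi g y < 1) :
    ∃ u ∈ closedBall (0 : EuclideanSpace ℝ (Fin k)) (3 / 4), g u = y := by
  by_cases h : y ∈ g '' closedBall 0 1
  · obtain ⟨u, hu, rfl⟩ := h
    refine ⟨u, ?_, rfl⟩
    rw [eph_phi_g hg hu] at hy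
    rw [mem_closedBall_zero_iff]
    by_contra hcon
    push Not at hcon
    rw [eph_c_one hcon.le] at hy
    exact lt_irrefl _ hy
  · rw [eph_phi_out h] at hy
    exact absurd hy (lt_irrefl _)

theorem eph_inv_cont {k : ℕ} {Cf : ℝ} {g : EuclideanSpace ℝ (Fin k) → EuclideanSpace ℝ (Fin k)}
    (hg : EggMap k Cf g) : ContinuousOn (Function.invFunOn g (closedBall 0 1)) (g '' closedBall 0 1) := by
  set K : Set (EuclideanSpace ℝ (Fin k)) := closedBall 0 1 with hK
  have hKc : IsCompact K := isCompact_closedBall 0 1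
  rw [continuousOn_iff_isClosed]
  intro T hT
  refine ⟨g '' (K ∩ T), ?_, ?_⟩
  · exact ((hKc.inter_right hT).image_of_continuousOn (hg.cont.mono inter_subset_left)).isClosed
  · ext y
    constructor
    · rintro ⟨h1, u, hu, rfl⟩
      have h2 : Function.invFunOn g K (g u) = u := hg.inj.leftInvOn_invFunOn hu
      refine ⟨⟨u, ⟨hu, ?_⟩, rfl⟩, u, hu, rfl⟩
      have h3 : Function.invFunOn g K (g u) ∈ T := h1
      rwa [h2] at h3
    · rintro ⟨⟨u, ⟨hu, huT⟩, rfl⟩, -⟩
      have h2 : Function.invFunOn g K (g u) = u := hg.inj.leftInvOn_invFunOn hu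
      refine ⟨?_, u, hu, rfl⟩
      rw [mem_preimage, h2]
      exact huT

theorem eph_phi_cont {k : ℕ} {Cf : ℝ} {g : EuclideanSpace ℝ (Fin k) → EuclideanSpace ℝ (Fin k)}
    (hg : EggMap k Cf g) : Continuous (eph_phi g) := by
  rw [continuous_iff_continuousAt]
  intro y
  by_cases hy : ∃ u ∈ ball (0 : EuclideanSpace ℝ (Fin k)) (3 / 4), g u = y
  · obtain ⟨u, hu, rfl⟩ := hy
    obtain ⟨ε1, hε1, hq⟩ := hg.qc
    obtain ⟨r, hr, hr1, -, hr3⟩ := hq u (ball_subset_closedBall hu) (ε1 / 2) (by linarith) (by linarith)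
    have hmem : g '' closedBall 0 1 ∈ nhds (g u) := by
      refine Filter.mem_of_superset (closedBall_mem_nhds (g u) (half_pos hε1)) ?_
      intro w hw
      rw [mem_closedBall, dist_eq_norm] at hw
      obtain ⟨u', hu', rfl⟩ := hr3 w hw
      refine ⟨u', ?_, rfl⟩
      rw [mem_closedBall, dist_eq_norm] at hu'
      rw [mem_ball_zero_iff] at hu
      rw [mem_closedBall_zero_iff]
      have := norm_add_le (u' - u) u
      rw [sub_add_cancel] at this
      linarith
    have h1 : ContinuousAt (Function.invFunOn g (closedBall 0 1)) (g u) :=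
      (eph_inv_cont hg).continuousAt hmem
    have h2 : ContinuousAt (fun y => eph_c ‖Function.invFunOn g (closedBall 0 1) y‖) (g u) :=
      eph_c_cont.continuousAt.comp h1.norm
    refine h2.congr ?_
    filter_upwards [hmem] with z hz
    unfold eph_phi
    rw [if_pos hz]
  · have hy1 : eph_phi g y = 1 := by
      by_cases h : y ∈ g '' closedBall 0 1
      · obtain ⟨u, hu, rfl⟩ := h
        rw [eph_phi_g hg hu]
        apply eph_c_one
        by_contra hcon
        push Not at hcon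
        exact hy ⟨u, by rwa [mem_ball_zero_iff], rfl⟩
      · exact eph_phi_out h
    rw [Metric.continuousAt_iff']
    intro δ hδ
    have hcl : IsClosed (g '' closedBall 0 (3 / 4 - min δ 1 / 8)) := by
      refine ((isCompact_closedBall _ _).image_of_continuousOn (hg.cont.mono ?_)).isClosed
      refine closedBall_subset_closedBall ?_
      have : 0 < min δ 1 := lt_min hδ one_pos
      linarith
    have hnot : y ∈ (g '' closedBall 0 (3 / 4 - min δ 1 / 8))ᶜ := by
      rintro ⟨u, hu, rfl⟩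
      refine hy ⟨u, ?_, rfl⟩
      rw [mem_closedBall_zero_iff] at hu
      rw [mem_ball_zero_iff]
      have : 0 < min δ 1 := lt_min hδ one_pos
      linarith
    filter_upwards [hcl.isOpen_compl.mem_nhds hnot] with z hz
    rw [hy1, Real.dist_eq]
    have hle := eph_phi_le g z
    rw [abs_sub_comm, abs_of_nonneg (by linarith)]
    by_cases h : z ∈ g '' closedBall 0 1
    · obtain ⟨u, hu, rfl⟩ := h
      rw [eph_phi_g hg hu]
      have h1 : 3 / 4 - min δ 1 / 8 < ‖u‖ := by
        by_contra hcon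
        push Not at hcon
        exact hz ⟨u, by rwa [mem_closedBall_zero_iff], rfl⟩
      have h2 := eph_c_ge ‖u‖ (min δ 1 / 2) (by have : 0 < min δ 1 := lt_min hδ one_pos; linarith) (by linarith)
      have h3 := min_le_left δ 1
      linarith
    · rw [eph_phi_out h]
      linarith

theorem eph_phi_uc {k : ℕ} {Cf : ℝ} {g : EuclideanSpace ℝ (Fin k) → EuclideanSpace ℝ (Fin k)}
    (hg : EggMap k Cf g) : UniformContinuous (eph_phi g) := by
  refine (eph_phi_cont hg).uniformContinuous_of_tendsto_cocompact (x := 1) ?_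
  have hc : IsCompact (g '' closedBall 0 1) := (isCompact_closedBall _ _).image_of_continuousOn hg.cont
  refine Filter.Tendsto.congr' ?_ tendsto_const_nhds
  filter_upwards [hc.compl_mem_cocompact] with z hz
  exact (eph_phi_out hz).symm

/-- disjoint closed balls in the unit ball: the sum of the k-th powers of the radii is at most one -/
theorem eph_vol {k : ℕ} {ι : Type*} (T : Finset ι) (u : ι → EuclideanSpace ℝ (Fin k)) (r : ι → ℝ)
    (hr : ∀ y ∈ T, 0 ≤ r y) (hsub : ∀ y ∈ T, closedBall (u y) (r y) ⊆ closedBall 0 1)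
    (hd : (T : Set ι).PairwiseDisjoint (fun y => closedBall (u y) (r y))) :
    ∑ y ∈ T, r y ^ k ≤ 1 := by
  have h1 : volume (⋃ y ∈ T, closedBall (u y) (r y)) ≤ volume (closedBall (0 : EuclideanSpace ℝ (Fin k)) 1) :=
    measure_mono (iUnion₂_subset hsub)
  rw [measure_biUnion_finset hd (fun y _ => isClosed_closedBall.measurableSet)] at h1
  have h2 : ∀ y ∈ T, volume (closedBall (u y) (r y)) =
      ENNReal.ofReal (r y ^ k) * volume (ball (0 : EuclideanSpace ℝ (Fin k)) 1) := by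
    intro y hy
    rw [Measure.addHaar_closedBall _ _ (hr y hy), finrank_euclideanSpace_fin]
  rw [Finset.sum_congr rfl h2, ← Finset.sum_mul, Measure.addHaar_closedBall _ _ zero_le_one] at h1
  simp only [one_pow, ENNReal.ofReal_one] at h1
  have hpos : volume (ball (0 : EuclideanSpace ℝ (Fin k)) 1) ≠ 0 := (measure_ball_pos _ _ one_pos).ne'
  have hfin : volume (ball (0 : EuclideanSpace ℝ (Fin k)) 1) ≠ ⊤ := measure_ball_lt_top.ne
  rw [ENNReal.mul_le_mul_iff_left hpos hfin] at h1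
  rw [← ENNReal.ofReal_sum_of_nonneg (fun y hy => pow_nonneg (hr y hy) k)] at h1
  exact (ENNReal.ofReal_le_one).1 h1

theorem exists_test {k : ℕ} (hk : 1 ≤ k) {Cf : ℝ} (hCf : 1 ≤ Cf)
    {g : EuclideanSpace ℝ (Fin k) → EuclideanSpace ℝ (Fin k)} (hg : EggMap k Cf g) :
    ∃ φ : EuclideanSpace ℝ (Fin k) → ℝ, UniformContinuous φ ∧
      (∀ u ∈ closedBall (0 : EuclideanSpace ℝ (Fin k)) (1 / 2), φ (g u) = 0) ∧
      (∀ y, y ∉ g '' closedBall 0 1 → φ y = 1) ∧
      ∃ ε1 > 0, ∀ ε, 0 < ε → ε < ε1 → ∀ S : Finset (Fin k → ℤ),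
        ∑ y ∈ S, ∑ i : Fin k, |φ (gp ε (y + Pi.single i 1)) - φ (gp ε y)| ^ k ≤ 2 * k * (4 * Cf) ^ k := by
  classical
  refine ⟨eph_phi g, eph_phi_uc hg, ?_, fun y hy => eph_phi_out hy, ?_⟩
  · intro u hu
    rw [mem_closedBall_zero_iff] at hu
    rw [eph_phi_g hg (by rw [mem_closedBall_zero_iff]; linarith)]
    exact eph_c_zero hu
  obtain ⟨ε1, hε1, hq⟩ := hg.qc
  refine ⟨ε1, hε1, ?_⟩
  intro ε hε hε' S
  -- choice of the centres and the radii
  have hch : ∀ y : Fin k → ℤ, ∃ (u : EuclideanSpace ℝ (Fin k)) (r : ℝ), 0 ≤ r ∧ (eph_phi g (gp ε y) < 1 →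
      u ∈ closedBall (0 : EuclideanSpace ℝ (Fin k)) (3 / 4) ∧ g u = gp ε y ∧ 0 < r ∧ Cf * r ≤ 1 / 8 ∧
      (∀ u' ∈ closedBall u r, ‖g u' - g u‖ < ε / 2) ∧
      (∀ w, ‖w - g u‖ ≤ ε → ∃ u' ∈ closedBall u (Cf * r), g u' = w)) := by
    intro y
    by_cases h : eph_phi g (gp ε y) < 1
    · obtain ⟨u, hu, hgu⟩ := eph_phi_lt hg h
      obtain ⟨r, hr, hr1, hr2, hr3⟩ := hq u hu ε hε hε'
      exact ⟨u, r, hr.le, fun _ => ⟨hu, hgu, hr, hr1, hr2, hr3⟩⟩
    · exact ⟨0, 0, le_rfl, fun h' => absurd h' h⟩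
  choose u r hr0 hur using hch
  set R : (Fin k → ℤ) → ℝ := fun y => if eph_phi g (gp ε y) < 1 then r y ^ k else 0 with hR
  have hR0 : ∀ y, 0 ≤ R y := by
    intro y
    simp only [hR]
    split_ifs
    · exact pow_nonneg (hr0 y) k
    · exact le_rfl
  -- volumes
  have hvol : ∀ T : Finset (Fin k → ℤ), ∑ y ∈ T, R y ≤ 1 := by
    intro T
    simp only [hR]
    rw [← Finset.sum_filter]
    refine eph_vol _ u r (fun y _ => hr0 y) ?_ ?_
    · intro y hy
      rw [Finset.mem_filter] at hy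
      obtain ⟨h1, h2, h3, h4, h5, h6⟩ := hur y hy.2
      intro x hx
      rw [mem_closedBall, dist_eq_norm] at hx
      rw [mem_closedBall_zero_iff] at h1 ⊢
      have h7 := norm_add_le (x - u y) (u y)
      rw [sub_add_cancel] at h7
      have h8 : r y ≤ Cf * r y := by nlinarith
      linarith
    · intro y hy y' hy' hne
      rw [Finset.mem_coe, Finset.mem_filter] at hy hy'
      obtain ⟨-, h2, -, -, h5, -⟩ := hur y hy.2
      obtain ⟨-, h2', -, -, h5', -⟩ := hur y' hy'.2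
      rw [Function.onFun, Set.disjoint_left]
      intro x hx hx'
      have h7 := h5 x hx
      have h8 := h5' x hx'
      rw [h2] at h7
      rw [h2'] at h8
      have h9 := gp_sep hε hne
      have h10 : ‖gp ε y - gp ε y'‖ ≤ ‖g x - gp ε y'‖ + ‖g x - gp ε y‖ := by
        have := norm_sub_le (g x - gp ε y') (g x - gp ε y)
        rwa [sub_sub_sub_cancel_left] at this
      linarith
  -- the edges
  have hnb : ∀ y z : Fin k → ℤ, ‖gp ε z - gp ε y‖ = ε → eph_phi g (gp ε y) < 1 →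
      |eph_phi g (gp ε z) - eph_phi g (gp ε y)| ^ k ≤ (4 * Cf) ^ k * R y := by
    intro y z hyz hlt
    obtain ⟨h1, h2, h3, h4, h5, h6⟩ := hur y hlt
    obtain ⟨u', hu', hgu'⟩ := h6 (gp ε z) (by rw [h2, hyz])
    have hRy : R y = r y ^ k := by simp only [hR]; rw [if_pos hlt]
    rw [hRy, ← mul_pow]
    refine pow_le_pow_left₀ (abs_nonneg _) ?_ k
    rw [mem_closedBall, dist_eq_norm] at hu'
    rw [mem_closedBall_zero_iff] at h1
    have h7 := norm_add_le (u' - u y) (u y)
    rw [sub_add_cancel] at h7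
    have hu'1 : u' ∈ closedBall (0 : EuclideanSpace ℝ (Fin k)) 1 := by
      rw [mem_closedBall_zero_iff]; linarith
    have hu1 : u y ∈ closedBall (0 : EuclideanSpace ℝ (Fin k)) 1 := by
      rw [mem_closedBall_zero_iff]; linarith
    rw [← hgu', ← h2, eph_phi_g hg hu'1, eph_phi_g hg hu1]
    refine (eph_c_lip _ _).trans ?_
    have h8 := abs_norm_sub_norm_le u' (u y)
    nlinarith
  have hedge : ∀ (y : Fin k → ℤ) (i : Fin k),
      |eph_phi g (gp ε (y + Pi.single i 1)) - eph_phi g (gp ε y)| ^ k ≤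
        (4 * Cf) ^ k * (R y + R (y + Pi.single i 1)) := by
    intro y i
    have hst := gp_step hε y i
    have hC : (0 : ℝ) ≤ (4 * Cf) ^ k := by positivity
    by_cases h1 : eph_phi g (gp ε y) < 1
    · refine (hnb y _ hst h1).trans ?_
      exact mul_le_mul_of_nonneg_left (by linarith [hR0 (y + Pi.single i 1)]) hC
    · by_cases h2 : eph_phi g (gp ε (y + Pi.single i 1)) < 1
      · rw [abs_sub_comm]
        rw [norm_sub_rev] at hst
        refine (hnb _ y hst h2).trans ?_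
        exact mul_le_mul_of_nonneg_left (by linarith [hR0 y]) hC
      · have h3 : eph_phi g (gp ε y) = 1 := le_antisymm (eph_phi_le _ _) (not_lt.1 h1)
        have h4 : eph_phi g (gp ε (y + Pi.single i 1)) = 1 := le_antisymm (eph_phi_le _ _) (not_lt.1 h2)
        rw [h3, h4, sub_self, abs_zero, zero_pow (by omega)]
        exact mul_nonneg hC (add_nonneg (hR0 _) (hR0 _))
  calc ∑ y ∈ S, ∑ i : Fin k, |eph_phi g (gp ε (y + Pi.single i 1)) - eph_phi g (gp ε y)| ^ k
      ≤ ∑ y ∈ S, ∑ i : Fin k, (4 * Cf) ^ k * (R y + R (y + Pi.single i 1)) :=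
        Finset.sum_le_sum fun y _ => Finset.sum_le_sum fun i _ => hedge y i
    _ = (4 * Cf) ^ k * ∑ i : Fin k, (∑ y ∈ S, R y + ∑ y ∈ S, R (y + Pi.single i 1)) := by
        rw [Finset.sum_comm, Finset.mul_sum]
        refine Finset.sum_congr rfl fun i _ => ?_
        rw [← Finset.mul_sum, Finset.sum_add_distrib]
    _ ≤ (4 * Cf) ^ k * ∑ i : Fin k, (1 + 1) := by
        refine mul_le_mul_of_nonneg_left ?_ (by positivity)
        refine Finset.sum_le_sum fun i _ => ?_
        refine add_le_add (hvol S) ?_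
        have h1 : ∑ y ∈ S, R (y + Pi.single i 1) =
            ∑ z ∈ S.map (addRightEmbedding (Pi.single i 1)), R z := by
          rw [Finset.sum_map]
          rfl
        rw [h1]
        exact hvol _
    _ = 2 * k * (4 * Cf) ^ k := by
        rw [Finset.sum_const, Finset.card_univ, Fintype.card_fin, nsmul_eq_mul]
        ring

end Pool.Agent.ANC
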