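import Mathlib
import Pool.Agent.ANC.EDN
import Pool.Agent.ANC.EBR
import Pool.Agent.ANC.EPH

/-! EGG: the egg yolk principle.  c0 from annulus_energy, CE = 2k(4Cf)^k, N0 = ceil(CE/c0) + 1, C' = k 2^(N0+2) (+1).
Let ω = sup norm of w0 (> 0 because g 0 = 0), u0 with |u0| ≤ 1/2 and suppose the sup norm of g u0 is > 2^(N0+2) ω =: bound.
ε < ε1 small: uniform continuity of φ for 1/100 at distances ≤ k ε, and 2 ε < ω.  m0 ≥ 1 minimal with 2^m0 ε > ω, so 2^m0 ε ≤ 2ω.
For m = m0, ..., m0+N0-1 and 2^m < τ < 2^(m+1): ε τ is the sup norm of some g(t u0) (intermediate value theorem, t ∈ [0,1]),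
where φ = 0, and of some z outside g(ball) (EBR), where φ = 1; round p/ε to the nearest integers: the sup norm stays
τ (the coordinate ±τ is an integer, the others have modulus ≤ τ) and the point moves by ≤ k ε.
So every annulus has energy ≥ c0; they are disjoint (en_sum), so N0 c0 ≤ CE, contradiction. -/

open Set Metric

namespace Pool.Agent.ANC

theorem egg_norm_le {k : ℕ} (p : EuclideanSpace ℝ (Fin k)) {c : ℝ} (h : ∀ i, |p i| ≤ c) : ‖p‖ ≤ k * c := by
  rcases Nat.eq_zero_or_pos k with rfl | hk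
  · rw [Subsingleton.elim p 0]; simp
  have hc : 0 ≤ c := (abs_nonneg _).trans (h ⟨0, hk⟩)
  have hk1 : (1 : ℝ) ≤ k := by exact_mod_cast hk
  refine le_of_sq_le_sq ?_ (by positivity)
  rw [EuclideanSpace.norm_sq_eq]
  calc ∑ i, ‖p i‖ ^ 2 ≤ ∑ _i : Fin k, c ^ 2 := Finset.sum_le_sum fun i _ => by
        rw [Real.norm_eq_abs]
        exact pow_le_pow_left₀ (abs_nonneg _) (h i) 2
    _ = k * c ^ 2 := by simp
    _ ≤ (k * c) ^ 2 := by
        rw [mul_pow]
        exact mul_le_mul_of_nonneg_right (by nlinarith) (sq_nonneg c)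

theorem egg_sup_le {k : ℕ} (p : EuclideanSpace ℝ (Fin k)) : ‖fun i => p i‖ ≤ ‖p‖ := by
  rw [pi_norm_le_iff_of_nonneg (norm_nonneg _)]
  exact fun i => PiLp.norm_apply_le p i

theorem egg_le_sup {k : ℕ} (p : EuclideanSpace ℝ (Fin k)) : ‖p‖ ≤ k * ‖fun i => p i‖ :=
  egg_norm_le p fun i => norm_le_pi_norm (fun i => p i) i

theorem egg_sup_cont {k : ℕ} : Continuous (fun p : EuclideanSpace ℝ (Fin k) => ‖fun i => p i‖) :=
  (PiLp.continuous_ofLp 2 (fun _ : Fin k => ℝ)).norm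

/-- rounding -/
theorem egg_round {k : ℕ} {ε : ℝ} (hε : 0 < ε) {τ : ℕ} (hτ : 0 < τ) (p : EuclideanSpace ℝ (Fin k))
    (hp : ‖fun i => p i‖ = ε * τ) : ∃ y : Fin k → ℤ, sn y = τ ∧ ‖gp ε y - p‖ ≤ k * ε := by
  have hτ' : (0 : ℝ) < τ := by exact_mod_cast hτ
  have hle : ∀ i, |p i| ≤ ε * τ := fun i => by
    rw [← hp]; exact norm_le_pi_norm (fun i => p i) i
  obtain ⟨i0, hi0⟩ : ∃ i, ε * τ ≤ |p i| := by
    by_contra hcon
    push Not at hcon
    have := (pi_norm_lt_iff (x := fun i => p i) (mul_pos hε hτ')).2 hcon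
    rw [hp] at this
    exact lt_irrefl _ this
  have habs : ∀ i, |p i / ε| = |p i| / ε := fun i => by rw [abs_div, abs_of_pos hε]
  refine ⟨fun i => round (p i / ε), le_antisymm ?_ ?_, ?_⟩
  · refine Finset.sup_le fun i _ => ?_
    have h1 := abs_sub_round (p i / ε)
    have h2 : |p i / ε| ≤ τ := by
      rw [habs, div_le_iff₀ hε]; linarith [hle i]
    have h3 : |(round (p i / ε) : ℝ)| ≤ τ + 1 / 2 := by
      have := abs_sub_abs_le_abs_sub (round (p i / ε) : ℝ) (p i / ε)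
      rw [abs_sub_comm] at this
      linarith
    have h4 : |(round (p i / ε) : ℝ)| < (τ + 1 : ℕ) := by push_cast; linarith
    have h5 : ((round (p i / ε)).natAbs : ℝ) < (τ + 1 : ℕ) := by
      rwa [Nat.cast_natAbs, Int.cast_abs]
    have h6 : (round (p i / ε)).natAbs < τ + 1 := by exact_mod_cast h5
    exact Nat.lt_succ_iff.1 h6
  · have h1 := abs_sub_round (p i0 / ε)
    have h2 : (τ : ℝ) ≤ |p i0 / ε| := by
      rw [habs, le_div_iff₀ hε]; linarith
    have h3 : (τ : ℝ) - 1 / 2 ≤ |(round (p i0 / ε) : ℝ)| := by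
      have := abs_sub_abs_le_abs_sub (p i0 / ε) (round (p i0 / ε) : ℝ)
      linarith
    have h5 : (τ : ℝ) < ((round (p i0 / ε)).natAbs + 1 : ℕ) := by
      push_cast
      rw [Nat.cast_natAbs, Int.cast_abs]
      linarith
    have h6 : τ < (round (p i0 / ε)).natAbs + 1 := by exact_mod_cast h5
    have h7 : (round (p i0 / ε)).natAbs ≤ sn (fun i => round (p i / ε)) :=
      Finset.le_sup (f := fun i => (round (p i / ε)).natAbs) (Finset.mem_univ i0)
    omega
  · refine egg_norm_le _ fun i => ?_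
    rw [PiLp.sub_apply, gp_apply]
    have h1 := abs_sub_round (p i / ε)
    have h2 : ε * (round (p i / ε) : ℝ) - p i = -(ε * (p i / ε - round (p i / ε))) := by
      field_simp
      ring
    rw [h2, abs_neg, abs_mul, abs_of_pos hε]
    nlinarith

theorem mem_ann {k : ℕ} (n : ℕ) (y : Fin k → ℤ) : y ∈ ann n ↔
    (∀ i, -(2 * n : ℤ) ≤ y i ∧ y i < 2 * n) ∧ ¬ (∀ i, -(n : ℤ) ≤ y i ∧ y i < n) := by
  unfold ann
  rw [Finset.mem_sdiff, mem_box, mem_box]
  have h1 : (∀ i, -(2 * n : ℤ) ≤ y i ∧ y i < -(2 * n : ℤ) + ((4 * n : ℕ) : ℤ)) ↔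
      (∀ i, -(2 * n : ℤ) ≤ y i ∧ y i < 2 * n) := by
    refine forall_congr' fun i => and_congr_right fun _ => ?_
    push_cast
    constructor <;> intro h <;> linarith
  have h2 : (∀ i, -(n : ℤ) ≤ y i ∧ y i < -(n : ℤ) + ((2 * n : ℕ) : ℤ)) ↔
      (∀ i, -(n : ℤ) ≤ y i ∧ y i < n) := by
    refine forall_congr' fun i => and_congr_right fun _ => ?_
    push_cast
    constructor <;> intro h <;> linarith
  rw [h1, h2]

theorem ann_disj {k : ℕ} {a b : ℕ} (h : a < b) : Disjoint (ann (k := k) (2 ^ a)) (ann (2 ^ b)) := by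
  rw [Finset.disjoint_left]
  intro y h1 h2
  rw [mem_ann] at h1 h2
  refine h2.2 fun i => ?_
  have h3 := h1.1 i
  have h4 : (2 : ℤ) * 2 ^ a ≤ 2 ^ b := by
    rw [← pow_succ']
    exact pow_le_pow_right₀ (by norm_num) h
  push_cast at h3 ⊢
  constructor <;> linarith [h3.1, h3.2]

theorem egg_yolk {k : ℕ} (hk : 2 ≤ k) {Cf : ℝ} (hCf : 1 ≤ Cf) : ∃ C' : ℝ, 1 ≤ C' ∧
    ∀ g : EuclideanSpace ℝ (Fin k) → EuclideanSpace ℝ (Fin k), EggMap k Cf g →
      ∀ w0, w0 ∉ g '' closedBall 0 1 → ∀ u ∈ closedBall (0 : EuclideanSpace ℝ (Fin k)) (1 / 2),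
        ‖g u‖ ≤ C' * ‖w0‖ := by
  classical
  obtain ⟨c0, hc0, hann⟩ := annulus_energy hk
  set CE : ℝ := 2 * k * (4 * Cf) ^ k with hCE
  obtain ⟨N0, hN0⟩ : ∃ N0 : ℕ, CE < N0 * c0 := by
    obtain ⟨n, hn⟩ := exists_nat_gt (CE / c0)
    exact ⟨n, by rwa [div_lt_iff₀ hc0] at hn⟩
  have hk0 : (1 : ℝ) ≤ k := by exact_mod_cast (by omega : 1 ≤ k)
  have h2p : (1 : ℝ) ≤ 2 ^ (N0 + 2) := one_le_pow₀ (by norm_num)
  refine ⟨k * 2 ^ (N0 + 2), by nlinarith, ?_⟩
  intro g hg w0 hw0 u0 hu0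
  by_contra hcon
  push Not at hcon
  obtain ⟨φ, huc, hφ0, hφ1, ε1, hε1, hE⟩ := exists_test (by omega : 1 ≤ k) hCf hg
  set ω : ℝ := ‖fun i => w0 i‖ with hω
  have hωpos : 0 < ω := by
    have hw : w0 ≠ 0 := by
      rintro rfl
      exact hw0 ⟨0, by simp, hg.zero⟩
    have h1 := egg_le_sup w0
    have h2 : 0 < ‖w0‖ := norm_pos_iff.2 hw
    by_contra hneg
    have h3 : ω = 0 := le_antisymm (not_lt.1 hneg) (norm_nonneg _)
    rw [← hω, h3, mul_zero] at h1
    linarith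
  have hbig : 2 ^ (N0 + 2) * ω < ‖fun i => g u0 i‖ := by
    have h1 := egg_le_sup (g u0)
    have h2 := egg_sup_le w0
    have h3 : (k : ℝ) * (2 ^ (N0 + 2) * ω) < k * ‖fun i => g u0 i‖ := by
      calc (k : ℝ) * (2 ^ (N0 + 2) * ω) ≤ k * 2 ^ (N0 + 2) * ‖w0‖ := by
            rw [← mul_assoc]
            exact mul_le_mul_of_nonneg_left h2 (by positivity)
        _ < ‖g u0‖ := hcon
        _ ≤ _ := h1
    exact lt_of_mul_lt_mul_left h3 (by linarith)
  obtain ⟨δ, hδ, hδφ⟩ := Metric.uniformContinuous_iff.1 huc (1 / 100) (by norm_num)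
  obtain ⟨ε, hε, hε1', hεω, hεδ⟩ : ∃ ε : ℝ, 0 < ε ∧ ε < ε1 ∧ ε ≤ ω ∧ k * ε < δ := by
    refine ⟨min (ε1 / 2) (min ω (δ / (2 * k))), ?_, ?_, ?_, ?_⟩
    · refine lt_min (by linarith) (lt_min hωpos (by positivity))
    · exact lt_of_le_of_lt (min_le_left _ _) (by linarith)
    · exact (min_le_right _ _).trans (min_le_left _ _)
    · have h1 : min (ε1 / 2) (min ω (δ / (2 * k))) ≤ δ / (2 * k) :=
        (min_le_right _ _).trans (min_le_right _ _)
      calc (k : ℝ) * min (ε1 / 2) (min ω (δ / (2 * k))) ≤ k * (δ / (2 * k)) :=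
            mul_le_mul_of_nonneg_left h1 (by linarith)
        _ = δ / 2 := by field_simp
        _ < δ := by linarith
  -- the first scale
  have hex : ∃ m : ℕ, ω < 2 ^ m * ε := by
    obtain ⟨m, hm⟩ := pow_unbounded_of_one_lt (ω / ε) (by norm_num : (1 : ℝ) < 2)
    exact ⟨m, by rwa [div_lt_iff₀ hε] at hm⟩
  obtain ⟨m0, hm0, hm0'⟩ : ∃ m0 : ℕ, ω < 2 ^ m0 * ε ∧ ∀ m < m0, ¬ ω < 2 ^ m * ε :=
    ⟨Nat.find hex, Nat.find_spec hex, fun m hm => Nat.find_min hex hm⟩
  have hm1 : 1 ≤ m0 := by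
    rcases Nat.eq_zero_or_pos m0 with h | h
    · rw [h, pow_zero, one_mul] at hm0
      linarith
    · exact h
  have hm2 : 2 ^ m0 * ε ≤ 2 * ω := by
    have h1 := not_lt.1 (hm0' (m0 - 1) (by omega))
    have h2 : (2 : ℝ) ^ m0 = 2 * 2 ^ (m0 - 1) := by
      rw [← pow_succ']
      congr 1
      omega
    rw [h2]
    linarith
  set ψ : (Fin k → ℤ) → ℝ := fun y => φ (gp ε y) with hψ
  -- rounding of a point on a sphere
  have hrd : ∀ τ : ℕ, 0 < τ → ∀ p : EuclideanSpace ℝ (Fin k), ‖fun i => p i‖ = ε * τ →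
      ∃ y : Fin k → ℤ, sn y = τ ∧ |ψ y - φ p| < 1 / 100 := by
    intro τ hτ p hp
    obtain ⟨y, hy, hyp⟩ := egg_round hε hτ p hp
    refine ⟨y, hy, ?_⟩
    have := hδφ (a := gp ε y) (b := p) (by rw [dist_eq_norm]; linarith)
    rwa [Real.dist_eq] at this
  have hann' : ∀ j ∈ Finset.range N0, c0 ≤ en ψ (ann (2 ^ (m0 + j))) := by
    intro j hj
    rw [Finset.mem_range] at hj
    have hτb : ∀ τ : ℕ, 2 ^ (m0 + j) < τ → τ < 2 ^ (m0 + j + 1) →
        0 < τ ∧ ω < ε * τ ∧ ε * τ < ‖fun i => g u0 i‖ := by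
      intro τ h1 h2
      have h1' : (2 : ℝ) ^ (m0 + j) < τ := by exact_mod_cast h1
      have h2' : (τ : ℝ) < 2 ^ (m0 + j + 1) := by exact_mod_cast h2
      have h3 : (2 : ℝ) ^ m0 ≤ 2 ^ (m0 + j) := pow_le_pow_right₀ (by norm_num) (by omega)
      have h4 : (2 : ℝ) ^ (m0 + j + 1) ≤ 2 ^ (m0 + N0) := pow_le_pow_right₀ (by norm_num) (by omega)
      refine ⟨by omega, ?_, ?_⟩
      · nlinarith
      · calc ε * τ ≤ ε * 2 ^ (m0 + N0) := by nlinarith
          _ = 2 ^ N0 * (2 ^ m0 * ε) := by rw [pow_add]; ring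
          _ ≤ 2 ^ N0 * (2 * ω) := mul_le_mul_of_nonneg_left hm2 (by positivity)
          _ ≤ 2 ^ (N0 + 2) * ω := by
              rw [pow_add]
              have : (0 : ℝ) < 2 ^ N0 := by positivity
              nlinarith [mul_pos this hωpos]
          _ < _ := hbig
    refine hann (m0 + j) (by omega) ψ ?_ ?_
    · intro τ h1 h2
      obtain ⟨hτ0, hτ1, hτ2⟩ := hτb τ h1 h2
      -- a point of the image of the half ball
      have hcont : ContinuousOn (fun t : ℝ => ‖fun i => g (t • u0) i‖) (Icc 0 1) := by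
        refine egg_sup_cont.comp_continuousOn ?_
        refine hg.cont.comp (by fun_prop) ?_
        intro t ht
        rw [mem_closedBall_zero_iff] at hu0 ⊢
        rw [norm_smul, Real.norm_of_nonneg ht.1]
        nlinarith [ht.1, ht.2, norm_nonneg u0]
      have hiv := intermediate_value_Icc (zero_le_one (α := ℝ)) hcont
      have hmem : ε * τ ∈ Icc ((fun t : ℝ => ‖fun i => g (t • u0) i‖) 0)
          ((fun t : ℝ => ‖fun i => g (t • u0) i‖) 1) := by
        constructor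
        · simp only [zero_smul, hg.zero]
          have : ‖fun i : Fin k => (0 : EuclideanSpace ℝ (Fin k)) i‖ ≤ ‖(0 : EuclideanSpace ℝ (Fin k))‖ :=
            egg_sup_le 0
          rw [norm_zero] at this
          exact this.trans (by positivity)
        · simp only [one_smul]
          exact hτ2.le
      obtain ⟨t, ht, hteq⟩ := hiv hmem
      obtain ⟨y, hy1, hy2⟩ := hrd τ hτ0 (g (t • u0)) hteq
      refine ⟨y, hy1, ?_⟩
      rw [hφ0 (t • u0) (by
        rw [mem_closedBall_zero_iff] at hu0 ⊢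
        rw [norm_smul, Real.norm_of_nonneg ht.1]
        nlinarith [ht.1, ht.2, norm_nonneg u0]), sub_zero] at hy2
      exact (le_abs_self _).trans hy2.le
    · intro τ h1 h2
      obtain ⟨hτ0, hτ1, hτ2⟩ := hτb τ h1 h2
      obtain ⟨z, hz1, hz2⟩ := sphere_not_covered hg.cont hg.inj hw0 hτ1
      obtain ⟨y, hy1, hy2⟩ := hrd τ hτ0 z hz1
      refine ⟨y, hy1, ?_⟩
      rw [hφ1 z hz2] at hy2
      have := (abs_lt.1 hy2).1
      linarith
  -- summation
  set T : Finset (Fin k → ℤ) := (Finset.range N0).biUnion (fun j => ann (2 ^ (m0 + j))) with hT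
  have hsum : ∑ j ∈ Finset.range N0, en ψ (ann (2 ^ (m0 + j))) ≤ en ψ T := by
    refine en_sum ψ (Finset.range N0) (fun j => ann (2 ^ (m0 + j))) T ?_ ?_
    · intro j hj
      exact Finset.subset_biUnion_of_mem (fun j => ann (2 ^ (m0 + j))) hj
    · intro i _ j _ hij
      rcases lt_or_gt_of_ne hij with h | h
      · exact ann_disj (by omega)
      · exact (ann_disj (by omega)).symm
  have hlow : (N0 : ℝ) * c0 ≤ ∑ j ∈ Finset.range N0, en ψ (ann (2 ^ (m0 + j))) := by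
    have := Finset.card_nsmul_le_sum (Finset.range N0) (fun j => en ψ (ann (2 ^ (m0 + j)))) c0 hann'
    rwa [Finset.card_range, nsmul_eq_mul] at this
  have hup : en ψ T ≤ CE := by
    refine le_trans ?_ (hE ε hε hε1' T)
    unfold en
    refine Finset.sum_le_sum fun y _ => Finset.sum_le_sum fun i _ => ?_
    split_ifs
    · exact le_rfl
    · positivity
  linarith

end Pool.Agent.ANC
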