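import Mathlib
import Pool.Agent.ANC.FOL
import Pool.Agent.ANC.CHN

/-! INJ: holonomies are injective.  Fix the pack, η with 2η < δ, 3Cη < ε, K from Rect.bounds and n with
e^{-cn} K ≤ η.  Let |s - s'| < ρ' where ρ' is the modulus (first part of Rect) for e^{-bn} η.  Suppose
h s u = h s u'.  Apply SecPack.follow to φ t = f^-n h(s, u + t(u'-u)), ψ t = f^-n h(s', u + t(u'-u)):
φ 1 = φ 0 so ψ 1 = B (φ 0) (ψ 0) = B(φ 0)(ψ 0), and ψ 0 = B (φ 0) (ψ 0) as well (t = 0), so h s' u = h s' u'.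
So the property that h s u = h s u' propagates along steps < ρ', from s down to 0, against the injectivity of h 0. -/

open Set Metric Function

namespace Pool.Agent.ANC

variable {M : Type} [MetricSpace M]

private theorem INJ_step {D : Sys M} {F : Type} [NormedAddCommGroup F] [NormedSpace ℝ F] {ρ : ℝ}
    {h : ℝ → F → M} (hR : Rect D (Icc (0 : ℝ) 1) (closedBall 0 ρ) h) {ε δ : ℝ} {B : M → M → M}
    (P : SecPack D ε δ B) {η : ℝ} (hη : 0 < η) (h1 : 2 * η < δ) (h2 : 3 * D.C * η < ε) {K : ℝ} (n : ℕ)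
    (hK : ∀ s ∈ Icc (0 : ℝ) 1, ∀ u ∈ closedBall (0 : F) ρ, ∀ u' ∈ closedBall (0 : F) ρ,
        D.U (h s u) (h s u') K) (hn : Real.exp (-(D.c * n)) * K ≤ η) {s s' : ℝ} (hs : s ∈ Icc (0 : ℝ) 1)
    (hs' : s' ∈ Icc (0 : ℝ) 1)
    (hS : ∀ u ∈ closedBall (0 : F) ρ, D.S (h s u) (h s' u) (Real.exp (-(D.b * n)) * η))
    {u u' : F} (hu : u ∈ closedBall (0 : F) ρ) (hu' : u' ∈ closedBall (0 : F) ρ) (he : h s u = h s u') :
    h s' u = h s' u' := by
  have hseg : ∀ t ∈ Icc (0 : ℝ) 1, u + t • (u' - u) ∈ closedBall (0 : F) ρ := by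
    intro t ht
    have := (convex_closedBall (0 : F) ρ).add_smul_sub_mem hu hu' ht
    exact this
  have hψ : ∀ ε' > 0, ∃ ρ' > 0, ∀ t ∈ Icc (0 : ℝ) 1, ∀ t' ∈ Icc (0 : ℝ) 1, |t - t'| < ρ' →
      D.U (D.f.symm^[n] (h s' (u + t • (u' - u)))) (D.f.symm^[n] (h s' (u + t' • (u' - u)))) ε' := by
    intro ε' hε'
    obtain ⟨ρ', hρ', hh⟩ := hR.2 ε' hε'
    refine ⟨ρ' / (‖u' - u‖ + 1), by positivity, fun t ht t' ht' htt => ?_⟩
    have h3 : dist (u + t • (u' - u)) (u + t' • (u' - u)) < ρ' := by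
      rw [dist_eq_norm, add_sub_add_left_eq_sub, ← sub_smul, norm_smul, Real.norm_eq_abs]
      rw [lt_div_iff₀ (by positivity)] at htt
      nlinarith [abs_nonneg (t - t'), norm_nonneg (u' - u)]
    have h4 := D.U_iter_symm n (hh s' hs' _ (hseg t ht) _ (hseg t' ht') h3)
    refine D.U_mono _ _ _ _ ?_ h4
    have h5 : Real.exp (-(D.c * n)) ≤ 1 := by
      rw [Real.exp_le_one_iff]
      have := mul_nonneg D.hc.le (Nat.cast_nonneg (α := ℝ) n)
      linarith
    nlinarith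
  have hSS : ∀ t ∈ Icc (0 : ℝ) 1, D.S (D.f.symm^[n] (h s (u + t • (u' - u))))
      (D.f.symm^[n] (h s' (u + t • (u' - u)))) η := by
    intro t ht
    have h3 := D.S_iter_symm n (hS _ (hseg t ht))
    rw [← mul_assoc, ← Real.exp_add, add_neg_cancel, Real.exp_zero, one_mul] at h3
    exact h3
  have hUU : ∀ t ∈ Icc (0 : ℝ) 1, D.U (D.f.symm^[n] (h s (u + (0 : ℝ) • (u' - u))))
      (D.f.symm^[n] (h s (u + t • (u' - u)))) η := by
    intro t ht
    exact D.U_mono _ _ _ _ hn (D.U_iter_symm n (hK s hs _ (hseg 0 ⟨le_rfl, zero_le_one⟩) _ (hseg t ht)))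
  have hf := P.follow hη h1 h2 (φ := fun t => D.f.symm^[n] (h s (u + t • (u' - u))))
    (ψ := fun t => D.f.symm^[n] (h s' (u + t • (u' - u)))) hψ hSS hUU
  have e1 := (hf 1 ⟨zero_le_one, le_rfl⟩).1
  have e0 := (hf 0 ⟨le_rfl, zero_le_one⟩).1
  simp only [one_smul, zero_smul, add_zero, add_sub_cancel] at e1 e0
  rw [← he] at e1
  have e2 : D.f.symm^[n] (h s' u') = D.f.symm^[n] (h s' u) := by
    rw [e1]
    exact e0.symm
  have e3 := congrArg (D.f^[n]) e2
  rw [iter_symm_iter, iter_symm_iter] at e3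
  exact e3.symm

theorem Rect.inj [CompactSpace M] {D : Sys M} {F : Type} [NormedAddCommGroup F] [NormedSpace ℝ F] {ρ : ℝ}
    {h : ℝ → F → M} (hR : Rect D (Icc (0 : ℝ) 1) (closedBall 0 ρ) h)
    (h0 : InjOn (h 0) (closedBall 0 ρ)) :
    ∀ s ∈ Icc (0 : ℝ) 1, InjOn (h s) (closedBall 0 ρ) := by
  intro s hs u hu u' hu' he
  obtain ⟨ε, δ, B, P⟩ := D.exists_pack
  obtain ⟨K, hK0, -, hKU⟩ := hR.bounds
  have hC : 0 < D.C := lt_of_lt_of_le one_pos D.hC
  set η : ℝ := min (δ / 4) (ε / (6 * D.C)) with hηd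
  have hη : 0 < η := lt_min (div_pos P.hδ (by norm_num)) (div_pos P.hε (by positivity))
  have h1 : 2 * η < δ := by
    have := min_le_left (δ / 4) (ε / (6 * D.C))
    have := P.hδ
    linarith
  have h2 : 3 * D.C * η < ε := by
    have h3 : η ≤ ε / (6 * D.C) := min_le_right _ _
    rw [le_div_iff₀ (by positivity)] at h3
    have := P.hε
    nlinarith
  obtain ⟨n, hn⟩ : ∃ n : ℕ, Real.exp (-(D.c * n)) * K ≤ η := by
    have h3 : Filter.Tendsto (fun n : ℕ => Real.exp (-(D.c * n)) * K) Filter.atTop (nhds (0 * K)) := by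
      refine Filter.Tendsto.mul_const K ?_
      refine Real.tendsto_exp_neg_atTop_nhds_zero.comp ?_
      exact Filter.Tendsto.const_mul_atTop D.hc tendsto_natCast_atTop_atTop
    rw [zero_mul] at h3
    obtain ⟨n, hn⟩ := (h3.eventually (eventually_le_nhds hη)).exists
    exact ⟨n, hn⟩
  obtain ⟨ρ', hρ', hmod⟩ := hR.1 (Real.exp (-(D.b * n)) * η) (by positivity)
  obtain ⟨N, hN⟩ := exists_nat_gt (1 / ρ')
  have hN0 : (0 : ℝ) < N := lt_trans (by positivity) hN
  have hmem : ∀ j : ℕ, j ≤ N → s * (1 - (j : ℝ) / N) ∈ Icc (0 : ℝ) 1 := by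
    intro j hj
    have h3 : (j : ℝ) / N ≤ 1 := by
      rw [div_le_one hN0]
      exact_mod_cast hj
    have h4 : 0 ≤ (j : ℝ) / N := by positivity
    constructor
    · exact mul_nonneg hs.1 (by linarith)
    · nlinarith [hs.1, hs.2]
  have key : ∀ j : ℕ, j ≤ N → h (s * (1 - (j : ℝ) / N)) u = h (s * (1 - (j : ℝ) / N)) u' := by
    intro j
    induction j with
    | zero => intro _; simpa using he
    | succ j ih =>
      intro hj
      refine INJ_step hR P hη h1 h2 n hKU hn (hmem j (by omega)) (hmem (j + 1) hj) ?_ hu hu' (ih (by omega))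
      intro w hw
      refine hmod _ (hmem j (by omega)) _ (hmem (j + 1) hj) w hw ?_
      have h3 : s * (1 - (j : ℝ) / N) - s * (1 - ((j + 1 : ℕ) : ℝ) / N) = s * (1 / N) := by
        push_cast
        field_simp
        ring
      rw [Real.dist_eq, h3, abs_of_nonneg (mul_nonneg hs.1 (by positivity))]
      have h4 : 1 / (N : ℝ) < ρ' := by
        rw [div_lt_iff₀ hρ'] at hN
        rw [div_lt_iff₀ hN0]
        linarith [mul_comm (N : ℝ) ρ']
      have h5 : s * (1 / (N : ℝ)) ≤ 1 * (1 / (N : ℝ)) :=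
        mul_le_mul_of_nonneg_right hs.2 (by positivity)
      linarith
  have hfin := key N le_rfl
  rw [div_self hN0.ne', sub_self, mul_zero] at hfin
  exact h0 hu hu' hfin

end Pool.Agent.ANC
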