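import Mathlib
import Pool.Agent.ANC.KAP
import Pool.Agent.ANC.SIM

/-! WIN: choice of the time at which a small leaf ball has a prescribed size.
Let C1 be the constant of `QC.sim`; for z in the leaf of q let lam n be a number given by sim (q,z,n).
(i) lam n and lam (n+1) are comparable: lam (n+1) ≤ C' lam n where C' = C1^2 C^2 e^{D.e} (dd (f^{n+1} ..) ≤
(C / mu 1 (f^{n+1} z)) dd (f^n ..) by dd_fwd at time 1 and le_mu; test on two different points, dim ≥ 2).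
(ii) if dd q q z ≤ R then lam n ≤ K e^{en} and e^{cn} ≤ K lam n (K = K(R)): dd_fwd with time n at z itself, mu bounds,
and kap to compare dd z with dd q.
`window`: ε1 such that K e^{e n0} ε1 ≤ τ; take the largest n ≥ n0 with lam n ε ≤ τ (exists by e^{cn} ≤ K lam n);
then lam (n+1) ε > τ and lam n ε ≥ τ / C'.
`reach` (used for discs of radius r ≤ 1): the smallest n with lam n ≥ τ / r; C1 the constant of `sim`; if n = 0 use
lam 0 ≤ K; if n ≥ 1 use lam n ≤ C' lam (n-1) < C' τ / r.  τ / r ≤ lam n ≤ K e^{en} gives e^{-en} ≤ (K/τ) r, and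
e^{-cn} = (e^{-en})^{c/e}. -/

open Set Metric Function

namespace Pool.Agent.ANC

variable {M : Type} [MetricSpace M] {E : Type} [NormedAddCommGroup E] [NormedSpace ℝ E]
  {D : Sys M} {Λ : Leaves M D E} (Q : QC D Λ)

/-- the scales tend to infinity -/
private theorem win_large (K : ℝ) (hK : 1 ≤ K) (lam : ℕ → ℝ) (h : ∀ n : ℕ, Real.exp (D.c * n) ≤ K * lam n)
    (A : ℝ) (n0 : ℕ) : ∃ n, n0 ≤ n ∧ A < lam n := by
  have hc := D.hc
  obtain ⟨N, hN⟩ := exists_nat_gt (K * A / D.c)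
  refine ⟨max n0 N, le_max_left _ _, ?_⟩
  have h1 : (N : ℝ) ≤ (max n0 N : ℕ) := by exact_mod_cast le_max_right n0 N
  have h2 := h (max n0 N)
  have h3 : K * A < D.c * (max n0 N : ℕ) := by
    rw [div_lt_iff₀ hc] at hN
    nlinarith
  have h4 := Real.add_one_le_exp (D.c * ((max n0 N : ℕ) : ℝ))
  have h5 : K * A < K * lam (max n0 N) := by linarith
  exact lt_of_mul_lt_mul_left h5 (by linarith)

include Q

private theorem win_test (q : M) : ∃ w, InL D q w ∧ 0 < dd Λ q q w := by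
  have h1 : 0 < Module.finrank ℝ (Λ.Eu q) := by
    rw [Q.dim q]
    have := Q.hk
    omega
  have : Nontrivial (Λ.Eu q) := Module.nontrivial_of_finrank_pos h1
  obtain ⟨v, hv⟩ := exists_ne (0 : Λ.Eu q)
  refine ⟨Λ.θu q v, InL_θ Λ q v, ?_⟩
  rw [dd_center_θ]
  exact norm_pos_iff.2 hv

/-- bounds for the scale of the `n`-th iterate -/
theorem QC.lam_bounds (C1 R : ℝ) (hC1 : 1 ≤ C1) : ∃ K : ℝ, 1 ≤ K ∧ ∀ (q z : M) (n : ℕ) (lam : ℝ), InL D q z →
    dd Λ q q z ≤ R →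
    (∀ w w', InL D q w → InL D q w' →
      dd Λ (D.f^[n] z) (D.f^[n] w) (D.f^[n] w') ≤ C1 * lam * dd Λ q w w' ∧
      lam * dd Λ q w w' ≤ C1 * dd Λ (D.f^[n] z) (D.f^[n] w) (D.f^[n] w')) →
    lam ≤ K * Real.exp (D.e * n) ∧ Real.exp (D.c * n) ≤ K * lam := by
  obtain ⟨Kk, hKk, hk⟩ := Q.kap R
  have hC := Q.hC
  have hK1 : 1 ≤ C1 * Q.C ^ 2 * Kk := by
    have h1 : 1 ≤ Q.C ^ 2 := one_le_pow₀ hC
    have h2 : 1 ≤ C1 * Q.C ^ 2 := one_le_mul_of_one_le_of_one_le hC1 h1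
    exact one_le_mul_of_one_le_of_one_le h2 hKk
  refine ⟨C1 * Q.C ^ 2 * Kk, hK1, ?_⟩
  intro q z n lam hz hR hl
  obtain ⟨w, hw, hd⟩ := win_test Q q
  obtain ⟨h1, h2⟩ := hl q w (InL.refl q) hw
  have hzq : InL D z q := hz.symm
  have hzw : InL D z w := hzq.trans hw
  obtain ⟨f1, f2⟩ := Q.dd_fwd n hzq hzw
  obtain ⟨k1, k2⟩ := hk q z hz hR q w (InL.refl q) hw
  have hm := Q.mu_pos n (D.f^[n] z)
  have hm1 := Q.mu_le n (D.f^[n] z)
  have hm2 := Q.le_mu n (D.f^[n] z)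
  have hX : 0 ≤ dd Λ (D.f^[n] z) (D.f^[n] q) (D.f^[n] w) := dd_nonneg Λ _ _ _
  set d := dd Λ q q w with hdd
  set X := dd Λ (D.f^[n] z) (D.f^[n] q) (D.f^[n] w) with hXX
  set Y := dd Λ z q w with hYY
  set m := Q.mu n (D.f^[n] z) with hmm
  have hC0 : 0 < Q.C := by linarith
  have hK0 : 0 < Kk := by linarith
  have hC10 : 0 < C1 := by linarith
  have hE1 : 0 < Real.exp (D.e * n) := Real.exp_pos _
  have hE2 : 0 < Real.exp (D.c * n) := Real.exp_pos _
  have hEE1 : Real.exp (-(D.e * n)) * Real.exp (D.e * n) = 1 := by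
    rw [← Real.exp_add]
    simp
  have hEE2 : Real.exp (-(D.c * n)) * Real.exp (D.c * n) = 1 := by
    rw [← Real.exp_add]
    simp
  constructor
  · by_cases hlam : lam ≤ 0
    · exact hlam.trans (by positivity)
    · push Not at hlam
      have a1 : lam * d * m ≤ C1 * X * m := mul_le_mul_of_nonneg_right h2 hm.le
      have a2 : C1 * X * m ≤ C1 * (Q.C * (Kk * d)) := by
        have : m * X ≤ Q.C * (Kk * d) := f1.trans (mul_le_mul_of_nonneg_left k1 hC0.le)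
        calc C1 * X * m = C1 * (m * X) := by ring
          _ ≤ C1 * (Q.C * (Kk * d)) := mul_le_mul_of_nonneg_left this hC10.le
      have a3 : lam * m ≤ C1 * Q.C * Kk := by
        have : (lam * m) * d ≤ (C1 * Q.C * Kk) * d := by
          calc (lam * m) * d = lam * d * m := by ring
            _ ≤ C1 * (Q.C * (Kk * d)) := a1.trans a2
            _ = (C1 * Q.C * Kk) * d := by ring
        exact le_of_mul_le_mul_right this hd
      have a4 : lam * Real.exp (-(D.e * n)) ≤ C1 * Q.C ^ 2 * Kk := by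
        calc lam * Real.exp (-(D.e * n)) ≤ lam * (Q.C * m) := mul_le_mul_of_nonneg_left hm2 hlam.le
          _ = Q.C * (lam * m) := by ring
          _ ≤ Q.C * (C1 * Q.C * Kk) := mul_le_mul_of_nonneg_left a3 hC0.le
          _ = C1 * Q.C ^ 2 * Kk := by ring
      calc lam = lam * Real.exp (-(D.e * n)) * Real.exp (D.e * n) := by
            rw [mul_assoc, hEE1, mul_one]
        _ ≤ C1 * Q.C ^ 2 * Kk * Real.exp (D.e * n) := mul_le_mul_of_nonneg_right a4 hE1.le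
  · have b1 : d ≤ Kk * (Q.C * (Q.C * Real.exp (-(D.c * n))) * (C1 * lam * d)) := by
      have c1 : Q.C * m * X ≤ Q.C * (Q.C * Real.exp (-(D.c * n))) * X :=
        mul_le_mul_of_nonneg_right (mul_le_mul_of_nonneg_left hm1 hC0.le) hX
      have c2 : Q.C * (Q.C * Real.exp (-(D.c * n))) * X ≤
          Q.C * (Q.C * Real.exp (-(D.c * n))) * (C1 * lam * d) :=
        mul_le_mul_of_nonneg_left h1 (by positivity)
      exact k2.trans (mul_le_mul_of_nonneg_left (f2.trans (c1.trans c2)) hK0.le)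
    have b2 : 1 ≤ C1 * Q.C ^ 2 * Kk * lam * Real.exp (-(D.c * n)) := by
      have : 1 * d ≤ (C1 * Q.C ^ 2 * Kk * lam * Real.exp (-(D.c * n))) * d := by
        calc 1 * d = d := one_mul d
          _ ≤ _ := b1
          _ = (C1 * Q.C ^ 2 * Kk * lam * Real.exp (-(D.c * n))) * d := by ring
      exact le_of_mul_le_mul_right this hd
    calc Real.exp (D.c * n) = 1 * Real.exp (D.c * n) := (one_mul _).symm
      _ ≤ C1 * Q.C ^ 2 * Kk * lam * Real.exp (-(D.c * n)) * Real.exp (D.c * n) :=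
          mul_le_mul_of_nonneg_right b2 hE2.le
      _ = C1 * Q.C ^ 2 * Kk * lam := by rw [mul_assoc, hEE2, mul_one]

/-- consecutive scales are comparable -/
private theorem win_step (C1 : ℝ) (hC1 : 1 ≤ C1) (q z : M) (hz : InL D q z) (n : ℕ) (lam lam' : ℝ)
    (hl : ∀ w w', InL D q w → InL D q w' →
      dd Λ (D.f^[n] z) (D.f^[n] w) (D.f^[n] w') ≤ C1 * lam * dd Λ q w w')
    (hl' : ∀ w w', InL D q w → InL D q w' →
      lam' * dd Λ q w w' ≤ C1 * dd Λ (D.f^[n + 1] z) (D.f^[n + 1] w) (D.f^[n + 1] w')) :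
    lam' ≤ C1 ^ 2 * Q.C ^ 2 * Real.exp D.e * lam := by
  obtain ⟨w, hw, hd⟩ := win_test Q q
  have h1 := hl q w (InL.refl q) hw
  have h2 := hl' q w (InL.refl q) hw
  have hzq : InL D z q := hz.symm
  have hzw : InL D z w := hzq.trans hw
  obtain ⟨f1, -⟩ := Q.dd_fwd 1 (hzq.iter n) (hzw.iter n)
  have e1 : ∀ y : M, D.f^[1] (D.f^[n] y) = D.f^[n + 1] y := by
    intro y
    rw [Function.iterate_succ_apply' D.f n y]
    rfl
  rw [e1, e1, e1] at f1
  have hm := Q.mu_pos 1 (D.f^[n + 1] z)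
  have hm2 := Q.le_mu 1 (D.f^[n + 1] z)
  have hC := Q.hC
  have hC0 : 0 < Q.C := by linarith
  have hC10 : 0 < C1 := by linarith
  have hX : 0 ≤ dd Λ (D.f^[n + 1] z) (D.f^[n + 1] q) (D.f^[n + 1] w) := dd_nonneg Λ _ _ _
  set d := dd Λ q q w with hdd
  set X' := dd Λ (D.f^[n + 1] z) (D.f^[n + 1] q) (D.f^[n + 1] w) with hXX'
  set X := dd Λ (D.f^[n] z) (D.f^[n] q) (D.f^[n] w) with hXX
  set m := Q.mu 1 (D.f^[n + 1] z) with hmm
  rw [Nat.cast_one, mul_one] at hm2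
  have hE : 0 < Real.exp D.e := Real.exp_pos _
  have hEE : Real.exp D.e * Real.exp (-D.e) = 1 := by
    rw [← Real.exp_add]
    simp
  have a1 : X' ≤ Real.exp D.e * (Q.C * (Q.C * X)) := by
    calc X' = Real.exp D.e * (Real.exp (-D.e) * X') := by rw [← mul_assoc, hEE, one_mul]
      _ ≤ Real.exp D.e * (Q.C * m * X') :=
          mul_le_mul_of_nonneg_left (mul_le_mul_of_nonneg_right hm2 hX) hE.le
      _ = Real.exp D.e * (Q.C * (m * X')) := by ring
      _ ≤ Real.exp D.e * (Q.C * (Q.C * X)) :=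
          mul_le_mul_of_nonneg_left (mul_le_mul_of_nonneg_left f1 hC0.le) hE.le
  have a2 : lam' * d ≤ C1 ^ 2 * Q.C ^ 2 * Real.exp D.e * lam * d := by
    calc lam' * d ≤ C1 * X' := h2
      _ ≤ C1 * (Real.exp D.e * (Q.C * (Q.C * X))) := mul_le_mul_of_nonneg_left a1 hC10.le
      _ = C1 * Q.C ^ 2 * Real.exp D.e * X := by ring
      _ ≤ C1 * Q.C ^ 2 * Real.exp D.e * (C1 * lam * d) := mul_le_mul_of_nonneg_left h1 (by positivity)
      _ = C1 ^ 2 * Q.C ^ 2 * Real.exp D.e * lam * d := by ring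
  exact le_of_mul_le_mul_right a2 hd

theorem QC.window : ∃ C3 : ℝ, 1 ≤ C3 ∧ ∀ R τ : ℝ, 0 < τ → ∀ n0 : ℕ, ∃ ε1 > 0, ∀ q z, InL D q z →
    dd Λ q q z ≤ R → ∀ ε, 0 < ε → ε < ε1 → ∃ n ≥ n0, ∃ lam > 0, lam * ε ≤ τ ∧ τ ≤ C3 * (lam * ε) ∧
      ∀ w w', InL D q w → InL D q w' →
        dd Λ (D.f^[n] z) (D.f^[n] w) (D.f^[n] w') ≤ C3 * lam * dd Λ q w w' ∧
        lam * dd Λ q w w' ≤ C3 * dd Λ (D.f^[n] z) (D.f^[n] w) (D.f^[n] w') := by
  obtain ⟨C1, hC1, hsim⟩ := Q.sim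
  have hC := Q.hC
  have hC3 : C1 ≤ C1 ^ 2 * Q.C ^ 2 * Real.exp D.e := by
    have h1 : 1 ≤ Q.C ^ 2 := one_le_pow₀ hC
    have h2 : 1 ≤ Real.exp D.e := Real.one_le_exp (D.hc.le.trans D.hce)
    have h3 : 1 ≤ Q.C ^ 2 * Real.exp D.e := one_le_mul_of_one_le_of_one_le h1 h2
    have h4 : C1 ≤ C1 ^ 2 := by nlinarith
    calc C1 ≤ C1 ^ 2 := h4
      _ = C1 ^ 2 * 1 := (mul_one _).symm
      _ ≤ C1 ^ 2 * (Q.C ^ 2 * Real.exp D.e) := mul_le_mul_of_nonneg_left h3 (by positivity)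
      _ = C1 ^ 2 * Q.C ^ 2 * Real.exp D.e := by ring
  refine ⟨C1 ^ 2 * Q.C ^ 2 * Real.exp D.e, hC1.trans hC3, ?_⟩
  intro R τ hτ n0
  obtain ⟨K, hK, hb⟩ := Q.lam_bounds C1 R hC1
  have hK0 : 0 < K := by linarith
  refine ⟨τ / (K * Real.exp (D.e * n0)), by positivity, ?_⟩
  intro q z hz hR ε hε hε1
  have hch : ∀ n : ℕ, ∃ lam > 0, ∀ w w', InL D q w → InL D q w' →
      dd Λ (D.f^[n] z) (D.f^[n] w) (D.f^[n] w') ≤ C1 * lam * dd Λ q w w' ∧
      lam * dd Λ q w w' ≤ C1 * dd Λ (D.f^[n] z) (D.f^[n] w) (D.f^[n] w') := fun n => hsim q z n hz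
  choose lam hlam0 hlam using hch
  have hbn : ∀ n : ℕ, lam n ≤ K * Real.exp (D.e * n) ∧ Real.exp (D.c * n) ≤ K * lam n :=
    fun n => hb q z n (lam n) hz hR (hlam n)
  have h0 : lam n0 * ε ≤ τ := by
    rw [lt_div_iff₀ (by positivity)] at hε1
    calc lam n0 * ε ≤ K * Real.exp (D.e * n0) * ε := mul_le_mul_of_nonneg_right (hbn n0).1 hε.le
      _ = ε * (K * Real.exp (D.e * n0)) := by ring
      _ ≤ τ := hε1.le
  have hex : ∃ n, n0 ≤ n ∧ τ / ε < lam n := win_large (D := D) K hK lam (fun n => (hbn n).2) (τ / ε) n0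
  classical
  obtain ⟨hn1, hn2⟩ := Nat.find_spec hex
  have hmin := fun m (hm : m < Nat.find hex) => Nat.find_min hex hm
  set N := Nat.find hex with hN
  have hne : N ≠ n0 := by
    intro h
    rw [h, div_lt_iff₀ hε] at hn2
    linarith
  obtain ⟨n, hn⟩ : ∃ n, N = n + 1 := ⟨N - 1, by omega⟩
  have hn0 : n0 ≤ n := by omega
  have hlt := hmin n (by omega)
  have hle : lam n ≤ τ / ε := by
    by_contra hcon
    push Not at hcon
    exact hlt ⟨hn0, hcon⟩
  rw [hn, div_lt_iff₀ hε] at hn2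
  rw [le_div_iff₀ hε] at hle
  have hst := win_step Q C1 hC1 q z hz n (lam n) (lam (n + 1)) (fun w w' hw hw' => (hlam n w w' hw hw').1)
    (fun w w' hw hw' => (hlam (n + 1) w w' hw hw').2)
  refine ⟨n, hn0, lam n, hlam0 n, hle, ?_, ?_⟩
  · calc τ ≤ lam (n + 1) * ε := hn2.le
      _ ≤ C1 ^ 2 * Q.C ^ 2 * Real.exp D.e * lam n * ε := mul_le_mul_of_nonneg_right hst hε.le
      _ = C1 ^ 2 * Q.C ^ 2 * Real.exp D.e * (lam n * ε) := by ring
  · intro w w' hw hw'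
    obtain ⟨g1, g2⟩ := hlam n w w' hw hw'
    have hdd : 0 ≤ dd Λ q w w' := dd_nonneg Λ _ _ _
    have hdd2 : 0 ≤ dd Λ (D.f^[n] z) (D.f^[n] w) (D.f^[n] w') := dd_nonneg Λ _ _ _
    refine ⟨g1.trans ?_, g2.trans (mul_le_mul_of_nonneg_right hC3 hdd2)⟩
    exact mul_le_mul_of_nonneg_right (mul_le_mul_of_nonneg_right hC3 (hlam0 n).le) hdd

/-- the first time at which the scale is at least `τ / r`, for `r ≤ 1`; the scale is then at most `K / r` and the
time is at least `log (1 / r) / e` up to a constant. -/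
theorem QC.reach : ∃ C1 : ℝ, 1 ≤ C1 ∧ ∀ R τ : ℝ, 0 < τ → ∃ K : ℝ, 1 ≤ K ∧ ∀ q z, InL D q z →
    dd Λ q q z ≤ R → ∀ r, 0 < r → r ≤ 1 → ∃ (n : ℕ) (lam : ℝ), 0 < lam ∧ τ ≤ lam * r ∧ lam * r ≤ K ∧
      Real.exp (-(D.c * n)) ≤ K * r ^ (D.c / D.e) ∧
      ∀ w w', InL D q w → InL D q w' →
        dd Λ (D.f^[n] z) (D.f^[n] w) (D.f^[n] w') ≤ C1 * lam * dd Λ q w w' ∧
        lam * dd Λ q w w' ≤ C1 * dd Λ (D.f^[n] z) (D.f^[n] w) (D.f^[n] w') := by
  obtain ⟨C1, hC1, hsim⟩ := Q.sim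
  refine ⟨C1, hC1, ?_⟩
  intro R τ hτ
  obtain ⟨K, hK, hb⟩ := Q.lam_bounds C1 R hC1
  have hK0 : 0 < K := by linarith
  have hC0 : 0 < Q.C := by have := Q.hC; linarith
  have hC10 : 0 < C1 := by linarith
  have he0 : 0 < D.e := D.hc.trans_le D.hce
  set C' := C1 ^ 2 * Q.C ^ 2 * Real.exp D.e with hC'
  have hC'0 : 0 < C' := by positivity
  set P := (K / τ) ^ (D.c / D.e) with hP
  have hP0 : 0 < P := Real.rpow_pos_of_pos (by positivity) _
  refine ⟨K + C' * τ + P, by have : 0 < C' * τ := by positivity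
                             linarith, ?_⟩
  intro q z hz hR r hr hr1
  have hch : ∀ n : ℕ, ∃ lam > 0, ∀ w w', InL D q w → InL D q w' →
      dd Λ (D.f^[n] z) (D.f^[n] w) (D.f^[n] w') ≤ C1 * lam * dd Λ q w w' ∧
      lam * dd Λ q w w' ≤ C1 * dd Λ (D.f^[n] z) (D.f^[n] w) (D.f^[n] w') := fun n => hsim q z n hz
  choose lam hlam0 hlam using hch
  have hbn : ∀ n : ℕ, lam n ≤ K * Real.exp (D.e * n) ∧ Real.exp (D.c * n) ≤ K * lam n :=
    fun n => hb q z n (lam n) hz hR (hlam n)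
  have hex : ∃ n, τ / r ≤ lam n := by
    obtain ⟨n, -, hn⟩ := win_large (D := D) K hK lam (fun n => (hbn n).2) (τ / r) 0
    exact ⟨n, hn.le⟩
  classical
  have hspec := Nat.find_spec hex
  have hmin := fun m (hm : m < Nat.find hex) => Nat.find_min hex hm
  set n := Nat.find hex with hn
  have hτC : 0 < C' * τ := by positivity
  refine ⟨n, lam n, hlam0 n, ?_, ?_, ?_, hlam n⟩
  · rw [div_le_iff₀ hr] at hspec
    exact hspec
  · rcases Nat.eq_zero_or_pos n with h0 | h0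
    · have h1 := (hbn 0).1
      rw [Nat.cast_zero, mul_zero, Real.exp_zero, mul_one] at h1
      rw [h0]
      have h2 : lam 0 * r ≤ lam 0 * 1 := mul_le_mul_of_nonneg_left hr1 (hlam0 0).le
      linarith
    · obtain ⟨m, hm⟩ : ∃ m, n = m + 1 := ⟨n - 1, by omega⟩
      have hlt := hmin m (by omega)
      push Not at hlt
      have hst := win_step Q C1 hC1 q z hz m (lam m) (lam (m + 1)) (fun w w' hw hw' => (hlam m w w' hw hw').1)
        (fun w w' hw hw' => (hlam (m + 1) w w' hw hw').2)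
      rw [lt_div_iff₀ hr] at hlt
      rw [hm]
      have h2 : lam (m + 1) * r ≤ C' * τ := by
        calc lam (m + 1) * r ≤ C' * lam m * r := mul_le_mul_of_nonneg_right hst hr.le
          _ = C' * (lam m * r) := by ring
          _ ≤ C' * τ := mul_le_mul_of_nonneg_left hlt.le hC'0.le
      linarith
  · have h1 : τ / r ≤ K * Real.exp (D.e * n) := hspec.trans (hbn n).1
    have h2 : Real.exp (-(D.e * n)) ≤ K / τ * r := by
      rw [Real.exp_neg, inv_le_iff_one_le_mul₀ (Real.exp_pos _)]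
      rw [div_le_iff₀ hr] at h1
      have h3 : 1 ≤ K * Real.exp (D.e * n) * r / τ := by
        rw [le_div_iff₀ hτ]
        linarith
      calc (1 : ℝ) ≤ K * Real.exp (D.e * n) * r / τ := h3
        _ = K / τ * r * Real.exp (D.e * n) := by ring
    have h4 : Real.exp (-(D.c * n)) = (Real.exp (-(D.e * n))) ^ (D.c / D.e) := by
      rw [← Real.exp_mul]
      congr 1
      field_simp
    have h5 : (Real.exp (-(D.e * n))) ^ (D.c / D.e) ≤ (K / τ * r) ^ (D.c / D.e) :=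
      Real.rpow_le_rpow (Real.exp_pos _).le h2 (div_nonneg D.hc.le he0.le)
    rw [Real.mul_rpow (by positivity) hr.le] at h5
    rw [h4]
    refine h5.trans ?_
    have h6 : 0 ≤ r ^ (D.c / D.e) := Real.rpow_nonneg hr.le _
    refine mul_le_mul_of_nonneg_right ?_ h6
    linarith

end Pool.Agent.ANC
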