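import Mathlib
import Pool.Agent.ANC.WIN
import Pool.Agent.ANC.FOL
import Pool.Agent.ANC.CHN

/-! QCI: uniform quasiconformality of holonomies at small scales. -/

open Set Metric Function

namespace Pool.Agent.ANC

variable {M : Type} [MetricSpace M] [CompactSpace M] {E : Type} [NormedAddCommGroup E]
  [NormedSpace ℝ E] [FiniteDimensional ℝ E] {D : Sys M} {Λ : Leaves M D E}

/-- Exponentials become small, with monotonicity in the time. -/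
theorem QCI_exp {a : ℝ} (ha : 0 < a) (K η : ℝ) (hK : 0 ≤ K) (hη : 0 < η) :
    ∃ n0 : ℕ, ∀ n : ℕ, n0 ≤ n → Real.exp (-(a * n)) * K ≤ η := by
  obtain ⟨n0, h0⟩ := exists_nat_gt (K / (η * a))
  refine ⟨n0, fun n hn => ?_⟩
  have hn' : (n0 : ℝ) ≤ n := by exact_mod_cast hn
  have h1 : K / (η * a) < n := lt_of_lt_of_le h0 hn'
  rw [div_lt_iff₀ (by positivity)] at h1
  have h2 : a * n + 1 ≤ Real.exp (a * n) := Real.add_one_le_exp _
  have h3 : K ≤ η * Real.exp (a * n) := by nlinarith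
  rw [Real.exp_neg, inv_mul_le_iff₀ (Real.exp_pos _)]
  linarith [mul_comm η (Real.exp (a * n))]

theorem QCI_iter_inj (D : Sys M) (n : ℕ) {x y : M} (h : D.f^[n] x = D.f^[n] y) : x = y := by
  have h1 := congrArg (D.f.symm^[n]) h
  rwa [symm_iter_iter, symm_iter_iter] at h1

theorem QCI_ball_mem {F : Type} [NormedAddCommGroup F] [NormedSpace ℝ F] {ρ : ℝ} {u u' : F}
    (hu : u ∈ closedBall (0 : F) ρ) (hu' : u' ∈ closedBall (0 : F) ρ) {t : ℝ}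
    (ht : t ∈ Icc (0 : ℝ) 1) : u + t • (u' - u) ∈ closedBall (0 : F) ρ :=
  (convex_closedBall (0 : F) ρ).add_smul_sub_mem hu hu' ht

/-- The common setting: the image of a short segment is given by the bracket. -/
theorem QCI_follow {ε δ η : ℝ} {B : M → M → M} (P : SecPack D ε δ B)
    (hη : 0 < η) (h1 : 2 * η < δ) (h2 : 3 * D.C * η < ε) {C2 s2 : ℝ}
    (hC2 : 1 ≤ C2) (hs2 : 0 < s2) (hs2R : C2 * s2 ≤ Λ.R0) (hs2η : Λ.K0 * (C2 * s2) ≤ η)
    {ρ : ℝ} {q : M} {h : ℝ → Λ.Eu q → M} (hh : Hol Λ ρ q h) {n : ℕ}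
    (hS : ∀ u ∈ closedBall (0 : Λ.Eu q) ρ, D.S (D.f^[n] (h 0 u)) (D.f^[n] (h 1 u)) η)
    (hseg : ∀ (z : M), InL D q z → ∀ (u u' : Λ.Eu q), ∀ t ∈ Icc (0 : ℝ) 1,
      dd Λ (D.f^[n] z) (D.f^[n] (Λ.θu q u)) (D.f^[n] (Λ.θu q (u + t • (u' - u)))) ≤
        C2 * dd Λ (D.f^[n] z) (D.f^[n] (Λ.θu q u)) (D.f^[n] (Λ.θu q u')))
    {u u' : Λ.Eu q} (hu : u ∈ closedBall (0 : Λ.Eu q) ρ) (hu' : u' ∈ closedBall (0 : Λ.Eu q) ρ)
    (hd : dd Λ (D.f^[n] (Λ.θu q u)) (D.f^[n] (Λ.θu q u)) (D.f^[n] (Λ.θu q u')) ≤ s2) :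
    D.f^[n] (h 1 u') = B (D.f^[n] (Λ.θu q u')) (D.f^[n] (h 1 u)) ∧
      D.U (D.f^[n] (h 1 u)) (D.f^[n] (h 1 u')) (3 * D.C * η) := by
  have hK0 := Λ.hK0
  have hK0p : 0 < Λ.K0 := by linarith
  have h0 : (0 : ℝ) ∈ Icc (0 : ℝ) 1 := ⟨le_rfl, zero_le_one⟩
  have h1' : (1 : ℝ) ∈ Icc (0 : ℝ) 1 := ⟨zero_le_one, le_rfl⟩
  have hfol := P.follow hη h1 h2
    (φ := fun t => D.f^[n] (Λ.θu q (u + t • (u' - u))))
    (ψ := fun t => D.f^[n] (h 1 (u + t • (u' - u)))) ?_ ?_ ?_ 1 h1'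
  · simp only [one_smul, zero_smul, add_zero] at hfol
    rw [add_sub_cancel] at hfol
    exact hfol
  · exact Rect.segment (D := D) (convex_closedBall (0 : Λ.Eu q) ρ) (ψ := h 1)
      (fun ε' hε' => by
        obtain ⟨ρ', hρ', hh'⟩ := hh.1.2 ε' hε'
        exact ⟨ρ', hρ', fun v hv v' hv' hvv => hh' 1 h1' v hv v' hv' hvv⟩) n hu hu'
  · intro t ht
    have hm := QCI_ball_mem hu hu' ht
    have := hS _ hm
    rw [hh.2 _ hm] at this
    exact this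
  · intro t ht
    simp only [zero_smul, add_zero]
    have e1 := hseg (Λ.θu q u) (InL_θ Λ q u) u u' t ht
    have e2 : dd Λ (D.f^[n] (Λ.θu q u)) (D.f^[n] (Λ.θu q u))
        (D.f^[n] (Λ.θu q (u + t • (u' - u)))) ≤ C2 * s2 :=
      e1.trans (mul_le_mul_of_nonneg_left hd (by linarith))
    have hIn : InL D (D.f^[n] (Λ.θu q u)) (D.f^[n] (Λ.θu q (u + t • (u' - u)))) :=
      (InL.trans (InL.symm (InL_θ Λ q u)) (InL_θ Λ q _)).iter n
    have e3 := U_of_dd Λ (InL.refl _) hIn (by rw [dd_self]; exact Λ.hR0.le) (e2.trans hs2R)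
    refine D.U_mono _ _ _ _ ?_ e3
    exact (mul_le_mul_of_nonneg_left e2 hK0p.le).trans hs2η

theorem QC.local_qc (Q : QC D Λ) : ∃ Cf : ℝ, 1 ≤ Cf ∧ ∀ ρ, 0 < ρ → ∀ (q : M) (h : ℝ → Λ.Eu q → M),
    Hol Λ ρ q h → ∃ ε1 > 0, ∀ u ∈ closedBall (0 : Λ.Eu q) (3 / 4 * ρ), ∀ ε, 0 < ε → ε < ε1 →
      ∃ r > 0, Cf * r ≤ ρ / 8 ∧
        (∀ u' ∈ closedBall u r, dd Λ (h 1 0) (h 1 u) (h 1 u') < ε / 2) ∧
        (∀ W, InL D (h 1 0) W → dd Λ (h 1 0) (h 1 u) W ≤ ε → ∃ u' ∈ closedBall u (Cf * r), h 1 u' = W) := by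
  obtain ⟨ε0, δ, B, P⟩ := D.exists_pack
  obtain ⟨C1, hC1, hsim⟩ := Q.sim
  obtain ⟨C2, hC2, hseg⟩ := Q.seg
  obtain ⟨C3, hC3, hwin⟩ := Q.window
  have hK0 := Λ.hK0
  have hK0p : 0 < Λ.K0 := by linarith
  have hR0 := Λ.hR0
  have hC := D.hC
  have hCp : 0 < D.C := by linarith
  have hC1p : 0 < C1 := by linarith
  have hC2p : 0 < C2 := by linarith
  have hC3p : 0 < C3 := by linarith
  have hε0 := P.hε
  have hδ := P.hδ
  -- the constants
  obtain ⟨η, hη, hη1, hη2⟩ : ∃ η > 0, 2 * η < δ ∧ 3 * D.C * η < ε0 := by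
    refine ⟨min (δ / 3) (ε0 / (4 * D.C)), lt_min (by positivity) (by positivity), ?_, ?_⟩
    · have := min_le_left (δ / 3) (ε0 / (4 * D.C))
      linarith
    · have h1 := min_le_right (δ / 3) (ε0 / (4 * D.C))
      rw [le_div_iff₀ (by positivity)] at h1
      have h2 : 0 < min (δ / 3) (ε0 / (4 * D.C)) := lt_min (by positivity) (by positivity)
      nlinarith [mul_pos hCp h2]
  have hη3 : η ≤ ε0 := by nlinarith
  obtain ⟨s2, hs2, hs2R, hs2η⟩ : ∃ s2 > 0, C2 * s2 ≤ Λ.R0 ∧ Λ.K0 * (C2 * s2) ≤ η := by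
    refine ⟨min (Λ.R0 / C2) (η / (Λ.K0 * C2)), lt_min (by positivity) (by positivity), ?_, ?_⟩
    · have := min_le_left (Λ.R0 / C2) (η / (Λ.K0 * C2))
      rw [le_div_iff₀ hC2p] at this
      linarith
    · have := min_le_right (Λ.R0 / C2) (η / (Λ.K0 * C2))
      rw [le_div_iff₀ (by positivity)] at this
      linarith
  have hs2R' : s2 ≤ Λ.R0 := by nlinarith
  have hs2η' : Λ.K0 * s2 ≤ η := by
    have : Λ.K0 * s2 ≤ Λ.K0 * (C2 * s2) := mul_le_mul_of_nonneg_left (by nlinarith) hK0p.le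
    linarith
  obtain ⟨ρA, hρA, hmodA⟩ := P.modulus (s2 / (Λ.K0 * D.C)) (by positivity)
  obtain ⟨σ, hσ, hσ1, hσ2⟩ : ∃ σ > 0, σ ≤ η ∧ σ < ρA :=
    ⟨min η (ρA / 2), lt_min hη (by positivity), min_le_left _ _,
      lt_of_le_of_lt (min_le_right _ _) (by linarith)⟩
  obtain ⟨τ, hτ, hτR, hτσ⟩ : ∃ τ > 0, C3 * τ ≤ Λ.R0 ∧ Λ.K0 * (C3 * τ) ≤ σ := by
    refine ⟨min (Λ.R0 / C3) (σ / (Λ.K0 * C3)), lt_min (by positivity) (by positivity), ?_, ?_⟩
    · have := min_le_left (Λ.R0 / C3) (σ / (Λ.K0 * C3))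
      rw [le_div_iff₀ hC3p] at this
      linarith
    · have := min_le_right (Λ.R0 / C3) (σ / (Λ.K0 * C3))
      rw [le_div_iff₀ (by positivity)] at this
      linarith
  set s3 : ℝ := τ / (4 * C3 ^ 2) with hs3
  have hs3p : 0 < s3 := by positivity
  have hs3τ : C3 * s3 * 4 = τ / C3 := by
    rw [hs3]
    field_simp
  have hs3R : s3 ≤ Λ.R0 := by
    have h1 : s3 ≤ τ := by
      rw [hs3]
      apply div_le_self hτ.le
      nlinarith
    nlinarith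
  obtain ⟨ρm, hρm, hmodm⟩ := P.modulus (s3 / (Λ.K0 * D.C)) (by positivity)
  obtain ⟨Cf, hCf1, hCf2, hCf3⟩ : ∃ Cf : ℝ, 1 ≤ Cf ∧ C1 ^ 2 ≤ Cf ∧
      Λ.K0 * (C1 ^ 2 * s2) < ρm * Cf := by
    refine ⟨max (C1 ^ 2) (Λ.K0 * (C1 ^ 2 * s2) / ρm + 1), ?_, le_max_left _ _, ?_⟩
    · exact (one_le_pow₀ hC1).trans (le_max_left _ _)
    · have h1 := le_max_right (C1 ^ 2) (Λ.K0 * (C1 ^ 2 * s2) / ρm + 1)
      have h2 : Λ.K0 * (C1 ^ 2 * s2) / ρm < max (C1 ^ 2) (Λ.K0 * (C1 ^ 2 * s2) / ρm + 1) := by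
        linarith
      rw [div_lt_iff₀ hρm] at h2
      linarith
  have hCfp : 0 < Cf := by linarith
  refine ⟨Cf, hCf1, ?_⟩
  intro ρ hρ q h hh
  obtain ⟨K, hK, hKS, hKU⟩ := hh.1.bounds
  obtain ⟨R, hR, hRd⟩ := Q.dd_unif K
  obtain ⟨K', hK', hlam⟩ := Q.lam_bounds C1 ρ hC1
  obtain ⟨n1, hn1⟩ := QCI_exp D.ha K η hK hη
  obtain ⟨n2, hn2⟩ := QCI_exp D.hc (C1 * s2 * K') (ρ / 8) (by positivity) (by positivity)
  obtain ⟨ε1, hε1, hw⟩ := hwin R τ hτ (max n1 n2)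
  have h0I : (0 : ℝ) ∈ Icc (0 : ℝ) 1 := ⟨le_rfl, zero_le_one⟩
  have h1I : (1 : ℝ) ∈ Icc (0 : ℝ) 1 := ⟨zero_le_one, le_rfl⟩
  have hz0 : (0 : Λ.Eu q) ∈ closedBall (0 : Λ.Eu q) ρ := mem_closedBall_self hρ.le
  refine ⟨ε1, hε1, ?_⟩
  intro u hu ε hε hεε1
  have huρ : u ∈ closedBall (0 : Λ.Eu q) ρ := closedBall_subset_closedBall (by linarith) hu
  have hUu : D.U (h 1 0) (h 1 u) K := hKU 1 h1I 0 hz0 u huρ
  have hInu : InL D (h 1 0) (h 1 u) := ⟨K, hUu⟩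
  obtain ⟨n, hn, lam1, hlam1, hl1, hl2, hqs⟩ := hw (h 1 0) (h 1 u) hInu (hRd _ _ hUu) ε hε hεε1
  have hInq : InL D q (Λ.θu q u) := InL_θ Λ q u
  obtain ⟨lam0, hlam0, hqs0⟩ := hsim q (Λ.θu q u) n hInq
  have hnn1 : n1 ≤ n := (le_max_left _ _).trans hn
  have hnn2 : n2 ≤ n := (le_max_right _ _).trans hn
  have hS : ∀ v ∈ closedBall (0 : Λ.Eu q) ρ, D.S (D.f^[n] (h 0 v)) (D.f^[n] (h 1 v)) η := by
    intro v hv
    exact D.S_mono _ _ _ _ (hn1 n hnn1) (D.S_iter n (hKS 0 h0I 1 h1I v hv))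
  -- the lower bound for the scale
  have hlow : C1 * s2 / lam0 ≤ ρ / 8 := by
    have h1 := (hlam q (Λ.θu q u) n lam0 hInq (by
      rw [dd_center_θ]
      exact mem_closedBall_zero_iff.1 huρ) hqs0).2
    have h2 := hn2 n hnn2
    have h3 : Real.exp (-(D.c * n)) * Real.exp (D.c * n) = 1 := by
      rw [← Real.exp_add]
      simp
    have h4 : 0 < Real.exp (-(D.c * n)) := Real.exp_pos _
    rw [div_le_iff₀ hlam0]
    have h5 : 1 ≤ Real.exp (-(D.c * n)) * (K' * lam0) := by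
      rw [← h3]
      exact mul_le_mul_of_nonneg_left h1 h4.le
    have h6 : C1 * s2 ≤ C1 * s2 * (Real.exp (-(D.c * n)) * (K' * lam0)) := by
      have : 0 ≤ C1 * s2 := by positivity
      nlinarith
    calc C1 * s2 ≤ C1 * s2 * (Real.exp (-(D.c * n)) * (K' * lam0)) := h6
      _ = (Real.exp (-(D.c * n)) * (C1 * s2 * K')) * lam0 := by ring
      _ ≤ ρ / 8 * lam0 := mul_le_mul_of_nonneg_right h2 hlam0.le
  set r : ℝ := C1 * s2 / (lam0 * Cf) with hr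
  have hrp : 0 < r := by positivity
  have hCfr : Cf * r = C1 * s2 / lam0 := by
    rw [hr]
    field_simp
  have hrr : r ≤ Cf * r := by nlinarith
  set z0 : M := Λ.θu q u with hz0'
  set y0 : M := D.f^[n] z0 with hy0
  set y1 : M := D.f^[n] (h 1 u) with hy1
  have hS01 : D.S y0 y1 η := by
    have := hS u huρ
    rwa [hh.2 u huρ] at this
  have hd01 : dist y0 y1 ≤ η := D.S_dist _ _ _ hS01
  have hmem : ∀ u' : Λ.Eu q, ‖u - u'‖ ≤ Cf * r → u' ∈ closedBall (0 : Λ.Eu q) ρ := by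
    intro u' hu'
    rw [mem_closedBall_zero_iff] at hu ⊢
    have h1 : ‖u'‖ ≤ ‖u‖ + ‖u - u'‖ := by
      have := norm_sub_le u (u - u')
      rwa [sub_sub_cancel] at this
    linarith [hCfr, hlow]
  have hfol : ∀ u' ∈ closedBall (0 : Λ.Eu q) ρ, dd Λ y0 y0 (D.f^[n] (Λ.θu q u')) ≤ s2 →
      D.f^[n] (h 1 u') = B (D.f^[n] (Λ.θu q u')) y1 ∧ D.U y1 (D.f^[n] (h 1 u')) (3 * D.C * η) :=
    fun u' hu' hd => QCI_follow P hη hη1 hη2 hC2 hs2 hs2R hs2η hh hS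
      (fun z hz v v' t ht => hseg q z n hz v v' t ht) huρ hu' hd
  refine ⟨r, hrp, by rw [hCfr]; exact hlow, ?_, ?_⟩
  · intro u' hu'
    have hu'1 : ‖u - u'‖ ≤ r := by
      rw [mem_closedBall, dist_comm, dist_eq_norm] at hu'
      exact hu'
    have hu'ρ := hmem u' (hu'1.trans hrr)
    have hIn' : InL D q (Λ.θu q u') := InL_θ Λ q u'
    have e1 := (hqs0 z0 (Λ.θu q u') hInq hIn').1
    rw [hz0', dd_θ, ← hz0', ← hy0] at e1
    have e2 : C1 * lam0 * ‖u - u'‖ ≤ C1 ^ 2 * s2 / Cf := by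
      have h1 : C1 * lam0 * ‖u - u'‖ ≤ C1 * lam0 * r :=
        mul_le_mul_of_nonneg_left hu'1 (by positivity)
      have h2 : C1 * lam0 * r = C1 ^ 2 * s2 / Cf := by
        rw [hr]
        field_simp
      linarith
    have e3 : C1 ^ 2 * s2 / Cf ≤ s2 := by
      rw [div_le_iff₀ hCfp]
      nlinarith
    have hd := e1.trans e2
    obtain ⟨f1, f2⟩ := hfol u' hu'ρ (hd.trans e3)
    have hInφ : InL D y0 (D.f^[n] (Λ.θu q u')) := (InL.trans (InL.symm hInq) hIn').iter n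
    have e4 := U_of_dd Λ (InL.refl y0) hInφ (by rw [dd_self]; exact hR0.le)
      ((hd.trans e3).trans hs2R')
    have e5 : dist y0 (D.f^[n] (Λ.θu q u')) ≤ Λ.K0 * (C1 ^ 2 * s2 / Cf) :=
      (D.U_dist _ _ _ e4).trans (mul_le_mul_of_nonneg_left hd hK0p.le)
    have e6 : Λ.K0 * (C1 ^ 2 * s2 / Cf) < ρm := by
      have : Λ.K0 * (C1 ^ 2 * s2 / Cf) = Λ.K0 * (C1 ^ 2 * s2) / Cf := by ring
      rw [this, div_lt_iff₀ hCfp]
      exact hCf3
    have e7 : Λ.K0 * (C1 ^ 2 * s2 / Cf) ≤ η :=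
      (mul_le_mul_of_nonneg_left e3 hK0p.le).trans hs2η'
    have e8 : dist (D.f^[n] (Λ.θu q u')) y1 < δ := by
      have := dist_triangle_left (D.f^[n] (Λ.θu q u')) y1 y0
      linarith
    have e9 := hmodm (D.f^[n] (Λ.θu q u')) y0 y1 y1 e8 (by linarith)
      (by rw [dist_comm]; exact e5.trans_lt e6) (by rw [dist_self]; exact hρm)
    have e10 : B y0 y1 = y1 := P.uniq (by linarith) (D.S_mono _ _ _ _ hη3 hS01)
      (D.U_mono _ _ _ _ hε0.le (D.U_refl y1))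
    rw [e10, ← f1] at e9
    have e11 : D.U y1 (D.f^[n] (h 1 u')) D.r :=
      D.U_mono _ _ _ _ (by linarith [P.h4]) f2
    have e12 := D.U_cmp _ _ e11
    have e13 : D.C * dist y1 (D.f^[n] (h 1 u')) ≤ s3 / Λ.K0 := by
      rw [dist_comm] at e9
      have h1 : D.C * dist y1 (D.f^[n] (h 1 u')) ≤ D.C * (s3 / (Λ.K0 * D.C)) :=
        mul_le_mul_of_nonneg_left e9.le hCp.le
      have h2 : D.C * (s3 / (Λ.K0 * D.C)) = s3 / Λ.K0 := by
        field_simp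
      linarith
    have e14 : s3 / Λ.K0 ≤ Λ.R0 := (div_le_self hs3p.le hK0).trans hs3R
    have e15 := dd_of_U Λ e14 (D.U_mono _ _ _ _ e13 e12)
    have e16 : Λ.K0 * (s3 / Λ.K0) = s3 := by field_simp
    rw [e16] at e15
    have hU' : InL D (h 1 0) (h 1 u') := ⟨K, hKU 1 h1I 0 hz0 u' hu'ρ⟩
    have e17 := (hqs (h 1 u) (h 1 u') hInu hU').2
    rw [← hy1] at e17
    have e18 : lam1 * dd Λ (h 1 0) (h 1 u) (h 1 u') ≤ C3 * s3 :=
      e17.trans (mul_le_mul_of_nonneg_left e15 hC3p.le)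
    have e19 : τ / C3 ≤ lam1 * ε := by
      rw [div_le_iff₀ hC3p]
      linarith
    have e20 : lam1 * dd Λ (h 1 0) (h 1 u) (h 1 u') < lam1 * (ε / 2) := by
      have : 0 < lam1 * ε := mul_pos hlam1 hε
      nlinarith
    exact lt_of_mul_lt_mul_left e20 hlam1.le
  · intro W hW hWε
    have hInW : InL D y1 (D.f^[n] W) := (InL.trans (InL.symm hInu) hW).iter n
    have a1 := (hqs (h 1 u) W hInu hW).1
    rw [← hy1] at a1
    have a2 : dd Λ y1 y1 (D.f^[n] W) ≤ C3 * τ := by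
      refine a1.trans ?_
      have : C3 * lam1 * dd Λ (h 1 0) (h 1 u) W ≤ C3 * lam1 * ε :=
        mul_le_mul_of_nonneg_left hWε (by positivity)
      nlinarith
    have a3 := U_of_dd Λ (InL.refl y1) hInW (by rw [dd_self]; exact hR0.le) (a2.trans hτR)
    have a4 : D.U y1 (D.f^[n] W) σ :=
      D.U_mono _ _ _ _ ((mul_le_mul_of_nonneg_left a2 hK0p.le).trans hτσ) a3
    have a5 : dist y1 (D.f^[n] W) ≤ σ := D.U_dist _ _ _ a4
    have a6 : dist (D.f^[n] W) y0 < δ := by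
      have := dist_triangle (D.f^[n] W) y1 y0
      rw [dist_comm y1 y0, dist_comm (D.f^[n] W) y1] at this
      linarith
    obtain ⟨b1, b2⟩ := P.close (D.f^[n] W) y0 a6
    have b3 : B y1 y0 = y0 := P.uniq (by rw [dist_comm]; linarith)
      (D.S_mono _ _ _ _ hη3 (D.S_symm _ _ _ hS01)) (D.U_mono _ _ _ _ hε0.le (D.U_refl y0))
    have b4 := hmodA (D.f^[n] W) y1 y0 y0 a6 (by rw [dist_comm]; linarith)
      (by rw [dist_comm]; linarith) (by rw [dist_self]; exact hρA)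
    rw [b3] at b4
    set y0' : M := B (D.f^[n] W) y0 with hy0'
    have b5 : D.U y0 y0' (s2 / Λ.K0) := by
      have h1 := D.U_cmp y0 y0' (D.U_mono _ _ _ _ (by linarith [P.h4]) b2)
      refine D.U_mono _ _ _ _ ?_ h1
      rw [dist_comm] at b4
      have h2 : D.C * dist y0 y0' ≤ D.C * (s2 / (Λ.K0 * D.C)) :=
        mul_le_mul_of_nonneg_left b4.le hCp.le
      have h3 : D.C * (s2 / (Λ.K0 * D.C)) = s2 / Λ.K0 := by
        field_simp
      linarith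
    have b6 : s2 / Λ.K0 ≤ Λ.R0 := (div_le_self hs2.le hK0).trans hs2R'
    have b7 := dd_of_U Λ b6 b5
    have b8 : Λ.K0 * (s2 / Λ.K0) = s2 := by field_simp
    rw [b8] at b7
    have hIny : InL D y0 y0' := ⟨_, b5⟩
    set w0 : M := D.f.symm^[n] y0' with hw0
    have hfw0 : D.f^[n] w0 = y0' := iter_symm_iter D.f n y0'
    have hInw0 : InL D z0 w0 := by
      have := hIny.iter_symm n
      rwa [hy0, symm_iter_iter] at this
    have hInqw0 : InL D q w0 := InL.trans hInq hInw0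
    have hθ : Λ.θu q (co Λ q w0) = w0 := θ_co Λ hInqw0
    have c1 := (hqs0 z0 w0 hInq hInqw0).2
    rw [← hy0, hfw0] at c1
    have c2 : dd Λ q z0 w0 = ‖u - co Λ q w0‖ := by
      conv_lhs => rw [← hθ]
      rw [hz0', dd_θ]
    rw [c2] at c1
    have c3 : ‖u - co Λ q w0‖ ≤ Cf * r := by
      rw [hCfr, le_div_iff₀ hlam0]
      have : C1 * dd Λ y0 y0 y0' ≤ C1 * s2 := mul_le_mul_of_nonneg_left b7 hC1p.le
      linarith
    refine ⟨co Λ q w0, ?_, ?_⟩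
    · rw [mem_closedBall, dist_comm, dist_eq_norm]
      exact c3
    · have hcρ := hmem _ c3
      obtain ⟨f1, -⟩ := hfol (co Λ q w0) hcρ (by rw [hθ, hfw0]; exact b7)
      rw [hθ, hfw0] at f1
      apply QCI_iter_inj D n
      rw [f1]
      refine P.uniq ?_ (D.S_symm _ _ _ b1) (D.U_mono _ _ _ _ (hσ1.trans hη3) a4)
      have d1 : D.U y0 y0' η := by
        refine D.U_mono _ _ _ _ ?_ b5
        have : s2 / Λ.K0 ≤ s2 := div_le_self hs2.le hK0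
        nlinarith
      have d2 := D.U_dist _ _ _ d1
      have d3 := dist_triangle_left y0' y1 y0
      linarith

end Pool.Agent.ANC
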