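import Mathlib
import Pool.Agent.ANC.QCI
import Pool.Agent.ANC.CVM
import Pool.Agent.ANC.INJ
import Pool.Agent.ANC.EGG

/-! LEM (Lemma E).  ρ0 from lemmaM, R, Cf from local_qc, C' from egg_yolk with k = Q.k, C'' = C' * K(R), K(R) from dd_unif.
q1 = h 1 0; V = Eu q, W = Eu q1 are k-dimensional subspaces of the inner product space E: isometries
i0 : V ≃ₗᵢ EuclideanSpace, i1 : W ≃ₗᵢ EuclideanSpace (stdOrthonormalBasis).  g u := i1 (co q1 (h 1 (ρ • i0.symm u))).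
EggMap: cont from Rect (second part) + u_inv (every h 1 u lies in the leaf of q1: Rect.bounds), inj from Rect.inj (h 0 = θ_q is
injective) and θ_co, zero: co_self; qc from local_qc with r := r/ρ.  The point w of lemmaM gives w0 = i1 (co q1 w), not in
g(ball), |w0| = dd q1 q1 w ≤ K(R). -/

open Set Metric Function

namespace Pool.Agent.ANC

variable {M : Type} [MetricSpace M] [CompactSpace M] {E : Type} [NormedAddCommGroup E]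
  [InnerProductSpace ℝ E] [FiniteDimensional ℝ E] {D : Sys M} {Λ : Leaves M D E}

private theorem LEM_iso (V : Submodule ℝ E) (k : ℕ) (h : Module.finrank ℝ V = k) :
    Nonempty (V ≃ₗᵢ[ℝ] EuclideanSpace ℝ (Fin k)) := by
  subst h
  exact ⟨(stdOrthonormalBasis ℝ V).repr⟩

omit [FiniteDimensional ℝ E] in
/-- the map `g` of the holonomy is an `EggMap` -/
private theorem LEM_egg (Q : QC D Λ) {Cf : ℝ} {ρ : ℝ} (hρ : 0 < ρ) {q : M} {h : ℝ → Λ.Eu q → M}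
    (hh : Hol Λ ρ q h)
    (hqc : ∃ ε1 > 0, ∀ u ∈ closedBall (0 : Λ.Eu q) (3 / 4 * ρ), ∀ ε, 0 < ε → ε < ε1 →
      ∃ r > 0, Cf * r ≤ ρ / 8 ∧
        (∀ u' ∈ closedBall u r, dd Λ (h 1 0) (h 1 u) (h 1 u') < ε / 2) ∧
        (∀ W, InL D (h 1 0) W → dd Λ (h 1 0) (h 1 u) W ≤ ε → ∃ u' ∈ closedBall u (Cf * r), h 1 u' = W))
    (i0 : Λ.Eu q ≃ₗᵢ[ℝ] EuclideanSpace ℝ (Fin Q.k))
    (i1 : Λ.Eu (h 1 0) ≃ₗᵢ[ℝ] EuclideanSpace ℝ (Fin Q.k)) :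
    EggMap Q.k Cf (fun u => i1 (co Λ (h 1 0) (h 1 (ρ • i0.symm u)))) := by
  obtain ⟨hR, h0⟩ := hh
  obtain ⟨K, hK0, -, hK2⟩ := Rect.bounds hR
  have h1 : (1 : ℝ) ∈ Icc (0 : ℝ) 1 := ⟨zero_le_one, le_refl _⟩
  have hz : (0 : Λ.Eu q) ∈ closedBall (0 : Λ.Eu q) ρ := mem_closedBall_self hρ.le
  have hin : ∀ u ∈ closedBall (0 : Λ.Eu q) ρ, InL D (h 1 0) (h 1 u) := fun u hu =>
    ⟨K, hK2 1 h1 0 hz u hu⟩
  have hmem : ∀ (s : ℝ) (u : EuclideanSpace ℝ (Fin Q.k)), u ∈ closedBall (0 : EuclideanSpace ℝ (Fin Q.k)) s →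
      ρ • i0.symm u ∈ closedBall (0 : Λ.Eu q) (s * ρ) := by
    intro s u hu
    rw [mem_closedBall_zero_iff] at hu ⊢
    rw [norm_smul, i0.symm.norm_map, Real.norm_of_nonneg hρ.le, mul_comm]
    exact mul_le_mul_of_nonneg_right hu hρ.le
  have hmem1 : ∀ u : EuclideanSpace ℝ (Fin Q.k), u ∈ closedBall (0 : EuclideanSpace ℝ (Fin Q.k)) 1 →
      ρ • i0.symm u ∈ closedBall (0 : Λ.Eu q) ρ := by
    intro u hu
    simpa using hmem 1 u hu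
  have hdist : ∀ u u' : EuclideanSpace ℝ (Fin Q.k),
      dist (ρ • i0.symm u) (ρ • i0.symm u') = ρ * dist u u' := by
    intro u u'
    rw [dist_smul₀, i0.symm.dist_map, Real.norm_of_nonneg hρ.le]
  have hgn : ∀ a b : M, ‖i1 (co Λ (h 1 0) a) - i1 (co Λ (h 1 0) b)‖ = dd Λ (h 1 0) a b := by
    intro a b
    rw [← map_sub, i1.norm_map, dd]
  have hback : ∀ u0 : Λ.Eu q, ρ • i0.symm (i0 (ρ⁻¹ • u0)) = u0 := by
    intro u0
    rw [i0.symm_apply_apply, smul_smul, mul_inv_cancel₀ hρ.ne', one_smul]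
  refine ⟨?_, ?_, ?_, ?_⟩
  · rw [Metric.continuousOn_iff]
    intro u hu ε hε
    have hu1 := hmem1 u hu
    obtain ⟨δ, hδ, hδ'⟩ := Λ.u_inv (h 1 0) (co Λ (h 1 0) (h 1 (ρ • i0.symm u))) ε hε
    obtain ⟨ρ', hρ', hρ2⟩ := hR.2 δ hδ
    refine ⟨ρ' / ρ, div_pos hρ' hρ, fun v hv hvu => ?_⟩
    have hv1 := hmem1 v hv
    have h2 : D.U (h 1 (ρ • i0.symm u)) (h 1 (ρ • i0.symm v)) δ := by
      apply hρ2 1 h1 _ hu1 _ hv1
      rw [hdist]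
      rw [dist_comm] at hvu
      calc ρ * dist u v < ρ * (ρ' / ρ) := mul_lt_mul_of_pos_left hvu hρ
        _ = ρ' := by field_simp
    have h3 := hδ' (co Λ (h 1 0) (h 1 (ρ • i0.symm v)))
      (by rw [θ_co Λ (hin _ hu1), θ_co Λ (hin _ hv1)]; exact h2)
    rw [dist_comm, dist_eq_norm]
    show ‖i1 (co Λ (h 1 0) (h 1 (ρ • i0.symm u))) - i1 (co Λ (h 1 0) (h 1 (ρ • i0.symm v)))‖ < ε
    rw [← map_sub, i1.norm_map]
    exact h3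
  · intro u hu v hv huv
    have hu1 := hmem1 u hu
    have hv1 := hmem1 v hv
    have huv' : co Λ (h 1 0) (h 1 (ρ • i0.symm u)) = co Λ (h 1 0) (h 1 (ρ • i0.symm v)) := i1.injective huv
    have h2 : h 1 (ρ • i0.symm u) = h 1 (ρ • i0.symm v) := by
      rw [← θ_co Λ (hin _ hu1), huv', θ_co Λ (hin _ hv1)]
    have hinj0 : InjOn (h 0) (closedBall 0 ρ) := by
      intro a ha b hb hab
      rw [h0 a ha, h0 b hb] at hab
      exact Λ.u_inj q hab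
    have h3 := Rect.inj hR hinj0 1 h1 hu1 hv1 h2
    have h4 : ρ⁻¹ • (ρ • i0.symm u) = ρ⁻¹ • (ρ • i0.symm v) := by rw [h3]
    rw [smul_smul, smul_smul, inv_mul_cancel₀ hρ.ne', one_smul, one_smul] at h4
    exact i0.symm.injective h4
  · show i1 (co Λ (h 1 0) (h 1 (ρ • i0.symm 0))) = 0
    rw [map_zero, smul_zero, co_self, map_zero]
  · obtain ⟨ε1, hε1, hq⟩ := hqc
    refine ⟨ε1, hε1, fun u hu ε hε hε' => ?_⟩
    obtain ⟨r, hr, hr1, hr2, hr3⟩ := hq (ρ • i0.symm u) (hmem _ u hu) ε hε hε'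
    refine ⟨r / ρ, div_pos hr hρ, ?_, ?_, ?_⟩
    · rw [mul_div_assoc', div_le_iff₀ hρ]
      linarith
    · intro u' hu'
      have h2 : ρ • i0.symm u' ∈ closedBall (ρ • i0.symm u) r := by
        rw [mem_closedBall, hdist]
        rw [mem_closedBall, le_div_iff₀ hρ] at hu'
        linarith
      have h3 := hr2 _ h2
      show ‖i1 (co Λ (h 1 0) (h 1 (ρ • i0.symm u'))) - i1 (co Λ (h 1 0) (h 1 (ρ • i0.symm u)))‖ < ε / 2
      rw [hgn, dd_comm]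
      exact h3
    · intro w hw
      obtain ⟨u0, hu0, hu1⟩ := hr3 (Λ.θu (h 1 0) (i1.symm w)) (InL_θ Λ _ _) (by
        rw [← hgn, co_θ, i1.apply_symm_apply, norm_sub_rev]
        exact hw)
      refine ⟨i0 (ρ⁻¹ • u0), ?_, ?_⟩
      · rw [mem_closedBall] at hu0 ⊢
        have h2 := hdist (i0 (ρ⁻¹ • u0)) u
        rw [hback] at h2
        rw [h2] at hu0
        rw [mul_div_assoc', le_div_iff₀ hρ]
        linarith
      · show i1 (co Λ (h 1 0) (h 1 (ρ • i0.symm (i0 (ρ⁻¹ • u0))))) = w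
        rw [hback, hu1, co_θ, i1.apply_symm_apply]

theorem QC.lemmaE (Q : QC D Λ) (hd : UDense D) : ∃ ρ > 0, ∃ CE : ℝ, ∀ (q : M) (h : ℝ → Λ.Eu q → M),
    Hol Λ ρ q h → ∀ u ∈ closedBall (0 : Λ.Eu q) (ρ / 2), dd Λ (h 1 0) (h 1 0) (h 1 u) ≤ CE := by
  obtain ⟨ρ, hρ, hM⟩ := Q.lemmaM hd
  obtain ⟨R, hM⟩ := hM ρ hρ le_rfl
  obtain ⟨Cf, hCf, hqc⟩ := Q.local_qc
  obtain ⟨C', hC', hegg⟩ := egg_yolk Q.hk hCf
  obtain ⟨K, hK, hdd⟩ := Q.dd_unif R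
  refine ⟨ρ, hρ, C' * K, fun q h hh u hu => ?_⟩
  obtain ⟨w, hw1, hw2⟩ := hM q h hh
  obtain ⟨i0⟩ := LEM_iso (Λ.Eu q) Q.k (Q.dim q)
  obtain ⟨i1⟩ := LEM_iso (Λ.Eu (h 1 0)) Q.k (Q.dim (h 1 0))
  have hE := LEM_egg Q hρ hh (hqc ρ hρ q h hh) i0 i1
  obtain ⟨hR, h0⟩ := hh
  obtain ⟨K', hK0, -, hK2⟩ := Rect.bounds hR
  have h1 : (1 : ℝ) ∈ Icc (0 : ℝ) 1 := ⟨zero_le_one, le_refl _⟩
  have hz : (0 : Λ.Eu q) ∈ closedBall (0 : Λ.Eu q) ρ := mem_closedBall_self hρ.le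
  have hin : ∀ u ∈ closedBall (0 : Λ.Eu q) ρ, InL D (h 1 0) (h 1 u) := fun u hu =>
    ⟨K', hK2 1 h1 0 hz u hu⟩
  have hw0 : i1 (co Λ (h 1 0) w) ∉
      (fun u => i1 (co Λ (h 1 0) (h 1 (ρ • i0.symm u)))) '' closedBall 0 1 := by
    rintro ⟨v, hv, hvw⟩
    have hv1 : ρ • i0.symm v ∈ closedBall (0 : Λ.Eu q) ρ := by
      rw [mem_closedBall_zero_iff] at hv ⊢
      rw [norm_smul, i0.symm.norm_map, Real.norm_of_nonneg hρ.le]
      nlinarith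
    have hvw' : co Λ (h 1 0) (h 1 (ρ • i0.symm v)) = co Λ (h 1 0) w := i1.injective hvw
    apply hw2
    refine ⟨ρ • i0.symm v, hv1, ?_⟩
    rw [← θ_co Λ (hin _ hv1), hvw', θ_co Λ ⟨R, hw1⟩]
  have hu1 : i0 (ρ⁻¹ • u) ∈ closedBall (0 : EuclideanSpace ℝ (Fin Q.k)) (1 / 2) := by
    rw [mem_closedBall_zero_iff] at hu ⊢
    rw [i0.norm_map, norm_smul, Real.norm_of_nonneg (inv_nonneg.mpr hρ.le), inv_mul_le_iff₀ hρ]
    linarith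
  have h2 := hegg _ hE _ hw0 _ hu1
  have hback : ρ • i0.symm (i0 (ρ⁻¹ • u)) = u := by
    rw [i0.symm_apply_apply, smul_smul, mul_inv_cancel₀ hρ.ne', one_smul]
  have h3 : ‖i1 (co Λ (h 1 0) (h 1 u))‖ ≤ C' * ‖i1 (co Λ (h 1 0) w)‖ := by
    have h4 : ‖i1 (co Λ (h 1 0) (h 1 (ρ • i0.symm (i0 (ρ⁻¹ • u)))))‖ ≤ C' * ‖i1 (co Λ (h 1 0) w)‖ := h2
    rwa [hback] at h4
  rw [i1.norm_map, i1.norm_map, ← dd_center, ← dd_center] at h3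
  have h5 := hdd _ _ hw1
  calc dd Λ (h 1 0) (h 1 0) (h 1 u) ≤ C' * dd Λ (h 1 0) (h 1 0) w := h3
    _ ≤ C' * K := mul_le_mul_of_nonneg_left h5 (by linarith)

end Pool.Agent.ANC
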