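import Mathlib
import Pool.Agent.ANC.WIN
import Pool.Agent.ANC.CHN

/-! UA1: the a priori estimate at one scale.  The hypothesis hE is the conclusion of Lemma E for the fixed ρ, CE.
K2 from U_unif CE.  C1 and then K from QC.reach with R and τ := C1 ρ / R.  Given v, r = t - |v|, z = θ_x (R v): n, lam with
lam r ≥ C1 ρ / R, lam r ≤ K, e^{-cn} ≤ K r^{c/e}.  Pull back of {Near ρ (f^n z)}: dd x z w ≤ C1 ρ / lam ≤ R r.
 h'(τ, u') := f^n h(τ s, v(u')), v(u') := R^{-1} co x (f^-n (θ_q u')), q = f^n z, |u'| ≤ ρ.  It is Hol Λ ρ q: Rect from the Rect of h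
(S_iter, U_iter; u' ↦ v(u') is Lipschitz by the scale estimate; |v(u') - v| ≤ r so |v(u')| ≤ t), h'(0,u') = θ_q u'.
 hE: dd (h' 1 0) (h' 1 0) (h' 1 u') ≤ CE for |u'| ≤ ρ/2, U_unif, U_iter_symm: U (h s v) (h s v(u')) (e^{-cn} K2) and
 e^{-cn} ≤ K r^{c/e}.  If |v' - v| ≤ c4 r then v' = v(u') with u' = co q (f^n θ_x (R v')), |u'| ≤ C1 lam R c4 r ≤ C1 K R c4 ≤ ρ/2. -/

open Set Metric Function

namespace Pool.Agent.ANC

variable {M : Type} [MetricSpace M] {E : Type} [NormedAddCommGroup E] [NormedSpace ℝ E]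
  {D : Sys M} {Λ : Leaves M D E}

theorem QC.one_scale (Q : QC D Λ) {ρ CE : ℝ} (hρ : 0 < ρ)
    (hE : ∀ (q : M) (h : ℝ → Λ.Eu q → M), Hol Λ ρ q h →
      ∀ u ∈ closedBall (0 : Λ.Eu q) (ρ / 2), dd Λ (h 1 0) (h 1 0) (h 1 u) ≤ CE)
    (x : M) {R : ℝ} (hR : 0 < R) : ∃ K : ℝ, 0 ≤ K ∧ ∃ c4 : ℝ, 0 < c4 ∧ c4 ≤ 1 / 2 ∧
      ∀ t, 0 < t → t ≤ 1 → ∀ h : Λ.Es x → Λ.Eu x → M, Rect D (closedBall 0 1) (closedBall 0 t) h →
        (∀ v ∈ closedBall (0 : Λ.Eu x) t, h 0 v = Λ.θu x (R • v)) →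
        ∀ s ∈ closedBall (0 : Λ.Es x) 1, ∀ v v' : Λ.Eu x, ‖v‖ < t → ‖v' - v‖ ≤ c4 * (t - ‖v‖) →
          D.U (h s v) (h s v') (K * (t - ‖v‖) ^ (D.c / D.e)) := by
  obtain ⟨K2, hK20, hK2⟩ := Q.U_unif CE
  obtain ⟨C1, hC1, hre⟩ := Q.reach
  have hC10 : 0 < C1 := by linarith
  obtain ⟨K, hK, hre⟩ := hre R (C1 * ρ / R) (by positivity)
  have hK0 : 0 < K := by linarith
  refine ⟨K * K2, by positivity, min (1 / 2) (ρ / (2 * (C1 * K * R))),
    lt_min (by norm_num) (by positivity), min_le_left _ _, ?_⟩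
  intro t ht ht1 h hh h0 s hs v v' hv hvv
  have hnv := norm_nonneg v
  obtain ⟨r, hr⟩ : ∃ r, r = t - ‖v‖ := ⟨_, rfl⟩
  rw [← hr] at hvv ⊢
  have hr0 : 0 < r := by linarith
  have hr1 : r ≤ 1 := by linarith
  obtain ⟨z, hz⟩ : ∃ z, z = Λ.θu x (R • v) := ⟨_, rfl⟩
  have hxz : InL D x z := by
    rw [hz]
    exact InL_θ Λ x _
  have hdz : dd Λ x x z ≤ R := by
    rw [hz, dd_center_θ, norm_smul, Real.norm_of_nonneg hR.le]
    nlinarith
  obtain ⟨n, lam, hlam, hτ, hlr, hexp, hsc⟩ := hre x z hxz hdz r hr0 hr1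
  obtain ⟨q, hq⟩ : ∃ q, q = D.f^[n] z := ⟨_, rfl⟩
  rw [← hq] at hsc
  have hqz : D.f.symm^[n] q = z := by
    rw [hq]
    exact symm_iter_iter D.f n z
  -- the reparametrisation
  obtain ⟨y, hy⟩ : ∃ y : Λ.Eu q → M, ∀ u, y u = D.f.symm^[n] (Λ.θu q u) := ⟨_, fun _ => rfl⟩
  have hyL : ∀ u, InL D x (y u) := by
    intro u
    have h1 := (InL_θ Λ q u).iter_symm n
    rw [hqz] at h1
    rw [hy]
    exact hxz.trans h1
  have hfy : ∀ u, D.f^[n] (y u) = Λ.θu q u := by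
    intro u
    rw [hy]
    exact iter_symm_iter D.f n _
  obtain ⟨w, hw⟩ : ∃ w : Λ.Eu q → Λ.Eu x, ∀ u, w u = R⁻¹ • co Λ x (y u) := ⟨_, fun _ => rfl⟩
  have hwy : ∀ u, Λ.θu x (R • w u) = y u := by
    intro u
    rw [hw, smul_smul, mul_inv_cancel₀ hR.ne', one_smul]
    exact θ_co Λ (hyL u)
  have hw0 : w 0 = v := by
    have h1 : y 0 = z := by rw [hy, Λ.u_zero, hqz]
    rw [hw, h1, hz, co_θ, smul_smul, inv_mul_cancel₀ hR.ne', one_smul]
  have hA : 0 < R⁻¹ * (C1 / lam) := by positivity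
  have hwd : ∀ u u', ‖w u - w u'‖ ≤ R⁻¹ * (C1 / lam) * ‖u - u'‖ := by
    intro u u'
    have h1 := (hsc (y u) (y u') (hyL u) (hyL u')).2
    rw [hfy, hfy, dd_θ] at h1
    have h2 : ‖w u - w u'‖ = R⁻¹ * dd Λ x (y u) (y u') := by
      rw [hw, hw, ← smul_sub, norm_smul, Real.norm_of_nonneg (inv_nonneg.2 hR.le)]
      rfl
    rw [h2, mul_assoc]
    refine mul_le_mul_of_nonneg_left ?_ (inv_nonneg.2 hR.le)
    rw [div_mul_eq_mul_div, le_div_iff₀ hlam, mul_comm]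
    exact h1
  have hwt : ∀ u ∈ closedBall (0 : Λ.Eu q) ρ, w u ∈ closedBall (0 : Λ.Eu x) t := by
    intro u hu
    rw [mem_closedBall_zero_iff] at hu ⊢
    have h1 := hwd u 0
    rw [sub_zero, hw0] at h1
    have h2 : R⁻¹ * (C1 / lam) * ‖u‖ ≤ r := by
      have h3 : R⁻¹ * (C1 / lam) * ‖u‖ ≤ R⁻¹ * (C1 / lam) * ρ := mul_le_mul_of_nonneg_left hu hA.le
      have h4 : R⁻¹ * (C1 / lam) * ρ = (C1 * ρ / R) / lam := by
        field_simp
      refine h3.trans ?_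
      rw [h4, div_le_iff₀ hlam, mul_comm r lam]
      exact hτ
    have h3 : ‖w u‖ ≤ ‖w u - v‖ + ‖v‖ := by
      have := norm_add_le (w u - v) v
      rwa [sub_add_cancel] at this
    linarith
  have hsm : ∀ σ ∈ Icc (0 : ℝ) 1, σ • s ∈ closedBall (0 : Λ.Es x) 1 := by
    intro σ hσ
    rw [mem_closedBall_zero_iff] at hs ⊢
    rw [norm_smul, Real.norm_of_nonneg hσ.1]
    calc σ * ‖s‖ ≤ 1 * 1 := mul_le_mul hσ.2 hs (norm_nonneg _) (by norm_num)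
      _ = 1 := one_mul 1
  obtain ⟨h', hh'⟩ : ∃ h' : ℝ → Λ.Eu q → M, ∀ σ u, h' σ u = D.f^[n] (h (σ • s) (w u)) :=
    ⟨fun σ u => D.f^[n] (h (σ • s) (w u)), fun _ _ => rfl⟩
  have hHol : Hol Λ ρ q h' := by
    refine ⟨⟨?_, ?_⟩, ?_⟩
    · intro ε hε
      obtain ⟨ρ1, hρ1, g1⟩ := hh.1 ε hε
      refine ⟨ρ1, hρ1, fun σ hσ σ' hσ' u hu hd => ?_⟩
      have h1 := g1 (σ • s) (hsm σ hσ) (σ' • s) (hsm σ' hσ') (w u) (hwt u hu) (by
        rw [dist_eq_norm, ← sub_smul, norm_smul]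
        rw [Real.dist_eq, ← Real.norm_eq_abs] at hd
        have h2 : ‖s‖ ≤ 1 := mem_closedBall_zero_iff.1 hs
        have h3 : ‖σ - σ'‖ * ‖s‖ ≤ ‖σ - σ'‖ * 1 := mul_le_mul_of_nonneg_left h2 (norm_nonneg _)
        linarith)
      rw [hh', hh']
      refine D.S_mono _ _ _ _ ?_ (D.S_iter n h1)
      have h4 : Real.exp (-(D.a * n)) ≤ 1 := by
        apply Real.exp_le_one_iff.mpr
        have : 0 ≤ D.a * n := mul_nonneg D.ha.le (Nat.cast_nonneg n)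
        linarith
      nlinarith
    · intro ε hε
      have hE1 : Real.exp (D.e * n) * (Real.exp (-(D.e * n)) * ε) = ε := by
        rw [← mul_assoc, ← Real.exp_add]
        simp
      obtain ⟨ρ2, hρ2, g2⟩ := hh.2 (Real.exp (-(D.e * n)) * ε) (by positivity)
      refine ⟨ρ2 / (R⁻¹ * (C1 / lam)), by positivity, fun σ hσ u hu u' hu' hd => ?_⟩
      have h1 := g2 (σ • s) (hsm σ hσ) (w u) (hwt u hu) (w u') (hwt u' hu') (by
        rw [dist_eq_norm]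
        rw [dist_eq_norm, lt_div_iff₀ hA, mul_comm] at hd
        exact (hwd u u').trans_lt hd)
      rw [hh', hh']
      have h2 := D.U_iter n h1
      rwa [hE1] at h2
    · intro u hu
      rw [hh', zero_smul, h0 (w u) (hwt u hu), hwy, hfy]
  -- the point `v'`
  obtain ⟨u, hu⟩ : ∃ u, u = co Λ q (D.f^[n] (Λ.θu x (R • v'))) := ⟨_, rfl⟩
  have hqL : InL D q (D.f^[n] (Λ.θu x (R • v'))) := by
    rw [hq]
    exact (hxz.symm.trans (InL_θ Λ x _)).iter n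
  have hwu : w u = v' := by
    have h1 : y u = Λ.θu x (R • v') := by
      rw [hy, hu, θ_co Λ hqL]
      exact symm_iter_iter D.f n _
    rw [hw, h1, co_θ, smul_smul, inv_mul_cancel₀ hR.ne', one_smul]
  have hun : ‖u‖ ≤ ρ / 2 := by
    have h1 : ‖u‖ = dd Λ q (D.f^[n] z) (D.f^[n] (Λ.θu x (R • v'))) := by
      rw [← hq, dd_center, hu]
    have h2 := (hsc z (Λ.θu x (R • v')) hxz (InL_θ Λ x _)).1
    rw [← h1] at h2
    have h3 : dd Λ x z (Λ.θu x (R • v')) = R * ‖v' - v‖ := by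
      rw [hz, dd_θ, ← smul_sub, norm_smul, Real.norm_of_nonneg hR.le, norm_sub_rev]
    rw [h3] at h2
    have h4 : ‖v' - v‖ ≤ ρ / (2 * (C1 * K * R)) * r :=
      hvv.trans (mul_le_mul_of_nonneg_right (min_le_right _ _) hr0.le)
    calc ‖u‖ ≤ C1 * lam * (R * ‖v' - v‖) := h2
      _ ≤ C1 * lam * (R * (ρ / (2 * (C1 * K * R)) * r)) := by
          refine mul_le_mul_of_nonneg_left ?_ (by positivity)
          exact mul_le_mul_of_nonneg_left h4 hR.le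
      _ = (ρ / (2 * K)) * (lam * r) := by
          field_simp
      _ ≤ (ρ / (2 * K)) * K := mul_le_mul_of_nonneg_left hlr (by positivity)
      _ = ρ / 2 := by
          field_simp
  have hub : u ∈ closedBall (0 : Λ.Eu q) (ρ / 2) := mem_closedBall_zero_iff.2 hun
  have hE2 := hE q h' hHol u hub
  obtain ⟨K3, -, -, hK3⟩ := hHol.1.bounds
  have hmem0 : (0 : Λ.Eu q) ∈ closedBall (0 : Λ.Eu q) ρ := mem_closedBall_self hρ.le
  have hmemu : u ∈ closedBall (0 : Λ.Eu q) ρ := closedBall_subset_closedBall (by linarith) hub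
  have hL' : InL D (h' 1 0) (h' 1 u) := ⟨K3, hK3 1 ⟨zero_le_one, le_rfl⟩ 0 hmem0 u hmemu⟩
  have hU := D.U_iter_symm n (hK2 _ _ hL' hE2)
  rw [hh', hh', symm_iter_iter, symm_iter_iter, one_smul, hw0, hwu] at hU
  refine D.U_mono _ _ _ _ ?_ hU
  calc Real.exp (-(D.c * n)) * K2 ≤ K * r ^ (D.c / D.e) * K2 := mul_le_mul_of_nonneg_right hexp hK20
    _ = K * K2 * r ^ (D.c / D.e) := by ring


end Pool.Agent.ANC
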