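import Mathlib
import Pool.Agent.ANC.UA1
import Pool.Agent.ANC.LEM
import Pool.Agent.ANC.PHX

/-! APC: the a priori bound.  With K, c4 of one_scale, β = c/e > 0: along a ray v_i = (1 - (1-c4)^i) t e (e = v/|v|):
t - |v_i| = t (1-c4)^i, |v_{i+1} - v_i| = c4 (t - |v_i|), so U (h s 0) (h s v_i) (Σ_{j<i} K (1-c4)^{jβ}) ≤ K / (1 - (1-c4)^β) =: K3.
A v with |v| < t lies between v_i and v_{i+1}; a v with |v| = t: Rect modulus with ε = 1.  So U (h s 0) (h s v) K4.
Then Sys.step (STP) along τ ↦ h(τ s, 0) = θ_x (R τ s) (S-Lipschitz, s_lip) and τ ↦ h(τ s, v): S (h 0 v) (h s v) K5. -/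

open Set Metric Function

namespace Pool.Agent.ANC

variable {M : Type} [MetricSpace M] [CompactSpace M] {E : Type} [NormedAddCommGroup E]

private theorem APC_geom {K θ : ℝ} (hK : 0 ≤ K) (h0 : 0 ≤ θ) (h1 : θ < 1) (i : ℕ) :
    K * ∑ j ∈ Finset.range i, θ ^ j ≤ K / (1 - θ) := by
  rw [div_eq_mul_inv]
  apply mul_le_mul_of_nonneg_left _ hK
  rw [← tsum_geometric_of_lt_one h0 h1]
  exact (summable_geometric_of_lt_one h0 h1).sum_le_tsum _ (fun j _ => pow_nonneg h0 j)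

theorem QC.unstable_bound [NormedSpace ℝ E] {D : Sys M} {Λ : Leaves M D E} (Q : QC D Λ) {ρ CE : ℝ} (hρ : 0 < ρ)
    (hE : ∀ (q : M) (h : ℝ → Λ.Eu q → M), Hol Λ ρ q h →
      ∀ u ∈ closedBall (0 : Λ.Eu q) (ρ / 2), dd Λ (h 1 0) (h 1 0) (h 1 u) ≤ CE)
    (x : M) {R : ℝ} (hR : 0 < R) : ∃ K : ℝ, 0 ≤ K ∧
      ∀ t, 0 ≤ t → t ≤ 1 → ∀ h : Λ.Es x → Λ.Eu x → M, Rect D (closedBall 0 1) (closedBall 0 t) h →
        (∀ v ∈ closedBall (0 : Λ.Eu x) t, h 0 v = Λ.θu x (R • v)) →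
        ∀ s ∈ closedBall (0 : Λ.Es x) 1, ∀ v ∈ closedBall (0 : Λ.Eu x) t, D.U (h s 0) (h s v) K := by
  obtain ⟨K, hK, c4, hc4, hc4', hs⟩ := Q.one_scale hρ hE x hR
  have hc := D.hc
  have he : 0 < D.e := lt_of_lt_of_le D.hc D.hce
  set β : ℝ := D.c / D.e with hβ
  have hβ0 : 0 < β := div_pos hc he
  set q : ℝ := 1 - c4 with hq
  have hq0 : 0 < q := by rw [hq]; linarith
  have hq1 : q < 1 := by rw [hq]; linarith
  set θ : ℝ := q ^ β with hθ
  have hθ0 : 0 ≤ θ := Real.rpow_nonneg hq0.le _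
  have hθ1 : θ < 1 := Real.rpow_lt_one hq0.le hq1 hβ0
  have hK3 : 0 ≤ K / (1 - θ) := div_nonneg hK (by linarith)
  refine ⟨K / (1 - θ) + 1, by linarith, ?_⟩
  intro t ht0 ht1 h hRect h0 s hsm v hv
  rcases ht0.eq_or_lt with rfl | ht
  · have hv0 : v = 0 := by simpa using hv
    rw [hv0]
    exact D.U_mono _ _ _ _ (by linarith) (D.U_refl _)
  have key : ∀ i : ℕ, ∀ w : Λ.Eu x, ‖w‖ ≤ (1 - q ^ i) * t →
      D.U (h s 0) (h s w) (K * ∑ j ∈ Finset.range i, θ ^ j) := by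
    intro i
    induction i with
    | zero =>
      intro w hw
      have hw0 : w = 0 := by
        have : ‖w‖ ≤ 0 := by simpa using hw
        exact norm_le_zero_iff.mp this
      rw [hw0]
      simpa using D.U_refl (h s 0)
    | succ i ih =>
      intro w hw
      have hqi : 0 < q ^ i := pow_pos hq0 i
      have hqi1 : q ^ i ≤ 1 := pow_le_one₀ hq0.le hq1.le
      have hsum : K * ∑ j ∈ Finset.range (i + 1), θ ^ j
          = K * ∑ j ∈ Finset.range i, θ ^ j + K * θ ^ i := by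
        rw [Finset.sum_range_succ]; ring
      by_cases hwi : ‖w‖ ≤ (1 - q ^ i) * t
      · refine D.U_mono _ _ _ _ ?_ (ih w hwi)
        rw [hsum]
        have : 0 ≤ K * θ ^ i := mul_nonneg hK (pow_nonneg hθ0 i)
        linarith
      push Not at hwi
      set a : ℝ := (1 - q ^ i) * t with ha
      have ha0 : 0 ≤ a := mul_nonneg (by linarith) ht.le
      have hw0 : 0 < ‖w‖ := lt_of_le_of_lt ha0 hwi
      set w' : Λ.Eu x := (a / ‖w‖) • w with hw'
      have hwn : ‖w'‖ = a := by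
        rw [hw', norm_smul, Real.norm_of_nonneg (by positivity)]
        field_simp
      have hdiff : ‖w - w'‖ = ‖w‖ - a := by
        have h1 : w - w' = (1 - a / ‖w‖) • w := by
          rw [hw', sub_smul, one_smul]
        have h2 : 0 ≤ 1 - a / ‖w‖ := by
          rw [sub_nonneg, div_le_one hw0]
          exact hwi.le
        rw [h1, norm_smul, Real.norm_of_nonneg h2]
        field_simp
      have hta : t - a = q ^ i * t := by rw [ha]; ring
      have h3 : ‖w - w'‖ ≤ c4 * (t - ‖w'‖) := by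
        rw [hdiff, hwn, hta]
        have h4 : ‖w‖ ≤ (1 - q ^ i * q) * t := by
          rwa [pow_succ] at hw
        have h5 : c4 = 1 - q := by rw [hq]; ring
        rw [h5, ha]
        nlinarith
      have h6 : ‖w'‖ < t := by
        rw [hwn, ha]
        nlinarith
      have h7 := hs t ht ht1 h hRect h0 s hsm w' w h6 h3
      have h8 : K * (t - ‖w'‖) ^ β ≤ K * θ ^ i := by
        apply mul_le_mul_of_nonneg_left _ hK
        rw [hwn, hta]
        have h9 : (q ^ i) ^ β = θ ^ i := by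
          rw [hθ, ← Real.rpow_natCast q i, ← Real.rpow_mul hq0.le, mul_comm, Real.rpow_mul hq0.le,
            Real.rpow_natCast]
        rw [← h9]
        apply Real.rpow_le_rpow (by positivity) _ hβ0.le
        nlinarith
      rw [hsum]
      exact D.U_tri _ _ _ _ _ (ih w' hwn.le) (D.U_mono _ _ _ _ h8 h7)
  have key2 : ∀ w : Λ.Eu x, ‖w‖ < t → D.U (h s 0) (h s w) (K / (1 - θ)) := by
    intro w hw
    have h1 : 0 < (t - ‖w‖) / t := div_pos (by linarith) ht
    obtain ⟨i, hi⟩ := exists_pow_lt_of_lt_one h1 hq1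
    refine D.U_mono _ _ _ _ (APC_geom hK hθ0 hθ1 i) (key i w ?_)
    rw [lt_div_iff₀ ht] at hi
    nlinarith
  have hvn : ‖v‖ ≤ t := by simpa using hv
  rcases hvn.lt_or_eq with hlt | heq
  · exact D.U_mono _ _ _ _ (by linarith) (key2 v hlt)
  · obtain ⟨δ, hδ, hmod⟩ := hRect.2 1 one_pos
    set η : ℝ := min (1 / 2) (δ / 2) with hη
    have hη0 : 0 < η := by rw [hη]; positivity
    have hη1 : η ≤ 1 / 2 := min_le_left _ _
    have hη2 : η ≤ δ / 2 := min_le_right _ _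
    have h1 : ‖(1 - η) • v‖ = (1 - η) * t := by
      rw [norm_smul, Real.norm_of_nonneg (by linarith), heq]
    have h2 : ‖(1 - η) • v‖ < t := by rw [h1]; nlinarith
    have h3 : dist ((1 - η) • v) v < δ := by
      rw [dist_eq_norm]
      have h4 : (1 - η) • v - v = (-η) • v := by
        rw [sub_smul, one_smul, neg_smul]; abel
      rw [h4, norm_smul, Real.norm_eq_abs, abs_neg, abs_of_pos hη0, heq]
      nlinarith
    have h5 := hmod s hsm ((1 - η) • v) (by simpa using h2.le) v hv h3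
    exact D.U_tri _ _ _ _ _ (key2 _ h2) h5

theorem QC.apb [InnerProductSpace ℝ E] [FiniteDimensional ℝ E] {D : Sys M} {Λ : Leaves M D E} (Q : QC D Λ)
    (hd : UDense D) (x : M) : APB D Λ x := by
  obtain ⟨ρ, hρ, CE, hE⟩ := Q.lemmaE hd
  intro R hR
  obtain ⟨K4, hK4, hU⟩ := Q.unstable_bound hρ hE x hR
  obtain ⟨K1, hK1, hlip⟩ := Λ.s_lip x R
  have hC := D.hC
  have hr := D.hr
  have hC0 : 0 < D.C := by linarith
  set ε0 : ℝ := D.r / (4 * D.C) with hε0
  have hε : 0 < ε0 := by rw [hε0]; positivity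
  have h3 : 3 * D.C * ε0 < D.r := by
    have : 3 * D.C * ε0 = 3 / 4 * D.r := by
      rw [hε0]; field_simp
    rw [this]; linarith
  obtain ⟨k, hk⟩ : ∃ k : ℕ, K4 ≤ ε0 * Real.exp (D.c * k) := by
    obtain ⟨k, hk⟩ := exists_nat_gt (K4 / ε0 / D.c)
    refine ⟨k, ?_⟩
    have h4 : K4 / ε0 < D.c * k := by
      rw [div_lt_iff₀ D.hc] at hk
      linarith
    have h5 : D.c * k ≤ Real.exp (D.c * k) := by
      have := Real.add_one_le_exp (D.c * k)
      linarith
    have h6 : K4 / ε0 ≤ Real.exp (D.c * k) := by linarith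
    rw [div_le_iff₀ hε] at h6
    linarith
  refine ⟨3 * D.C * (K1 * R + ε0) * Real.exp ((D.b - D.a) * k), ?_⟩
  intro t ht h hRect hs0 h0 s hs v hv
  have hsn : ‖s‖ ≤ 1 := by simpa using hs
  have hmem : ∀ τ ∈ Icc (0 : ℝ) 1, τ • s ∈ closedBall (0 : Λ.Es x) 1 := by
    intro τ hτ
    rw [mem_closedBall_zero_iff, norm_smul, Real.norm_of_nonneg hτ.1]
    have := norm_nonneg s
    nlinarith [hτ.2]
  have hz : (0 : Λ.Eu x) ∈ closedBall (0 : Λ.Eu x) t := by simpa using ht.1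
  have hfin := D.step hε h3 (fun τ => h (τ • s) 0) (fun τ => h (τ • s) v) (S0 := K1 * R)
    (by positivity) ?_ ?_ k ?_
  · simp only [zero_smul, one_smul] at hfin
    exact hfin
  · intro τ hτ τ' hτ'
    rw [hs0 _ (hmem τ hτ), hs0 _ (hmem τ' hτ')]
    have hn : ∀ τ ∈ Icc (0 : ℝ) 1, ‖R • τ • s‖ ≤ R := by
      intro τ hτ
      rw [norm_smul, Real.norm_of_nonneg hR.le]
      have := hmem τ hτ
      rw [mem_closedBall_zero_iff] at this
      nlinarith
    refine D.S_mono _ _ _ _ ?_ (hlip _ _ (hn τ hτ) (hn τ' hτ'))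
    rw [← smul_sub, ← sub_smul, norm_smul, norm_smul, Real.norm_of_nonneg hR.le, Real.norm_eq_abs]
    have h5 : |τ - τ'| * ‖s‖ ≤ |τ - τ'| := by
      have := abs_nonneg (τ - τ')
      nlinarith
    calc K1 * (R * (|τ - τ'| * ‖s‖)) ≤ K1 * (R * |τ - τ'|) := by gcongr
      _ = K1 * R * |τ - τ'| := by ring
  · intro ε hε'
    obtain ⟨δ, hδ, hmod⟩ := hRect.1 ε hε'
    refine ⟨δ, hδ, ?_⟩
    intro τ hτ τ' hτ' hd'
    refine hmod _ (hmem τ hτ) _ (hmem τ' hτ') v hv ?_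
    rw [dist_eq_norm, ← sub_smul, norm_smul, Real.norm_eq_abs]
    have := abs_nonneg (τ - τ')
    nlinarith
  · intro τ hτ
    exact D.U_mono _ _ _ _ hk (hU t ht.1 ht.2 h hRect h0 _ (hmem τ hτ) v hv)

end Pool.Agent.ANC
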