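import Mathlib
import Pool.Agent.ANO.CLO
import Pool.Agent.ANO.TRA
import Pool.Agent.ANO.NRM
import Pool.Agent.ANO.C1E

open Set Metric Function
open scoped Manifold ContDiff

namespace Pool.Agent.ANC

open Pool.Agent.ANO (Fam Anosov1 Loc Trans)

variable {d : ℕ} {M : Type} [MetricSpace M] [ChartedSpace (EuclideanSpace ℝ (Fin d)) M]
  [IsManifold (𝓡 d) ∞ M]

private theorem as2_TT' (F : Fam d M) (x : M) (v : EuclideanSpace ℝ (Fin d)) :
    F.T x x (F.T' x x v) = v :=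
  F.T_T' (by rw [dist_self]; linarith [F.hr]) v

private theorem as2_T'T (F : Fam d M) (x : M) (v : TangentSpace (𝓡 d) x) :
    F.T' x x (F.T x x v) = v :=
  F.T'_T (by rw [dist_self]; linarith [F.hr]) v

/-- the identification of the tangent space at `x` with the model space -/
private noncomputable def as2_e (F : Fam d M) (x : M) :
    TangentSpace (𝓡 d) x ≃ₗ[ℝ] EuclideanSpace ℝ (Fin d) :=
  { (F.T x x).toLinearMap with
    invFun := F.T' x x
    left_inv := as2_T'T F x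
    right_inv := as2_TT' F x }

private theorem as2_mem (F : Fam d M) (x : M) (W : Submodule ℝ (TangentSpace (𝓡 d) x))
    (v : EuclideanSpace ℝ (Fin d)) :
    v ∈ W.map (F.T x x).toLinearMap ↔ F.T' x x v ∈ W := by
  constructor
  · rintro ⟨w, hw, rfl⟩
    have : F.T' x x (F.T x x w) = w := as2_T'T F x w
    simpa [this] using hw
  · intro h
    exact ⟨F.T' x x v, h, as2_TT' F x v⟩

private theorem as2_compl (F : Fam d M) (x : M) (W W' : Submodule ℝ (TangentSpace (𝓡 d) x))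
    (h : IsCompl W W') :
    IsCompl (W.map (F.T x x).toLinearMap) (W'.map (F.T x x).toLinearMap) := by
  have := (Submodule.orderIsoMapComap (as2_e F x)).isCompl h
  exact this

omit [IsManifold (𝓡 d) ∞ M] in
/-- the derivative of the inverse map -/
private theorem as2_inv (f g : M → M) (hf : ContMDiff (𝓡 d) (𝓡 d) 1 f)
    (hg : ContMDiff (𝓡 d) (𝓡 d) 1 g) (gf : LeftInverse g f) (x : M)
    (v : EuclideanSpace ℝ (Fin d)) :
    (mfderiv (𝓡 d) (𝓡 d) g (f x) (mfderiv (𝓡 d) (𝓡 d) f x v) : EuclideanSpace ℝ (Fin d)) = v := by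
  have h1 : mfderiv (𝓡 d) (𝓡 d) (g ∘ f) x =
      (mfderiv (𝓡 d) (𝓡 d) g (f x)).comp (mfderiv (𝓡 d) (𝓡 d) f x) :=
    mfderiv_comp x ((hg.mdifferentiable one_ne_zero) _) ((hf.mdifferentiable one_ne_zero) _)
  have h2 : g ∘ f = id := funext gf
  have h3 : ∀ h : M → M, h = id →
      (mfderiv (𝓡 d) (𝓡 d) h x v : EuclideanSpace ℝ (Fin d)) = v := by
    rintro _ rfl
    rw [mfderiv_id]
    rfl
  have h4 := h3 (g ∘ f) h2
  rw [h1] at h4
  exact h4

/-- the left inverse of the derivative in coordinates -/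
private noncomputable def as2_Ai (F : Fam d M) (f g : M → M) (x : M) (w : EuclideanSpace ℝ (Fin d)) :
    EuclideanSpace ℝ (Fin d) :=
  F.T x x (show TangentSpace (𝓡 d) x from
    (mfderiv (𝓡 d) (𝓡 d) g (f x) (F.T' (f x) (f x) w) : EuclideanSpace ℝ (Fin d)))

private theorem as2_Ai_A (F : Fam d M) (f g : M → M) (hf : ContMDiff (𝓡 d) (𝓡 d) 1 f)
    (hg : ContMDiff (𝓡 d) (𝓡 d) 1 g) (gf : LeftInverse g f) (x : M)
    (v : EuclideanSpace ℝ (Fin d)) : as2_Ai F f g x (F.D f (f x) x v) = v := by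
  have h1 : F.D f (f x) x v = F.T (f x) (f x) (mfderiv (𝓡 d) (𝓡 d) f x (F.T' x x v)) := rfl
  have h2 : F.T' (f x) (f x) (F.D f (f x) x v) = mfderiv (𝓡 d) (𝓡 d) f x (F.T' x x v) := by
    rw [h1]
    exact as2_T'T F (f x) _
  unfold as2_Ai
  rw [h2]
  have h3 := as2_inv f g hf hg gf x (F.T' x x v)
  have h4 := as2_TT' F x v
  exact (congrArg (fun u : EuclideanSpace ℝ (Fin d) => F.T x x (show TangentSpace (𝓡 d) x from u))
    h3).trans h4

/-- the derivative in coordinates as an equivalence -/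
private noncomputable def as2_A (F : Fam d M) (f g : M → M) (hf : ContMDiff (𝓡 d) (𝓡 d) 1 f)
    (hg : ContMDiff (𝓡 d) (𝓡 d) 1 g) (gf : LeftInverse g f) (x : M) :
    EuclideanSpace ℝ (Fin d) ≃L[ℝ] EuclideanSpace ℝ (Fin d) :=
  (LinearEquiv.ofInjectiveEndo (F.D f (f x) x).toLinearMap
    (fun v w h => by
      have h1 := as2_Ai_A F f g hf hg gf x v
      have h2 := as2_Ai_A F f g hf hg gf x w
      have h3 : F.D f (f x) x v = F.D f (f x) x w := h
      rw [← h1, ← h2, h3])).toContinuousLinearEquiv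

private theorem as2_A_apply (F : Fam d M) (f g : M → M) (hf : ContMDiff (𝓡 d) (𝓡 d) 1 f)
    (hg : ContMDiff (𝓡 d) (𝓡 d) 1 g) (gf : LeftInverse g f) (x : M)
    (v : EuclideanSpace ℝ (Fin d)) : as2_A F f g hf hg gf x v = F.D f (f x) x v := rfl

private theorem as2_A_symm (F : Fam d M) (f g : M → M) (hf : ContMDiff (𝓡 d) (𝓡 d) 1 f)
    (hg : ContMDiff (𝓡 d) (𝓡 d) 1 g) (gf : LeftInverse g f) (x : M)
    (w : EuclideanSpace ℝ (Fin d)) : (as2_A F f g hf hg gf x).symm w = as2_Ai F f g x w := by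
  have h := as2_Ai_A F f g hf hg gf x ((as2_A F f g hf hg gf x).symm w)
  rw [← as2_A_apply F f g hf hg gf, ContinuousLinearEquiv.apply_symm_apply] at h
  exact h.symm


/-- bounds for the coordinates -/
private theorem as2_bounds [CompactSpace M] (𝒜 : Anosov1 d M) (F : Fam d M) :
    ∃ L ≥ 1, F.C ≤ L ∧
      (∀ x y, dist x y ≤ F.r → ∀ v : EuclideanSpace ℝ (Fin d), 𝒜.N y (F.T' x y v) ≤ L * ‖v‖) ∧
      (∀ x y, dist x y ≤ F.r → ∀ v : EuclideanSpace ℝ (Fin d), ‖v‖ ≤ L * 𝒜.N y (F.T' x y v)) ∧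
      (∀ (x : M) (v : EuclideanSpace ℝ (Fin d)), ‖F.D 𝒜.f (𝒜.f x) x v‖ ≤ L * ‖v‖) ∧
      (∀ (x : M) (v : EuclideanSpace ℝ (Fin d)), ‖as2_Ai F 𝒜.f 𝒜.g x v‖ ≤ L * ‖v‖) ∧
      (∀ x y, dist x y ≤ F.r → ∀ v : EuclideanSpace ℝ (Fin d), ‖F.D id x y v‖ ≤ L * ‖v‖) ∧
      (∀ x (v w : TangentSpace (𝓡 d) x), v ∈ 𝒜.Es x → w ∈ 𝒜.Eu x → 𝒜.N x v ≤ L * 𝒜.N x (v + w)) ∧
      (∀ x (v w : TangentSpace (𝓡 d) x), v ∈ 𝒜.Es x → w ∈ 𝒜.Eu x → 𝒜.N x w ≤ L * 𝒜.N x (v + w)) ∧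
      ∃ κ > 0, ∃ ρ > 0, ρ ≤ F.r ∧ ∀ x y, dist x y ≤ ρ → ∀ v ∈ 𝒜.Es x, ∀ w ∈ 𝒜.Eu y,
        κ * (‖F.T x x v‖ + ‖F.T y y w‖) ≤ ‖F.T x x v - F.T x y w‖ := by
  obtain ⟨L1, hL1, hN⟩ := 𝒜.norm_equiv F
  obtain ⟨L2, hL2, hdf⟩ := 𝒜.deriv_le F 𝒜.f 𝒜.hf
  obtain ⟨L3, hL3, hdg⟩ := 𝒜.deriv_le F 𝒜.g 𝒜.hg
  obtain ⟨κ, hκ, ρ, hρ, hρr, htr⟩ := F.transverse 𝒜.Es 𝒜.Eu 𝒜.closed_s 𝒜.closed_u
    (fun x => (𝒜.compl x).disjoint)
  have hr := F.hr
  have hC := F.hC
  have h0 : ∀ x : M, dist x x ≤ F.r := fun x => by rw [dist_self]; exact hr.le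
  have L1p : 0 < L1 := by linarith
  have hNn : ∀ (x : M) (v : TangentSpace (𝓡 d) x), 0 ≤ 𝒜.N x v := by
    intro x v
    have h1 := (hN x x (h0 x) (F.T x x v)).2
    rw [as2_T'T] at h1
    have h2 : 0 ≤ ‖F.T x x v‖ := norm_nonneg _
    by_contra hc
    have : L1 * 𝒜.N x v < 0 := mul_neg_of_pos_of_neg L1p (not_le.1 hc)
    linarith
  have hT : ∀ (x : M) (v : TangentSpace (𝓡 d) x), ‖F.T x x v‖ ≤ L1 * 𝒜.N x v := by
    intro x v
    have h1 := (hN x x (h0 x) (F.T x x v)).2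
    rwa [as2_T'T] at h1
  have hT2 : ∀ (x : M) (v : TangentSpace (𝓡 d) x), 𝒜.N x v ≤ L1 * ‖F.T x x v‖ := by
    intro x v
    have h1 := (hN x x (h0 x) (F.T x x v)).1
    rwa [as2_T'T] at h1
  -- the candidate constant
  set L : ℝ := F.C + L1 + L1 * L2 * L1 + L1 * L3 * L1 + L1 * L1 + L1 * L1 / κ with hL
  have hp1 : 0 ≤ L1 * L2 * L1 := by positivity
  have hp2 : 0 ≤ L1 * L3 * L1 := by positivity
  have hp3 : 0 ≤ L1 * L1 := by positivity
  have hp4 : 0 ≤ L1 * L1 / κ := by positivity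
  have hang : ∀ x (v w : TangentSpace (𝓡 d) x), v ∈ 𝒜.Es x → w ∈ 𝒜.Eu x →
      ‖F.T x x v‖ + ‖F.T x x w‖ ≤ (1 / κ) * (L1 * 𝒜.N x (v + w)) := by
    intro x v w hv hw
    have h1 := htr x x (by rw [dist_self]; exact hρ.le) v hv (-w) ((𝒜.Eu x).neg_mem hw)
    have h2 : F.T x x (-w) = - F.T x x w := map_neg _ _
    have h3 : F.T x x v - F.T x x (-w) = F.T x x (v + w) := by
      rw [h2, map_add, sub_neg_eq_add]
    rw [h3, h2, norm_neg] at h1
    have h4 := hT x (v + w)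
    rw [one_div, ← div_eq_inv_mul, le_div_iff₀ hκ]
    calc (‖F.T x x v‖ + ‖F.T x x w‖) * κ = κ * (‖F.T x x v‖ + ‖F.T x x w‖) := by ring
      _ ≤ _ := h1.trans h4
  refine ⟨L, by linarith, by linarith, ?_, ?_, ?_, ?_, ?_, ?_, ?_, κ / (L1 * L1), by positivity, ρ, hρ,
    hρr, ?_⟩
  · intro x y hxy v
    refine ((hN x y hxy v).1).trans (mul_le_mul_of_nonneg_right (by linarith) (norm_nonneg _))
  · intro x y hxy v
    refine ((hN x y hxy v).2).trans (mul_le_mul_of_nonneg_right (by linarith) (hNn _ _))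
  · intro x v
    have h1 : F.D 𝒜.f (𝒜.f x) x v =
        F.T (𝒜.f x) (𝒜.f x) (mfderiv (𝓡 d) (𝓡 d) 𝒜.f x (F.T' x x v)) := rfl
    rw [h1]
    calc _ ≤ L1 * 𝒜.N (𝒜.f x) (mfderiv (𝓡 d) (𝓡 d) 𝒜.f x (F.T' x x v)) := hT _ _
      _ ≤ L1 * (L2 * 𝒜.N x (F.T' x x v)) := mul_le_mul_of_nonneg_left (hdf _ _) L1p.le
      _ ≤ L1 * (L2 * (L1 * ‖v‖)) := by
          refine mul_le_mul_of_nonneg_left (mul_le_mul_of_nonneg_left ((hN x x (h0 x) v).1)
            (by linarith)) L1p.le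
      _ = (L1 * L2 * L1) * ‖v‖ := by ring
      _ ≤ L * ‖v‖ := mul_le_mul_of_nonneg_right (by linarith) (norm_nonneg _)
  · intro x v
    have key : ∀ z : M, z = x → ∀ u : EuclideanSpace ℝ (Fin d),
        ‖F.T x x (show TangentSpace (𝓡 d) x from u)‖ ≤ L1 * 𝒜.N z (show TangentSpace (𝓡 d) z from u) := by
      rintro z rfl u
      exact hT z u
    have h1 := key (𝒜.g (𝒜.f x)) (𝒜.gf x)
      (mfderiv (𝓡 d) (𝓡 d) 𝒜.g (𝒜.f x) (F.T' (𝒜.f x) (𝒜.f x) v))
    calc ‖as2_Ai F 𝒜.f 𝒜.g x v‖ ≤ L1 * 𝒜.N (𝒜.g (𝒜.f x))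
          (mfderiv (𝓡 d) (𝓡 d) 𝒜.g (𝒜.f x) (F.T' (𝒜.f x) (𝒜.f x) v)) := h1
      _ ≤ L1 * (L3 * 𝒜.N (𝒜.f x) (F.T' (𝒜.f x) (𝒜.f x) v)) :=
          mul_le_mul_of_nonneg_left (hdg _ _) L1p.le
      _ ≤ L1 * (L3 * (L1 * ‖v‖)) := by
          refine mul_le_mul_of_nonneg_left (mul_le_mul_of_nonneg_left ((hN _ _ (h0 _) v).1)
            (by linarith)) L1p.le
      _ = (L1 * L3 * L1) * ‖v‖ := by ring
      _ ≤ L * ‖v‖ := mul_le_mul_of_nonneg_right (by linarith) (norm_nonneg _)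
  · intro x y hxy v
    have h1 : F.D id x y v = F.T x y (F.T' y y v) := by
      have : F.D id x y v = F.T x y (mfderiv (𝓡 d) (𝓡 d) (id : M → M) y (F.T' y y v)) := rfl
      rw [this, mfderiv_id]
      rfl
    rw [h1]
    have h2 := (hN x y hxy (F.T x y (F.T' y y v))).2
    rw [F.T'_T (by linarith)] at h2
    have h3 := (hN y y (h0 y) v).1
    calc _ ≤ L1 * 𝒜.N y (F.T' y y v) := h2
      _ ≤ L1 * (L1 * ‖v‖) := mul_le_mul_of_nonneg_left h3 L1p.le
      _ = (L1 * L1) * ‖v‖ := by ring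
      _ ≤ L * ‖v‖ := mul_le_mul_of_nonneg_right (by linarith) (norm_nonneg _)
  · intro x v w hv hw
    have h1 := hang x v w hv hw
    have h2 := hT2 x v
    have h3 : 0 ≤ ‖F.T x x w‖ := norm_nonneg _
    calc 𝒜.N x v ≤ L1 * ‖F.T x x v‖ := h2
      _ ≤ L1 * ((1 / κ) * (L1 * 𝒜.N x (v + w))) := mul_le_mul_of_nonneg_left (by linarith) L1p.le
      _ = (L1 * L1 / κ) * 𝒜.N x (v + w) := by ring
      _ ≤ L * 𝒜.N x (v + w) := mul_le_mul_of_nonneg_right (by linarith) (hNn _ _)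
  · intro x v w hv hw
    have h1 := hang x v w hv hw
    have h2 := hT2 x w
    have h3 : 0 ≤ ‖F.T x x v‖ := norm_nonneg _
    calc 𝒜.N x w ≤ L1 * ‖F.T x x w‖ := h2
      _ ≤ L1 * ((1 / κ) * (L1 * 𝒜.N x (v + w))) := mul_le_mul_of_nonneg_left (by linarith) L1p.le
      _ = (L1 * L1 / κ) * 𝒜.N x (v + w) := by ring
      _ ≤ L * 𝒜.N x (v + w) := mul_le_mul_of_nonneg_right (by linarith) (hNn _ _)
  · intro x y hxy v hv w hw
    have h1 := htr x y hxy v hv w hw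
    have h2 : ‖F.T y y w‖ ≤ L1 * L1 * ‖F.T x y w‖ := by
      have h3 := hT y w
      have h4 := (hN x y (hxy.trans hρr) (F.T x y w)).1
      rw [F.T'_T (by linarith)] at h4
      calc _ ≤ L1 * 𝒜.N y w := h3
        _ ≤ L1 * (L1 * ‖F.T x y w‖) := mul_le_mul_of_nonneg_left h4 L1p.le
        _ = _ := by ring
    have h5 : ‖F.T x x v‖ ≤ L1 * L1 * ‖F.T x x v‖ := by
      have : 1 ≤ L1 * L1 := by nlinarith
      nlinarith [norm_nonneg (F.T x x v)]
    calc κ / (L1 * L1) * (‖F.T x x v‖ + ‖F.T y y w‖)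
        ≤ κ / (L1 * L1) * (L1 * L1 * ‖F.T x x v‖ + L1 * L1 * ‖F.T x y w‖) :=
          mul_le_mul_of_nonneg_left (by linarith) (by positivity)
      _ = κ * (‖F.T x x v‖ + ‖F.T x y w‖) := by field_simp
      _ ≤ _ := h1


/-- From the manifold to local coordinates. -/
theorem exists_loc [CompactSpace M] (𝒜 : Anosov1 d M) (F : Fam d M) :
    ∃ (H : Loc M (EuclideanSpace ℝ (Fin d))) (_ : Trans H),
      (∀ x, H.f x = 𝒜.f x) ∧ (∀ x y, H.c x y = F.co x y) ∧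
      (∀ x v, H.A x v = F.D 𝒜.f (𝒜.f x) x v) ∧
      (∀ x, H.Eu x = (𝒜.Eu x).map (F.T x x).toLinearMap) := by
  obtain ⟨L, hL, hCL, hb1, hb2, hA, hAi, hB, ha1, ha2, κ, hκ, ρ, hρ, hρr, htr⟩ := as2_bounds 𝒜 F
  obtain ⟨ρ2, hρ2, hdim⟩ := F.dims 𝒜.Es 𝒜.Eu 𝒜.closed_s 𝒜.closed_u 𝒜.compl
  have hr := F.hr
  have hC := F.hC
  have h0 : ∀ x : M, dist x x ≤ F.r := fun x => by rw [dist_self]; exact hr.le
  have hco : ∀ x y z, F.co x y - F.co x z =
      extChartAt (𝓡 d) (F.i x) y - extChartAt (𝓡 d) (F.i x) z := by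
    intro x y z
    unfold Fam.co
    abel
  have hDA : ∀ (x : M) (v : EuclideanSpace ℝ (Fin d)),
      F.T' (𝒜.f x) (𝒜.f x) (F.D 𝒜.f (𝒜.f x) x v) = mfderiv (𝓡 d) (𝓡 d) 𝒜.f x (F.T' x x v) :=
    fun x v => as2_T'T F (𝒜.f x) _
  let H : Loc M (EuclideanSpace ℝ (Fin d)) :=
    { f := { toFun := 𝒜.f, invFun := 𝒜.g, left_inv := 𝒜.gf, right_inv := 𝒜.fg,
             continuous_toFun := 𝒜.hf.continuous, continuous_invFun := 𝒜.hg.continuous }
      c := F.co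
      r := F.r
      hr := hr
      L := L
      hL := hL
      c_self := fun x => sub_self _
      c_le := fun x y z hy hz => by
        rw [hco]
        exact (F.le1 x y z (by linarith) (by linarith)).trans
          (mul_le_mul_of_nonneg_right hCL dist_nonneg)
      le_c := fun x y z hy hz => by
        rw [hco]
        exact (F.le2 x y z (by linarith) (by linarith)).trans
          (mul_le_mul_of_nonneg_right hCL (norm_nonneg _))
      c_surj := fun x v hv => by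
        obtain ⟨y, hy, h⟩ := F.surj x v
          ((mul_le_mul_of_nonneg_right hCL (norm_nonneg _)).trans hv)
        refine ⟨y, hy, ?_⟩
        unfold Fam.co
        rw [h, add_sub_cancel_left]
      A := as2_A F 𝒜.f 𝒜.g 𝒜.hf 𝒜.hg 𝒜.gf
      A_le := fun x v => by rw [as2_A_apply]; exact hA x v
      A_symm_le := fun x v => by rw [as2_A_symm]; exact hAi x v
      der := fun η hη => by
        obtain ⟨ρ', hρ', h⟩ := F.c1 𝒜.f 𝒜.hf η hη
        refine ⟨ρ', hρ', fun x y z hy hz => ?_⟩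
        exact h (𝒜.f x) x y z (by rw [dist_self]; exact hρ'.le) hy hz
      Es := fun x => (𝒜.Es x).map (F.T x x).toLinearMap
      Eu := fun x => (𝒜.Eu x).map (F.T x x).toLinearMap
      compl := fun x => as2_compl F x _ _ (𝒜.compl x)
      A_s := fun x v hv => by
        rw [as2_mem] at hv
        have h1 : F.T' (𝒜.f x) (𝒜.f x) (F.D 𝒜.f (𝒜.f x) x v) ∈ 𝒜.Es (𝒜.f x) := by
          rw [hDA]
          exact 𝒜.inv_s x _ hv
        exact (as2_mem F (𝒜.f x) (𝒜.Es (𝒜.f x)) (F.D 𝒜.f (𝒜.f x) x v)).2 h1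
      A_u := fun x v hv => by
        rw [as2_mem] at hv
        have h1 : F.T' (𝒜.f x) (𝒜.f x) (F.D 𝒜.f (𝒜.f x) x v) ∈ 𝒜.Eu (𝒜.f x) := by
          rw [hDA]
          exact 𝒜.inv_u x _ hv
        exact (as2_mem F (𝒜.f x) (𝒜.Eu (𝒜.f x)) (F.D 𝒜.f (𝒜.f x) x v)).2 h1
      n := fun x v => 𝒜.N x (F.T' x x v)
      n_add := fun x v w => by
        rw [map_add]
        exact 𝒜.N_add _ _ _
      n_smul := fun x t v => by
        rw [map_smul]
        exact 𝒜.N_smul _ _ _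
      n_le := fun x v => hb1 x x (h0 x) v
      le_n := fun x v => hb2 x x (h0 x) v
      ang_s := fun x v w hv hw => by
        rw [as2_mem] at hv hw
        rw [map_add]
        exact ha1 x _ _ hv hw
      ang_u := fun x v w hv hw => by
        rw [as2_mem] at hv hw
        rw [map_add]
        exact ha2 x _ _ hv hw
      l1 := 𝒜.l1
      l2 := 𝒜.l2
      m2 := 𝒜.m2
      m1 := 𝒜.m1
      hl1 := 𝒜.hl1
      hl12 := 𝒜.hl12
      hl2 := 𝒜.hl2
      hm2 := 𝒜.hm2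
      hm12 := 𝒜.hm12
      s_lo := fun x v hv => by
        rw [as2_mem] at hv
        have h1 := 𝒜.s_lo x _ hv
        rw [← hDA] at h1
        exact h1
      s_hi := fun x v hv => by
        rw [as2_mem] at hv
        have h1 := 𝒜.s_hi x _ hv
        rw [← hDA] at h1
        exact h1
      u_lo := fun x v hv => by
        rw [as2_mem] at hv
        have h1 := 𝒜.u_lo x _ hv
        rw [← hDA] at h1
        exact h1
      u_hi := fun x v hv => by
        rw [as2_mem] at hv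
        have h1 := 𝒜.u_hi x _ hv
        rw [← hDA] at h1
        exact h1 }
  have hBT : ∀ x y (v : EuclideanSpace ℝ (Fin d)), F.D id x y v = F.T x y (F.T' y y v) := by
    intro x y v
    have : F.D id x y v = F.T x y (mfderiv (𝓡 d) (𝓡 d) (id : M → M) y (F.T' y y v)) := rfl
    rw [this, mfderiv_id]
    rfl
  let T : Trans H :=
    { B := fun x y => F.D id x y
      ρ := min ρ ρ2
      hρ := lt_min hρ hρ2
      κ := κ
      hκ := hκ
      B_le := fun x y v hxy => hB x y ((hxy.trans (min_le_left _ _)).trans hρr) v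
      chg := fun η hη => by
        obtain ⟨δ, hδ, h⟩ := F.c1 id contMDiff_id η hη
        exact ⟨δ, hδ, fun x y z z' hxy hz hz' => h x y z z' hxy hz hz'⟩
      tr := fun x y hxy v hv w hw => by
        have hv' := (as2_mem F x (𝒜.Es x) v).1 hv
        have hw' := (as2_mem F y (𝒜.Eu y) w).1 hw
        have h1 := htr x y (hxy.trans (min_le_left _ _)) _ hv' _ hw'
        rw [as2_TT', as2_TT', ← hBT] at h1
        exact h1
      dim := fun x y hxy => by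
        have h1 := hdim x y (hxy.trans (min_le_right _ _))
        rw [finrank_euclideanSpace_fin]
        exact h1 }
  exact ⟨H, T, fun _ => rfl, fun _ _ => rfl, fun x v => as2_A_apply F 𝒜.f 𝒜.g 𝒜.hf 𝒜.hg 𝒜.gf x v,
    fun _ => rfl⟩

end Pool.Agent.ANC
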