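import Mathlib
import Pool.Agent.ANO.C1E

open Set Metric Function
open scoped Manifold ContDiff

namespace Pool.Agent.ANC

open Pool.Agent.ANO (Fam)

variable {d : ℕ} {M : Type} [MetricSpace M] [ChartedSpace (EuclideanSpace ℝ (Fin d)) M]
  [IsManifold (𝓡 d) ∞ M]

private theorem c2e_hasFDerivAt (h : M → M) (a b y : M)
    (hb : y ∈ (chartAt (EuclideanSpace ℝ (Fin d)) b).source)
    (ha : h y ∈ (chartAt (EuclideanSpace ℝ (Fin d)) a).source)
    (hd : MDifferentiableAt (𝓡 d) (𝓡 d) h y) :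
    HasFDerivAt (extChartAt (𝓡 d) a ∘ h ∘ (extChartAt (𝓡 d) b).symm)
      (((trivializationAt (EuclideanSpace ℝ (Fin d)) (TangentSpace (𝓡 d) : M → Type)
          a).continuousLinearMapAt ℝ (h y)).comp ((mfderiv (𝓡 d) (𝓡 d) h y).comp
        ((trivializationAt (EuclideanSpace ℝ (Fin d)) (TangentSpace (𝓡 d) : M → Type)
          b).symmL ℝ y))) (extChartAt (𝓡 d) b y) := by
  have : IsManifold (𝓡 d) 1 M := IsManifold.of_le (n := ∞) (by exact_mod_cast le_top)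
  have hsy : (extChartAt (𝓡 d) b).symm (extChartAt (𝓡 d) b y) = y :=
    (extChartAt (𝓡 d) b).left_inv (by rw [extChartAt_source]; exact hb)
  have h1 : HasMFDerivAt (𝓘(ℝ, EuclideanSpace ℝ (Fin d))) (𝓡 d) (extChartAt (𝓡 d) b).symm
      (extChartAt (𝓡 d) b y)
      ((trivializationAt (EuclideanSpace ℝ (Fin d)) (TangentSpace (𝓡 d) : M → Type)
          b).symmL ℝ y) := by
    rw [TangentBundle.symmL_trivializationAt hb, ModelWithCorners.range_eq_univ,
      mfderivWithin_univ]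
    have h2 := mdifferentiableWithinAt_extChartAt_symm (I := 𝓡 d) (x := b)
      (z := extChartAt (𝓡 d) b y)
      ((extChartAt (𝓡 d) b).map_source (by rw [extChartAt_source]; exact hb))
    rw [ModelWithCorners.range_eq_univ, mdifferentiableWithinAt_univ] at h2
    exact h2.hasMFDerivAt
  have h3 : HasMFDerivAt (𝓡 d) (𝓘(ℝ, EuclideanSpace ℝ (Fin d))) (extChartAt (𝓡 d) a) (h y)
      ((trivializationAt (EuclideanSpace ℝ (Fin d)) (TangentSpace (𝓡 d) : M → Type)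
          a).continuousLinearMapAt ℝ (h y)) := by
    rw [TangentBundle.continuousLinearMapAt_trivializationAt ha]
    exact (mdifferentiableAt_extChartAt ha).hasMFDerivAt
  have h4 := h3.comp y hd.hasMFDerivAt
  have h5 : HasMFDerivAt (𝓡 d) (𝓘(ℝ, EuclideanSpace ℝ (Fin d))) (extChartAt (𝓡 d) a ∘ h)
      ((extChartAt (𝓡 d) b).symm (extChartAt (𝓡 d) b y))
      (((trivializationAt (EuclideanSpace ℝ (Fin d)) (TangentSpace (𝓡 d) : M → Type)
          a).continuousLinearMapAt ℝ (h y)).comp (mfderiv (𝓡 d) (𝓡 d) h y)) := by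
    rw [hsy]
    exact h4
  have h6 := h5.comp (extChartAt (𝓡 d) b y) h1
  exact h6.hasFDerivAt

/-- second order estimate for a `C^2` map between normed spaces -/
private theorem c2e_taylor {E G : Type*} [NormedAddCommGroup E] [NormedSpace ℝ E]
    [NormedAddCommGroup G] [NormedSpace ℝ G] {H : E → G} {p₀ : E} (hcd : ContDiffAt ℝ 2 H p₀) :
    ∃ K : ℝ, 0 < K ∧ ∃ s > 0, ∀ p ∈ ball p₀ s, ∀ q ∈ ball p₀ s, ∀ q' ∈ ball p₀ s,
      ‖H q - H q' - fderiv ℝ H p (q - q')‖ ≤ K * (‖q - p‖ + ‖q' - p‖) * ‖q - q'‖ := by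
  have h1 : ContDiffAt ℝ 1 (fderiv ℝ H) p₀ := hcd.fderiv_right (by norm_num)
  obtain ⟨K, t, ht, hK⟩ := h1.exists_lipschitzOnWith
  have h2 : ∀ᶠ p in nhds p₀, ContDiffAt ℝ 2 H p := hcd.eventually (by decide)
  obtain ⟨s, hs, hst⟩ := Metric.mem_nhds_iff.1 (Filter.inter_mem ht h2)
  refine ⟨K + 1, by positivity, s, hs, fun p hp q hq q' hq' => ?_⟩
  have hseg : segment ℝ q' q ⊆ ball p₀ s := (convex_ball p₀ s).segment_subset hq' hq
  have hb : ∀ x ∈ segment ℝ q' q, ‖fderiv ℝ H x - fderiv ℝ H p‖ ≤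
      (K + 1) * (‖q - p‖ + ‖q' - p‖) := by
    intro x hx
    have h3 := hK.dist_le_mul x (hst (hseg hx)).1 p (hst hp).1
    rw [dist_eq_norm, dist_eq_norm] at h3
    have h4 : ‖x - p‖ ≤ ‖q - p‖ + ‖q' - p‖ := by
      obtain ⟨a, b, ha, hb, hab, rfl⟩ := hx
      have e : a • q' + b • q - p = a • (q' - p) + b • (q - p) := by
        have : p = a • p + b • p := by rw [← add_smul, hab, one_smul]
        nth_rewrite 1 [this]
        rw [smul_sub, smul_sub]
        abel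
      rw [e]
      calc ‖a • (q' - p) + b • (q - p)‖ ≤ ‖a • (q' - p)‖ + ‖b • (q - p)‖ := norm_add_le _ _
        _ = a * ‖q' - p‖ + b * ‖q - p‖ := by
            rw [norm_smul, norm_smul, Real.norm_of_nonneg ha, Real.norm_of_nonneg hb]
        _ ≤ 1 * ‖q' - p‖ + 1 * ‖q - p‖ := by
            refine add_le_add (mul_le_mul_of_nonneg_right (by linarith) (norm_nonneg _))
              (mul_le_mul_of_nonneg_right (by linarith) (norm_nonneg _))
        _ = ‖q - p‖ + ‖q' - p‖ := by ring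
    calc ‖fderiv ℝ H x - fderiv ℝ H p‖ ≤ K * ‖x - p‖ := h3
      _ ≤ (K + 1) * ‖x - p‖ := mul_le_mul_of_nonneg_right (by linarith) (norm_nonneg _)
      _ ≤ (K + 1) * (‖q - p‖ + ‖q' - p‖) := mul_le_mul_of_nonneg_left h4 (by positivity)
  have hd : ∀ x ∈ segment ℝ q' q, HasFDerivWithinAt H (fderiv ℝ H x) (segment ℝ q' q) x := by
    intro x hx
    have h5 : ContDiffAt ℝ 2 H x := (hst (hseg hx)).2
    exact (h5.differentiableAt (by norm_num)).hasFDerivAt.hasFDerivWithinAt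
  exact (convex_segment q' q).norm_image_sub_le_of_norm_hasFDerivWithin_le' hd hb
    (left_mem_segment ℝ q' q) (right_mem_segment ℝ q' q)

private theorem c2e_local (h : M → M) (hh : ContMDiff (𝓡 d) (𝓡 d) 2 h)
    (a b y₀ : M) (hb : y₀ ∈ (chartAt (EuclideanSpace ℝ (Fin d)) b).source)
    (ha : h y₀ ∈ (chartAt (EuclideanSpace ℝ (Fin d)) a).source) :
    ∃ K : ℝ, 0 < K ∧ ∃ U ∈ nhds y₀, ∀ y ∈ U, ∀ z ∈ U, ∀ z' ∈ U,
      ‖extChartAt (𝓡 d) a (h z) - extChartAt (𝓡 d) a (h z') -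
        (((trivializationAt (EuclideanSpace ℝ (Fin d)) (TangentSpace (𝓡 d) : M → Type)
          a).continuousLinearMapAt ℝ (h y)).comp ((mfderiv (𝓡 d) (𝓡 d) h y).comp
        ((trivializationAt (EuclideanSpace ℝ (Fin d)) (TangentSpace (𝓡 d) : M → Type)
          b).symmL ℝ y)) : EuclideanSpace ℝ (Fin d) →L[ℝ] EuclideanSpace ℝ (Fin d))
          (extChartAt (𝓡 d) b z - extChartAt (𝓡 d) b z')‖ ≤
        K * (‖extChartAt (𝓡 d) b z - extChartAt (𝓡 d) b y‖ +
          ‖extChartAt (𝓡 d) b z' - extChartAt (𝓡 d) b y‖) *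
          ‖extChartAt (𝓡 d) b z - extChartAt (𝓡 d) b z'‖ := by
  have : IsManifold (𝓡 d) 2 M := IsManifold.of_le (n := ∞) ENat.LEInfty.out
  set H : EuclideanSpace ℝ (Fin d) → EuclideanSpace ℝ (Fin d) :=
    extChartAt (𝓡 d) a ∘ h ∘ (extChartAt (𝓡 d) b).symm with hH
  have hcd : ContDiffAt ℝ 2 H (extChartAt (𝓡 d) b y₀) := by
    have h1 := ((contMDiffAt_iff_of_mem_source (x := b) (y := a) hb ha).1 (hh y₀)).2
    rw [ModelWithCorners.range_eq_univ, contDiffWithinAt_univ] at h1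
    exact h1
  obtain ⟨K, hK, s, hs, h9⟩ := c2e_taylor hcd
  have hφ : ContinuousAt (extChartAt (𝓡 d) b) y₀ :=
    continuousAt_extChartAt' (by rw [extChartAt_source]; exact hb)
  have e1 : ∀ᶠ y in nhds y₀, extChartAt (𝓡 d) b y ∈ ball (extChartAt (𝓡 d) b y₀) s :=
    hφ (ball_mem_nhds _ hs)
  have e3 : ∀ᶠ y in nhds y₀, y ∈ (chartAt (EuclideanSpace ℝ (Fin d)) b).source :=
    (chartAt (EuclideanSpace ℝ (Fin d)) b).open_source.mem_nhds hb
  have e4 : ∀ᶠ y in nhds y₀, h y ∈ (chartAt (EuclideanSpace ℝ (Fin d)) a).source :=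
    hh.continuous.continuousAt ((chartAt (EuclideanSpace ℝ (Fin d)) a).open_source.mem_nhds ha)
  refine ⟨K, hK, {y | extChartAt (𝓡 d) b y ∈ ball (extChartAt (𝓡 d) b y₀) s ∧
      y ∈ (chartAt (EuclideanSpace ℝ (Fin d)) b).source ∧
      h y ∈ (chartAt (EuclideanSpace ℝ (Fin d)) a).source}, e1.and (e3.and e4), ?_⟩
  intro y hy z hz z' hz'
  have hd := (c2e_hasFDerivAt h a b y hy.2.1 hy.2.2
    ((hh y).mdifferentiableAt (by norm_num))).fderiv
  rw [← hd]
  have hHz : ∀ w, w ∈ (chartAt (EuclideanSpace ℝ (Fin d)) b).source →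
      H (extChartAt (𝓡 d) b w) = extChartAt (𝓡 d) a (h w) := by
    intro w hw
    rw [hH]
    simp only [Function.comp]
    rw [(extChartAt (𝓡 d) b).left_inv (by rw [extChartAt_source]; exact hw)]
  have h10 := h9 _ hy.1 _ hz.1 _ hz'.1
  rw [hHz z hz.2.1, hHz z' hz'.2.1] at h10
  exact h10

/-- Second order estimate for a `C^2` map in the family of charts. -/
theorem c2 [CompactSpace M] (F : Fam d M) (h : M → M) (hh : ContMDiff (𝓡 d) (𝓡 d) 2 h) :
    ∃ K > 0, ∃ ρ > 0, ∀ y z z', dist y z ≤ ρ → dist y z' ≤ ρ →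
      ‖F.co (h y) (h z) - F.co (h y) (h z') - F.D h (h y) y (F.co y z - F.co y z')‖ ≤
        K * (dist y z + dist y z') * ‖F.co y z - F.co y z'‖ := by
  classical
  have hC := F.hC
  have hr := F.hr
  have hloc : ∀ y₀ : M, ∃ K : ℝ, 0 < K ∧ ∃ U ∈ nhds y₀, ∀ y ∈ U, ∀ z ∈ U, ∀ z' ∈ U,
      ‖F.co (h y) (h z) - F.co (h y) (h z') - F.D h (h y) y (F.co y z - F.co y z')‖ ≤
        K * (dist y z + dist y z') * ‖F.co y z - F.co y z'‖ := by
    intro y₀
    have h1 : ∀ p : M × M, ∃ K : ℝ, 0 < K ∧ ∃ U ∈ nhds y₀,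
        y₀ ∈ (chartAt (EuclideanSpace ℝ (Fin d)) p.2).source →
        h y₀ ∈ (chartAt (EuclideanSpace ℝ (Fin d)) p.1).source →
        ∀ y ∈ U, ∀ z ∈ U, ∀ z' ∈ U,
      ‖extChartAt (𝓡 d) p.1 (h z) - extChartAt (𝓡 d) p.1 (h z') -
        (((trivializationAt (EuclideanSpace ℝ (Fin d)) (TangentSpace (𝓡 d) : M → Type)
          p.1).continuousLinearMapAt ℝ (h y)).comp ((mfderiv (𝓡 d) (𝓡 d) h y).comp
        ((trivializationAt (EuclideanSpace ℝ (Fin d)) (TangentSpace (𝓡 d) : M → Type)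
          p.2).symmL ℝ y)) : EuclideanSpace ℝ (Fin d) →L[ℝ] EuclideanSpace ℝ (Fin d))
          (extChartAt (𝓡 d) p.2 z - extChartAt (𝓡 d) p.2 z')‖ ≤
        K * (‖extChartAt (𝓡 d) p.2 z - extChartAt (𝓡 d) p.2 y‖ +
          ‖extChartAt (𝓡 d) p.2 z' - extChartAt (𝓡 d) p.2 y‖) *
          ‖extChartAt (𝓡 d) p.2 z - extChartAt (𝓡 d) p.2 z'‖ := by
      intro p
      by_cases hp : y₀ ∈ (chartAt (EuclideanSpace ℝ (Fin d)) p.2).source ∧
        h y₀ ∈ (chartAt (EuclideanSpace ℝ (Fin d)) p.1).source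
      · obtain ⟨K, hK, U, hU, h2⟩ := c2e_local h hh p.1 p.2 y₀ hp.1 hp.2
        exact ⟨K, hK, U, hU, fun _ _ => h2⟩
      · exact ⟨1, one_pos, univ, Filter.univ_mem, fun h3 h4 => absurd ⟨h3, h4⟩ hp⟩
    choose K hK U hU h2 using h1
    have hfin : (range F.i ×ˢ range F.i).Finite := F.fin.prod F.fin
    obtain ⟨K1, hK1⟩ := (hfin.image K).bddAbove
    have hmem : (⋂ p ∈ range F.i ×ˢ range F.i, U p) ∈ nhds y₀ :=
      (Filter.biInter_mem hfin).2 (fun p _ => hU p)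
    have hb1 : {y | dist y y₀ ≤ F.r / 2} ∈ nhds y₀ :=
      Metric.closedBall_mem_nhds y₀ (by linarith)
    have hb2 : {y | dist (h y) (h y₀) ≤ F.r} ∈ nhds y₀ :=
      hh.continuous.continuousAt (Metric.closedBall_mem_nhds (h y₀) F.hr)
    refine ⟨max K1 1 * F.C, by positivity, (⋂ p ∈ range F.i ×ˢ range F.i, U p) ∩
      ({y | dist y y₀ ≤ F.r / 2} ∩ {y | dist (h y) (h y₀) ≤ F.r}),
      Filter.inter_mem hmem (Filter.inter_mem hb1 hb2), ?_⟩
    intro y hy z hz z' hz'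
    have hs1 : y₀ ∈ (chartAt (EuclideanSpace ℝ (Fin d)) (F.i y)).source := by
      refine F.src y y₀ ?_
      have := hy.2.1
      simp only [mem_ofPred_eq] at this
      linarith
    have hs2 : h y₀ ∈ (chartAt (EuclideanSpace ℝ (Fin d)) (F.i (h y))).source := by
      refine F.src (h y) (h y₀) ?_
      have := hy.2.2
      simp only [mem_ofPred_eq] at this
      linarith
    have hpm : (F.i (h y), F.i y) ∈ range F.i ×ˢ range F.i := ⟨mem_range_self _, mem_range_self _⟩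
    have h3 := h2 (F.i (h y), F.i y) hs1 hs2 y (mem_iInter₂.1 hy.1 _ hpm) z
      (mem_iInter₂.1 hz.1 _ hpm) z' (mem_iInter₂.1 hz'.1 _ hpm)
    have h4 : F.co (h y) (h z) - F.co (h y) (h z') =
        extChartAt (𝓡 d) (F.i (h y)) (h z) - extChartAt (𝓡 d) (F.i (h y)) (h z') := by
      unfold Fam.co; abel
    have h5 : F.co y z - F.co y z' =
        extChartAt (𝓡 d) (F.i y) z - extChartAt (𝓡 d) (F.i y) z' := by
      unfold Fam.co; abel
    have hd : ∀ w, w ∈ {y | dist y y₀ ≤ F.r / 2} → dist y w ≤ 2 * F.r := by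
      intro w hw
      have h6 : dist w y₀ ≤ F.r / 2 := hw
      have h7 : dist y y₀ ≤ F.r / 2 := hy.2.1
      have h8 := dist_triangle_right y w y₀
      linarith
    have h6 : ∀ w, w ∈ {y | dist y y₀ ≤ F.r / 2} →
        ‖extChartAt (𝓡 d) (F.i y) w - extChartAt (𝓡 d) (F.i y) y‖ ≤ F.C * dist y w := by
      intro w hw
      have h7 := F.le1 y w y (hd w hw) (by rw [dist_self]; linarith)
      rwa [dist_comm w y] at h7
    rw [h4, h5]
    have hKp : K (F.i (h y), F.i y) ≤ max K1 1 :=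
      (hK1 (mem_image_of_mem K hpm)).trans (le_max_left _ _)
    refine h3.trans ?_
    refine mul_le_mul_of_nonneg_right ?_ (norm_nonneg _)
    have h7 := h6 z hz.2.1
    have h8 := h6 z' hz'.2.1
    have h9 : 0 ≤ ‖extChartAt (𝓡 d) (F.i y) z - extChartAt (𝓡 d) (F.i y) y‖ +
          ‖extChartAt (𝓡 d) (F.i y) z' - extChartAt (𝓡 d) (F.i y) y‖ := by positivity
    calc _ ≤ max K1 1 * (‖extChartAt (𝓡 d) (F.i y) z - extChartAt (𝓡 d) (F.i y) y‖ +
          ‖extChartAt (𝓡 d) (F.i y) z' - extChartAt (𝓡 d) (F.i y) y‖) :=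
          mul_le_mul_of_nonneg_right hKp h9
      _ ≤ max K1 1 * (F.C * dist y z + F.C * dist y z') :=
          mul_le_mul_of_nonneg_left (add_le_add h7 h8) (by positivity)
      _ = max K1 1 * F.C * (dist y z + dist y z') := by ring
  choose K hK U hU h1 using hloc
  obtain ⟨t, ht⟩ := isCompact_univ.elim_finite_subcover (fun y₀ => interior (U y₀))
    (fun _ => isOpen_interior)
    (fun y _ => mem_iUnion.2 ⟨y, mem_interior_iff_mem_nhds.2 (hU y)⟩)
  obtain ⟨K1, hK1⟩ := ((t : Set M).toFinite.image K).bddAbove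
  obtain ⟨δ, hδ, h2⟩ := lebesgue_number_lemma_of_metric (s := (univ : Set M))
    (c := fun y₀ : t => interior (U y₀)) isCompact_univ (fun _ => isOpen_interior)
    (fun y hy => by
      obtain ⟨y₀, hy₀⟩ := mem_iUnion.1 (ht hy)
      obtain ⟨h3, h4⟩ := mem_iUnion.1 hy₀
      exact mem_iUnion.2 ⟨⟨y₀, h3⟩, h4⟩)
  refine ⟨max K1 1, by positivity, δ / 2, by linarith, ?_⟩
  intro y z z' hz hz'
  obtain ⟨⟨y₀, hy₀⟩, h3⟩ := h2 y (mem_univ y)
  have h4 : ∀ w, dist y w ≤ δ / 2 → w ∈ U y₀ := by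
    intro w hw
    refine interior_subset (h3 ?_)
    rw [mem_ball, dist_comm]
    linarith
  refine (h1 y₀ y (h4 y (by rw [dist_self]; linarith)) z (h4 z hz) z' (h4 z' hz')).trans ?_
  refine mul_le_mul_of_nonneg_right ?_ (norm_nonneg _)
  refine mul_le_mul_of_nonneg_right ?_ (by positivity)
  exact (hK1 (mem_image_of_mem K (by exact_mod_cast hy₀))).trans (le_max_left _ _)

end Pool.Agent.ANC
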