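import Mathlib
import Pool.Agent.ANC.PCK

/-! MEX: expansivity in the metric.  P pack for ε.  If the two orbits are closer than ε' let z_j := B (f^j y) (f^j y'), j ∈ ℤ
(do it for j ≥ 0 and for j ≤ 0 separately).  By P.modulus (B (f^j y) (f^j y') is close to B (f^j y)(f^j y) = f^j y) and S_cmp, U_cmp
the sizes S (f^j y) z_j, U (f^j y') z_j are ≤ ε'' with e^b ε'' ≤ ε, e^e ε'' ≤ ε, so f z_j = z_{j+1} and f^-1 z_j = z_{j-1} by P.uniq.
Then U (f^j y') (f^j z_0) ε for all j ≥ 0 gives U y' z_0 (e^{-cj} ε), so y' = z_0; S (f^-j y) (f^-j z_0) ε gives y = z_0. -/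

open Set Metric Function

namespace Pool.Agent.ANC

private theorem mex_fwd {M : Type} [MetricSpace M] {D : Sys M} {ε δ : ℝ} {B : M → M → M}
    (P : SecPack D ε δ B) {ε₁ ε₂ : ℝ}
    (hcl : ∀ x y, dist x y ≤ ε₁ → dist x y < δ ∧ D.S x (B x y) ε₂ ∧ D.U y (B x y) ε₂)
    (he : Real.exp D.e * ε₂ ≤ ε) (h2 : ε₂ ≤ ε) (h20 : 0 ≤ ε₂) {x y : M}
    (h : ∀ j : ℕ, dist (D.f^[j] x) (D.f^[j] y) ≤ ε₁) : y = B x y := by
  have hz : ∀ j : ℕ, B (D.f^[j] x) (D.f^[j] y) = D.f^[j] (B x y) := by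
    intro j
    induction j with
    | zero => rfl
    | succ j ih =>
      obtain ⟨-, e2, e3⟩ := hcl _ _ (h j)
      obtain ⟨e4, -, -⟩ := hcl _ _ (h (j + 1))
      rw [Function.iterate_succ_apply', Function.iterate_succ_apply'] at e4 ⊢
      rw [Function.iterate_succ_apply', ← ih]
      refine P.uniq e4 ?_ ?_
      · have e5 := D.S_fwd _ _ _ e2
        refine D.S_mono _ _ _ _ ?_ e5
        have e6 : Real.exp (-D.a) ≤ 1 := Real.exp_le_one_iff.2 (by linarith [D.ha])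
        calc Real.exp (-D.a) * ε₂ ≤ 1 * ε₂ := mul_le_mul_of_nonneg_right e6 h20
          _ ≤ ε := by linarith
      · exact D.U_mono _ _ _ _ he (D.U_fwd _ _ _ e3)
  have hU : ∀ j : ℕ, dist y (B x y) ≤ Real.exp (-(D.c * j)) * ε₂ := by
    intro j
    obtain ⟨-, -, e3⟩ := hcl _ _ (h j)
    rw [hz j] at e3
    have e4 := D.U_iter_symm j e3
    rw [symm_iter_iter, symm_iter_iter] at e4
    exact D.U_dist _ _ _ e4
  have hlim : Filter.Tendsto (fun j : ℕ => Real.exp (-(D.c * j)) * ε₂) Filter.atTop (nhds 0) := by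
    have h1 : Filter.Tendsto (fun j : ℕ => D.c * (j : ℝ)) Filter.atTop Filter.atTop :=
      tendsto_natCast_atTop_atTop.const_mul_atTop D.hc
    have h3 : Filter.Tendsto (fun j : ℕ => Real.exp (-(D.c * j))) Filter.atTop (nhds 0) :=
      Real.tendsto_exp_neg_atTop_nhds_zero.comp h1
    simpa using h3.mul_const ε₂
  have h0 : dist y (B x y) ≤ 0 := ge_of_tendsto' hlim hU
  exact dist_le_zero.1 h0

theorem Sys.metric_expansive {M : Type} [MetricSpace M] [CompactSpace M] (D : Sys M) : ∃ ε > 0, ∀ x y,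
    (∀ j : ℕ, dist (D.f^[j] x) (D.f^[j] y) ≤ ε) →
    (∀ j : ℕ, dist (D.f.symm^[j] x) (D.f.symm^[j] y) ≤ ε) → x = y := by
  obtain ⟨ε, δ, B, P⟩ := D.exists_pack
  have hC := D.hC
  have hC0 : 0 < D.C := by linarith
  have hε := P.hε
  have hδ := P.hδ
  have h4 := P.h4
  have hb : 0 ≤ D.b := le_trans D.ha.le D.hab
  have he : 0 ≤ D.e := le_trans D.hc.le D.hce
  set η : ℝ := ε / (2 * D.C * Real.exp (D.b + D.e)) with hη
  have hη0 : 0 < η := by positivity
  have hηε : Real.exp (D.b + D.e) * (2 * D.C * η) = ε := by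
    rw [hη]
    field_simp
  obtain ⟨ρ, hρ, hmod⟩ := P.modulus η hη0
  set ε₁ : ℝ := min (δ / 2) (min (ρ / 2) η) with hε₁
  have hε₁0 : 0 < ε₁ := by positivity
  have l1 : ε₁ ≤ δ / 2 := min_le_left _ _
  have l2 : ε₁ ≤ ρ / 2 := (min_le_right _ _).trans (min_le_left _ _)
  have l3 : ε₁ ≤ η := (min_le_right _ _).trans (min_le_right _ _)
  have hcl : ∀ x y, dist x y ≤ ε₁ →
      dist x y < δ ∧ D.S x (B x y) (2 * D.C * η) ∧ D.U y (B x y) (2 * D.C * η) := by
    intro x y hxy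
    have hxyδ : dist x y < δ := by linarith
    have e1 : dist (B x x) (B x y) < η := by
      refine hmod x x x y (by rw [dist_self]; exact hδ) hxyδ (by rw [dist_self]; exact hρ) ?_
      linarith
    rw [P.self x] at e1
    obtain ⟨e2, e3⟩ := P.close x y hxyδ
    refine ⟨hxyδ, ?_, ?_⟩
    · have e4 := D.S_cmp _ _ (D.S_mono _ _ _ _ (by linarith) e2)
      refine D.S_mono _ _ _ _ ?_ e4
      nlinarith
    · have e4 := D.U_cmp _ _ (D.U_mono _ _ _ _ (by linarith) e3)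
      refine D.U_mono _ _ _ _ ?_ e4
      have e5 := dist_triangle y x (B x y)
      rw [dist_comm y x] at e5
      nlinarith
  have h20 : 0 ≤ 2 * D.C * η := by positivity
  have hexpe : Real.exp D.e ≤ Real.exp (D.b + D.e) := Real.exp_le_exp.2 (by linarith)
  have hexpb : Real.exp D.b ≤ Real.exp (D.b + D.e) := Real.exp_le_exp.2 (by linarith)
  have hexp1 : 1 ≤ Real.exp (D.b + D.e) := Real.one_le_exp (by linarith)
  have k1 : Real.exp D.e * (2 * D.C * η) ≤ ε := by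
    rw [← hηε]
    exact mul_le_mul_of_nonneg_right hexpe h20
  have k2 : Real.exp D.b * (2 * D.C * η) ≤ ε := by
    rw [← hηε]
    exact mul_le_mul_of_nonneg_right hexpb h20
  have k3 : 2 * D.C * η ≤ ε := by
    rw [← hηε]
    nlinarith
  refine ⟨ε₁, hε₁0, fun x y hf hb' => ?_⟩
  have r1 : y = B x y := mex_fwd P hcl k1 k3 h20 hf
  have r2 : x = B x y := by
    refine mex_fwd (D := D.symm) P.symm (ε₁ := ε₁) (ε₂ := 2 * D.C * η) ?_ k2 k3 h20 (x := y)
      (y := x) ?_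
    · intro u w huw
      rw [dist_comm] at huw
      obtain ⟨q1, q2, q3⟩ := hcl w u huw
      exact ⟨by rwa [dist_comm], q3, q2⟩
    · intro j
      have := hb' j
      rw [dist_comm] at this
      exact this
  rw [r2, ← r1]

end Pool.Agent.ANC
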