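import Mathlib
import Pool.Agent.ANC.MEX

/-! CLS: the closing lemma for long returns.  With `G = f^n` the sequence `w 0 = x`,
`w (k+1) = B x (G (w k))` stays on the stable leaf of `x` and `w (k+1)` is on the unstable leaf of `G (w k)`,
at small distances.  A limit point of `G^{-L} (w (2L))` is a point whose orbit stays close to the periodic
pseudo-orbit, so by expansivity it is periodic. -/

open Set Metric Function Topology Filter

namespace Pool.Agent.ANC

private theorem cls_exp_small (a : ℝ) (ha : 0 < a) (t : ℝ) (ht : 0 < t) :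
    ∃ m : ℕ, ∀ n : ℕ, m ≤ n → Real.exp (-(a * n)) < t := by
  have hlim : Tendsto (fun n : ℕ => Real.exp (-(a * n))) atTop (𝓝 0) :=
    Real.tendsto_exp_neg_atTop_nhds_zero.comp
      (Filter.Tendsto.const_mul_atTop ha tendsto_natCast_atTop_atTop)
  obtain ⟨m, hm⟩ := eventually_atTop.mp (hlim.eventually (gt_mem_nhds ht))
  exact ⟨m, fun n hn => hm n hn⟩

private theorem cls_A {M : Type} [MetricSpace M] (D : Sys M) {n : ℕ} {κ : ℝ} (hκ : 0 ≤ κ) (w : ℕ → M)
    (hU : ∀ k, D.U (w (k + 1)) (D.f^[n] (w k)) κ) (hn : Real.exp (-(D.c * n)) < 1 / 2) (i : ℕ) :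
    ∀ k, D.U (D.f.symm^[i * n] (w (k + i))) (w k) κ := by
  induction i with
  | zero =>
    intro k
    simpa using D.U_mono _ _ _ _ hκ (D.U_refl (w k))
  | succ i ih =>
    intro k
    have h1 := D.U_iter_symm n (ih (k + 1))
    have h2 := D.U_iter_symm n (hU k)
    rw [symm_iter_iter] at h2
    have h3 := D.U_tri _ _ _ _ _ h1 h2
    have e1 : D.f.symm^[(i + 1) * n] (w (k + (i + 1)))
        = D.f.symm^[n] (D.f.symm^[i * n] (w (k + 1 + i))) := by
      rw [← Function.iterate_add_apply]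
      congr 1
      · congr 1
        ring
      · congr 1
        ring
    rw [e1]
    refine D.U_mono _ _ _ _ ?_ h3
    nlinarith

private theorem cls_B {M : Type} [MetricSpace M] (D : Sys M) {n : ℕ} {κ ε : ℝ} (hκ : 0 ≤ κ) (hε : 0 ≤ ε)
    (x : M) (w : ℕ → M) (hS : ∀ k, D.S x (w k) ε)
    (hU : ∀ k, D.U (w (k + 1)) (D.f^[n] (w k)) κ) (hn : Real.exp (-(D.c * n)) < 1 / 2)
    (K s : ℕ) (hs : s < K * n) :
    dist (D.f.symm^[s] (w K)) (D.f^[n - s % n] x) ≤ 2 * κ + ε := by
  have hn0 : 0 < n := by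
    rcases Nat.eq_zero_or_pos n with h | h
    · subst h
      simp at hs
    · exact h
  have hl : s % n < n := Nat.mod_lt _ hn0
  have hi : s / n < K := Nat.div_lt_of_lt_mul (by rwa [mul_comm])
  obtain ⟨k, hk⟩ : ∃ k, K = (k + 1) + s / n := ⟨K - 1 - s / n, by omega⟩
  have hsd : s = s % n + (s / n) * n := by
    have := Nat.mod_add_div s n
    rw [mul_comm] at this
    omega
  set i := s / n with hidef
  set l := s % n with hldef
  have h1 := cls_A D hκ w hU hn i (k + 1)
  have h2 := D.U_tri _ _ _ _ _ h1 (hU k)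
  have h3 := D.U_iter_symm l h2
  have e1 : D.f.symm^[l] (D.f^[n] (w k)) = D.f^[n - l] (w k) := by
    have : n = l + (n - l) := by omega
    conv_lhs => rw [this, Function.iterate_add_apply]
    rw [symm_iter_iter]
  have e2 : D.f.symm^[s] (w K) = D.f.symm^[l] (D.f.symm^[i * n] (w (k + 1 + i))) := by
    rw [← Function.iterate_add_apply, ← hsd, hk]
  rw [e1] at h3
  have h4 := D.S_iter (n - l) (hS k)
  have d1 := D.U_dist _ _ _ h3
  have d2 := D.S_dist _ _ _ h4
  have x1 : Real.exp (-(D.c * l)) ≤ 1 := by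
    apply Real.exp_le_one_iff.mpr
    have : 0 ≤ D.c * l := mul_nonneg D.hc.le (Nat.cast_nonneg l)
    linarith
  have x2 : Real.exp (-(D.a * ((n - l : ℕ) : ℝ))) ≤ 1 := by
    apply Real.exp_le_one_iff.mpr
    have : 0 ≤ D.a * ((n - l : ℕ) : ℝ) := mul_nonneg D.ha.le (Nat.cast_nonneg _)
    linarith
  rw [e2]
  have tri := dist_triangle (D.f.symm^[l] (D.f.symm^[i * n] (w (k + 1 + i)))) (D.f^[n - l] (w k))
    (D.f^[n - l] x)
  rw [dist_comm (D.f^[n - l] (w k)) (D.f^[n - l] x)] at tri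
  nlinarith

private theorem cls_C {M : Type} [MetricSpace M] (D : Sys M) {n : ℕ} {κ ε : ℝ} (hκ : 0 ≤ κ) (hε : 0 ≤ ε)
    (x : M) (w : ℕ → M) (hS : ∀ k, D.S x (w k) ε)
    (hU : ∀ k, D.U (w (k + 1)) (D.f^[n] (w k)) κ) (hn : Real.exp (-(D.c * n)) < 1 / 2)
    (K s : ℕ) (hs : s + n < K * n) :
    dist (D.f.symm^[s] (w K)) (D.f.symm^[s + n] (w K)) ≤ 2 * (2 * κ + ε) := by
  have h1 := cls_B D hκ hε x w hS hU hn K s (by omega)
  have h2 := cls_B D hκ hε x w hS hU hn K (s + n) hs
  rw [Nat.add_mod_right] at h2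
  have := dist_triangle_right (D.f.symm^[s] (w K)) (D.f.symm^[s + n] (w K)) (D.f^[n - s % n] x)
  linarith

theorem Sys.closing {M : Type} [MetricSpace M] [CompactSpace M] (D : Sys M) (ε : ℝ) (hε : 0 < ε) :
    ∃ m : ℕ, ∃ δ > 0, ∀ (n : ℕ) (x : M), m ≤ n → dist (D.f^[n] x) x < δ →
      ∃ p, D.f^[n] p = p ∧ dist x p < ε := by
  obtain ⟨εM, hεM, hexp⟩ := D.metric_expansive
  obtain ⟨ε0, δ0, B, P⟩ := D.exists_pack
  have hC : 0 < D.C := lt_of_lt_of_le one_pos D.hC
  have hC1 := D.hC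
  -- constants
  set ε' : ℝ := min (εM / 2) (ε / 2) with hε'def
  have hε' : 0 < ε' := lt_min (by linarith) (by linarith)
  have hε'1 : 2 * ε' ≤ εM := by
    have := min_le_left (εM / 2) (ε / 2)
    linarith
  have hε'2 : ε' ≤ ε / 2 := min_le_right _ _
  set ε1 : ℝ := ε' / 2 with hε1def
  have hε1 : 0 < ε1 := by linarith
  set η : ℝ := ε1 / (4 * D.C) with hηdef
  have hη : 0 < η := by positivity
  have hηC : D.C * η = ε1 / 4 := by
    rw [hηdef]
    field_simp
  obtain ⟨ρ, hρ, hmod⟩ := P.modulus η hη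
  set θ : ℝ := min δ0 ρ with hθdef
  have hθ : 0 < θ := lt_min P.hδ hρ
  have hθ1 : θ ≤ δ0 := min_le_left _ _
  have hθ2 : θ ≤ ρ := min_le_right _ _
  set δ : ℝ := min (θ / 2) η with hδdef
  have hδ : 0 < δ := lt_min (by linarith) hη
  have hδ1 : δ ≤ θ / 2 := min_le_left _ _
  have hδ2 : δ ≤ η := min_le_right _ _
  obtain ⟨m1, hm1⟩ := cls_exp_small D.c D.hc (1 / 2) (by norm_num)
  obtain ⟨m2, hm2⟩ := cls_exp_small D.a D.ha (1 / (2 * D.C)) (by positivity)
  obtain ⟨m3, hm3⟩ := cls_exp_small D.a D.ha (θ / (2 * ε1)) (by positivity)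
  refine ⟨max (max m1 m2) (max m3 1), δ, hδ, fun n x hn hx => ?_⟩
  have hn1 : m1 ≤ n := le_trans (le_trans (le_max_left _ _) (le_max_left _ _)) hn
  have hn2 : m2 ≤ n := le_trans (le_trans (le_max_right _ _) (le_max_left _ _)) hn
  have hn3 : m3 ≤ n := le_trans (le_trans (le_max_left _ _) (le_max_right _ _)) hn
  have hn4 : 1 ≤ n := le_trans (le_trans (le_max_right _ _) (le_max_right _ _)) hn
  have hx1 := hm1 n hn1
  have hx2 : D.C * Real.exp (-(D.a * n)) ≤ 1 / 2 := by
    have h := (hm2 n hn2).le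
    rw [le_div_iff₀ (by positivity)] at h
    linarith
  have hx3 : Real.exp (-(D.a * n)) * ε1 < θ / 2 := by
    have h := hm3 n hn3
    rw [lt_div_iff₀ (by positivity)] at h
    linarith
  -- the sequence
  let w : ℕ → M := fun k => Nat.rec x (fun _ y => B x (D.f^[n] y)) k
  have hw0 : w 0 = x := rfl
  have hws : ∀ k, w (k + 1) = B x (D.f^[n] (w k)) := fun k => rfl
  have step : ∀ y, D.S x y ε1 → D.S x (B x (D.f^[n] y)) ε1 ∧
      D.U (B x (D.f^[n] y)) (D.f^[n] y) (D.C * η) := by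
    intro y hy
    have h1 := D.S_dist _ _ _ (D.S_iter n hy)
    have h2 : dist x (D.f^[n] y) < θ / 2 + θ / 2 := by
      have := dist_triangle x (D.f^[n] x) (D.f^[n] y)
      rw [dist_comm x (D.f^[n] x)] at this
      linarith
    rw [add_halves] at h2
    have hd0 : dist x (D.f^[n] y) < δ0 := lt_of_lt_of_le h2 hθ1
    have hdρ : dist x (D.f^[n] y) < ρ := lt_of_lt_of_le h2 hθ2
    have h3 := hmod x (D.f^[n] y) (D.f^[n] y) (D.f^[n] y) hd0 (by rw [dist_self]; exact P.hδ) hdρ
      (by rw [dist_self]; exact hρ)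
    rw [P.self] at h3
    obtain ⟨h4, h5⟩ := P.close _ _ hd0
    have hr : ε0 ≤ D.r := by linarith [P.h4, P.hε]
    have h6 := D.U_cmp _ _ (D.U_mono _ _ _ _ hr (D.U_symm _ _ _ h5))
    have h7 := D.S_cmp _ _ (D.S_mono _ _ _ _ hr h4)
    constructor
    · refine D.S_mono _ _ _ _ ?_ h7
      have h8 : dist x (B x (D.f^[n] y)) ≤ δ + Real.exp (-(D.a * n)) * ε1 + η := by
        have t1 := dist_triangle x (D.f^[n] x) (B x (D.f^[n] y))
        have t2 := dist_triangle (D.f^[n] x) (D.f^[n] y) (B x (D.f^[n] y))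
        rw [dist_comm x (D.f^[n] x)] at t1
        rw [dist_comm (D.f^[n] y) (B x (D.f^[n] y))] at t2
        linarith
      have h9 : D.C * dist x (B x (D.f^[n] y)) ≤ D.C * (δ + Real.exp (-(D.a * n)) * ε1 + η) :=
        mul_le_mul_of_nonneg_left h8 hC.le
      have h10 : D.C * (Real.exp (-(D.a * n)) * ε1) ≤ 1 / 2 * ε1 := by
        rw [← mul_assoc]
        exact mul_le_mul_of_nonneg_right hx2 hε1.le
      have h11 : D.C * δ ≤ D.C * η := mul_le_mul_of_nonneg_left hδ2 hC.le
      nlinarith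
    · exact D.U_mono _ _ _ _ (mul_le_mul_of_nonneg_left h3.le hC.le) h6
  have hS : ∀ k, D.S x (w k) ε1 := by
    intro k
    induction k with
    | zero => exact D.S_mono _ _ _ _ hε1.le (D.S_refl x)
    | succ k ih =>
      rw [hws]
      exact (step _ ih).1
  have hU : ∀ k, D.U (w (k + 1)) (D.f^[n] (w k)) (D.C * η) := by
    intro k
    rw [hws]
    exact (step _ (hS k)).2
  have hκ : 0 ≤ D.C * η := by positivity
  have hC2 : ∀ K s, s + n < K * n →
      dist (D.f.symm^[s] (w K)) (D.f.symm^[s + n] (w K)) ≤ εM := by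
    intro K s hs
    have := cls_C D hκ hε1.le x w hS hU hx1 K s hs
    rw [hηC] at this
    linarith
  -- the limit point
  obtain ⟨p, φ, hφ, hp⟩ := CompactSpace.tendsto_subseq
    (fun L : ℕ => D.f.symm^[L * n] (w (2 * L)))
  have hcf : ∀ j : ℕ, Continuous (D.f^[j]) := fun j => D.f.continuous.iterate j
  have hcs : ∀ j : ℕ, Continuous (D.f.symm^[j]) := fun j => D.f.symm.continuous.iterate j
  have hφ1 : ∀ j : ℕ, ∀ᶠ L in atTop, j ≤ φ L := fun j => hφ.tendsto_atTop.eventually_ge_atTop j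
  have hfs : ∀ (a b : ℕ) (y : M), b ≤ a → D.f^[b] (D.f.symm^[a] y) = D.f.symm^[a - b] y := by
    intro a b y hab
    have : a = b + (a - b) := by omega
    conv_lhs => rw [this, Function.iterate_add_apply]
    rw [iter_symm_iter]
  refine ⟨p, ?_, ?_⟩
  · symm
    apply hexp
    · intro j
      have t1 : Tendsto (fun L => D.f^[j] (D.f.symm^[φ L * n] (w (2 * φ L)))) atTop
          (𝓝 (D.f^[j] p)) := ((hcf j).tendsto p).comp hp
      have t2 : Tendsto (fun L => D.f^[j] (D.f^[n] (D.f.symm^[φ L * n] (w (2 * φ L))))) atTop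
          (𝓝 (D.f^[j] (D.f^[n] p))) := (((hcf j).comp (hcf n)).tendsto p).comp hp
      refine le_of_tendsto (t1.dist t2) ?_
      filter_upwards [hφ1 (j + 2)] with L hL
      have hLn : (j + 2) * n ≤ φ L * n := Nat.mul_le_mul_right n hL
      have hjn : j ≤ j * n := Nat.le_mul_of_pos_right j hn4
      have e0 : (j + 2) * n = j * n + 2 * n := by ring
      have e00 : 2 * φ L * n = φ L * n + φ L * n := by ring
      have e1 : D.f^[j] (D.f.symm^[φ L * n] (w (2 * φ L)))
          = D.f.symm^[(φ L * n - j - n) + n] (w (2 * φ L)) := by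
        rw [hfs _ _ _ (by omega)]
        congr 1
        omega
      have e2 : D.f^[j] (D.f^[n] (D.f.symm^[φ L * n] (w (2 * φ L))))
          = D.f.symm^[φ L * n - j - n] (w (2 * φ L)) := by
        rw [hfs _ _ _ (by omega), hfs _ _ _ (by omega)]
        congr 1
        omega
      rw [e1, e2, dist_comm]
      exact hC2 _ _ (by rw [e00]; omega)
    · intro j
      have t1 : Tendsto (fun L => D.f.symm^[j] (D.f.symm^[φ L * n] (w (2 * φ L)))) atTop
          (𝓝 (D.f.symm^[j] p)) := ((hcs j).tendsto p).comp hp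
      have t2 : Tendsto (fun L => D.f.symm^[j] (D.f^[n] (D.f.symm^[φ L * n] (w (2 * φ L))))) atTop
          (𝓝 (D.f.symm^[j] (D.f^[n] p))) := (((hcs j).comp (hcf n)).tendsto p).comp hp
      refine le_of_tendsto (t1.dist t2) ?_
      filter_upwards [hφ1 (j + 2)] with L hL
      have hLn : (j + 2) * n ≤ φ L * n := Nat.mul_le_mul_right n hL
      have hjn : j ≤ j * n := Nat.le_mul_of_pos_right j hn4
      have e0 : (j + 2) * n = j * n + 2 * n := by ring
      have e00 : 2 * φ L * n = φ L * n + φ L * n := by ring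
      have e1 : D.f.symm^[j] (D.f.symm^[φ L * n] (w (2 * φ L)))
          = D.f.symm^[(j + φ L * n - n) + n] (w (2 * φ L)) := by
        rw [← Function.iterate_add_apply]
        congr 1
        omega
      have e2 : D.f.symm^[j] (D.f^[n] (D.f.symm^[φ L * n] (w (2 * φ L))))
          = D.f.symm^[j + φ L * n - n] (w (2 * φ L)) := by
        rw [hfs _ _ _ (by omega), ← Function.iterate_add_apply]
        congr 1
        omega
      rw [e1, e2, dist_comm]
      exact hC2 _ _ (by rw [e00]; omega)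
  · have t1 : Tendsto (fun L => D.f.symm^[φ L * n] (w (2 * φ L))) atTop (𝓝 p) := hp
    have t2 : Tendsto (fun L => dist (D.f.symm^[φ L * n] (w (2 * φ L))) (D.f^[n] x)) atTop
        (𝓝 (dist p (D.f^[n] x))) := t1.dist tendsto_const_nhds
    have h1 : dist p (D.f^[n] x) ≤ ε' := by
      refine le_of_tendsto t2 ?_
      filter_upwards [hφ1 1] with L hL
      have hLn : 1 * n ≤ φ L * n := Nat.mul_le_mul_right n hL
      have e00 : 2 * φ L * n = φ L * n + φ L * n := by ring
      have := cls_B D hκ hε1.le x w hS hU hx1 (2 * φ L) (φ L * n) (by rw [e00]; omega)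
      rw [Nat.mul_mod_left, Nat.sub_zero, hηC] at this
      linarith
    have h2 := dist_triangle x (D.f^[n] x) p
    rw [dist_comm x (D.f^[n] x), dist_comm (D.f^[n] x) p] at h2
    have h3 : δ ≤ D.C * η := by nlinarith
    rw [hηC] at h3
    linarith

end Pool.Agent.ANC
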