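import Mathlib
import Pool.Agent.ANC.PHX

open Set Metric Function Topology

namespace Pool.Agent.ANC

variable {M : Type} [MetricSpace M] {E : Type} [NormedAddCommGroup E] [NormedSpace ℝ E]

theorem IsPhi.continuous {D : Sys M} {Λ : Leaves M D E} {x : M} {Φ : Λ.Es x → Λ.Eu x → M}
    (hΦ : IsPhi D Λ x Φ) : Continuous (fun p : Λ.Es x × Λ.Eu x => Φ p.1 p.2) := by
  rw [Metric.continuous_iff]
  rintro ⟨v0, w0⟩ ε hε
  set R : ℝ := max ‖v0‖ ‖w0‖ + 1 with hR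
  obtain ⟨ρ1, hρ1, h1⟩ := (hΦ.2.2 R).1 (ε / 3) (by positivity)
  obtain ⟨ρ2, hρ2, h2⟩ := (hΦ.2.2 R).2 (ε / 3) (by positivity)
  refine ⟨min 1 (min ρ1 ρ2), by positivity, ?_⟩
  rintro ⟨v, w⟩ hd
  have hm1 := le_max_left ‖v0‖ ‖w0‖
  have hm2 := le_max_right ‖v0‖ ‖w0‖
  have hd1 : dist v v0 < min 1 (min ρ1 ρ2) := lt_of_le_of_lt (le_max_left _ _) hd
  have hd2 : dist w w0 < min 1 (min ρ1 ρ2) := lt_of_le_of_lt (le_max_right _ _) hd
  have hv1 : dist v v0 < 1 := hd1.trans_le (min_le_left _ _)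
  have hw1 : dist w w0 < 1 := hd2.trans_le (min_le_left _ _)
  have hv0 : v0 ∈ closedBall (0 : Λ.Es x) R := by
    rw [mem_closedBall_zero_iff]; linarith
  have hw0 : w0 ∈ closedBall (0 : Λ.Eu x) R := by
    rw [mem_closedBall_zero_iff]; linarith
  have hv : v ∈ closedBall (0 : Λ.Es x) R := by
    rw [mem_closedBall_zero_iff]
    have h3 := norm_sub_norm_le v v0
    rw [dist_eq_norm] at hv1
    linarith
  have hw : w ∈ closedBall (0 : Λ.Eu x) R := by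
    rw [mem_closedBall_zero_iff]
    have h3 := norm_sub_norm_le w w0
    rw [dist_eq_norm] at hw1
    linarith
  have e1 := D.S_dist _ _ _ (h1 v hv v0 hv0 w hw
    (hd1.trans_le ((min_le_right _ _).trans (min_le_left _ _))))
  have e2 := D.U_dist _ _ _ (h2 v0 hv0 w hw w0 hw0
    (hd2.trans_le ((min_le_right _ _).trans (min_le_right _ _))))
  have e3 := dist_triangle (Φ v w) (Φ v0 w) (Φ v0 w0)
  show dist (Φ v w) (Φ v0 w0) < ε
  linarith

/-- going down to the base along the first variable -/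
private theorem lin_down {D : Sys M} {Λ : Leaves M D E} {x : M} {Φ : Λ.Es x → Λ.Eu x → M}
    (hΦ : IsPhi D Λ x Φ) {ε : ℝ} (hε : 0 < ε) (hexp : ∀ x y, D.S x y ε → D.U x y ε → x = y)
    {R : ℝ} {v : Λ.Es x} {w1 w2 : Λ.Eu x} (hv : ‖v‖ ≤ R) (hw1 : ‖w1‖ ≤ R) (hw2 : ‖w2‖ ≤ R)
    (hU : ∀ v' ∈ closedBall (0 : Λ.Es x) R, D.U (Φ v' w1) (Φ v' w2) ε)
    (heq : Φ v w1 = Φ v w2) : w1 = w2 := by
  have hR : 0 ≤ R := (norm_nonneg v).trans hv
  obtain ⟨ρ, hρ, h1⟩ := (hΦ.2.2 R).1 (ε / 2) (by positivity)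
  obtain ⟨N, hN⟩ := exists_nat_gt (‖v‖ / ρ)
  have hN0 : (0 : ℝ) < N := lt_of_le_of_lt (by positivity) hN
  have hN' : ‖v‖ / N < ρ := by
    rw [div_lt_iff₀ hρ] at hN
    rw [div_lt_iff₀ hN0]
    linarith
  have hmem : ∀ j : ℕ, j ≤ N → (1 - (j : ℝ) / N) • v ∈ closedBall (0 : Λ.Es x) R := by
    intro j hj
    rw [mem_closedBall_zero_iff, norm_smul]
    have hj' : (j : ℝ) / N ≤ 1 := by
      rw [div_le_one hN0]
      exact_mod_cast hj
    have hj0 : 0 ≤ (j : ℝ) / N := by positivity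
    rw [Real.norm_of_nonneg (by linarith)]
    calc (1 - (j : ℝ) / N) * ‖v‖ ≤ 1 * ‖v‖ := by
          apply mul_le_mul_of_nonneg_right _ (norm_nonneg v)
          linarith
      _ ≤ R := by rw [one_mul]; exact hv
  have hind : ∀ j : ℕ, j ≤ N → Φ ((1 - (j : ℝ) / N) • v) w1 = Φ ((1 - (j : ℝ) / N) • v) w2 := by
    intro j
    induction j with
    | zero =>
      intro _
      simpa using heq
    | succ j ih =>
      intro hj
      have h2 := ih (by omega)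
      have hd : dist ((1 - ((j + 1 : ℕ) : ℝ) / N) • v) ((1 - (j : ℝ) / N) • v) < ρ := by
        rw [dist_eq_norm, ← sub_smul, norm_smul]
        have : (1 - ((j + 1 : ℕ) : ℝ) / N - (1 - (j : ℝ) / N)) = -(1 / N) := by
          push_cast
          ring
        rw [this, norm_neg, Real.norm_of_nonneg (by positivity)]
        rw [one_div, inv_mul_eq_div]
        exact hN'
      refine hexp _ _ ?_ (hU _ (hmem _ hj))
      have e1 := h1 _ (hmem _ hj) _ (hmem j (by omega)) w1 (mem_closedBall_zero_iff.2 hw1) hd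
      have e2 := h1 _ (hmem _ hj) _ (hmem j (by omega)) w2 (mem_closedBall_zero_iff.2 hw2) hd
      rw [← h2] at e2
      have e3 := D.S_tri _ _ _ _ _ e1 (D.S_symm _ _ _ e2)
      rwa [add_halves] at e3
  have h0 := hind N le_rfl
  rw [div_self hN0.ne', sub_self, zero_smul, hΦ.2.1, hΦ.2.1] at h0
  exact Λ.u_inj x h0

theorem IsPhi.locInj [CompactSpace M] {D : Sys M} {Λ : Leaves M D E} {x : M}
    {Φ : Λ.Es x → Λ.Eu x → M} (hΦ : IsPhi D Λ x Φ) (p : Λ.Es x × Λ.Eu x) :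
    ∃ V ∈ 𝓝 p, InjOn (fun p : Λ.Es x × Λ.Eu x => Φ p.1 p.2) V := by
  obtain ⟨v, w⟩ := p
  obtain ⟨ε, hε, hexp⟩ := D.expansive
  set R : ℝ := max ‖v‖ ‖w‖ + 1 with hR
  obtain ⟨ρ1, hρ1, h1⟩ := (hΦ.2.2 R).1 (ε / 2) (by positivity)
  obtain ⟨ρ2, hρ2, h2⟩ := (hΦ.2.2 R).2 (ε / 2) (by positivity)
  have hm1 := le_max_left ‖v‖ ‖w‖
  have hm2 := le_max_right ‖v‖ ‖w‖
  have hvR : v ∈ closedBall (0 : Λ.Es x) R := by
    rw [mem_closedBall_zero_iff]; linarith
  have hwR : w ∈ closedBall (0 : Λ.Eu x) R := by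
    rw [mem_closedBall_zero_iff]; linarith
  refine ⟨ball (v, w) (min 1 (min ρ1 ρ2)), ball_mem_nhds _ (by positivity), ?_⟩
  rintro ⟨v1, w1⟩ h11 ⟨v2, w2⟩ h22 heq
  simp only at heq
  have key : ∀ (v' : Λ.Es x) (w' : Λ.Eu x), (v', w') ∈ ball (v, w) (min 1 (min ρ1 ρ2)) →
      v' ∈ closedBall (0 : Λ.Es x) R ∧ w' ∈ closedBall (0 : Λ.Eu x) R ∧ dist v' v < ρ1 ∧
        dist w' w < ρ2 := by
    intro v' w' h
    rw [mem_ball] at h
    have hd1 : dist v' v < min 1 (min ρ1 ρ2) := lt_of_le_of_lt (le_max_left _ _) h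
    have hd2 : dist w' w < min 1 (min ρ1 ρ2) := lt_of_le_of_lt (le_max_right _ _) h
    refine ⟨?_, ?_, hd1.trans_le ((min_le_right _ _).trans (min_le_left _ _)),
      hd2.trans_le ((min_le_right _ _).trans (min_le_right _ _))⟩
    · rw [mem_closedBall_zero_iff]
      have h3 := norm_sub_norm_le v' v
      have h4 : dist v' v < 1 := hd1.trans_le (min_le_left _ _)
      rw [dist_eq_norm] at h4
      linarith
    · rw [mem_closedBall_zero_iff]
      have h3 := norm_sub_norm_le w' w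
      have h4 : dist w' w < 1 := hd2.trans_le (min_le_left _ _)
      rw [dist_eq_norm] at h4
      linarith
  obtain ⟨hv1, hw1, dv1, dw1⟩ := key v1 w1 h11
  obtain ⟨hv2, hw2, dv2, dw2⟩ := key v2 w2 h22
  have hUU : ∀ v' ∈ closedBall (0 : Λ.Es x) R, D.U (Φ v' w1) (Φ v' w2) ε := by
    intro v' hv'
    have e1 := h2 v' hv' w1 hw1 w hwR dw1
    have e2 := h2 v' hv' w2 hw2 w hwR dw2
    have e3 := D.U_tri _ _ _ _ _ e1 (D.U_symm _ _ _ e2)
    rwa [add_halves] at e3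
  have hSS : ∀ w' ∈ closedBall (0 : Λ.Eu x) R, D.S (Φ v1 w') (Φ v2 w') ε := by
    intro w' hw'
    have e1 := h1 v1 hv1 v hvR w' hw' dv1
    have e2 := h1 v2 hv2 v hvR w' hw' dv2
    have e3 := D.S_tri _ _ _ _ _ e1 (D.S_symm _ _ _ e2)
    rwa [add_halves] at e3
  -- the two second coordinates agree
  have hmid : Φ v w1 = Φ v w2 := by
    refine hexp _ _ ?_ (hUU v hvR)
    have e1 := h1 v1 hv1 v hvR w1 hw1 dv1
    have e2 := h1 v2 hv2 v hvR w2 hw2 dv2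
    rw [← heq] at e2
    have e3 := D.S_tri _ _ _ _ _ (D.S_symm _ _ _ e1) e2
    rwa [add_halves] at e3
  have hw12 : w1 = w2 := lin_down hΦ hε hexp (mem_closedBall_zero_iff.1 hvR)
    (mem_closedBall_zero_iff.1 hw1) (mem_closedBall_zero_iff.1 hw2) hUU hmid
  have hv12 : v1 = v2 := by
    rw [← hw12] at heq
    exact lin_down (D := D.symm) (Λ := Λ.symm) hΦ.symm hε (fun a b h3 h4 => hexp a b h4 h3)
      (mem_closedBall_zero_iff.1 hw1) (mem_closedBall_zero_iff.1 hv1)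
      (mem_closedBall_zero_iff.1 hv2) hSS heq
  rw [hw12, hv12]

end Pool.Agent.ANC
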