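import Mathlib
import Pool.Agent.ANC.PCK

open Set Metric Function Topology

namespace Pool.Agent.ANC

variable {M : Type} [MetricSpace M] {E : Type} [NormedAddCommGroup E] [NormedSpace ℝ E]

/-- The local unstable coordinate. -/
theorem SecPack.coord_u {D : Sys M} {ε δ : ℝ} {B : M → M → M} (P : SecPack D ε δ B)
    (Λ : Leaves M D E) {ρ0 η : ℝ} (hρ0 : 0 < ρ0) (hη : 0 < η) :
    ∃ r > 0, r ≤ δ ∧ ∀ m, ∃ g : M → Λ.Eu m, ContinuousOn g (ball m r) ∧ g m = 0 ∧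
      ∀ m' ∈ ball m r, ‖g m'‖ ≤ 1 ∧ Λ.θu m (ρ0 • g m') = B m' m ∧ dist (B m' m) m < η := by
  have hC : 0 < D.C := lt_of_lt_of_le one_pos D.hC
  have hK : 0 < Λ.K0 := lt_of_lt_of_le one_pos Λ.hK0
  set t : ℝ := min Λ.R0 (ρ0 / Λ.K0) with ht
  have ht0 : 0 < t := lt_min Λ.hR0 (div_pos hρ0 hK)
  obtain ⟨ρ, hρ, hmod⟩ := P.modulus (min η (t / D.C)) (lt_min hη (div_pos ht0 hC))
  refine ⟨min ρ δ, lt_min hρ P.hδ, min_le_right _ _, ?_⟩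
  intro m
  have hmm : dist m m < δ := by rw [dist_self]; exact P.hδ
  have hd : ∀ m' ∈ ball m (min ρ δ), dist (B m' m) m < min η (t / D.C) := by
    intro m' hm'
    rw [mem_ball] at hm'
    have := hmod m' m m m (hm'.trans_le (min_le_right _ _)) hmm (hm'.trans_le (min_le_left _ _))
      (by rw [dist_self]; exact hρ)
    rwa [P.self m] at this
  have hU : ∀ m' ∈ ball m (min ρ δ), D.U m (B m' m) ε := fun m' hm' =>
    (P.close m' m ((mem_ball.1 hm').trans_le (min_le_right _ _))).2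
  have key : ∀ m', m' ∈ ball m (min ρ δ) → ∃ v : Λ.Eu m, ‖v‖ ≤ ρ0 ∧ Λ.θu m v = B m' m := by
    intro m' hm'
    have h1 : D.U m (B m' m) D.r := D.U_mono _ _ _ _ (by linarith [P.h4, P.hε]) (hU m' hm')
    have h2 := D.U_cmp _ _ h1
    have h3 : D.C * dist m (B m' m) ≤ t := by
      have := (hd m' hm').trans_le (min_le_right _ _)
      rw [lt_div_iff₀ hC, dist_comm] at this
      linarith [mul_comm (dist m (B m' m)) D.C]
    obtain ⟨v, hv, hv'⟩ := Λ.u_loc m _ t (min_le_left _ _) (D.U_mono _ _ _ _ h3 h2)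
    refine ⟨v, hv.trans ?_, hv'⟩
    have : t ≤ ρ0 / Λ.K0 := min_le_right _ _
    rw [le_div_iff₀ hK] at this
    linarith [mul_comm t Λ.K0]
  choose! g hg using key
  have hgc : ContinuousOn g (ball m (min ρ δ)) := by
    rw [Metric.continuousOn_iff]
    intro b hb ε' hε'
    obtain ⟨δ1, hδ1, h1⟩ := Λ.u_inv m (g b) ε' hε'
    obtain ⟨ρ2, hρ2, h2⟩ := P.modulus (δ1 / D.C) (div_pos hδ1 hC)
    refine ⟨ρ2, hρ2, fun a ha hab => ?_⟩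
    rw [dist_comm, dist_eq_norm]
    apply h1
    rw [(hg b hb).2, (hg a ha).2]
    have h3 : D.U (B b m) (B a m) D.r := by
      have := D.U_tri _ _ _ _ _ (D.U_symm _ _ _ (hU b hb)) (hU a ha)
      exact D.U_mono _ _ _ _ (by linarith [P.h4, P.hε]) this
    refine D.U_mono _ _ _ _ ?_ (D.U_cmp _ _ h3)
    have h4 := h2 b a m m ((mem_ball.1 hb).trans_le (min_le_right _ _))
      ((mem_ball.1 ha).trans_le (min_le_right _ _)) (by rwa [dist_comm])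
      (by rw [dist_self]; exact hρ2)
    rw [lt_div_iff₀ hC] at h4
    linarith [mul_comm (dist (B b m) (B a m)) D.C]
  have hgc' : ContinuousOn (fun m' => ρ0⁻¹ • g m') (ball m (min ρ δ)) :=
    hgc.const_smul ρ0⁻¹
  refine ⟨fun m' => ρ0⁻¹ • g m', hgc', ?_, ?_⟩
  · have hm : m ∈ ball m (min ρ δ) := mem_ball_self (lt_min hρ P.hδ)
    have : g m = 0 := by
      apply Λ.u_inj m
      rw [(hg m hm).2, P.self m, Λ.u_zero]
    simp only [this, smul_zero]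
  · intro m' hm'
    refine ⟨?_, ?_, (hd m' hm').trans_le (min_le_left _ _)⟩
    · rw [norm_smul, norm_inv, Real.norm_of_nonneg hρ0.le, inv_mul_le_iff₀ hρ0, mul_one]
      exact (hg m' hm').1
    · rw [smul_smul, mul_inv_cancel₀ hρ0.ne', one_smul]
      exact (hg m' hm').2

/-- Local sections over balls of a uniform radius. -/
theorem IsPhi.sections [CompactSpace M] [FiniteDimensional ℝ E] {D : Sys M} {Λ : Leaves M D E}
    {x : M} {Φ : Λ.Es x → Λ.Eu x → M} (hΦ : IsPhi D Λ x Φ)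
    (hall : ∀ m, ∃ Ψ : Λ.Es m → Λ.Eu m → M, IsPhi D Λ m Ψ) :
    ∃ r > 0, ∀ p : Λ.Es x × Λ.Eu x, ∃ κ : M → Λ.Es x × Λ.Eu x,
      ContinuousOn κ (ball (Φ p.1 p.2) r) ∧ κ (Φ p.1 p.2) = p ∧
      ∀ m ∈ ball (Φ p.1 p.2) r, Φ (κ m).1 (κ m).2 = m := by
  obtain ⟨ε, δ, B, hε, hδ, h4, hexp, hcl, hmod⟩ := D.exists_bracket
  have P : SecPack D ε δ B := ⟨hε, hδ, h4, hexp, hcl, hmod⟩
  have hK : 0 < Λ.K0 := lt_of_lt_of_le one_pos Λ.hK0
  obtain ⟨ρ0, hρ0, hρR, hρε, hρδ⟩ : ∃ ρ0 > 0, ρ0 ≤ Λ.R0 ∧ Λ.K0 * ρ0 ≤ ε ∧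
      Λ.K0 * ρ0 ≤ δ / 3 := by
    refine ⟨min Λ.R0 (min (ε / Λ.K0) (δ / 3 / Λ.K0)), ?_, min_le_left _ _, ?_, ?_⟩
    · have := Λ.hR0
      positivity
    · rw [← le_div_iff₀' hK]
      exact (min_le_right _ _).trans (min_le_left _ _)
    · rw [← le_div_iff₀' hK]
      exact (min_le_right _ _).trans (min_le_right _ _)
  obtain ⟨ru, hru, hruδ, hu⟩ := P.coord_u Λ hρ0 (η := δ / 3) (by positivity)
  obtain ⟨rs, hrs, hrsδ, hs⟩ := P.symm.coord_u Λ.symm hρ0 (η := δ / 3) (by positivity)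
  refine ⟨min ru rs, lt_min hru hrs, ?_⟩
  rintro ⟨v, w⟩
  simp only
  set m : M := Φ v w with hm
  obtain ⟨gu, gu1, gu2, gu3⟩ := hu m
  obtain ⟨gs, gs1, gs2, gs3⟩ : ∃ g : M → Λ.Es m, ContinuousOn g (ball m rs) ∧ g m = 0 ∧
      ∀ m' ∈ ball m rs, ‖g m'‖ ≤ 1 ∧ Λ.θs m (ρ0 • g m') = B m m' ∧ dist (B m m') m < δ / 3 :=
    hs m
  -- the two discs
  have hnorm : ∀ {V : Submodule ℝ E} (ξ : V), ‖ξ‖ ≤ 1 → ‖ρ0 • ξ‖ ≤ Λ.R0 := by
    intro V ξ hξ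
    rw [norm_smul, Real.norm_of_nonneg hρ0.le]
    calc ρ0 * ‖ξ‖ ≤ ρ0 * 1 := mul_le_mul_of_nonneg_left hξ hρ0.le
      _ = ρ0 := mul_one _
      _ ≤ Λ.R0 := hρR
  have hψu : ∀ ξ ξ' : Λ.Eu m, ‖ξ‖ ≤ 1 → ‖ξ'‖ ≤ 1 →
      D.U (Λ.θu m (ρ0 • ξ)) (Λ.θu m (ρ0 • ξ')) (Λ.K0 * ρ0 * ‖ξ - ξ'‖) := by
    intro ξ ξ' h1 h2
    have h := Λ.u_unif m (ρ0 • ξ) (ρ0 • ξ') (hnorm ξ h1) (hnorm ξ' h2)
    rwa [← smul_sub, norm_smul, Real.norm_of_nonneg hρ0.le, ← mul_assoc] at h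
  have hψs : ∀ ξ ξ' : Λ.Es m, ‖ξ‖ ≤ 1 → ‖ξ'‖ ≤ 1 →
      D.S (Λ.θs m (ρ0 • ξ)) (Λ.θs m (ρ0 • ξ')) (Λ.K0 * ρ0 * ‖ξ - ξ'‖) := by
    intro ξ ξ' h1 h2
    have h := Λ.s_unif m (ρ0 • ξ) (ρ0 • ξ') (hnorm ξ h1) (hnorm ξ' h2)
    rwa [← smul_sub, norm_smul, Real.norm_of_nonneg hρ0.le, ← mul_assoc] at h
  have hKρ : 0 < Λ.K0 * ρ0 := mul_pos hK hρ0
  obtain ⟨ν, ν1, ν2, ν3⟩ := hΦ.lift_u hall v w ρ0
  obtain ⟨ω, ω1, ω2, ω3⟩ := hΦ.lift_s hall v w ρ0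
  -- the distances to the centre
  have hu0 : ∀ ξ : Λ.Eu m, ‖ξ‖ ≤ 1 → D.U m (Λ.θu m (ρ0 • ξ)) (Λ.K0 * ρ0) := by
    intro ξ hξ
    have h := hψu 0 ξ (by rw [norm_zero]; exact zero_le_one) hξ
    rw [smul_zero, Λ.u_zero, zero_sub, norm_neg] at h
    refine D.U_mono _ _ _ _ ?_ h
    calc Λ.K0 * ρ0 * ‖ξ‖ ≤ Λ.K0 * ρ0 * 1 := mul_le_mul_of_nonneg_left hξ hKρ.le
      _ = _ := mul_one _
  have hs0 : ∀ ξ : Λ.Es m, ‖ξ‖ ≤ 1 → D.S m (Λ.θs m (ρ0 • ξ)) (Λ.K0 * ρ0) := by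
    intro ξ hξ
    have h := hψs 0 ξ (by rw [norm_zero]; exact zero_le_one) hξ
    rw [smul_zero, Λ.s_zero, zero_sub, norm_neg] at h
    refine D.S_mono _ _ _ _ ?_ h
    calc Λ.K0 * ρ0 * ‖ξ‖ ≤ Λ.K0 * ρ0 * 1 := mul_le_mul_of_nonneg_left hξ hKρ.le
      _ = _ := mul_one _
  have hdist : ∀ ζ : Λ.Es m, ‖ζ‖ ≤ 1 → ∀ ξ : Λ.Eu m, ‖ξ‖ ≤ 1 →
      dist (Λ.θu m (ρ0 • ξ)) (Λ.θs m (ρ0 • ζ)) < δ := by
    intro ζ hζ ξ hξ
    have t1 := D.U_dist _ _ _ (hu0 ξ hξ)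
    have t2 := D.S_dist _ _ _ (hs0 ζ hζ)
    have t3 := dist_triangle_left (Λ.θu m (ρ0 • ξ)) (Λ.θs m (ρ0 • ζ)) m
    linarith
  -- the two rectangles
  have r1 : Rect D (closedBall (0 : Λ.Es m) 1) (closedBall (0 : Λ.Eu m) 1)
      (fun ζ ξ => Φ (ω ζ) (ν ξ)) :=
    hΦ.rect_comp (isCompact_closedBall _ _) (isCompact_closedBall _ _) ω1 ν1
  have r2 : Rect D (closedBall (0 : Λ.Es m) 1) (closedBall (0 : Λ.Eu m) 1)
      (fun ζ ξ => B (Λ.θu m (ρ0 • ξ)) (Λ.θs m (ρ0 • ζ))) := by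
    refine P.rect hKρ ?_ ?_ ?_
    · intro s hs s' hs'
      rw [mem_closedBall_zero_iff] at hs hs'
      have := D.S_dist _ _ _ (hψs s s' hs hs')
      rwa [← dist_eq_norm] at this
    · intro s hs s' hs'
      rw [mem_closedBall_zero_iff] at hs hs'
      have := D.U_dist _ _ _ (hψu s s' hs hs')
      rwa [← dist_eq_norm] at this
    · intro s hs t ht
      rw [mem_closedBall_zero_iff] at hs ht
      exact hdist s hs t ht
  have h00 : (0 : Λ.Es m) ∈ closedBall (0 : Λ.Es m) 1 := mem_closedBall_self zero_le_one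
  have h01 : (0 : Λ.Eu m) ∈ closedBall (0 : Λ.Eu m) 1 := mem_closedBall_self zero_le_one
  have heq : ∀ ζ ∈ closedBall (0 : Λ.Es m) 1, ∀ ξ ∈ closedBall (0 : Λ.Eu m) 1,
      Φ (ω ζ) (ν ξ) = B (Λ.θu m (ρ0 • ξ)) (Λ.θs m (ρ0 • ζ)) := by
    refine Rect.unique (convex_closedBall _ _) (convex_closedBall _ _) h00 h01 r1 r2 ?_ ?_
    · intro ζ hζ
      rw [mem_closedBall_zero_iff] at hζ
      rw [ν2, ω3 ζ hζ, smul_zero, Λ.u_zero]
      symm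
      refine P.uniq ?_ ?_ ?_
      · have := D.S_dist _ _ _ (hs0 ζ hζ)
        linarith
      · exact D.S_mono _ _ _ _ hρε (hs0 ζ hζ)
      · exact D.U_mono _ _ _ _ hε.le (D.U_refl _)
    · intro ξ hξ
      rw [mem_closedBall_zero_iff] at hξ
      rw [ω2, ν3 ξ hξ, smul_zero, Λ.s_zero]
      symm
      refine P.uniq ?_ ?_ ?_
      · have := D.U_dist _ _ _ (hu0 ξ hξ)
        rw [dist_comm]
        linarith
      · exact D.S_mono _ _ _ _ hε.le (D.S_refl _)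
      · exact D.U_mono _ _ _ _ hρε (hu0 ξ hξ)
  refine ⟨fun m' => (ω (gs m'), ν (gu m')), ?_, ?_, ?_⟩
  · refine ContinuousOn.prodMk ?_ ?_
    · refine ω1.comp (gs1.mono (ball_subset_ball (min_le_right _ _))) ?_
      intro m' hm'
      rw [mem_closedBall_zero_iff]
      exact (gs3 m' (ball_subset_ball (min_le_right _ _) hm')).1
    · refine ν1.comp (gu1.mono (ball_subset_ball (min_le_left _ _))) ?_
      intro m' hm'
      rw [mem_closedBall_zero_iff]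
      exact (gu3 m' (ball_subset_ball (min_le_left _ _) hm')).1
  · simp only [gs2, gu2, ω2, ν2]
  · intro m' hm'
    obtain ⟨a1, a2, a3⟩ := gs3 m' (ball_subset_ball (min_le_right _ _) hm')
    obtain ⟨b1, b2, b3⟩ := gu3 m' (ball_subset_ball (min_le_left _ _) hm')
    simp only
    rw [heq _ (mem_closedBall_zero_iff.2 a1) _ (mem_closedBall_zero_iff.2 b1), a2, b2]
    have hmm' : dist m' m < δ := (mem_ball.1 hm').trans_le ((min_le_left _ _).trans hruδ)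
    refine P.uniq ?_ ?_ ?_
    · have := dist_triangle_right (B m' m) (B m m') m
      linarith
    · exact D.S_symm _ _ _ (P.close m' m hmm').1
    · exact D.U_symm _ _ _ (P.close m m' (by rwa [dist_comm])).2

end Pool.Agent.ANC
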