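import Mathlib

/-! NWN: returns of non-wandering open sets at times divisible by m.  V_0 = V, n_1 ≥ 1 with V_1 = V_0 ∩ f^{-n_1} V_0 ≠ ∅, ...,
V_m: a point x of V_m returns to V at the m+1 times 0 = t_0 < t_1 < ... < t_m; two of them are congruent mod m
(pigeonhole), so f^{t_i} x ∈ V comes back to V after t_j - t_i, a positive multiple of m. -/

open Set Function

namespace Pool.Agent.ANC

private theorem nwn_times {X : Type} [TopologicalSpace X] {f : X → X} (hf : Continuous f)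
    (hNW : ∀ V : Set X, IsOpen V → V.Nonempty → ∃ n : ℕ, 1 ≤ n ∧ ∃ x ∈ V, f^[n] x ∈ V)
    (V : Set X) (hV : IsOpen V) (hV' : V.Nonempty) (j : ℕ) :
    ∃ (W : Set X) (t : ℕ → ℕ), IsOpen W ∧ W.Nonempty ∧ W ⊆ V ∧ StrictMono t ∧
      ∀ x ∈ W, ∀ i ≤ j, f^[t i] x ∈ V := by
  induction j with
  | zero =>
    refine ⟨V, id, hV, hV', Subset.rfl, strictMono_id, fun x hx i hi => ?_⟩
    obtain rfl : i = 0 := by omega
    exact hx
  | succ j ih =>
    obtain ⟨W, t, hW, hW', hWV, ht, h⟩ := ih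
    obtain ⟨n, hn, x, hx, hx'⟩ := hNW W hW hW'
    refine ⟨W ∩ f^[n] ⁻¹' W, fun i => Nat.casesOn i 0 (fun k => n + t k),
      hW.inter (hW.preimage (hf.iterate n)), ⟨x, hx, hx'⟩,
      fun y hy => hWV hy.1, ?_, ?_⟩
    · refine strictMono_nat_of_lt_succ (fun i => ?_)
      cases i with
      | zero => show 0 < n + t 0; omega
      | succ i =>
        show n + t i < n + t (i + 1)
        have : t i < t (i + 1) := ht (Nat.lt_succ_self i)
        omega
    · intro y hy i hi
      cases i with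
      | zero => exact hWV hy.1
      | succ i =>
        show f^[n + t i] y ∈ V
        rw [add_comm, Function.iterate_add_apply]
        exact h _ hy.2 i (by omega)

theorem nonwandering_mul {X : Type} [TopologicalSpace X] {f : X → X} (hf : Continuous f)
    (hNW : ∀ V : Set X, IsOpen V → V.Nonempty → ∃ n : ℕ, 1 ≤ n ∧ ∃ x ∈ V, f^[n] x ∈ V) (m : ℕ) (hm : 1 ≤ m)
    (V : Set X) (hV : IsOpen V) (hV' : V.Nonempty) : ∃ n : ℕ, 1 ≤ n ∧ ∃ x ∈ V, f^[m * n] x ∈ V := by
  obtain ⟨W, t, -, ⟨x, hx⟩, -, ht, h⟩ := nwn_times hf hNW V hV hV' m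
  obtain ⟨i, hi, j, hj, hij, he⟩ := Finset.exists_ne_map_eq_of_card_lt_of_maps_to
    (s := Finset.range (m + 1)) (t := Finset.range m) (by simp) (f := fun i => t i % m)
    (fun i _ => Finset.mem_coe.2 (Finset.mem_range.2 (Nat.mod_lt _ hm)))
  have key : ∀ i j : ℕ, i ≤ m → j ≤ m → i < j → t i % m = t j % m →
      ∃ n : ℕ, 1 ≤ n ∧ ∃ x ∈ V, f^[m * n] x ∈ V := by
    intro i j hi hj hij he
    have hlt := ht hij
    have hd : m ∣ t j - t i := (Nat.modEq_iff_dvd' hlt.le).1 he
    obtain ⟨n, hn⟩ := hd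
    refine ⟨n, ?_, f^[t i] x, h x hx i hi, ?_⟩
    · rcases Nat.eq_zero_or_pos n with rfl | h0
      · simp at hn; omega
      · exact h0
    · rw [← Function.iterate_add_apply, ← hn, Nat.sub_add_cancel hlt.le]
      exact h x hx j hj
  rw [Finset.mem_range] at hi hj
  rcases lt_or_gt_of_ne hij with h1 | h1
  · exact key i j (by omega) (by omega) h1 he
  · exact key j i (by omega) (by omega) h1 he.symm

end Pool.Agent.ANC
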