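import Mathlib
import Pool.Agent.ANC.CLS
import Pool.Agent.ANC.NWN

/-! WUD: periodic points are dense (nonwandering_mul with m gives returns ≥ m, CLS), and the unstable leaf of a periodic point
is dense: X = closure {w | ∃ t, U p w t}, f^π p = p.  Let x ∈ X and δ the bracket size.  For a periodic y near x (dist x y < δ/2)
take w in the leaf, dist w x < δ/2, z = B y w: U w z ε so z is in the leaf, S y z ε; f^{N} z with N = π π_y j is in the leaf and
dist (f^N z) y = dist (f^N z) (f^N y) ≤ e^{-aN} ε → 0.  So y ∈ X; periodic points are dense, so ball x (δ/2) ⊆ X (X is closed).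
X is clopen and nonempty, M is connected. -/

open Set Metric Function

namespace Pool.Agent.ANC

variable {M : Type} [MetricSpace M] [CompactSpace M]

theorem Sys.periodic_dense (D : Sys M)
    (hNW : ∀ V : Set M, IsOpen V → V.Nonempty → ∃ n : ℕ, 1 ≤ n ∧ ∃ x ∈ V, D.f^[n] x ∈ V) (x : M) (ε : ℝ)
    (hε : 0 < ε) : ∃ p, dist x p < ε ∧ ∃ n : ℕ, 1 ≤ n ∧ D.f^[n] p = p := by
  obtain ⟨m, δ, hδ, h⟩ := D.closing (ε / 2) (by linarith)
  have hr : 0 < min (ε / 2) (δ / 2) := lt_min (by linarith) (by linarith)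
  obtain ⟨n, hn, y, hy, hy'⟩ := nonwandering_mul D.f.continuous hNW (max m 1) (le_max_right _ _)
    (ball x (min (ε / 2) (δ / 2))) isOpen_ball ⟨x, mem_ball_self hr⟩
  have h1 : dist y x < ε / 2 := lt_of_lt_of_le (mem_ball.1 hy) (min_le_left _ _)
  have h2 : dist y x < δ / 2 := lt_of_lt_of_le (mem_ball.1 hy) (min_le_right _ _)
  have h3 : dist (D.f^[max m 1 * n] y) x < δ / 2 := lt_of_lt_of_le (mem_ball.1 hy') (min_le_right _ _)
  have h4 : m ≤ max m 1 * n := (le_max_left m 1).trans (Nat.le_mul_of_pos_right _ hn)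
  have h5 : dist (D.f^[max m 1 * n] y) y < δ := by
    have := dist_triangle_right (D.f^[max m 1 * n] y) y x
    linarith
  obtain ⟨p, hp, hpx⟩ := h _ y h4 h5
  refine ⟨p, ?_, max m 1 * n, ?_, hp⟩
  · have := dist_triangle x y p
    rw [dist_comm x y] at this
    linarith
  · exact Nat.mul_pos (lt_of_lt_of_le one_pos (le_max_right m 1)) hn

omit [CompactSpace M] in
private theorem wud_iter (D : Sys M) {p : M} {n : ℕ} (hp : D.f^[n] p = p) (k : ℕ) :
    D.f^[n * k] p = p := by
  rw [Function.iterate_mul]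
  exact Function.iterate_fixed hp k

theorem Sys.leaf_dense [ConnectedSpace M] (D : Sys M)
    (hP : ∀ (x : M) (ε : ℝ), 0 < ε → ∃ p, dist x p < ε ∧ ∃ n : ℕ, 1 ≤ n ∧ D.f^[n] p = p)
    {p : M} {n : ℕ} (hn : 1 ≤ n) (hp : D.f^[n] p = p) (x : M) (ε : ℝ) (hε : 0 < ε) :
    ∃ w t, D.U p w t ∧ dist x w < ε := by
  set W : Set M := {w | ∃ t, D.U p w t} with hW
  obtain ⟨δ, hδ, hbr⟩ := D.br 1 one_pos
  have hopen : IsOpen (closure W) := by
    rw [Metric.isOpen_iff]
    intro x hx
    refine ⟨δ / 2, by linarith, fun y hy => ?_⟩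
    rw [Metric.mem_closure_iff]
    intro η hη
    have hyx : dist y x < δ / 2 := mem_ball.1 hy
    obtain ⟨q, hq, m, hm, hqm⟩ := hP y (min (η / 2) (δ / 4)) (lt_min (by linarith) (by linarith))
    obtain ⟨w, ⟨t, hw⟩, hxw⟩ := Metric.mem_closure_iff.1 hx (δ / 4) (by linarith)
    have hq1 : dist y q < η / 2 := lt_of_lt_of_le hq (min_le_left _ _)
    have hq2 : dist y q < δ / 4 := lt_of_lt_of_le hq (min_le_right _ _)
    have hqw : dist q w < δ := by
      have h1 := dist_triangle q y w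
      have h2 := dist_triangle y x w
      rw [dist_comm q y] at h1
      linarith
    obtain ⟨z, hSz, hUz⟩ := hbr q w hqw
    -- large iterates
    have hlim : Filter.Tendsto (fun j : ℕ => Real.exp (-(D.a * j))) Filter.atTop (nhds 0) := by
      apply Real.tendsto_exp_neg_atTop_nhds_zero.comp
      exact Filter.Tendsto.const_mul_atTop D.ha tendsto_natCast_atTop_atTop
    obtain ⟨j, hj⟩ := (hlim.eventually (gt_mem_nhds (show (0 : ℝ) < η / 2 by linarith))).exists
    have hN : j ≤ n * (m * j) := by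
      calc j = 1 * (1 * j) := by ring
        _ ≤ n * (m * j) := Nat.mul_le_mul hn (Nat.mul_le_mul hm le_rfl)
    have hNp : D.f^[n * (m * j)] p = p := wud_iter D hp _
    have hNq : D.f^[n * (m * j)] q = q := by
      have h1 : n * (m * j) = m * (n * j) := by ring
      rw [h1]
      exact wud_iter D hqm _
    have h1 := D.S_iter (n * (m * j)) hSz
    rw [hNq, mul_one] at h1
    have h2 := D.U_iter (n * (m * j)) (D.U_tri _ _ _ _ _ hw hUz)
    rw [hNp] at h2
    refine ⟨D.f^[n * (m * j)] z, ⟨_, h2⟩, ?_⟩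
    have h3 := D.S_dist _ _ _ h1
    have h4 : Real.exp (-(D.a * ((n * (m * j) : ℕ) : ℝ))) ≤ Real.exp (-(D.a * j)) := by
      apply Real.exp_le_exp.2
      have h5 : (j : ℝ) ≤ ((n * (m * j) : ℕ) : ℝ) := by exact_mod_cast hN
      have h6 := mul_le_mul_of_nonneg_left h5 D.ha.le
      linarith
    have h7 := dist_triangle y q (D.f^[n * (m * j)] z)
    linarith
  have huniv : closure W = univ := IsClopen.eq_univ ⟨isClosed_closure, hopen⟩
    ⟨p, subset_closure ⟨0, D.U_refl p⟩⟩
  have hx : x ∈ closure W := by rw [huniv]; exact mem_univ x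
  obtain ⟨w, ⟨t, hw⟩, hxw⟩ := Metric.mem_closure_iff.1 hx ε hε
  exact ⟨w, t, hw, hxw⟩

end Pool.Agent.ANC
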