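import Mathlib
import Pool.Agent.ANC.WUD
import Pool.Agent.ANC.QCD

/-! DEN: uniform density of unstable balls.  Fix a periodic p (f^π p = p, D.symm has the same periodic points, so the STABLE
leaf of p is dense as well: WUD for D.symm).  Given δ: by compactness there is R1 such that {w | U p w R1} is δ/3-dense
(finite cover by balls, U_mono; one R1 for finitely many points).  (1) There are a neighbourhood radius r1 of p and R2 such that
for dist z' p < r1: for every w with U p w R1 there is w'' with U z' w'' R2, dist w w'' < δ/3: pull back by f^n, n with e^{-cn} R1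
small, z'_{-n} near p_{-n} by continuity of f^-n, w' = B (f^-n w) (f^-n z'), w'' = f^n w': S (f^-n w) w' ε so
dist w w'' ≤ e^{-an} ε, U (f^-n z') w' ε so U z' w'' (e^{en} ε) (n also so large that e^{-an} ε < δ/3).
(2) the stable ball {S p w R3} is δ_B/2-dense (compactness): for every y there is y' with S p y' R3, dist y y' < δ_B; z = B y' y: U y z ε,
S p z (R3 + ε).  N = π j with e^{-aN} (R3+ε) < r1: dist (f^N z) p < r1.  (3) So {w | U (f^N z) w R2} is 2δ/3-dense, and
U (f^N y) (f^N z) (e^{eN} ε): the ball of radius R2 + e^{eN} ε around f^N y is δ-dense; N does not depend on y and f^N is onto. -/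

open Set Metric Function Filter Topology

namespace Pool.Agent.ANC

variable {M : Type} [MetricSpace M] [CompactSpace M]

/-- a dense leaf has uniformly dense balls -/
private theorem den_unif {P : M → ℝ → Prop} (hmono : ∀ w t t', t ≤ t' → P w t → P w t')
    (h : ∀ (x : M) (ε : ℝ), 0 < ε → ∃ w t, P w t ∧ dist x w < ε) (ε : ℝ) (hε : 0 < ε) :
    ∃ R : ℝ, ∀ x : M, ∃ w, P w R ∧ dist x w < ε := by
  classical
  have hε2 : 0 < ε / 2 := by linarith
  choose w t hw hd using fun x : M => h x (ε / 2) hε2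
  obtain ⟨s, hs⟩ := (isCompact_univ (X := M)).elim_nhds_subcover (fun x => ball x (ε / 2))
    (fun x _ => ball_mem_nhds x hε2)
  obtain ⟨R, hR⟩ := (s.image t).bddAbove
  refine ⟨R, fun x => ?_⟩
  have hx : x ∈ ⋃ y ∈ s, ball y (ε / 2) := hs.2 (mem_univ x)
  simp only [mem_iUnion, mem_ball, exists_prop] at hx
  obtain ⟨y, hy, hxy⟩ := hx
  refine ⟨w y, hmono _ _ _ (hR ?_) (hw y), ?_⟩
  · exact Finset.mem_coe.2 (Finset.mem_image_of_mem t hy)
  · have h1 := hd y
    have h2 := dist_triangle x y (w y)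
    linarith

private theorem den_exp {a : ℝ} (ha : 0 < a) (k : ℕ) (hk : 1 ≤ k) (t η : ℝ) (hη : 0 < η) :
    ∃ n : ℕ, ∀ m : ℕ, n ≤ m → Real.exp (-(a * ((k * m : ℕ) : ℝ))) * t < η := by
  have hlim : Tendsto (fun m : ℕ => Real.exp (-(a * ((k * m : ℕ) : ℝ))) * t) atTop (𝓝 (0 * t)) := by
    apply Tendsto.mul_const
    apply Real.tendsto_exp_neg_atTop_nhds_zero.comp
    apply Tendsto.const_mul_atTop ha
    apply tendsto_natCast_atTop_atTop.comp
    exact tendsto_atTop_mono (fun m => Nat.le_mul_of_pos_left m hk) tendsto_id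
  rw [zero_mul] at hlim
  obtain ⟨n, hn⟩ := eventually_atTop.1 (hlim.eventually (gt_mem_nhds hη))
  exact ⟨n, fun m hm => hn m hm⟩

theorem Sys.udense [ConnectedSpace M] (D : Sys M)
    (hNW : ∀ V : Set M, IsOpen V → V.Nonempty → ∃ n : ℕ, 1 ≤ n ∧ ∃ x ∈ V, D.f^[n] x ∈ V) : UDense D := by
  classical
  have hP := D.periodic_dense hNW
  obtain ⟨x₀⟩ : Nonempty M := inferInstance
  obtain ⟨p, _, k, hk, hp⟩ := hP x₀ 1 one_pos
  have hpm : ∀ m : ℕ, D.f^[k * m] p = p := by
    intro m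
    rw [Function.iterate_mul]
    exact (show Function.IsFixedPt (D.f^[k]) p from hp).iterate m
  -- periodic points of the inverse
  have hinv : ∀ (q : M) (n : ℕ), D.f^[n] q = q → D.f.symm^[n] q = q := by
    intro q n h
    have h1 := symm_iter_iter D.f n q
    rwa [h] at h1
  have hP' : ∀ (x : M) (ε : ℝ), 0 < ε → ∃ q, dist x q < ε ∧ ∃ n : ℕ, 1 ≤ n ∧ D.symm.f^[n] q = q := by
    intro x ε hε
    obtain ⟨q, h1, n, h2, h3⟩ := hP x ε hε
    exact ⟨q, h1, n, h2, hinv q n h3⟩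
  have hU := D.leaf_dense hP hk hp
  have hS : ∀ (x : M) (ε : ℝ), 0 < ε → ∃ w t, D.S p w t ∧ dist x w < ε :=
    D.symm.leaf_dense hP' hk (hinv p k hp)
  obtain ⟨ε, δB, B, hε, hδB, _, _, hB, _⟩ := D.exists_bracket
  intro δ hδ
  have hδ3 : 0 < δ / 3 := by linarith
  obtain ⟨R1, hR1⟩ := den_unif (P := fun w t => D.U p w t) (fun w t t' h h' => D.U_mono _ _ _ _ h h')
    hU (δ / 3) hδ3
  obtain ⟨R3, hR3⟩ := den_unif (P := fun w t => D.S p w t) (fun w t t' h h' => D.S_mono _ _ _ _ h h')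
    hS δB hδB
  -- first claim
  obtain ⟨n1, hn1⟩ := den_exp D.hc 1 le_rfl R1 (δB / 2) (by linarith)
  obtain ⟨n2, hn2⟩ := den_exp D.ha 1 le_rfl ε (δ / 3) hδ3
  set n := max n1 n2 with hn
  have e1 := hn1 n (le_max_left _ _)
  have e2 := hn2 n (le_max_right _ _)
  rw [one_mul] at e1 e2
  have hcont : Continuous (D.f.symm^[n]) := D.f.symm.continuous.iterate n
  obtain ⟨r1, hr1, hr1'⟩ := Metric.continuous_iff.1 hcont p (δB / 2) (by linarith)
  have claim1 : ∀ z', dist z' p < r1 → ∀ w, D.U p w R1 →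
      ∃ w'', D.U z' w'' (Real.exp (D.e * n) * ε) ∧ dist w w'' < δ / 3 := by
    intro z' hz' w hw
    have h1 := hr1' z' hz'
    have h2 := D.U_dist _ _ _ (D.U_iter_symm n hw)
    have h3 : dist (D.f.symm^[n] w) (D.f.symm^[n] z') < δB := by
      have h4 := dist_triangle (D.f.symm^[n] w) (D.f.symm^[n] p) (D.f.symm^[n] z')
      have h4' : dist (D.f.symm^[n] w) (D.f.symm^[n] p) = dist (D.f.symm^[n] p) (D.f.symm^[n] w) :=
        dist_comm _ _
      have h4'' : dist (D.f.symm^[n] p) (D.f.symm^[n] z') = dist (D.f.symm^[n] z') (D.f.symm^[n] p) :=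
        dist_comm _ _
      linarith
    obtain ⟨h5, h6⟩ := hB _ _ h3
    have h7 := D.S_iter n h5
    have h8 := D.U_iter n h6
    rw [iter_symm_iter] at h7 h8
    exact ⟨_, h8, (D.S_dist _ _ _ h7).trans_lt e2⟩
  -- the time
  obtain ⟨j, hj⟩ := den_exp D.ha k hk (R3 + ε) r1 hr1
  have e3 := hj j le_rfl
  set N := k * j with hN
  refine ⟨Real.exp (D.e * N) * ε + Real.exp (D.e * n) * ε, fun x y₀ => ?_⟩
  set y := D.f.symm^[N] y₀ with hy
  obtain ⟨y', hy'1, hy'2⟩ := hR3 y
  have h1 : dist y' y < δB := by rwa [dist_comm]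
  obtain ⟨h2, h3⟩ := hB y' y h1
  have h4 := D.S_tri _ _ _ _ _ hy'1 h2
  have h5 := D.S_iter N h4
  rw [hpm] at h5
  have h6 : dist (D.f^[N] (B y' y)) p < r1 := by
    rw [dist_comm]
    exact (D.S_dist _ _ _ h5).trans_lt e3
  obtain ⟨w1, hw1, hw1'⟩ := hR1 x
  obtain ⟨w2, hw2, hw2'⟩ := claim1 _ h6 w1 hw1
  have h7 := D.U_iter N h3
  rw [hy, iter_symm_iter] at h7
  refine ⟨w2, D.U_tri _ _ _ _ _ h7 ?_, ?_⟩
  · rw [hy] at hw2
    exact hw2
  · have h8 := dist_triangle x w1 w2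
    rw [dist_comm] at h8
    linarith

end Pool.Agent.ANC
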