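import Mathlib
import Pool.Agent.ANC.APC
import Pool.Agent.ANC.DEN
import Pool.Agent.ANC.CVR

open Set Metric Function

namespace Pool.Agent.ANC

/-- The covering for an abstract system with quasi-similar unstable leaves. -/
theorem QC.exists_covering {M : Type} [MetricSpace M] [CompactSpace M] [ConnectedSpace M]
    [LocallyConnectedSpace M] {E : Type} [NormedAddCommGroup E] [InnerProductSpace ℝ E]
    [FiniteDimensional ℝ E] {D : Sys M} {Λ : Leaves M D E} (Q : QC D Λ)
    (hNW : ∀ V : Set M, IsOpen V → V.Nonempty → ∃ n : ℕ, 1 ≤ n ∧ ∃ x ∈ V, D.f^[n] x ∈ V)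
    (hc : ∀ x, IsCompl (Λ.Es x) (Λ.Eu x)) : ∃ p : E → M, IsCoveringMap p := by
  obtain ⟨x⟩ := (inferInstance : Nonempty M)
  exact Pool.Agent.ANC.exists_covering D Λ x (hc x) (fun y => Q.apb (D.udense hNW) y)

end Pool.Agent.ANC
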