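import Mathlib
import Pool.Agent.ANO.BKT

/-! LZD: definitions for the linearisation of the stable leaves (everything is done for the STABLE leaves of a
`Loc`; it is applied to `H.symm`). -/

open Set Metric Function

namespace Pool.Agent.ANC

open Pool.Agent.ANO (Loc Trans SRel SParam)

variable {M : Type} [MetricSpace M] {E : Type} [NormedAddCommGroup E] [NormedSpace ℝ E]

/-- The derivative of `f^n` at `x`. -/
noncomputable def An (H : Loc M E) : ℕ → M → (E ≃L[ℝ] E)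
  | 0, _ => ContinuousLinearEquiv.refl ℝ E
  | n + 1, x => (H.A x).trans (An H n (H.f x))

theorem An_zero (H : Loc M E) (x : M) (v : E) : An H 0 x v = v := rfl

theorem An_succ (H : Loc M E) (n : ℕ) (x : M) (v : E) : An H (n + 1) x v = An H n (H.f x) (H.A x v) := rfl

theorem An_succ' (H : Loc M E) (n : ℕ) (x : M) (v : E) :
    An H (n + 1) x v = H.A (H.f^[n] x) (An H n x v) := by
  induction n generalizing x v with
  | zero => rfl
  | succ n ih =>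
    rw [An_succ, ih, An_succ, Function.iterate_succ_apply]

theorem An_add (H : Loc M E) (m n : ℕ) (x : M) (v : E) :
    An H (m + n) x v = An H m (H.f^[n] x) (An H n x v) := by
  induction n generalizing x v with
  | zero => rfl
  | succ n ih =>
    have : m + (n + 1) = (m + n) + 1 := by ring
    rw [this, An_succ, ih, An_succ, Function.iterate_succ_apply]

theorem An_mem (H : Loc M E) (n : ℕ) (x : M) (v : E) (hv : v ∈ H.Es x) : An H n x v ∈ H.Es (H.f^[n] x) := by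
  induction n with
  | zero => exact hv
  | succ n ih =>
    rw [An_succ', Function.iterate_succ_apply']
    exact H.A_s _ _ ih

/-- second order estimate for the coordinates -/
def Der2 (H : Loc M E) : Prop :=
  ∃ K > 0, ∃ ρ > 0, ∀ x y z, dist x y ≤ ρ → dist x z ≤ ρ →
    ‖H.c (H.f x) (H.f y) - H.c (H.f x) (H.f z) - H.A x (H.c x y - H.c x z)‖ ≤
      K * (dist x y + dist x z) * ‖H.c x y - H.c x z‖

/-- uniform quasiconformality on the family of subspaces `F` -/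
def QConf (H : Loc M E) (F : M → Submodule ℝ E) : Prop :=
  ∃ Q : ℝ, 1 ≤ Q ∧ ∀ (x : M) (n : ℕ) (v w : E), v ∈ F x → w ∈ F x →
    ‖An H n x v‖ * ‖w‖ ≤ Q * (‖An H n x w‖ * ‖v‖)

/-- A parametrisation of the stable leaves by which the iterates of `f` and the coordinate changes are
quasi-similarities. -/
structure QParam (H : Loc M E) (a b : ℝ) where
  θ : ∀ x, H.Es x → M
  R0 : ℝ
  hR0 : 0 < R0
  K0 : ℝ
  hK0 : 1 ≤ K0
  zero : ∀ x, θ x 0 = x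
  lip : ∀ (x : M) (R : ℝ), ∃ K : ℝ, 0 ≤ K ∧ ∀ v w : H.Es x, ‖v‖ ≤ R → ‖w‖ ≤ R →
    SRel H.f a b (θ x v) (θ x w) (K * ‖v - w‖)
  inj : ∀ x, Injective (θ x)
  surj : ∀ x y t, SRel H.f a b x y t → ∃ v : H.Es x, θ x v = y
  inv : ∀ (x : M) (v : H.Es x) (ε : ℝ), 0 < ε → ∃ δ > 0, ∀ w : H.Es x,
    SRel H.f a b (θ x v) (θ x w) δ → ‖v - w‖ < ε
  unif : ∀ (x : M) (v w : H.Es x), ‖v‖ ≤ R0 → ‖w‖ ≤ R0 →
    SRel H.f a b (θ x v) (θ x w) (K0 * ‖v - w‖)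
  loc : ∀ (x y : M) (t : ℝ), t ≤ R0 → SRel H.f a b x y t → ∃ v : H.Es x, ‖v‖ ≤ K0 * t ∧ θ x v = y
  C : ℝ
  hC : 1 ≤ C
  mu : ℕ → M → ℝ
  mu_pos : ∀ (n : ℕ) (x : M), 0 < mu n x
  mu_le : ∀ (n : ℕ) (x : M), mu n x ≤ C * Real.exp (-(a * n))
  le_mu : ∀ (n : ℕ) (x : M), Real.exp (-(b * n)) ≤ C * mu n x
  scal : ∀ (n : ℕ) (x : M) (v w : H.Es x) (v' w' : H.Es (H.f^[n] x)),
    θ (H.f^[n] x) v' = H.f^[n] (θ x v) → θ (H.f^[n] x) w' = H.f^[n] (θ x w) →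
    ‖v' - w'‖ ≤ C * mu n x * ‖v - w‖ ∧ mu n x * ‖v - w‖ ≤ C * ‖v' - w'‖
  trans : ∀ x y t, SRel H.f a b x y t → ∃ κ > 0, ∀ (v w : H.Es x) (v' w' : H.Es y),
    θ y v' = θ x v → θ y w' = θ x w →
    ‖v' - w'‖ ≤ C * κ * ‖v - w‖ ∧ κ * ‖v - w‖ ≤ C * ‖v' - w'‖

/-- The size of the derivative of `f^n` on the stable subspace. -/
structure Size (H : Loc M E) (a b : ℝ) where
  sz : ℕ → M → ℝ
  C : ℝ
  hC : 1 ≤ C
  pos : ∀ (n : ℕ) (x : M), 0 < sz n x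
  hi : ∀ (n : ℕ) (x : M) (v : E), v ∈ H.Es x → ‖An H n x v‖ ≤ C * sz n x * ‖v‖
  lo : ∀ (n : ℕ) (x : M) (v : E), v ∈ H.Es x → sz n x * ‖v‖ ≤ C * ‖An H n x v‖
  sz_le : ∀ (n : ℕ) (x : M), sz n x ≤ C * Real.exp (-(a * n))
  le_sz : ∀ (n : ℕ) (x : M), Real.exp (-(b * n)) ≤ C * sz n x

/-- The local linearisation: a map `J0 x` on a small ball of `Es x`, close to the identity, which conjugates `f`
(in the coordinates of `Ps`) to its derivative. -/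
structure LocLin (H : Loc M E) {a b : ℝ} (Ps : SParam H a b) where
  J0 : ∀ x, H.Es x → H.Es x
  R : ℝ
  hR : 0 < R
  C : ℝ
  hC : 1 ≤ C
  zero : ∀ x, J0 x 0 = 0
  approx : ∀ (x : M) (v w : H.Es x), ‖v‖ ≤ R → ‖w‖ ≤ R →
    ‖(J0 x v - J0 x w) - (v - w)‖ ≤ C * (‖v‖ + ‖w‖) * ‖v - w‖
  equiv : ∀ (x : M) (v : H.Es x) (v1 : H.Es (H.f x)), ‖v‖ ≤ R → ‖v1‖ ≤ R →
    Ps.θ (H.f x) v1 = H.f (Ps.θ x v) → ((J0 (H.f x) v1 : H.Es (H.f x)) : E) = H.A x (J0 x v)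

/-- The global linearisation `J x : (stable leaf of x) → Es x`. -/
structure JP (H : Loc M E) (a b : ℝ) where
  J : M → M → E
  C : ℝ
  hC : 1 ≤ C
  r2 : ℝ
  hr2 : 0 < r2
  self : ∀ x, J x x = 0
  mem : ∀ x z t, SRel H.f a b x z t → J x z ∈ H.Es x
  inj : ∀ x z z' t t', SRel H.f a b x z t → SRel H.f a b x z' t' → J x z = J x z' → z = z'
  surj : ∀ x (v : E), v ∈ H.Es x → ∃ z t, SRel H.f a b x z t ∧ J x z = v
  equiv : ∀ x z t, SRel H.f a b x z t → J (H.f x) (H.f z) = H.A x (J x z)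
  loc : ∀ x z z', SRel H.f a b x z r2 → SRel H.f a b x z' r2 →
    ‖J x z - J x z'‖ ≤ C * dist z z' ∧ dist z z' ≤ C * ‖J x z - J x z'‖
  locsurj : ∀ x (v : E), v ∈ H.Es x → C * ‖v‖ ≤ r2 → ∃ z, SRel H.f a b x z (C * ‖v‖) ∧ J x z = v

end Pool.Agent.ANC
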