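import Mathlib
import Pool.Agent.ANC.AS2
import Pool.Agent.ANC.LZD
import Pool.Agent.ANC.NRX

/-! QCM: from quasiconformality on the manifold to QConf of the Loc.  Claim An H n x (F.T x x v) = F.T (f^n x) (f^n x) (D(f^n) x v)
for v tangent at x: induction on n with An_succ', H.A x u = F.D f (f x) x u = F.T (f x)(f x)(mfderiv f x (F.T' x x u)),
F.T' x x (F.T x x v) = v (ANO TAN.lean) and mfderiv_comp (f^[n+1] = f ∘ f^[n]).  Norms: ANO Anosov1.norm_equiv: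
|F.T x x v| ~ N x v up to L.  So Q' = Q L^4.  finrank of the map of a subspace by the injective linear map F.T x x. -/

open Set Metric Function
open scoped Manifold ContDiff

namespace Pool.Agent.ANC

open Pool.Agent.ANO (Fam Anosov1 Loc Trans)

variable {d : ℕ} {M : Type} [MetricSpace M] [ChartedSpace (EuclideanSpace ℝ (Fin d)) M]
  [IsManifold (𝓡 d) ∞ M]

/-- quasiconformality of a one-step hyperbolic diffeomorphism on the unstable bundle -/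
def Anosov1QC (𝒜 : Anosov1 d M) : Prop :=
  ∃ Q : ℝ, 1 ≤ Q ∧ ∀ (x : M) (n : ℕ) (v w : TangentSpace (𝓡 d) x), v ∈ 𝒜.Eu x → w ∈ 𝒜.Eu x →
    𝒜.N (𝒜.f^[n] x) (mfderiv (𝓡 d) (𝓡 d) (𝒜.f^[n]) x v) * 𝒜.N x w ≤
      Q * (𝒜.N (𝒜.f^[n] x) (mfderiv (𝓡 d) (𝓡 d) (𝒜.f^[n]) x w) * 𝒜.N x v)

private theorem qcm_T'T (F : Fam d M) (x : M) (v : TangentSpace (𝓡 d) x) :
    F.T' x x (F.T x x v) = v :=
  F.T'_T (by rw [dist_self]; linarith [F.hr]) v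

private theorem qcm_smooth (𝒜 : Anosov1 d M) (n : ℕ) : ContMDiff (𝓡 d) (𝓡 d) 1 (𝒜.f^[n]) := by
  induction n with
  | zero => exact contMDiff_id
  | succ n ih =>
    rw [Function.iterate_succ']
    exact 𝒜.hf.comp ih

private theorem qcm_key (𝒜 : Anosov1 d M) (F : Fam d M)
    (H : Loc M (EuclideanSpace ℝ (Fin d))) (hf : ∀ x, H.f x = 𝒜.f x)
    (hA : ∀ x v, H.A x v = F.D 𝒜.f (𝒜.f x) x v) (n : ℕ) :
    ∀ h : M → M, h = 𝒜.f^[n] → ∀ (x : M) (v : TangentSpace (𝓡 d) x),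
      An H n x (F.T x x v) = F.T (h x) (h x) (mfderiv (𝓡 d) (𝓡 d) h x v) := by
  induction n with
  | zero =>
    intro h hh x v
    rw [Function.iterate_zero] at hh
    subst hh
    rw [mfderiv_id]
    rfl
  | succ n ih =>
    intro h hh x v
    rw [Function.iterate_succ'] at hh
    subst hh
    have hfn : H.f^[n] x = 𝒜.f^[n] x := by
      have : (H.f : M → M) = 𝒜.f := funext hf
      rw [this]
    have h1 : mfderiv (𝓡 d) (𝓡 d) (𝒜.f ∘ 𝒜.f^[n]) x =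
        (mfderiv (𝓡 d) (𝓡 d) 𝒜.f (𝒜.f^[n] x)).comp (mfderiv (𝓡 d) (𝓡 d) (𝒜.f^[n]) x) :=
      mfderiv_comp x ((𝒜.hf.mdifferentiable one_ne_zero) _)
        (((qcm_smooth 𝒜 n).mdifferentiable one_ne_zero) _)
    rw [An_succ', ih _ rfl x v, hfn, hA, h1]
    have h2 := qcm_T'T F (𝒜.f^[n] x) (mfderiv (𝓡 d) (𝓡 d) (𝒜.f^[n]) x v)
    show F.T (𝒜.f (𝒜.f^[n] x)) (𝒜.f (𝒜.f^[n] x)) (mfderiv (𝓡 d) (𝓡 d) 𝒜.f (𝒜.f^[n] x)
      (F.T' (𝒜.f^[n] x) (𝒜.f^[n] x) (F.T (𝒜.f^[n] x) (𝒜.f^[n] x)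
        (mfderiv (𝓡 d) (𝓡 d) (𝒜.f^[n]) x v)))) = _
    rw [h2]
    rfl

theorem qconf_of_manifold [CompactSpace M] (𝒜 : Anosov1 d M) (F : Fam d M) (hq : Anosov1QC 𝒜)
    (H : Loc M (EuclideanSpace ℝ (Fin d))) (hf : ∀ x, H.f x = 𝒜.f x)
    (hA : ∀ x v, H.A x v = F.D 𝒜.f (𝒜.f x) x v)
    (hE : ∀ x, H.Eu x = (𝒜.Eu x).map (F.T x x).toLinearMap) : QConf H H.Eu := by
  obtain ⟨Q, hQ, hq⟩ := hq
  obtain ⟨L, hL, hN⟩ := 𝒜.norm_equiv F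
  have h0 : ∀ x : M, dist x x ≤ F.r := fun x => by rw [dist_self]; exact F.hr.le
  have hL0 : 0 < L := by linarith
  have hT : ∀ (x : M) (v : TangentSpace (𝓡 d) x), ‖F.T x x v‖ ≤ L * 𝒜.N x v := by
    intro x v
    have h1 := (hN x x (h0 x) (F.T x x v)).2
    rwa [qcm_T'T] at h1
  have hT2 : ∀ (x : M) (v : TangentSpace (𝓡 d) x), 𝒜.N x v ≤ L * ‖F.T x x v‖ := by
    intro x v
    have h1 := (hN x x (h0 x) (F.T x x v)).1
    rwa [qcm_T'T] at h1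
  have hNn : ∀ (x : M) (v : TangentSpace (𝓡 d) x), 0 ≤ 𝒜.N x v := by
    intro x v
    have h1 := hT x v
    have h2 : 0 ≤ ‖F.T x x v‖ := norm_nonneg _
    by_contra hc
    have : L * 𝒜.N x v < 0 := mul_neg_of_pos_of_neg hL0 (not_le.1 hc)
    linarith
  have hQ0 : 0 < Q := by linarith
  refine ⟨L * L * Q * (L * L), ?_, ?_⟩
  · have h1 : 1 ≤ L * L := by nlinarith
    have h2 : 1 ≤ L * L * Q := by nlinarith
    nlinarith
  · intro x n V W hV hW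
    rw [hE] at hV hW
    obtain ⟨v, hv, rfl⟩ := hV
    obtain ⟨w, hw, rfl⟩ := hW
    show ‖An H n x (F.T x x v)‖ * ‖F.T x x w‖ ≤
      L * L * Q * (L * L) * (‖An H n x (F.T x x w)‖ * ‖F.T x x v‖)
    rw [qcm_key 𝒜 F H hf hA n _ rfl x v, qcm_key 𝒜 F H hf hA n _ rfl x w]
    have h1 := hT (𝒜.f^[n] x) (mfderiv (𝓡 d) (𝓡 d) (𝒜.f^[n]) x v)
    have h2 := hT x w
    have h3 := hT2 (𝒜.f^[n] x) (mfderiv (𝓡 d) (𝓡 d) (𝒜.f^[n]) x w)
    have h4 := hT2 x v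
    have h5 := hq x n v w hv hw
    have h6 := hNn (𝒜.f^[n] x) (mfderiv (𝓡 d) (𝓡 d) (𝒜.f^[n]) x v)
    have h7 := hNn (𝒜.f^[n] x) (mfderiv (𝓡 d) (𝓡 d) (𝒜.f^[n]) x w)
    have h8 := hNn x v
    have h9 := hNn x w
    set a := 𝒜.N (𝒜.f^[n] x) (mfderiv (𝓡 d) (𝓡 d) (𝒜.f^[n]) x v)
    set b := 𝒜.N (𝒜.f^[n] x) (mfderiv (𝓡 d) (𝓡 d) (𝒜.f^[n]) x w)
    set A := ‖F.T (𝒜.f^[n] x) (𝒜.f^[n] x) (mfderiv (𝓡 d) (𝓡 d) (𝒜.f^[n]) x v)‖
    set B := ‖F.T (𝒜.f^[n] x) (𝒜.f^[n] x) (mfderiv (𝓡 d) (𝓡 d) (𝒜.f^[n]) x w)‖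
    calc A * ‖F.T x x w‖ ≤ (L * a) * (L * 𝒜.N x w) :=
          mul_le_mul h1 h2 (norm_nonneg _) (by positivity)
      _ = L * L * (a * 𝒜.N x w) := by ring
      _ ≤ L * L * (Q * (b * 𝒜.N x v)) := mul_le_mul_of_nonneg_left h5 (by positivity)
      _ = L * L * Q * (b * 𝒜.N x v) := by ring
      _ ≤ L * L * Q * ((L * B) * (L * ‖F.T x x v‖)) := by
          refine mul_le_mul_of_nonneg_left ?_ (by positivity)
          exact mul_le_mul h3 h4 h8 (by positivity)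
      _ = _ := by ring

theorem finrank_of_manifold (𝒜 : Anosov1 d M) (F : Fam d M) (H : Loc M (EuclideanSpace ℝ (Fin d)))
    (hE : ∀ x, H.Eu x = (𝒜.Eu x).map (F.T x x).toLinearMap) (x : M) :
    Module.finrank ℝ (H.Eu x) = Module.finrank ℝ (𝒜.Eu x) := by
  rw [hE]
  have hinj : Injective (F.T x x).toLinearMap := by
    intro v w h
    have h1 : F.T x x v = F.T x x w := h
    rw [← qcm_T'T F x v, ← qcm_T'T F x w, h1]
  exact (LinearEquiv.finrank_eq (Submodule.equivMapOfInjective _ hinj (𝒜.Eu x))).symm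

end Pool.Agent.ANC
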