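import Mathlib
import Pool.Agent.ANC.QCM
import Pool.Agent.ANO.PWR

/-! PWX: a power of an Anosov diffeomorphism (usual definition) is hyperbolic in one step, and stays C^2 and quasiconformal.
m ≥ 1 with C μ^m < 1; 𝒜.f = f^[m], 𝒜.g = g^[m]; l2 = C μ^m; m2 = (C μ^m)^{-1}: for v ∈ Eu x, w = D f^m v ∈ Eu, D g^m w = v
(chain rule, g^m f^m = id), so N v ≤ C μ^m N w; l1 = min l2 (1/L'), L' from CNorm.deriv_le for g^[m]; m1 = max m2 L from
CNorm.deriv_le for f^[m].  See ANO/PWR.lean (pwr_contMDiff_iterate, pwr_inv) and ANO/ASY.lean for the tangent map tricks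
(avoid casts between tangent spaces at g (f x) and x by working in the TangentBundle).  If C μ^m = 0 is impossible (C, μ > 0).
If Es or Eu is trivial everything still works.  Anosov1QC: (f^[m])^[n] = f^[m*n]. -/

open Set Metric Function
open scoped Manifold ContDiff

namespace Pool.Agent.ANC

open Pool.Agent.ANO (Fam Anosov1 Loc Trans)

variable {d : ℕ} {M : Type} [MetricSpace M] [ChartedSpace (EuclideanSpace ℝ (Fin d)) M]
  [IsManifold (𝓡 d) ∞ M]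

omit [IsManifold (𝓡 d) ∞ M] in
private theorem pwx_iter {f : M → M} (hf : ContMDiff (𝓡 d) (𝓡 d) 2 f) (k : ℕ) :
    ContMDiff (𝓡 d) (𝓡 d) 2 (Nat.iterate f k) := by
  induction k with
  | zero => exact contMDiff_id
  | succ k ih => exact ih.comp hf

omit [IsManifold (𝓡 d) ∞ M] in
private theorem pwx_id (N : ∀ x : M, TangentSpace (𝓡 d) x → ℝ) (h : M → M) (hh : h = id) (x : M)
    (v : TangentSpace (𝓡 d) x) : N (h x) (mfderiv (𝓡 d) (𝓡 d) h x v) = N x v := by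
  subst hh
  rw [mfderiv_id]
  rfl

omit [IsManifold (𝓡 d) ∞ M] in
private theorem pwx_back (N : ∀ x : M, TangentSpace (𝓡 d) x → ℝ) (f g : M → M)
    (hf : ContMDiff (𝓡 d) (𝓡 d) 1 f) (hg : ContMDiff (𝓡 d) (𝓡 d) 1 g) (gf : LeftInverse g f) (x : M)
    (v : TangentSpace (𝓡 d) x) :
    N (g (f x)) (mfderiv (𝓡 d) (𝓡 d) g (f x) (mfderiv (𝓡 d) (𝓡 d) f x v)) = N x v := by
  have h1 := pwx_id N (g ∘ f) (funext gf) x v
  have hf1 : MDifferentiableAt (𝓡 d) (𝓡 d) f x := (hf x).mdifferentiableAt (by norm_num)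
  have hg1 : MDifferentiableAt (𝓡 d) (𝓡 d) g (f x) := (hg (f x)).mdifferentiableAt (by norm_num)
  have h2 : mfderiv (𝓡 d) (𝓡 d) (g ∘ f) x =
      (mfderiv (𝓡 d) (𝓡 d) g (f x)).comp (mfderiv (𝓡 d) (𝓡 d) f x) := mfderiv_comp x hg1 hf1
  rw [h2] at h1
  exact h1

private theorem pwx_nonneg {N : ∀ x : M, TangentSpace (𝓡 d) x → ℝ} (hN : CNorm d M N) (x : M)
    (v : TangentSpace (𝓡 d) x) : 0 ≤ N x v := by
  have h0 : N x ((0 : ℝ) • v) = 0 := by rw [hN.N_smul]; simp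
  have h1 : N x ((-1 : ℝ) • v) = N x v := by rw [hN.N_smul]; simp
  have h2 := hN.N_add x v ((-1 : ℝ) • v)
  have h3 : v + (-1 : ℝ) • v = (0 : ℝ) • v := by
    rw [zero_smul, neg_one_smul, add_neg_cancel]
  rw [h3, h0, h1] at h2
  linarith

theorem exists_power [CompactSpace M] (F : Fam d M) (f g : M → M) (hf : ContMDiff (𝓡 d) (𝓡 d) 2 f)
    (hg : ContMDiff (𝓡 d) (𝓡 d) 2 g) (gf : LeftInverse g f) (fg : RightInverse g f)
    (N : ∀ x : M, TangentSpace (𝓡 d) x → ℝ) (hN : CNorm d M N)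
    (C μ : ℝ) (hC : 0 < C) (hμ : 0 < μ) (hμ1 : μ < 1)
    (Es Eu : ∀ x : M, Submodule ℝ (TangentSpace (𝓡 d) x))
    (hcompl : ∀ x : M, IsCompl (Es x) (Eu x))
    (inv_s : ∀ (x : M) (v : TangentSpace (𝓡 d) x), v ∈ Es x →
      mfderiv (𝓡 d) (𝓡 d) f x v ∈ Es (f x))
    (inv_u : ∀ (x : M) (v : TangentSpace (𝓡 d) x), v ∈ Eu x →
      mfderiv (𝓡 d) (𝓡 d) f x v ∈ Eu (f x))
    (hs : ∀ (x : M) (v : TangentSpace (𝓡 d) x), v ∈ Es x → ∀ k : ℕ,
      N (Nat.iterate f k x) (mfderiv (𝓡 d) (𝓡 d) (Nat.iterate f k) x v) ≤ C * μ ^ k * N x v)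
    (hu : ∀ (x : M) (v : TangentSpace (𝓡 d) x), v ∈ Eu x → ∀ k : ℕ,
      N (Nat.iterate g k x) (mfderiv (𝓡 d) (𝓡 d) (Nat.iterate g k) x v) ≤ C * μ ^ k * N x v)
    (Q : ℝ) (hQ : ∀ (x : M) (v w : TangentSpace (𝓡 d) x), v ∈ Eu x → w ∈ Eu x → ∀ k : ℕ,
      N (Nat.iterate f k x) (mfderiv (𝓡 d) (𝓡 d) (Nat.iterate f k) x v) * N x w ≤
        Q * (N (Nat.iterate f k x) (mfderiv (𝓡 d) (𝓡 d) (Nat.iterate f k) x w) * N x v)) :
    ∃ (𝒜 : Anosov1 d M) (m : ℕ), 1 ≤ m ∧ 𝒜.f = Nat.iterate f m ∧ ContMDiff (𝓡 d) (𝓡 d) 2 𝒜.f ∧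
      Anosov1QC 𝒜 ∧ ∀ x, 𝒜.Eu x = Eu x := by
  have hf1 : ContMDiff (𝓡 d) (𝓡 d) 1 f := hf.of_le (by norm_num)
  have hg1 : ContMDiff (𝓡 d) (𝓡 d) 1 g := hg.of_le (by norm_num)
  obtain ⟨m, hm1, hm⟩ : ∃ m : ℕ, 1 ≤ m ∧ C * μ ^ m < 1 := by
    obtain ⟨m, hm⟩ := exists_pow_lt_of_lt_one (show (0 : ℝ) < 1 / C by positivity) hμ1
    refine ⟨m + 1, by omega, ?_⟩
    have h1 : μ ^ (m + 1) ≤ μ ^ m := pow_le_pow_of_le_one hμ.le hμ1.le (by omega)
    have h2 : μ ^ (m + 1) < 1 / C := lt_of_le_of_lt h1 hm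
    rw [lt_div_iff₀ hC] at h2
    linarith
  have hl0 : 0 < C * μ ^ m := by positivity
  have hfm := Pool.Agent.ANO.pwr_contMDiff_iterate hf1 m
  have hgm := Pool.Agent.ANO.pwr_contMDiff_iterate hg1 m
  obtain ⟨L, hL1, hL⟩ := hN.deriv_le F (Nat.iterate f m) hfm
  obtain ⟨L', hL1', hL'⟩ := hN.deriv_le F (Nat.iterate g m) hgm
  have hback : ∀ (x : M) (v : TangentSpace (𝓡 d) x),
      N (Nat.iterate g m (Nat.iterate f m x)) (mfderiv (𝓡 d) (𝓡 d) (Nat.iterate g m)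
        (Nat.iterate f m x) (mfderiv (𝓡 d) (𝓡 d) (Nat.iterate f m) x v)) = N x v :=
    fun x v => pwx_back N _ _ hfm hgm (gf.iterate m) x v
  have hinvu := Pool.Agent.ANO.pwr_inv hf1 Eu inv_u m
  have hinvs := Pool.Agent.ANO.pwr_inv hf1 Es inv_s m
  have hL0 : 0 < L := by linarith
  have hL0' : 0 < L' := by linarith
  refine ⟨{
    f := Nat.iterate f m
    g := Nat.iterate g m
    hf := hfm
    hg := hgm
    gf := gf.iterate m
    fg := fg.iterate m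
    N := N
    N_cont := hN.N_cont
    N_add := hN.N_add
    N_smul := hN.N_smul
    N_pos := hN.N_pos
    l1 := min (C * μ ^ m) (1 / L')
    l2 := C * μ ^ m
    m2 := (C * μ ^ m)⁻¹
    m1 := max (C * μ ^ m)⁻¹ L
    hl1 := lt_min hl0 (by positivity)
    hl12 := min_le_left _ _
    hl2 := hm
    hm2 := (one_lt_inv₀ hl0).2 hm
    hm12 := le_max_left _ _
    Es := Es
    Eu := Eu
    compl := hcompl
    inv_s := hinvs
    inv_u := hinvu
    s_lo := ?_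
    s_hi := ?_
    u_lo := ?_
    u_hi := ?_ }, m, hm1, rfl, pwx_iter hf m, ?_, fun x => rfl⟩
  · intro x v hv
    have h1 := hL' (Nat.iterate f m x) (mfderiv (𝓡 d) (𝓡 d) (Nat.iterate f m) x v)
    rw [hback x v] at h1
    have h2 : min (C * μ ^ m) (1 / L') * N x v ≤ 1 / L' * N x v :=
      mul_le_mul_of_nonneg_right (min_le_right _ _) (pwx_nonneg hN x v)
    refine h2.trans ?_
    rw [one_div, inv_mul_le_iff₀ hL0']
    exact h1
  · intro x v hv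
    exact hs x v hv m
  · intro x v hv
    have h1 := hu (Nat.iterate f m x) (mfderiv (𝓡 d) (𝓡 d) (Nat.iterate f m) x v) (hinvu x v hv) m
    rw [hback x v] at h1
    change (C * μ ^ m)⁻¹ * N x v ≤ _
    rw [inv_mul_le_iff₀ hl0]
    exact h1
  · intro x v hv
    refine (hL x v).trans ?_
    exact mul_le_mul_of_nonneg_right (le_max_right _ _) (pwx_nonneg hN x v)
  · refine ⟨max Q 1, le_max_right _ _, fun x n v w hv hw => ?_⟩
    have h1 := hQ x v w hv hw (m * n)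
    have h2 : Nat.iterate f (m * n) = Nat.iterate (Nat.iterate f m) n := Function.iterate_mul f m n
    rw [h2] at h1
    refine h1.trans (mul_le_mul_of_nonneg_right (le_max_left _ _) ?_)
    exact mul_nonneg (pwx_nonneg hN _ _) (pwx_nonneg hN _ _)


end Pool.Agent.ANC
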