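import Mathlib
import Pool.Agent.ANC.LZD

/-! RNK: finrank (Eu y) is constant: T.dim x y and T.dim x x give finrank (Eu y) = finrank (Eu x) for dist x y ≤ ρ; locally constant
functions on a connected space are constant. -/

open Set Metric Function

namespace Pool.Agent.ANC

open Pool.Agent.ANO (Loc Trans SRel SParam)

variable {M : Type} [MetricSpace M] [ConnectedSpace M] {E : Type} [NormedAddCommGroup E] [NormedSpace ℝ E]

theorem rank_const {H : Loc M E} (T : Trans H) (x y : M) :
    Module.finrank ℝ (H.Eu x) = Module.finrank ℝ (H.Eu y) := by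
  have hlc : IsLocallyConstant (fun z : M => Module.finrank ℝ (H.Eu z)) := by
    rw [IsLocallyConstant.iff_exists_open]
    intro z
    refine ⟨ball z T.ρ, isOpen_ball, mem_ball_self T.hρ, ?_⟩
    intro w hw
    have h1 : dist z w ≤ T.ρ := by
      rw [dist_comm]
      exact (mem_ball.mp hw).le
    have h2 := T.dim z w h1
    have h3 := T.dim z z (by rw [dist_self]; exact T.hρ.le)
    show Module.finrank ℝ (H.Eu w) = Module.finrank ℝ (H.Eu z)
    omega
  exact hlc.apply_eq_of_preconnectedSpace x y

end Pool.Agent.ANC
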