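import Mathlib
import Pool.Agent.ANC.LZD

/-! LZ1: f in the coordinates of Ps.  For small v: dist x (θ x v) ≤ K0 |v| (SParam.rel_zero), θ x v and θ x w are related by
K0 |v - w| (unif), f θ x v is related to f x by e^{-a} K0 |v| (SRel.fwd), so Ps.loc gives a coordinate of size ≤ K0 e^{-a} K0 |v| ≤ R0
and by injectivity it is v1.  coord at f x: P (c (fx) (f θ x v)) = v1; coord at x: P (c x (θ x v)) = v.  Apply P (f x) (norm ≤ L^3) to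
the Der2 estimate with y = θ x v, z = θ x w; P_A: P (A u) = A (P u); |c x y - c x z| ≤ L dist y z ≤ L K0 |v - w|. -/

open Set Metric Function

namespace Pool.Agent.ANC

open Pool.Agent.ANO (Loc Trans SRel SParam)

variable {M : Type} [MetricSpace M] [CompactSpace M] {E : Type} [NormedAddCommGroup E] [NormedSpace ℝ E]
  [FiniteDimensional ℝ E]

private theorem lz1_exp {a : ℝ} (ha : 0 < a) : Real.exp (-a) ≤ 1 := by
  rw [Real.exp_le_one_iff]; linarith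

private theorem lz1_coord {M : Type} [MetricSpace M] {E : Type} [NormedAddCommGroup E] [NormedSpace ℝ E]
    {H : Loc M E} {a b : ℝ} (ha : 0 < a) (hab : a ≤ b) (Ps : SParam H a b)
    (x : M) (v : H.Es x) (v1 : H.Es (H.f x)) (h1 : Ps.K0 ^ 2 * ‖v‖ ≤ Ps.R0)
    (he : Ps.θ (H.f x) v1 = H.f (Ps.θ x v)) : ‖v‖ ≤ Ps.R0 ∧ ‖v1‖ ≤ Ps.R0 := by
  have hK := Ps.hK0
  have hv := norm_nonneg v
  have hq : 1 ≤ Ps.K0 ^ 2 := by nlinarith
  have h2 : ‖v‖ ≤ Ps.K0 ^ 2 * ‖v‖ := le_mul_of_one_le_left hv hq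
  have h3 : Ps.K0 * ‖v‖ ≤ Ps.K0 ^ 2 * ‖v‖ := by nlinarith [mul_nonneg (by linarith : 0 ≤ Ps.K0) hv]
  have h4 := (Ps.rel_zero x v (h2.trans h1)).fwd ha hab
  have h5 : Real.exp (-a) * (Ps.K0 * ‖v‖) ≤ Ps.K0 * ‖v‖ := by
    have := lz1_exp ha
    have h6 : 0 ≤ Ps.K0 * ‖v‖ := by positivity
    nlinarith
  obtain ⟨u, hu, hu'⟩ := Ps.loc (H.f x) _ _ (h5.trans (h3.trans h1)) h4
  have h6 : u = v1 := Ps.inj _ (hu'.trans he.symm)
  subst h6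
  refine ⟨h2.trans h1, hu.trans (le_trans ?_ h1)⟩
  nlinarith

theorem expand {H : Loc M E} {a b : ℝ} (ha : 0 < a) (hab : a ≤ b) (Ps : SParam H a b) (hd : Der2 H) :
    ∃ K > 0, ∃ R > 0, ∀ (x : M) (v w : H.Es x) (v1 w1 : H.Es (H.f x)), ‖v‖ ≤ R → ‖w‖ ≤ R →
      Ps.θ (H.f x) v1 = H.f (Ps.θ x v) → Ps.θ (H.f x) w1 = H.f (Ps.θ x w) →
      ‖((v1 : E) - w1) - H.A x ((v : E) - w)‖ ≤ K * (‖v‖ + ‖w‖) * ‖v - w‖ := by
  obtain ⟨K, hK, ρ, hρ, hder⟩ := hd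
  have hL : 0 < H.L := lt_of_lt_of_le one_pos H.hL
  have hK0 : 1 ≤ Ps.K0 := Ps.hK0
  have hK0' : 0 < Ps.K0 := by linarith
  refine ⟨H.L ^ 3 * (K * Ps.K0 * (H.L * Ps.K0)), by positivity,
    min (Ps.R0 / Ps.K0 ^ 2) (ρ / Ps.K0), lt_min (div_pos Ps.hR0 (by positivity)) (by positivity), ?_⟩
  intro x v w v1 w1 hv hw hv1 hw1
  have A1 : Ps.K0 ^ 2 * ‖v‖ ≤ Ps.R0 := by
    have := hv.trans (min_le_left _ _)
    rw [le_div_iff₀ (by positivity)] at this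
    linarith
  have A2 : Ps.K0 ^ 2 * ‖w‖ ≤ Ps.R0 := by
    have := hw.trans (min_le_left _ _)
    rw [le_div_iff₀ (by positivity)] at this
    linarith
  have B1 : Ps.K0 * ‖v‖ ≤ ρ := by
    have := hv.trans (min_le_right _ _)
    rw [le_div_iff₀ (by positivity)] at this
    linarith
  have B2 : Ps.K0 * ‖w‖ ≤ ρ := by
    have := hw.trans (min_le_right _ _)
    rw [le_div_iff₀ (by positivity)] at this
    linarith
  obtain ⟨c1, c2⟩ := lz1_coord ha hab Ps x v v1 A1 hv1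
  obtain ⟨c3, c4⟩ := lz1_coord ha hab Ps x w w1 A2 hw1
  have d1 : dist x (Ps.θ x v) ≤ Ps.K0 * ‖v‖ := (Ps.rel_zero x v c1).dist_le
  have d2 : dist x (Ps.θ x w) ≤ Ps.K0 * ‖w‖ := (Ps.rel_zero x w c3).dist_le
  have hD := hder x (Ps.θ x v) (Ps.θ x w) (d1.trans B1) (d2.trans B2)
  obtain ⟨e1, e2⟩ := Ps.coord x v c1
  obtain ⟨e3, e4⟩ := Ps.coord x w c3
  obtain ⟨e5, e6⟩ := Ps.coord (H.f x) v1 c2
  obtain ⟨e7, e8⟩ := Ps.coord (H.f x) w1 c4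
  rw [hv1] at e6
  rw [hw1] at e8
  have hid : H.P (H.f x) (H.c (H.f x) (H.f (Ps.θ x v)) - H.c (H.f x) (H.f (Ps.θ x w)) -
      H.A x (H.c x (Ps.θ x v) - H.c x (Ps.θ x w))) = ((v1 : E) - w1) - H.A x ((v : E) - w) := by
    rw [map_sub, map_sub, H.P_A, map_sub, e2, e4, e6, e8]
  rw [← hid]
  have hc : ‖H.c x (Ps.θ x v) - H.c x (Ps.θ x w)‖ ≤ H.L * (Ps.K0 * ‖v - w‖) := by
    refine (H.c_le x _ _ e1 e3).trans ?_
    exact mul_le_mul_of_nonneg_left (Ps.unif x v w c1 c3).dist_le hL.le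
  have hs : dist x (Ps.θ x v) + dist x (Ps.θ x w) ≤ Ps.K0 * (‖v‖ + ‖w‖) := by linarith
  calc _ ≤ H.L ^ 3 * _ := H.norm_P_le _ _
    _ ≤ H.L ^ 3 * (K * (Ps.K0 * (‖v‖ + ‖w‖)) * (H.L * (Ps.K0 * ‖v - w‖))) := by
        refine mul_le_mul_of_nonneg_left (hD.trans ?_) (by positivity)
        exact mul_le_mul (mul_le_mul_of_nonneg_left hs hK.le) hc (norm_nonneg _) (by positivity)
    _ = _ := by ring

/-- the orbit of a small vector in the coordinates of `Ps` -/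
theorem small_orbit {H : Loc M E} {a b : ℝ} (ha : 0 < a) (hab : a ≤ b) (Ps : SParam H a b) :
    ∃ K ≥ 1, ∃ R > 0, ∀ (x : M) (v : H.Es x), ‖v‖ ≤ R → ∀ n : ℕ, ∃ v' : H.Es (H.f^[n] x),
      Ps.θ (H.f^[n] x) v' = H.f^[n] (Ps.θ x v) ∧ ‖v'‖ ≤ K * Real.exp (-(a * n)) * ‖v‖ := by
  have hK0 : 1 ≤ Ps.K0 := Ps.hK0
  have hK0' : 0 < Ps.K0 := by linarith
  refine ⟨Ps.K0 ^ 2, by nlinarith, Ps.R0 / Ps.K0, div_pos Ps.hR0 hK0', ?_⟩
  intro x v hv n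
  have A1 : Ps.K0 * ‖v‖ ≤ Ps.R0 := by
    rw [le_div_iff₀ (by positivity)] at hv
    linarith
  have hv0 := norm_nonneg v
  have A2 : ‖v‖ ≤ Ps.R0 := by nlinarith
  have h1 := (Ps.rel_zero x v A2).fwd_iter ha hab n
  have he : Real.exp (-(a * n)) ≤ 1 := by
    rw [Real.exp_le_one_iff]
    have : 0 ≤ a * (n : ℝ) := by positivity
    linarith
  have h2 : Real.exp (-(a * n)) * (Ps.K0 * ‖v‖) ≤ Ps.R0 := by
    have h6 : 0 ≤ Ps.K0 * ‖v‖ := by positivity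
    nlinarith
  obtain ⟨u, hu, hu'⟩ := Ps.loc _ _ _ h2 h1
  exact ⟨u, hu', hu.trans (le_of_eq (by ring))⟩

end Pool.Agent.ANC
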