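import Mathlib
import Pool.Agent.ANC.LZD

/-! LZ3: almost invariant sequences.  q n := (An n x)^{-1} (p n) ∈ Es x.  q (n+1) - q n = (An (n+1) x)^{-1} (p (n+1) - A p n), so by Size:
|q (n+1) - q n| ≤ (C / sz (n+1)) T e^{-an} |p n| ≤ (C / sz (n+1)) T e^{-an} C sz n |q n|, and sz n ≤ C' sz (n+1) with a uniform C'
(A is bounded below by l1 in the norm n; test on one vector of Es x; if Es x = 0 everything is 0).  So |q (n+1) - q n| ≤ C'' T e^{-an} |q n|;
for C'' T / (1 - e^{-a}) ≤ 1/2 get |q n| ≤ 2 |q 0|, Cauchy, limit q with |q - q 0| ≤ 2 C'' T / (1 - e^{-a}) |q 0|.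
Es x is closed (finite dimension). -/

open Set Metric Function Filter Topology

namespace Pool.Agent.ANC

open Pool.Agent.ANO (Loc Trans SRel SParam)

variable {M : Type} [MetricSpace M] {E : Type} [NormedAddCommGroup E] [NormedSpace ℝ E]
  [FiniteDimensional ℝ E]

omit [FiniteDimensional ℝ E] in
private theorem LZ3_symm_mem (H : Loc M E) (x : M) (w : E) (hw : w ∈ H.Es (H.f x)) :
    (H.A x).symm w ∈ H.Es x := by
  obtain ⟨v, hv, u, hu, hvu⟩ := Submodule.mem_sup.1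
    (show (H.A x).symm w ∈ H.Es x ⊔ H.Eu x from by rw [(H.compl x).sup_eq_top]; trivial)
  have h1 : H.A x v + H.A x u = w := by
    rw [← map_add, hvu]
    simp
  have h2 : H.A x u = w - H.A x v := by rw [← h1]; abel
  have h3 : H.A x u ∈ H.Es (H.f x) := by
    rw [h2]
    exact Submodule.sub_mem _ hw (H.A_s x v hv)
  have h4 : H.A x u = 0 :=
    Submodule.disjoint_def.1 (H.compl (H.f x)).disjoint _ h3 (H.A_u x u hu)
  have h5 : u = 0 := by
    have := (H.A x).injective (h4.trans (map_zero (H.A x)).symm)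
    exact this
  rw [← hvu, h5, add_zero]
  exact hv

omit [FiniteDimensional ℝ E] in
private theorem LZ3_An_symm_mem (H : Loc M E) (n : ℕ) (x : M) (w : E) (hw : w ∈ H.Es (H.f^[n] x)) :
    (An H n x).symm w ∈ H.Es x := by
  induction n generalizing x w with
  | zero => exact hw
  | succ n ih =>
    have h : (An H (n + 1) x).symm w = (H.A x).symm ((An H n (H.f x)).symm w) := rfl
    rw [h]
    exact LZ3_symm_mem H x _ (ih (H.f x) w hw)

theorem lin_seq {H : Loc M E} {a b : ℝ} (ha : 0 < a) (Z : Size H a b) : ∃ C ≥ 1, ∃ T0 > 0,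
    ∀ (x : M) (p : ℕ → E) (T : ℝ), 0 ≤ T → T ≤ T0 → (∀ n, p n ∈ H.Es (H.f^[n] x)) →
      (∀ n : ℕ, ‖p (n + 1) - H.A (H.f^[n] x) (p n)‖ ≤ T * Real.exp (-(a * n)) * ‖p n‖) →
      ∃ q ∈ H.Es x, Tendsto (fun n => (An H n x).symm (p n)) atTop (𝓝 q) ∧ ‖q - p 0‖ ≤ C * T * ‖p 0‖ := by
  have : CompleteSpace E := FiniteDimensional.complete ℝ E
  set r : ℝ := Real.exp (-a) with hr
  have hr0 : 0 < r := Real.exp_pos _
  have hr1 : r < 1 := by
    rw [hr]
    exact Real.exp_lt_one_iff.2 (by linarith)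
  have h1r : 0 < 1 - r := by linarith
  have hC := Z.hC
  have hC0 : 0 < Z.C := by linarith
  have hL := H.hL
  have hL0 : 0 < H.L := by linarith
  set K : ℝ := Z.C ^ 4 * H.L with hK
  have hK1 : 1 ≤ K := one_le_mul_of_one_le_of_one_le (one_le_pow₀ hC) hL
  have hK0 : 0 < K := by linarith
  have hS1 : 1 ≤ 1 / (1 - r) := by
    rw [le_div_iff₀ h1r]
    linarith
  refine ⟨2 * K / (1 - r), ?_, (1 - r) / (2 * K), by positivity, ?_⟩
  · rw [ge_iff_le, le_div_iff₀ h1r]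
    linarith
  intro x p T hT hT0 hp hrec
  set q : ℕ → E := fun n => (An H n x).symm (p n) with hq
  have hqm : ∀ n, q n ∈ H.Es x := fun n => LZ3_An_symm_mem H n x (p n) (hp n)
  have hAq : ∀ n, An H n x (q n) = p n := fun n => ContinuousLinearEquiv.apply_symm_apply _ _
  have hq0 : q 0 = p 0 := rfl
  have hexp : ∀ n : ℕ, Real.exp (-(a * n)) = r ^ n := by
    intro n
    rw [hr, ← Real.exp_nat_mul]
    congr 1
    ring
  have hsz : ∀ (n : ℕ) (v : E), v ∈ H.Es x → v ≠ 0 → Z.sz n x ≤ Z.C ^ 2 * H.L * Z.sz (n + 1) x := by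
    intro n v hv hv0
    have hv1 : 0 < ‖v‖ := norm_pos_iff.2 hv0
    have e1 := Z.lo n x v hv
    have e2 : ‖An H n x v‖ ≤ H.L * ‖An H (n + 1) x v‖ := by
      have := H.A_symm_le (H.f^[n] x) (H.A (H.f^[n] x) (An H n x v))
      rwa [ContinuousLinearEquiv.symm_apply_apply, ← An_succ'] at this
    have e3 := Z.hi (n + 1) x v hv
    have e4 : Z.sz n x * ‖v‖ ≤ (Z.C ^ 2 * H.L * Z.sz (n + 1) x) * ‖v‖ := by
      calc Z.sz n x * ‖v‖ ≤ Z.C * ‖An H n x v‖ := e1
        _ ≤ Z.C * (H.L * ‖An H (n + 1) x v‖) := mul_le_mul_of_nonneg_left e2 hC0.le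
        _ ≤ Z.C * (H.L * (Z.C * Z.sz (n + 1) x * ‖v‖)) :=
            mul_le_mul_of_nonneg_left (mul_le_mul_of_nonneg_left e3 hL0.le) hC0.le
        _ = _ := by ring
    exact le_of_mul_le_mul_right e4 hv1
  have hstep : ∀ n, ‖q (n + 1) - q n‖ ≤ K * T * r ^ n * ‖q n‖ := by
    intro n
    by_cases h0 : q (n + 1) - q n = 0
    · rw [h0, norm_zero]
      positivity
    have hm : q (n + 1) - q n ∈ H.Es x := Submodule.sub_mem _ (hqm _) (hqm _)
    have e1 := Z.lo (n + 1) x _ hm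
    have e2 : An H (n + 1) x (q (n + 1) - q n) = p (n + 1) - H.A (H.f^[n] x) (p n) := by
      rw [map_sub, hAq, An_succ', hAq]
    rw [e2] at e1
    have e3 := hrec n
    rw [hexp] at e3
    have e4 : ‖p n‖ ≤ Z.C * Z.sz n x * ‖q n‖ := by
      have := Z.hi n x (q n) (hqm n)
      rwa [hAq] at this
    have e5 := hsz n _ hm h0
    have hs1 := Z.pos (n + 1) x
    have hs0 := Z.pos n x
    have hrn : 0 ≤ T * r ^ n := by positivity
    have e6 : Z.sz (n + 1) x * ‖q (n + 1) - q n‖ ≤ Z.sz (n + 1) x * (K * T * r ^ n * ‖q n‖) := by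
      calc Z.sz (n + 1) x * ‖q (n + 1) - q n‖ ≤ Z.C * ‖p (n + 1) - H.A (H.f^[n] x) (p n)‖ := e1
        _ ≤ Z.C * (T * r ^ n * ‖p n‖) := mul_le_mul_of_nonneg_left e3 hC0.le
        _ ≤ Z.C * (T * r ^ n * (Z.C * Z.sz n x * ‖q n‖)) :=
            mul_le_mul_of_nonneg_left (mul_le_mul_of_nonneg_left e4 hrn) hC0.le
        _ = (Z.C ^ 2 * (T * r ^ n) * ‖q n‖) * Z.sz n x := by ring
        _ ≤ (Z.C ^ 2 * (T * r ^ n) * ‖q n‖) * (Z.C ^ 2 * H.L * Z.sz (n + 1) x) :=
            mul_le_mul_of_nonneg_left e5 (by positivity)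
        _ = _ := by rw [hK]; ring
    exact le_of_mul_le_mul_left e6 hs1
  have hKT : 2 * K * T ≤ 1 - r := by
    have := mul_le_mul_of_nonneg_left hT0 (show (0 : ℝ) ≤ 2 * K by positivity)
    rwa [mul_div_cancel₀ _ (show (2 * K : ℝ) ≠ 0 by positivity)] at this
  have hbd : ∀ n, ‖q n - q 0‖ ≤ 2 * K * T * ‖q 0‖ * ((1 - r ^ n) / (1 - r)) ∧ ‖q n‖ ≤ 2 * ‖q 0‖ := by
    intro n
    induction n with
    | zero =>
      refine ⟨by simp, ?_⟩
      linarith [norm_nonneg (q 0)]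
    | succ n ih =>
      have hrn : 0 ≤ r ^ n := by positivity
      have e1 : ‖q (n + 1) - q 0‖ ≤ 2 * K * T * ‖q 0‖ * ((1 - r ^ (n + 1)) / (1 - r)) := by
        calc ‖q (n + 1) - q 0‖ = ‖(q (n + 1) - q n) + (q n - q 0)‖ := by congr 1; abel
          _ ≤ ‖q (n + 1) - q n‖ + ‖q n - q 0‖ := norm_add_le _ _
          _ ≤ K * T * r ^ n * (2 * ‖q 0‖) + 2 * K * T * ‖q 0‖ * ((1 - r ^ n) / (1 - r)) :=
              add_le_add ((hstep n).trans (mul_le_mul_of_nonneg_left ih.2 (by positivity))) ih.1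
          _ = _ := by
              field_simp
              ring
      refine ⟨e1, ?_⟩
      have e2 : (1 - r ^ (n + 1)) / (1 - r) ≤ 1 / (1 - r) := by
        have : 0 ≤ r ^ (n + 1) := by positivity
        exact div_le_div_of_nonneg_right (by linarith) h1r.le
      have e3 : 2 * K * T * ‖q 0‖ * ((1 - r ^ (n + 1)) / (1 - r)) ≤ ‖q 0‖ := by
        calc 2 * K * T * ‖q 0‖ * ((1 - r ^ (n + 1)) / (1 - r)) ≤ 2 * K * T * ‖q 0‖ * (1 / (1 - r)) :=
              mul_le_mul_of_nonneg_left e2 (by positivity)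
          _ ≤ (1 - r) * ‖q 0‖ * (1 / (1 - r)) :=
              mul_le_mul_of_nonneg_right (mul_le_mul_of_nonneg_right hKT (norm_nonneg _)) (by positivity)
          _ = ‖q 0‖ := by field_simp
      have e4 : ‖q (n + 1)‖ ≤ ‖q (n + 1) - q 0‖ + ‖q 0‖ := by
        calc ‖q (n + 1)‖ = ‖(q (n + 1) - q 0) + q 0‖ := by congr 1; abel
          _ ≤ _ := norm_add_le _ _
      linarith
  have hgeo : ∀ n, dist (q n) (q (n + 1)) ≤ (2 * K * T * ‖q 0‖) * r ^ n := by
    intro n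
    rw [dist_comm, dist_eq_norm]
    calc ‖q (n + 1) - q n‖ ≤ K * T * r ^ n * ‖q n‖ := hstep n
      _ ≤ K * T * r ^ n * (2 * ‖q 0‖) := mul_le_mul_of_nonneg_left (hbd n).2 (by positivity)
      _ = _ := by ring
  obtain ⟨y, hy⟩ := cauchySeq_tendsto_of_complete (cauchySeq_of_le_geometric r _ hr1 hgeo)
  have hcl : IsClosed ((H.Es x : Submodule ℝ E) : Set E) := Submodule.closed_of_finiteDimensional _
  refine ⟨y, hcl.mem_of_tendsto hy (Eventually.of_forall hqm), hy, ?_⟩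
  have e := dist_le_of_le_geometric_of_tendsto₀ r _ hr1 hgeo hy
  rw [dist_comm, dist_eq_norm, hq0] at e
  calc ‖y - p 0‖ ≤ 2 * K * T * ‖p 0‖ / (1 - r) := e
    _ = 2 * K / (1 - r) * T * ‖p 0‖ := by ring

end Pool.Agent.ANC
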