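import Mathlib
import Pool.Agent.ANC.LZ1
import Pool.Agent.ANC.LZ3

/-! LZ4: the local linearisation.  For |v| ≤ R let v_n be the coordinates of f^n θ x v (small_orbit; unique by inj) and
J0 x v := lim (An n x)^{-1} v_n.  Differences: p n = v_n - w_n satisfies the hypothesis of lin_seq with
T = 2 K K' (|v| + |w|) by `expand`; so |J0 v - J0 w - (v - w)| ≤ C T |v - w|; w = 0 gives existence of the limit.
equivariance: (An (n+1) x)^{-1} v_{n+1} = A^{-1} (An n (f x))^{-1} (v1)_n.  For |v| > R put J0 x v := 0 or anything. -/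

open Set Metric Function Filter Topology

namespace Pool.Agent.ANC

open Pool.Agent.ANO (Loc Trans SRel SParam)

variable {M : Type} [MetricSpace M] {E : Type} [NormedAddCommGroup E] [NormedSpace ℝ E]

private theorem lz4_congr {H : Loc M E} {a b : ℝ} (Ps : SParam H a b) {y y' : M} (h : y = y') {u : E}
    (hu : u ∈ H.Es y) (hu' : u ∈ H.Es y') : Ps.θ y ⟨u, hu⟩ = Ps.θ y' ⟨u, hu'⟩ := by
  subst h
  rfl

/-- `V` is the orbit of `v` in coordinates -/
private def Orb {H : Loc M E} {a b : ℝ} (Ps : SParam H a b) (x : M) (v : H.Es x) (V : ℕ → E) : Prop :=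
  ∀ n, ∃ h : V n ∈ H.Es (H.f^[n] x), Ps.θ (H.f^[n] x) ⟨V n, h⟩ = H.f^[n] (Ps.θ x v)

private theorem Orb.zero {H : Loc M E} {a b : ℝ} {Ps : SParam H a b} {x : M} {v : H.Es x} {V : ℕ → E}
    (h : Orb Ps x v V) : V 0 = v := by
  obtain ⟨h0, h1⟩ := h 0
  have h2 : (⟨V 0, h0⟩ : H.Es x) = v := Ps.inj x h1
  rw [← h2]

private theorem An_succ_symm (H : Loc M E) (n : ℕ) (x : M) (w : E) :
    H.A x ((An H (n + 1) x).symm w) = (An H n (H.f x)).symm w := by
  rw [ContinuousLinearEquiv.eq_symm_apply, ← An_succ, ContinuousLinearEquiv.apply_symm_apply]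

variable [CompactSpace M] [FiniteDimensional ℝ E]

theorem exists_loclin {H : Loc M E} {a b : ℝ} (ha : 0 < a) (hab : a ≤ b) (Ps : SParam H a b) (hd : Der2 H)
    (Z : Size H a b) : Nonempty (LocLin H Ps) := by
  classical
  obtain ⟨K, hK, Re, hRe, hexp⟩ := expand ha hab Ps hd
  obtain ⟨Ko, hKo, Ro, hRo, horb⟩ := small_orbit ha hab Ps
  obtain ⟨Cl, hCl, T0, hT0, hlin⟩ := lin_seq ha Z
  have hKo0 : 0 < Ko := by linarith
  have hCl0 : 0 < Cl := by linarith
  obtain ⟨R, hR, hR1, hR2, hR3⟩ : ∃ R > 0, R ≤ Ro ∧ Ko * R ≤ Re ∧ 2 * (K * Ko) * R ≤ T0 := by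
    refine ⟨min Ro (min (Re / Ko) (T0 / (2 * (K * Ko)))), by positivity, min_le_left _ _, ?_, ?_⟩
    · have h : min Ro (min (Re / Ko) (T0 / (2 * (K * Ko)))) ≤ Re / Ko :=
        (min_le_right _ _).trans (min_le_left _ _)
      rw [le_div_iff₀ hKo0] at h
      linarith [mul_comm Ko (min Ro (min (Re / Ko) (T0 / (2 * (K * Ko)))))]
    · have h : min Ro (min (Re / Ko) (T0 / (2 * (K * Ko)))) ≤ T0 / (2 * (K * Ko)) :=
        (min_le_right _ _).trans (min_le_right _ _)
      rw [le_div_iff₀ (by positivity)] at h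
      linarith [mul_comm (2 * (K * Ko)) (min Ro (min (Re / Ko) (T0 / (2 * (K * Ko)))))]
  -- orbits
  have hV : ∀ (x : M) (v : H.Es x), ∃ V : ℕ → E, ‖v‖ ≤ R →
      Orb Ps x v V ∧ ∀ n : ℕ, ‖V n‖ ≤ Ko * Real.exp (-(a * n)) * ‖v‖ := by
    intro x v
    by_cases hv : ‖v‖ ≤ R
    · choose V' hV1 hV2 using horb x v (hv.trans hR1)
      refine ⟨fun n => (V' n : E), fun _ => ⟨fun n => ⟨(V' n).2, hV1 n⟩, fun n => ?_⟩⟩
      have := hV2 n
      rwa [Submodule.coe_norm] at this
    · exact ⟨fun _ => 0, fun h => absurd h hv⟩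
  choose V hV using hV
  have hexp1 : ∀ n : ℕ, Real.exp (-(a * n)) ≤ 1 := fun n => by
    rw [Real.exp_le_one_iff]
    have : 0 ≤ a * n := mul_nonneg ha.le (Nat.cast_nonneg n)
    linarith
  -- differences
  have hdiff : ∀ (x : M) (v w : H.Es x), ‖v‖ ≤ R → ‖w‖ ≤ R →
      ∃ q ∈ H.Es x, Tendsto (fun n => (An H n x).symm (V x v n - V x w n)) atTop (𝓝 q) ∧
        ‖q - ((v : E) - w)‖ ≤ Cl * (K * Ko * (‖v‖ + ‖w‖)) * ‖v - w‖ := by
    intro x v w hv hw
    obtain ⟨ov, bv⟩ := hV x v hv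
    obtain ⟨ow, bw⟩ := hV x w hw
    have h := hlin x (fun n => V x v n - V x w n) (K * Ko * (‖v‖ + ‖w‖)) (by positivity) (by
      have : K * Ko * (‖v‖ + ‖w‖) ≤ K * Ko * (R + R) :=
        mul_le_mul_of_nonneg_left (add_le_add hv hw) (by positivity)
      linarith) (fun n => (H.Es _).sub_mem (ov n).1 (ow n).1) (fun n => by
        have e : H.f^[n + 1] x = H.f (H.f^[n] x) := Function.iterate_succ_apply' _ _ _
        obtain ⟨m0, e0⟩ := ov n
        obtain ⟨m1, e1⟩ := ov (n + 1)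
        obtain ⟨k0, g0⟩ := ow n
        obtain ⟨k1, g1⟩ := ow (n + 1)
        have m1' : V x v (n + 1) ∈ H.Es (H.f (H.f^[n] x)) := by rw [← e]; exact m1
        have k1' : V x w (n + 1) ∈ H.Es (H.f (H.f^[n] x)) := by rw [← e]; exact k1
        have bn : ‖V x v n‖ ≤ Ko * Real.exp (-(a * n)) * ‖v‖ := bv n
        have cn : ‖V x w n‖ ≤ Ko * Real.exp (-(a * n)) * ‖w‖ := bw n
        have bn' : ‖V x v n‖ ≤ Re := by
          refine bn.trans (le_trans ?_ hR2)
          have := hexp1 n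
          have h0 := (Real.exp_pos (-(a * n))).le
          calc Ko * Real.exp (-(a * n)) * ‖v‖ ≤ Ko * 1 * ‖v‖ := by gcongr
            _ ≤ Ko * R := by rw [mul_one]; gcongr
        have cn' : ‖V x w n‖ ≤ Re := by
          refine cn.trans (le_trans ?_ hR2)
          have := hexp1 n
          have h0 := (Real.exp_pos (-(a * n))).le
          calc Ko * Real.exp (-(a * n)) * ‖w‖ ≤ Ko * 1 * ‖w‖ := by gcongr
            _ ≤ Ko * R := by rw [mul_one]; gcongr
        have h1 := hexp (H.f^[n] x) ⟨V x v n, m0⟩ ⟨V x w n, k0⟩ ⟨V x v (n + 1), m1'⟩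
          ⟨V x w (n + 1), k1'⟩ (by rw [Submodule.coe_norm]; exact bn')
          (by rw [Submodule.coe_norm]; exact cn')
          (by
            have s1 : H.f (H.f^[n] (Ps.θ x v)) = H.f^[n + 1] (Ps.θ x v) :=
              (Function.iterate_succ_apply' _ _ _).symm
            rw [e0, s1, ← e1]
            exact lz4_congr Ps e.symm _ _)
          (by
            have s1 : H.f (H.f^[n] (Ps.θ x w)) = H.f^[n + 1] (Ps.θ x w) :=
              (Function.iterate_succ_apply' _ _ _).symm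
            rw [g0, s1, ← g1]
            exact lz4_congr Ps e.symm _ _)
        rw [Submodule.coe_norm, Submodule.coe_norm, Submodule.coe_norm] at h1
        refine h1.trans ?_
        refine mul_le_mul_of_nonneg_right ?_ (norm_nonneg _)
        calc K * (‖V x v n‖ + ‖V x w n‖)
            ≤ K * (Ko * Real.exp (-(a * n)) * ‖v‖ + Ko * Real.exp (-(a * n)) * ‖w‖) := by gcongr
          _ = K * Ko * (‖v‖ + ‖w‖) * Real.exp (-(a * n)) := by ring)
    obtain ⟨q, hq, hq1, hq2⟩ := h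
    refine ⟨q, hq, hq1, ?_⟩
    have e0 : V x v 0 - V x w 0 = (v : E) - w := by rw [ov.zero, ow.zero]
    have e1 : ‖(v : E) - w‖ = ‖v - w‖ := by rw [← Submodule.coe_sub, Submodule.coe_norm]
    have hq3 : ‖q - (V x v 0 - V x w 0)‖ ≤ Cl * (K * Ko * (‖v‖ + ‖w‖)) * ‖V x v 0 - V x w 0‖ := hq2
    rwa [e0, e1] at hq3
  -- the orbit of zero
  have hR0 : ‖(0 : E)‖ ≤ R := by rw [norm_zero]; exact hR.le
  have hV0 : ∀ (x : M) (n : ℕ), V x 0 n = 0 := by
    intro x n
    have := (hV x 0 (by rw [norm_zero]; exact hR.le)).2 n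
    rw [norm_zero, mul_zero] at this
    exact norm_le_zero_iff.1 this
  have hlim : ∀ (x : M) (v : H.Es x), ∃ q : H.Es x, ‖v‖ ≤ R →
      Tendsto (fun n => (An H n x).symm (V x v n)) atTop (𝓝 (q : E)) := by
    intro x v
    by_cases hv : ‖v‖ ≤ R
    · obtain ⟨q, hq, hq1, _⟩ := hdiff x v 0 hv (by rw [norm_zero]; exact hR.le)
      refine ⟨⟨q, hq⟩, fun _ => ?_⟩
      simp only [hV0, sub_zero] at hq1
      exact hq1
    · exact ⟨0, fun h => absurd h hv⟩
  choose J hJ using hlim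
  refine ⟨{
    J0 := J
    R := R
    hR := hR
    C := max 1 (Cl * (K * Ko))
    hC := le_max_left _ _
    zero := ?_
    approx := ?_
    equiv := ?_ }⟩
  · intro x
    have h1 := hJ x 0 (by rw [norm_zero]; exact hR.le)
    simp only [hV0, map_zero] at h1
    have h2 : ((J x 0 : H.Es x) : E) = 0 := tendsto_nhds_unique h1 tendsto_const_nhds
    exact Subtype.ext h2
  · intro x v w hv hw
    obtain ⟨q, hq, hq1, hq2⟩ := hdiff x v w hv hw
    have h1 := (hJ x v hv).sub (hJ x w hw)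
    simp only [← map_sub] at h1
    have h2 : q = (J x v : E) - J x w := tendsto_nhds_unique hq1 h1
    rw [h2] at hq2
    have e1 : ‖(J x v - J x w) - (v - w)‖ = ‖((J x v : E) - J x w) - ((v : E) - w)‖ := by
      rw [Submodule.coe_norm]
      simp only [Submodule.coe_sub]
    rw [e1]
    refine hq2.trans ?_
    refine mul_le_mul_of_nonneg_right ?_ (norm_nonneg _)
    have h3 := mul_le_mul_of_nonneg_right (le_max_right 1 (Cl * (K * Ko)))
      (add_nonneg (norm_nonneg v) (norm_nonneg w))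
    refine le_trans (le_of_eq ?_) h3
    ring
  · intro x v v1 hv hv1 he
    obtain ⟨ov, bv⟩ := hV x v hv
    obtain ⟨ow, bw⟩ := hV (H.f x) v1 hv1
    have hsame : ∀ n, V (H.f x) v1 n = V x v (n + 1) := by
      intro n
      obtain ⟨m1, e1⟩ := ov (n + 1)
      obtain ⟨k1, g1⟩ := ow n
      have h1 : Ps.θ (H.f^[n] (H.f x)) ⟨V (H.f x) v1 n, k1⟩
          = Ps.θ (H.f^[n] (H.f x)) ⟨V x v (n + 1), m1⟩ := by
        rw [g1, he]
        exact e1.symm
      exact congrArg Subtype.val (Ps.inj _ h1)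
    have h1 := hJ (H.f x) v1 hv1
    have h2 := (tendsto_add_atTop_iff_nat 1).2 (hJ x v hv)
    have h3 := ((H.A x).continuous.tendsto _).comp h2
    have h4 : ((H.A x) ∘ fun n => (An H (n + 1) x).symm (V x v (n + 1)))
        = fun n => (An H n (H.f x)).symm (V (H.f x) v1 n) := by
      funext n
      rw [Function.comp_apply, An_succ_symm, hsame]
    rw [h4] at h3
    exact tendsto_nhds_unique h1 h3

/-- local surjectivity: J0 x is (1/2)-close to the identity in the Lipschitz sense on a ball of radius R' with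
2 C R' ≤ 1/2 (ApproximatesLinearOn / Banach fixed point in Es x, which is complete) -/
theorem LocLin.surj {H : Loc M E} {a b : ℝ} {Ps : SParam H a b} (W : LocLin H Ps) : ∃ R' > 0, R' ≤ W.R ∧
    ∀ (x : M) (w : H.Es x), ‖w‖ ≤ R' → ∃ v : H.Es x, ‖v‖ ≤ 2 * ‖w‖ ∧ ‖v‖ ≤ W.R ∧ W.J0 x v = w := by
  have hC := W.hC
  have hC0 : 0 < W.C := by linarith
  have hR := W.hR
  obtain ⟨ρ, hρ, hρ1, hρ2⟩ : ∃ ρ > 0, ρ ≤ W.R ∧ W.C * (ρ + ρ) ≤ 1 / 2 := by
    refine ⟨min W.R (1 / (4 * W.C)), by positivity, min_le_left _ _, ?_⟩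
    have h : min W.R (1 / (4 * W.C)) ≤ 1 / (4 * W.C) := min_le_right _ _
    rw [le_div_iff₀ (by positivity)] at h
    nlinarith
  refine ⟨ρ / 2, by positivity, by linarith, ?_⟩
  intro x w hw
  have hap : ApproximatesLinearOn (W.J0 x) (ContinuousLinearMap.id ℝ (H.Es x)) (closedBall 0 ρ)
      ⟨1 / 2, by norm_num⟩ := by
    intro p hp q hq
    rw [mem_closedBall_zero_iff] at hp hq
    have h := W.approx x p q (hp.trans hρ1) (hq.trans hρ1)
    refine h.trans ?_
    refine mul_le_mul_of_nonneg_right ?_ (norm_nonneg _)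
    exact (mul_le_mul_of_nonneg_left (add_le_add hp hq) hC0.le).trans hρ2
  let inv : (ContinuousLinearMap.id ℝ (H.Es x)).NonlinearRightInverse :=
    { toFun := fun z => z
      nnnorm := 1
      bound' := by
        intro z
        simp
      right_inv' := fun z => rfl }
  have hs := hap.surjOn_closedBall_of_nonlinearRightInverse inv (ε := 2 * ‖w‖) (b := 0)
    (by positivity) (closedBall_subset_closedBall (by linarith))
  rw [W.zero] at hs
  obtain ⟨v, hv, hv'⟩ := hs (a := w) (by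
    rw [mem_closedBall_zero_iff]
    show ‖w‖ ≤ (((1 : NNReal) : ℝ)⁻¹ - 1 / 2) * (2 * ‖w‖)
    rw [NNReal.coe_one]
    linarith)
  rw [mem_closedBall_zero_iff] at hv
  exact ⟨v, hv, by linarith, hv'⟩

end Pool.Agent.ANC
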