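import Mathlib
import Pool.Agent.ANC.LZ4

/-! LZ6: the global linearisation.  For z in the stable leaf of x (SRel x z t) and n large, f^n z has a coordinate v_n at f^n x with
|v_n| ≤ W.R (SRel.fwd_iter: SRel (f^n x)(f^n z)(e^{-an} t), Ps.loc; unique by Ps.inj).  J x z := (An n x)^{-1} (J0 (f^n x) v_n),
independent of n ≥ n0 by W.equiv (all later coordinates are small too).  Outside the leaf J x z := 0.
equiv, self, mem are direct.  loc: r2 small so that n = 0 works: J x z = J0 x v with z = θ x v, approx with 2 C R ≤ 1/2, Ps.unif and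
Ps.coord (|v - w| ≤ L^3 |c x (θ v) - c x (θ w)| ≤ L^4 dist).  inj: for z, z' take n with both small: J0 injective on small balls.
surj: v ∈ Es x, An n x v is small for n large (Size), LocLin.surj gives u with J0 (f^n x) u = An n x v; z := f^-n θ u; SRel x z by bwd_iter.
locsurj: n = 0. -/

open Set Metric Function Filter Topology

namespace Pool.Agent.ANC

open Pool.Agent.ANO (Loc Trans SRel SParam)

variable {M : Type} [MetricSpace M] {E : Type} [NormedAddCommGroup E] [NormedSpace ℝ E]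

private theorem P_An (H : Loc M E) (n : ℕ) (x : M) (v : E) :
    H.P (H.f^[n] x) (An H n x v) = An H n x (H.P x v) := by
  induction n generalizing x v with
  | zero => rfl
  | succ n ih =>
    rw [An_succ, An_succ, ← Pool.Agent.ANO.Loc.P_A]
    exact ih (H.f x) (H.A x v)

private theorem mem_of_An (H : Loc M E) (n : ℕ) (x : M) (v : E) (h : An H n x v ∈ H.Es (H.f^[n] x)) :
    v ∈ H.Es x := by
  have h1 := P_An H n x v
  rw [Pool.Agent.ANO.Loc.P_of_mem_s H _ _ h] at h1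
  have h2 := (An H n x).injective h1
  rw [h2]
  exact Pool.Agent.ANO.Loc.P_mem H x v

private theorem lz6_congr {H : Loc M E} {a b : ℝ} (Ps : SParam H a b) {y y' : M} (h : y = y') {u : E}
    (hu : u ∈ H.Es y) (hu' : u ∈ H.Es y') : Ps.θ y ⟨u, hu⟩ = Ps.θ y' ⟨u, hu'⟩ := by
  subst h
  rfl

private theorem lz6_congrJ {H : Loc M E} {a b : ℝ} {Ps : SParam H a b} (W : LocLin H Ps) {y y' : M}
    (h : y = y') {u : E} (hu : u ∈ H.Es y) (hu' : u ∈ H.Es y') :
    ((W.J0 y ⟨u, hu⟩ : H.Es y) : E) = W.J0 y' ⟨u, hu'⟩ := by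
  subst h
  rfl

/-- the linearised position of `z` relative to `x`, read off at the time `n` -/
private def Rp {H : Loc M E} {a b : ℝ} {Ps : SParam H a b} (W : LocLin H Ps) (x z : M) (n : ℕ) (q : E) :
    Prop :=
  ∃ v : H.Es (H.f^[n] x), Ps.θ (H.f^[n] x) v = H.f^[n] z ∧ An H n x q = W.J0 (H.f^[n] x) v

private theorem Rp.uniq {H : Loc M E} {a b : ℝ} {Ps : SParam H a b} {W : LocLin H Ps} {x z : M} {n : ℕ}
    {q q' : E} (h : Rp W x z n q) (h' : Rp W x z n q') : q = q' := by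
  obtain ⟨v, h1, h2⟩ := h
  obtain ⟨v', h1', h2'⟩ := h'
  have : v = v' := Ps.inj _ (h1.trans h1'.symm)
  subst this
  exact (An H n x).injective (h2.trans h2'.symm)

private theorem Rp.mem {H : Loc M E} {a b : ℝ} {Ps : SParam H a b} {W : LocLin H Ps} {x z : M} {n : ℕ}
    {q : E} (h : Rp W x z n q) : q ∈ H.Es x := by
  obtain ⟨v, _, h2⟩ := h
  apply mem_of_An H n x q
  rw [h2]
  exact (W.J0 _ v).2

private theorem Rp.step {H : Loc M E} {a b : ℝ} {Ps : SParam H a b} {W : LocLin H Ps} {x z : M} {n : ℕ}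
    {q : E} (h : Rp W x z n q)
    (hs : ∀ v : H.Es (H.f^[n] x), Ps.θ (H.f^[n] x) v = H.f^[n] z → ‖v‖ ≤ W.R)
    (hs' : ∃ v : H.Es (H.f^[n + 1] x), Ps.θ (H.f^[n + 1] x) v = H.f^[n + 1] z ∧ ‖v‖ ≤ W.R) :
    Rp W x z (n + 1) q := by
  obtain ⟨v, h1, h2⟩ := h
  obtain ⟨v1, h3, h4⟩ := hs'
  have e : H.f^[n + 1] x = H.f (H.f^[n] x) := Function.iterate_succ_apply' _ _ _
  have ez : H.f^[n + 1] z = H.f (H.f^[n] z) := Function.iterate_succ_apply' _ _ _
  refine ⟨v1, h3, ?_⟩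
  have m1 : (v1 : E) ∈ H.Es (H.f (H.f^[n] x)) := by rw [← e]; exact v1.2
  have h5 := W.equiv (H.f^[n] x) v ⟨(v1 : E), m1⟩ (hs v h1)
    (by rw [Submodule.coe_norm]; rw [Submodule.coe_norm] at h4; exact h4)
    (by
      rw [h1, ← ez, ← h3]
      exact lz6_congr Ps e.symm m1 v1.2)
  rw [An_succ', h2, ← h5]
  exact lz6_congrJ W e.symm m1 v1.2

variable [CompactSpace M] [FiniteDimensional ℝ E]

theorem exists_jp {H : Loc M E} {a b : ℝ} (ha : 0 < a) (hab : a ≤ b) {Ps : SParam H a b} (W : LocLin H Ps)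
    (Z : Size H a b) : Nonempty (JP H a b) := by
  classical
  have hL := H.hL
  have hL0 : 0 < H.L := by linarith
  have hK := Ps.hK0
  have hK0 : 0 < Ps.K0 := by linarith
  have hC := W.hC
  have hC0 : 0 < W.C := by linarith
  have hR := W.hR
  have hRP := Ps.hR0
  obtain ⟨R', hR', hR'1, hsurj⟩ := W.surj
  -- the radius of small vectors
  obtain ⟨Rs, hRs, hRs1, hRs2, hRs3⟩ : ∃ Rs > 0, Rs ≤ W.R ∧ W.C * (Rs + Rs) ≤ 1 / 2 ∧ Rs ≤ Ps.R0 := by
    refine ⟨min W.R (min (1 / (4 * W.C)) Ps.R0), by positivity, min_le_left _ _, ?_,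
      (min_le_right _ _).trans (min_le_right _ _)⟩
    have h : min W.R (min (1 / (4 * W.C)) Ps.R0) ≤ 1 / (4 * W.C) :=
      (min_le_right _ _).trans (min_le_left _ _)
    rw [le_div_iff₀ (by positivity)] at h
    nlinarith
  obtain ⟨t1, ht1, ht1a, ht1b⟩ : ∃ t1 > 0, t1 ≤ Ps.R0 ∧ Ps.K0 * t1 ≤ Rs := by
    refine ⟨min Ps.R0 (Rs / Ps.K0), by positivity, min_le_left _ _, ?_⟩
    have h : min Ps.R0 (Rs / Ps.K0) ≤ Rs / Ps.K0 := min_le_right _ _
    rw [le_div_iff₀ hK0] at h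
    linarith [mul_comm Ps.K0 (min Ps.R0 (Rs / Ps.K0))]
  -- estimates for J0 on small vectors
  have hup : ∀ (x : M) (v w : H.Es x), ‖v‖ ≤ Rs → ‖w‖ ≤ Rs →
      ‖W.J0 x v - W.J0 x w‖ ≤ 2 * ‖v - w‖ ∧ ‖v - w‖ ≤ 2 * ‖W.J0 x v - W.J0 x w‖ := by
    intro x v w hv hw
    have h := W.approx x v w (hv.trans hRs1) (hw.trans hRs1)
    have h1 : W.C * (‖v‖ + ‖w‖) * ‖v - w‖ ≤ 1 / 2 * ‖v - w‖ :=
      mul_le_mul_of_nonneg_right ((mul_le_mul_of_nonneg_left (add_le_add hv hw) hC0.le).trans hRs2)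
        (norm_nonneg _)
    have h2 := h.trans h1
    have h3 : ‖W.J0 x v - W.J0 x w‖ ≤ ‖(W.J0 x v - W.J0 x w) - (v - w)‖ + ‖v - w‖ :=
      norm_le_norm_sub_add _ _
    have h4 : ‖v - w‖ ≤ ‖(W.J0 x v - W.J0 x w) - (v - w)‖ + ‖W.J0 x v - W.J0 x w‖ := by
      rw [norm_sub_rev (W.J0 x v - W.J0 x w)]
      exact norm_le_norm_sub_add _ _
    have h5 := norm_nonneg (v - w)
    constructor <;> linarith
  -- coordinates of close points
  have hco : ∀ x z, SRel H.f a b x z t1 → ∃ v : H.Es x, ‖v‖ ≤ Rs ∧ Ps.θ x v = z := by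
    intro x z h
    obtain ⟨v, h1, h2⟩ := Ps.loc x z t1 ht1a h
    exact ⟨v, h1.trans ht1b, h2⟩
  have hsmall : ∀ x z, SRel H.f a b x z t1 → ∀ v : H.Es x, Ps.θ x v = z → ‖v‖ ≤ Rs := by
    intro x z h v hv
    obtain ⟨w, h1, h2⟩ := hco x z h
    have : v = w := Ps.inj x (hv.trans h2.symm)
    rw [this]
    exact h1
  -- good times
  have hGstep : ∀ x z n, SRel H.f a b (H.f^[n] x) (H.f^[n] z) t1 →
      SRel H.f a b (H.f^[n + 1] x) (H.f^[n + 1] z) t1 := by
    intro x z n h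
    have h1 := h.fwd ha hab
    rw [← Function.iterate_succ_apply' H.f, ← Function.iterate_succ_apply' H.f] at h1
    refine h1.mono ?_
    have : Real.exp (-a) ≤ 1 := by
      rw [Real.exp_le_one_iff]
      linarith
    calc Real.exp (-a) * t1 ≤ 1 * t1 := mul_le_mul_of_nonneg_right this ht1.le
      _ = t1 := one_mul _
  have hGmono : ∀ x z n k, SRel H.f a b (H.f^[n] x) (H.f^[n] z) t1 →
      SRel H.f a b (H.f^[n + k] x) (H.f^[n + k] z) t1 := by
    intro x z n k h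
    induction k with
    | zero => exact h
    | succ k ih => exact hGstep x z (n + k) ih
  have hGex : ∀ x z t, SRel H.f a b x z t → ∃ n, SRel H.f a b (H.f^[n] x) (H.f^[n] z) t1 := by
    intro x z t h
    have hlim : Tendsto (fun n : ℕ => Real.exp (-(a * n)) * t) atTop (𝓝 (0 * t)) := by
      apply Tendsto.mul_const
      apply Real.tendsto_exp_neg_atTop_nhds_zero.comp
      exact Tendsto.const_mul_atTop ha tendsto_natCast_atTop_atTop
    rw [zero_mul] at hlim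
    obtain ⟨n, hn⟩ := (hlim.eventually (gt_mem_nhds ht1)).exists
    exact ⟨n, (h.fwd_iter ha hab n).mono hn.le⟩
  have hRpmono : ∀ x z n k q, SRel H.f a b (H.f^[n] x) (H.f^[n] z) t1 → Rp W x z n q →
      Rp W x z (n + k) q := by
    intro x z n k q hG h
    induction k with
    | zero => exact h
    | succ k ih =>
      apply ih.step
      · intro v hv
        exact (hsmall _ _ (hGmono x z n k hG) v hv).trans hRs1
      · obtain ⟨v, h1, h2⟩ := hco _ _ (hGmono x z n (k + 1) hG)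
        exact ⟨v, h2, h1.trans hRs1⟩
  have hRpex : ∀ x z n, SRel H.f a b (H.f^[n] x) (H.f^[n] z) t1 → ∃ q, Rp W x z n q := by
    intro x z n hG
    obtain ⟨v, h1, h2⟩ := hco _ _ hG
    refine ⟨(An H n x).symm (W.J0 (H.f^[n] x) v), v, h2, ?_⟩
    rw [ContinuousLinearEquiv.apply_symm_apply]
  -- the definition
  let J : M → M → E := fun x z =>
    if h : ∃ q n, SRel H.f a b (H.f^[n] x) (H.f^[n] z) t1 ∧ Rp W x z n q then Classical.choose h else 0
  have hJ : ∀ x z n q, SRel H.f a b (H.f^[n] x) (H.f^[n] z) t1 → Rp W x z n q → J x z = q := by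
    intro x z n q hG h
    have hex : ∃ q n, SRel H.f a b (H.f^[n] x) (H.f^[n] z) t1 ∧ Rp W x z n q := ⟨q, n, hG, h⟩
    have e : J x z = Classical.choose hex := dif_pos hex
    obtain ⟨m, hm1, hm2⟩ := Classical.choose_spec hex
    rw [e]
    have h1 := hRpmono x z n m q hG h
    have h2 := hRpmono x z m n _ hm1 hm2
    rw [add_comm m n] at h2
    exact h2.uniq h1
  have hJ' : ∀ x z n, SRel H.f a b (H.f^[n] x) (H.f^[n] z) t1 → Rp W x z n (J x z) := by
    intro x z n hG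
    obtain ⟨q, hq⟩ := hRpex x z n hG
    rw [hJ x z n q hG hq]
    exact hq
  -- time zero
  have hJ0 : ∀ (x : M) (v : H.Es x), SRel H.f a b x (Ps.θ x v) t1 → J x (Ps.θ x v) = W.J0 x v := by
    intro x v h
    exact hJ x (Ps.θ x v) 0 _ h ⟨v, rfl, rfl⟩
  -- constants
  set C : ℝ := 2 * Ps.K0 + 2 * H.L ^ 4 with hCdef
  have hL4 : 1 ≤ H.L ^ 4 := one_le_pow₀ hL
  have hC1 : 1 ≤ C := by linarith
  have hCpos : 0 < C := by linarith
  have hrr := H.hr
  obtain ⟨r2, hr2, hr2a, hr2b, hr2c⟩ : ∃ r2 > 0, r2 ≤ t1 ∧ r2 ≤ H.r ∧ r2 ≤ R' := by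
    refine ⟨min t1 (min H.r R'), by positivity, min_le_left _ _,
      (min_le_right _ _).trans (min_le_left _ _), (min_le_right _ _).trans (min_le_right _ _)⟩
  refine ⟨{
    J := J
    C := C
    hC := hC1
    r2 := r2
    hr2 := hr2
    self := ?_
    mem := ?_
    inj := ?_
    surj := ?_
    equiv := ?_
    loc := ?_
    locsurj := ?_ }⟩
  · -- self
    intro x
    have h : SRel H.f a b x (Ps.θ x 0) t1 := by
      rw [Ps.zero]
      exact (Pool.Agent.ANO.SRel.refl x).mono ht1.le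
    have := hJ0 x 0 h
    rw [Ps.zero, W.zero] at this
    exact this
  · -- mem
    intro x z t h
    obtain ⟨n, hn⟩ := hGex x z t h
    exact (hJ' x z n hn).mem
  · -- inj
    intro x z z' t t' h h' he
    obtain ⟨n, hn⟩ := hGex x z t h
    obtain ⟨n', hn'⟩ := hGex x z' t' h'
    have g1 := hGmono x z n n' hn
    have g2 := hGmono x z' n' n hn'
    rw [add_comm n' n] at g2
    obtain ⟨v, h1, h2⟩ := hJ' x z (n + n') g1
    obtain ⟨v', h1', h2'⟩ := hJ' x z' (n + n') g2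
    rw [he, h2'] at h2
    have s1 := hsmall _ _ g1 v h1
    have s2 := hsmall _ _ g2 v' h1'
    have h3 := (hup _ v v' s1 s2).2
    have h4 : W.J0 (H.f^[n + n'] x) v - W.J0 (H.f^[n + n'] x) v' = 0 := by
      rw [sub_eq_zero]
      exact Subtype.ext h2.symm
    rw [h4, norm_zero, mul_zero] at h3
    have h5 : v = v' := by
      rw [← sub_eq_zero]
      exact norm_le_zero_iff.1 h3
    subst h5
    exact (H.f.injective.iterate (n + n')) (h1.symm.trans h1')
  · -- surj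
    intro x v hv
    have hlim : Tendsto (fun n : ℕ => Z.C * (Z.C * Real.exp (-(a * n))) * ‖v‖) atTop
        (𝓝 (Z.C * (Z.C * 0) * ‖v‖)) := by
      apply Tendsto.mul_const
      apply Tendsto.const_mul
      apply Tendsto.const_mul
      apply Real.tendsto_exp_neg_atTop_nhds_zero.comp
      exact Tendsto.const_mul_atTop ha tendsto_natCast_atTop_atTop
    rw [mul_zero, mul_zero, zero_mul] at hlim
    obtain ⟨s, hs, hs1, hs2, hs3⟩ : ∃ s > 0, s ≤ R' ∧ Ps.K0 * (2 * s) ≤ t1 ∧ 2 * s ≤ Ps.R0 := by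
      refine ⟨min R' (min (t1 / (2 * Ps.K0)) (Ps.R0 / 2)), by positivity, min_le_left _ _, ?_, ?_⟩
      · have h : min R' (min (t1 / (2 * Ps.K0)) (Ps.R0 / 2)) ≤ t1 / (2 * Ps.K0) :=
          (min_le_right _ _).trans (min_le_left _ _)
        rw [le_div_iff₀ (by positivity)] at h
        linarith
      · have h : min R' (min (t1 / (2 * Ps.K0)) (Ps.R0 / 2)) ≤ Ps.R0 / 2 :=
          (min_le_right _ _).trans (min_le_right _ _)
        linarith
    obtain ⟨n, hn⟩ := (hlim.eventually (gt_mem_nhds hs)).exists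
    have h1 : ‖An H n x v‖ ≤ s := by
      refine (Z.hi n x v hv).trans (le_trans ?_ hn.le)
      have hZ : 0 ≤ Z.C := by linarith [Z.hC]
      exact mul_le_mul_of_nonneg_right (mul_le_mul_of_nonneg_left (Z.sz_le n x) hZ) (norm_nonneg _)
    obtain ⟨u, hu1, hu2, hu3⟩ := hsurj (H.f^[n] x) ⟨An H n x v, An_mem H n x v hv⟩
      (by rw [Submodule.coe_norm]; exact h1.trans hs1)
    rw [Submodule.coe_norm] at hu1
    have hu1' : ‖u‖ ≤ 2 * s := hu1.trans (mul_le_mul_of_nonneg_left h1 (by norm_num))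
    have h2 := Ps.rel_zero (H.f^[n] x) u (hu1'.trans hs3)
    set z := H.f.symm^[n] (Ps.θ (H.f^[n] x) u) with hz
    have hfz : H.f^[n] z = Ps.θ (H.f^[n] x) u := (Function.LeftInverse.iterate (fun y => H.f.apply_symm_apply y) n) _
    have h3 : SRel H.f a b (H.f^[n] x) (H.f^[n] z) t1 := by
      rw [hfz]
      refine h2.mono ?_
      calc Ps.K0 * ‖u‖ ≤ Ps.K0 * (2 * s) := mul_le_mul_of_nonneg_left hu1' hK0.le
        _ ≤ t1 := hs2
    have h4 := h2.bwd_iter ha hab n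
    rw [(Function.LeftInverse.iterate (fun y => H.f.symm_apply_apply y) n) x] at h4
    refine ⟨z, _, h4, ?_⟩
    apply hJ x z n v h3
    refine ⟨u, hfz.symm, ?_⟩
    rw [hu3]
  · -- equiv
    intro x z t h
    obtain ⟨n, hn⟩ := hGex x z t h
    have hn1 := hGstep x z n hn
    obtain ⟨v, h1, h2⟩ := hJ' x z (n + 1) hn1
    exact hJ (H.f x) (H.f z) n (H.A x (J x z)) hn1 ⟨v, h1, h2⟩
  · -- loc
    intro x z z' h h'
    have g := h.mono hr2a
    have g' := h'.mono hr2a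
    obtain ⟨v, hv, rfl⟩ := hco x z g
    obtain ⟨w, hw, rfl⟩ := hco x z' g'
    rw [hJ0 x v g, hJ0 x w g']
    have h1 := hup x v w hv hw
    have e1 : ‖((W.J0 x v : H.Es x) : E) - W.J0 x w‖ = ‖W.J0 x v - W.J0 x w‖ := by
      rw [Submodule.coe_norm, Submodule.coe_sub]
    rw [e1]
    have h2 : dist (Ps.θ x v) (Ps.θ x w) ≤ Ps.K0 * ‖v - w‖ :=
      (Ps.unif x v w (hv.trans hRs3) (hw.trans hRs3)).dist_le
    have h3 : ‖v - w‖ ≤ H.L ^ 4 * dist (Ps.θ x v) (Ps.θ x w) := by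
      have c1 := (Ps.coord x v (hv.trans hRs3)).2
      have c2 := (Ps.coord x w (hw.trans hRs3)).2
      have d1 := h.dist_le.trans hr2b
      have d2 := h'.dist_le.trans hr2b
      have e2 : ‖v - w‖ = ‖H.P x (H.c x (Ps.θ x v) - H.c x (Ps.θ x w))‖ := by
        rw [map_sub, c1, c2, Submodule.coe_norm, Submodule.coe_sub]
      rw [e2]
      calc ‖H.P x (H.c x (Ps.θ x v) - H.c x (Ps.θ x w))‖
          ≤ H.L ^ 3 * ‖H.c x (Ps.θ x v) - H.c x (Ps.θ x w)‖ := Pool.Agent.ANO.Loc.norm_P_le H x _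
        _ ≤ H.L ^ 3 * (H.L * dist (Ps.θ x v) (Ps.θ x w)) :=
            mul_le_mul_of_nonneg_left (H.c_le x _ _ d1 d2) (by positivity)
        _ = H.L ^ 4 * dist (Ps.θ x v) (Ps.θ x w) := by ring
    have hd := dist_nonneg (x := Ps.θ x v) (y := Ps.θ x w)
    have hn := norm_nonneg (W.J0 x v - W.J0 x w)
    constructor
    · calc ‖W.J0 x v - W.J0 x w‖ ≤ 2 * ‖v - w‖ := h1.1
        _ ≤ 2 * (H.L ^ 4 * dist (Ps.θ x v) (Ps.θ x w)) := by linarith
        _ ≤ C * dist (Ps.θ x v) (Ps.θ x w) := by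
            have := mul_nonneg hK0.le hd
            rw [hCdef]
            nlinarith
    · calc dist (Ps.θ x v) (Ps.θ x w) ≤ Ps.K0 * ‖v - w‖ := h2
        _ ≤ Ps.K0 * (2 * ‖W.J0 x v - W.J0 x w‖) := mul_le_mul_of_nonneg_left h1.2 hK0.le
        _ ≤ C * ‖W.J0 x v - W.J0 x w‖ := by
            have := mul_nonneg (by positivity : (0 : ℝ) ≤ 2 * H.L ^ 4) hn
            rw [hCdef]
            nlinarith
  · -- locsurj
    intro x v hv hvr
    have h1 : ‖v‖ ≤ r2 := by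
      calc ‖v‖ = 1 * ‖v‖ := (one_mul _).symm
        _ ≤ C * ‖v‖ := mul_le_mul_of_nonneg_right hC1 (norm_nonneg _)
        _ ≤ r2 := hvr
    obtain ⟨u, hu1, hu2, hu3⟩ := hsurj x ⟨v, hv⟩ (by rw [Submodule.coe_norm]; exact h1.trans hr2c)
    rw [Submodule.coe_norm] at hu1
    have hu1' : ‖u‖ ≤ 2 * ‖v‖ := hu1
    have hKu : Ps.K0 * ‖u‖ ≤ C * ‖v‖ := by
      calc Ps.K0 * ‖u‖ ≤ Ps.K0 * (2 * ‖v‖) := mul_le_mul_of_nonneg_left hu1' hK0.le
        _ ≤ C * ‖v‖ := by
            have := mul_nonneg (by positivity : (0 : ℝ) ≤ 2 * H.L ^ 4) (norm_nonneg v)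
            rw [hCdef]
            nlinarith
    have huR : ‖u‖ ≤ Ps.R0 := by
      have : ‖u‖ ≤ Ps.K0 * ‖u‖ := by
        calc ‖u‖ = 1 * ‖u‖ := (one_mul _).symm
          _ ≤ Ps.K0 * ‖u‖ := mul_le_mul_of_nonneg_right hK (norm_nonneg _)
      exact this.trans (hKu.trans (hvr.trans (hr2a.trans ht1a)))
    have h2 := Ps.rel_zero x u huR
    refine ⟨Ps.θ x u, h2.mono hKu, ?_⟩
    rw [hJ0 x u (h2.mono (hKu.trans (hvr.trans hr2a))), hu3]

end Pool.Agent.ANC
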