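import Mathlib
import Pool.Agent.ANC.LZD

/-! LZ7: quasi-similarity properties of J. iter: induction on equiv.  scal: J (f^n x)(f^n z) - J (f^n x)(f^n z') = An n x (J x z - J x z'), Size.
trans: for n large (all of f^n x, f^n y, f^n z, f^n z' within r2 of each other: SRel.fwd_iter, tri, mono) JP.loc at f^n x and at f^n y
gives |J (f^n x) z_n - J (f^n x) z'_n| ~ dist z_n z'_n ~ |J (f^n y) z_n - J (f^n y) z'_n|, hence by scal
|J y z - J y z'| / |J x z - J x z'| ~ sz n x / sz n y for ALL large n.  Comparing with one fixed pair (x, y) (if x ≠ y)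
gives κ := |J y x - J y y| / |J x x - J x y|; if x = y take κ = 1.  The constant depends on H only. -/

open Set Metric Function

namespace Pool.Agent.ANC

open Pool.Agent.ANO (Loc Trans SRel SParam)

variable {M : Type} [MetricSpace M] {E : Type} [NormedAddCommGroup E] [NormedSpace ℝ E] {H : Loc M E} {a b : ℝ}

theorem JP.iter (ha : 0 < a) (hab : a ≤ b) (Y : JP H a b) (n : ℕ) {x z : M} {t : ℝ} (h : SRel H.f a b x z t) :
    Y.J (H.f^[n] x) (H.f^[n] z) = An H n x (Y.J x z) := by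
  induction n with
  | zero => rfl
  | succ n ih =>
    rw [Function.iterate_succ_apply', Function.iterate_succ_apply', An_succ',
      Y.equiv _ _ _ (h.fwd_iter ha hab n), ih]

theorem JP.scal (ha : 0 < a) (hab : a ≤ b) (Y : JP H a b) (Z : Size H a b) (n : ℕ) {x z z' : M} {t t' : ℝ}
    (h : SRel H.f a b x z t) (h' : SRel H.f a b x z' t') :
    ‖Y.J (H.f^[n] x) (H.f^[n] z) - Y.J (H.f^[n] x) (H.f^[n] z')‖ ≤ Z.C * Z.sz n x * ‖Y.J x z - Y.J x z'‖ ∧
    Z.sz n x * ‖Y.J x z - Y.J x z'‖ ≤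
      Z.C * ‖Y.J (H.f^[n] x) (H.f^[n] z) - Y.J (H.f^[n] x) (H.f^[n] z')‖ := by
  have hm : Y.J x z - Y.J x z' ∈ H.Es x := sub_mem (Y.mem _ _ _ h) (Y.mem _ _ _ h')
  rw [Y.iter ha hab n h, Y.iter ha hab n h', ← map_sub]
  exact ⟨Z.hi n x _ hm, Z.lo n x _ hm⟩

private theorem lz7_small (ha : 0 < a) {T r : ℝ} (hT : 0 ≤ T) (hr : 0 < r) :
    ∃ n : ℕ, Real.exp (-(a * n)) * T ≤ r := by
  obtain ⟨n, hn⟩ := exists_nat_ge (T / (r * a))
  refine ⟨n, ?_⟩
  rw [Real.exp_neg, inv_mul_le_iff₀ (Real.exp_pos _)]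
  have h1 := Real.add_one_le_exp (a * n)
  have h2 : T ≤ r * (a * n) := by
    rw [div_le_iff₀ (by positivity)] at hn
    linarith [mul_comm (n : ℝ) (r * a), mul_assoc r a (n : ℝ)]
  have h3 : r * (a * n + 1) ≤ r * Real.exp (a * n) := mul_le_mul_of_nonneg_left h1 hr.le
  nlinarith

private theorem lz7_cmp (ha : 0 < a) (hab : a ≤ b) (Y : JP H a b) (Z : Size H a b) {x y z z' : M}
    {t s s' : ℝ} {n : ℕ} (hxy : SRel H.f a b x y t) (hz : SRel H.f a b x z s)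
    (hz' : SRel H.f a b x z' s') (hn : Real.exp (-(a * n)) * (t + s + s') ≤ Y.r2) :
    Z.sz n x * ‖Y.J x z - Y.J x z'‖ ≤ (Y.C * Z.C) ^ 2 * (Z.sz n y * ‖Y.J y z - Y.J y z'‖) ∧
    Z.sz n y * ‖Y.J y z - Y.J y z'‖ ≤ (Y.C * Z.C) ^ 2 * (Z.sz n x * ‖Y.J x z - Y.J x z'‖) := by
  have ht0 : 0 ≤ t := dist_nonneg.trans hxy.dist_le
  have hs0 : 0 ≤ s := dist_nonneg.trans hz.dist_le
  have hs0' : 0 ≤ s' := dist_nonneg.trans hz'.dist_le
  have hyz : SRel H.f a b y z (t + s) := hxy.symm.tri hz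
  have hyz' : SRel H.f a b y z' (t + s') := hxy.symm.tri hz'
  have he : 0 < Real.exp (-(a * n)) := Real.exp_pos _
  have key : ∀ {u w : M} {q : ℝ}, SRel H.f a b u w q → q ≤ t + s + s' →
      SRel H.f a b (H.f^[n] u) (H.f^[n] w) Y.r2 := by
    intro u w q h hq
    exact (h.fwd_iter ha hab n).mono ((mul_le_mul_of_nonneg_left hq he.le).trans hn)
  obtain ⟨a1, a2⟩ := Y.loc _ _ _ (key hz (by linarith)) (key hz' (by linarith))
  obtain ⟨b1, b2⟩ := Y.loc _ _ _ (key hyz (by linarith)) (key hyz' (by linarith))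
  obtain ⟨c1, c2⟩ := Y.scal ha hab Z n hz hz'
  obtain ⟨d1, d2⟩ := Y.scal ha hab Z n hyz hyz'
  have hC := Y.hC
  have hC' := Z.hC
  have hC0 : 0 ≤ Y.C := by linarith
  have hC0' : 0 ≤ Z.C := by linarith
  constructor
  · calc Z.sz n x * ‖Y.J x z - Y.J x z'‖
        ≤ Z.C * ‖Y.J (H.f^[n] x) (H.f^[n] z) - Y.J (H.f^[n] x) (H.f^[n] z')‖ := c2
      _ ≤ Z.C * (Y.C * dist (H.f^[n] z) (H.f^[n] z')) := mul_le_mul_of_nonneg_left a1 hC0'
      _ ≤ Z.C * (Y.C * (Y.C * (Z.C * Z.sz n y * ‖Y.J y z - Y.J y z'‖))) := by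
          refine mul_le_mul_of_nonneg_left (mul_le_mul_of_nonneg_left ?_ hC0) hC0'
          exact b2.trans (mul_le_mul_of_nonneg_left d1 hC0)
      _ = (Y.C * Z.C) ^ 2 * (Z.sz n y * ‖Y.J y z - Y.J y z'‖) := by ring
  · calc Z.sz n y * ‖Y.J y z - Y.J y z'‖
        ≤ Z.C * ‖Y.J (H.f^[n] y) (H.f^[n] z) - Y.J (H.f^[n] y) (H.f^[n] z')‖ := d2
      _ ≤ Z.C * (Y.C * dist (H.f^[n] z) (H.f^[n] z')) := mul_le_mul_of_nonneg_left b1 hC0'
      _ ≤ Z.C * (Y.C * (Y.C * (Z.C * Z.sz n x * ‖Y.J x z - Y.J x z'‖))) := by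
          refine mul_le_mul_of_nonneg_left (mul_le_mul_of_nonneg_left ?_ hC0) hC0'
          exact a2.trans (mul_le_mul_of_nonneg_left c1 hC0)
      _ = (Y.C * Z.C) ^ 2 * (Z.sz n x * ‖Y.J x z - Y.J x z'‖) := by ring

theorem JP.trans (ha : 0 < a) (hab : a ≤ b) (Y : JP H a b) (Z : Size H a b) : ∃ C : ℝ, 1 ≤ C ∧ ∀ x y t,
    SRel H.f a b x y t → ∃ κ > 0, ∀ z z' s s', SRel H.f a b x z s → SRel H.f a b x z' s' →
      ‖Y.J y z - Y.J y z'‖ ≤ C * κ * ‖Y.J x z - Y.J x z'‖ ∧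
      κ * ‖Y.J x z - Y.J x z'‖ ≤ C * ‖Y.J y z - Y.J y z'‖ := by
  have hC := Y.hC
  have hC' := Z.hC
  set K : ℝ := (Y.C * Z.C) ^ 2 with hK
  have h1 : 1 ≤ Y.C * Z.C := by nlinarith
  have hK1 : 1 ≤ K := by rw [hK]; nlinarith
  have hK2 : 1 ≤ K ^ 2 := by nlinarith
  refine ⟨K ^ 2, hK2, ?_⟩
  intro x y t hxy
  by_cases hne : x = y
  · subst hne
    refine ⟨1, one_pos, ?_⟩
    intro z z' s s' _ _
    have := norm_nonneg (Y.J x z - Y.J x z')
    constructor <;> nlinarith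
  · have ht0 : 0 ≤ t := dist_nonneg.trans hxy.dist_le
    have hx0 : 0 < ‖Y.J x x - Y.J x y‖ := by
      rw [norm_pos_iff, sub_ne_zero]
      intro h
      exact hne (Y.inj x x y 0 t (SRel.refl x) hxy h)
    have hy0 : 0 < ‖Y.J y x - Y.J y y‖ := by
      rw [norm_pos_iff, sub_ne_zero]
      intro h
      exact hne (Y.inj y x y t 0 hxy.symm (SRel.refl y) h)
    refine ⟨‖Y.J y x - Y.J y y‖ / ‖Y.J x x - Y.J x y‖, div_pos hy0 hx0, ?_⟩
    intro z z' s s' hz hz'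
    have hs0 : 0 ≤ s := dist_nonneg.trans hz.dist_le
    have hs0' : 0 ≤ s' := dist_nonneg.trans hz'.dist_le
    obtain ⟨n, hn⟩ := lz7_small (a := a) ha (T := t + (t + s) + (t + s')) (by linarith) Y.hr2
    have he : 0 < Real.exp (-(a * n)) := Real.exp_pos _
    have hn1 : Real.exp (-(a * n)) * (t + s + s') ≤ Y.r2 :=
      (mul_le_mul_of_nonneg_left (by linarith) he.le).trans hn
    have hn2 : Real.exp (-(a * n)) * (t + 0 + t) ≤ Y.r2 :=
      (mul_le_mul_of_nonneg_left (by linarith) he.le).trans hn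
    obtain ⟨p1, p2⟩ := lz7_cmp ha hab Y Z hxy hz hz' hn1
    obtain ⟨q1, q2⟩ := lz7_cmp ha hab Y Z hxy (SRel.refl x) hxy hn2
    rw [← hK] at p1 p2 q1 q2
    have hsx := Z.pos n x
    have hsy := Z.pos n y
    set jx := ‖Y.J x z - Y.J x z'‖ with hjx
    set jy := ‖Y.J y z - Y.J y z'‖ with hjy
    set jx0 := ‖Y.J x x - Y.J x y‖ with hjx0
    set jy0 := ‖Y.J y x - Y.J y y‖ with hjy0
    set κ := jy0 / jx0 with hκ
    have hκ0 : 0 < κ := div_pos hy0 hx0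
    have hκe : jy0 = κ * jx0 := by rw [hκ]; field_simp
    rw [hκe] at q1 q2
    have r1 : Z.sz n x ≤ K * (Z.sz n y * κ) := by
      refine le_of_mul_le_mul_right ?_ hx0
      linarith
    have r2 : Z.sz n y * κ ≤ K * Z.sz n x := by
      refine le_of_mul_le_mul_right ?_ hx0
      linarith
    have hjx1 : 0 ≤ jx := norm_nonneg _
    have hjy1 : 0 ≤ jy := norm_nonneg _
    have hK0 : 0 ≤ K := by linarith
    constructor
    · refine le_of_mul_le_mul_left ?_ hsy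
      have e1 := mul_le_mul_of_nonneg_left (mul_le_mul_of_nonneg_right r1 hjx1) hK0
      calc Z.sz n y * jy ≤ K * (Z.sz n x * jx) := p2
        _ ≤ K * (K * (Z.sz n y * κ) * jx) := e1
        _ = Z.sz n y * (K ^ 2 * κ * jx) := by ring
    · refine le_of_mul_le_mul_left ?_ hsy
      have e1 := mul_le_mul_of_nonneg_right r2 hjx1
      have e2 := mul_le_mul_of_nonneg_left p1 hK0
      calc Z.sz n y * (κ * jx) = Z.sz n y * κ * jx := by ring
        _ ≤ K * Z.sz n x * jx := e1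
        _ = K * (Z.sz n x * jx) := by ring
        _ ≤ K * (K * (Z.sz n y * jy)) := e2
        _ = Z.sz n y * (K ^ 2 * jy) := by ring

end Pool.Agent.ANC
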