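import Mathlib
import Pool.Agent.ANC.LZD

/-! LZQ: sizes.  For Es x ≠ 0 choose e_x ≠ 0 in Es x and sz n x := |An n x e_x| / |e_x|; QConf gives hi, lo.  For Es x = 0 take
sz n x := exp (-(a n)).  Bounds: H.s_hi, H.s_lo iterated: n (f^n x) (An n x v) ≤ l2^n n x v, ≥ l1^n n x v; n_le, le_n;
l2 < e^{-a}, e^{-b} < l1. -/

open Set Metric Function

namespace Pool.Agent.ANC

open Pool.Agent.ANO (Loc Trans SRel SParam)

variable {M : Type} [MetricSpace M] {E : Type} [NormedAddCommGroup E] [NormedSpace ℝ E]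

private theorem lzq_hi (H : Loc M E) (n : ℕ) (x : M) (v : E) (hv : v ∈ H.Es x) :
    H.n (H.f^[n] x) (An H n x v) ≤ H.l2 ^ n * H.n x v := by
  induction n with
  | zero => simp [An_zero]
  | succ n ih =>
    rw [An_succ', Function.iterate_succ_apply']
    have h1 := H.s_hi _ _ (An_mem H n x v hv)
    have h2 : 0 ≤ H.l2 := H.hl1.le.trans H.hl12
    calc _ ≤ H.l2 * H.n (H.f^[n] x) (An H n x v) := h1
      _ ≤ H.l2 * (H.l2 ^ n * H.n x v) := mul_le_mul_of_nonneg_left ih h2
      _ = _ := by ring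

private theorem lzq_lo (H : Loc M E) (n : ℕ) (x : M) (v : E) (hv : v ∈ H.Es x) :
    H.l1 ^ n * H.n x v ≤ H.n (H.f^[n] x) (An H n x v) := by
  induction n with
  | zero => simp [An_zero]
  | succ n ih =>
    rw [An_succ', Function.iterate_succ_apply']
    have h1 := H.s_lo _ _ (An_mem H n x v hv)
    calc _ = H.l1 * (H.l1 ^ n * H.n x v) := by ring
      _ ≤ H.l1 * H.n (H.f^[n] x) (An H n x v) := mul_le_mul_of_nonneg_left ih H.hl1.le
      _ ≤ _ := h1

theorem exists_size (H : Loc M E) {a b : ℝ} (ha' : H.l2 < Real.exp (-a)) (hb' : Real.exp (-b) < H.l1)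
    (hab : a ≤ b) (hq : QConf H H.Es) : Nonempty (Size H a b) := by
  obtain ⟨Q, hQ, hq⟩ := hq
  have hL := H.hL
  have hL2 : 1 ≤ H.L * H.L := by nlinarith
  set C : ℝ := Q + H.L * H.L with hC
  have hC1 : 1 ≤ C := by rw [hC]; linarith
  have hCQ : Q ≤ C := by rw [hC]; linarith
  have hCL : H.L * H.L ≤ C := by rw [hC]; linarith
  have hl2 : 0 ≤ H.l2 := H.hl1.le.trans H.hl12
  have key : ∀ (n : ℕ) (x : M), ∃ s : ℝ, 0 < s ∧
      (∀ v, v ∈ H.Es x → ‖An H n x v‖ ≤ C * s * ‖v‖) ∧
      (∀ v, v ∈ H.Es x → s * ‖v‖ ≤ C * ‖An H n x v‖) ∧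
      s ≤ C * Real.exp (-(a * n)) ∧ Real.exp (-(b * n)) ≤ C * s := by
    intro n x
    by_cases hex : ∃ e ∈ H.Es x, e ≠ 0
    · obtain ⟨e, he, he0⟩ := hex
      have hen : 0 < ‖e‖ := norm_pos_iff.2 he0
      have hAe : 0 < ‖An H n x e‖ := by
        refine norm_pos_iff.2 (fun h => he0 ?_)
        exact (An H n x).map_eq_zero_iff.1 h
      refine ⟨‖An H n x e‖ / ‖e‖, div_pos hAe hen, ?_, ?_, ?_, ?_⟩
      · intro v hv
        have h1 := hq x n v e hv he
        have h2 : ‖An H n x v‖ ≤ Q * (‖An H n x e‖ * ‖v‖) / ‖e‖ := (le_div_iff₀ hen).2 h1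
        have h3 : Q * (‖An H n x e‖ * ‖v‖) / ‖e‖ = Q * (‖An H n x e‖ / ‖e‖ * ‖v‖) := by
          field_simp
        rw [h3] at h2
        rw [mul_assoc]
        exact h2.trans (mul_le_mul_of_nonneg_right hCQ (by positivity))
      · intro v hv
        have h1 := hq x n e v he hv
        rw [div_mul_eq_mul_div, div_le_iff₀ hen]
        calc ‖An H n x e‖ * ‖v‖ ≤ Q * (‖An H n x v‖ * ‖e‖) := h1
          _ ≤ C * (‖An H n x v‖ * ‖e‖) := mul_le_mul_of_nonneg_right hCQ (by positivity)
          _ = _ := by ring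
      · rw [div_le_iff₀ hen]
        have h1 := lzq_hi H n x e he
        have h2 := H.le_n (H.f^[n] x) (An H n x e)
        have h3 := H.n_le x e
        have h4 : H.l2 ^ n ≤ Real.exp (-(a * n)) := by
          have h5 : Real.exp (-(a * n)) = Real.exp (-a) ^ n := by
            rw [← Real.exp_nat_mul]
            congr 1
            ring
          rw [h5]
          exact pow_le_pow_left₀ hl2 ha'.le n
        calc ‖An H n x e‖ ≤ H.L * H.n (H.f^[n] x) (An H n x e) := h2
          _ ≤ H.L * (H.l2 ^ n * H.n x e) := mul_le_mul_of_nonneg_left h1 (by linarith)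
          _ ≤ H.L * (H.l2 ^ n * (H.L * ‖e‖)) := by
              refine mul_le_mul_of_nonneg_left ?_ (by linarith)
              exact mul_le_mul_of_nonneg_left h3 (pow_nonneg hl2 n)
          _ = (H.L * H.L) * (H.l2 ^ n * ‖e‖) := by ring
          _ ≤ C * (Real.exp (-(a * n)) * ‖e‖) := by
              refine mul_le_mul hCL ?_ (by positivity) (by linarith)
              exact mul_le_mul_of_nonneg_right h4 hen.le
          _ = _ := by ring
      · have h1 := lzq_lo H n x e he
        have h2 := H.n_le (H.f^[n] x) (An H n x e)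
        have h3 := H.le_n x e
        have h4 : Real.exp (-(b * n)) ≤ H.l1 ^ n := by
          have h5 : Real.exp (-(b * n)) = Real.exp (-b) ^ n := by
            rw [← Real.exp_nat_mul]
            congr 1
            ring
          rw [h5]
          exact pow_le_pow_left₀ (Real.exp_pos _).le hb'.le n
        have h6 : Real.exp (-(b * n)) * ‖e‖ ≤ (H.L * H.L) * ‖An H n x e‖ := by
          calc Real.exp (-(b * n)) * ‖e‖ ≤ H.l1 ^ n * (H.L * H.n x e) := by
                exact mul_le_mul h4 h3 hen.le (pow_nonneg H.hl1.le n)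
            _ = H.L * (H.l1 ^ n * H.n x e) := by ring
            _ ≤ H.L * (H.L * ‖An H n x e‖) := mul_le_mul_of_nonneg_left (h1.trans h2) (by linarith)
            _ = _ := by ring
        rw [mul_div_assoc', le_div_iff₀ hen]
        exact h6.trans (mul_le_mul_of_nonneg_right hCL hAe.le)
    · push Not at hex
      refine ⟨Real.exp (-(a * n)), Real.exp_pos _, ?_, ?_, ?_, ?_⟩
      · intro v hv
        rw [hex v hv]
        simp
      · intro v hv
        rw [hex v hv]
        simp
      · exact le_mul_of_one_le_left (Real.exp_pos _).le hC1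
      · have h1 : Real.exp (-(b * n)) ≤ Real.exp (-(a * n)) := by
          apply Real.exp_le_exp.2
          have := mul_le_mul_of_nonneg_right hab (Nat.cast_nonneg (α := ℝ) n)
          linarith
        exact h1.trans (le_mul_of_one_le_left (Real.exp_pos _).le hC1)
  choose s h1 h2 h3 h4 h5 using key
  exact ⟨⟨s, C, hC1, h1, h2, h3, h4, h5⟩⟩

end Pool.Agent.ANC
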