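import Mathlib
import Pool.Agent.ANC.LZ6
import Pool.Agent.ANC.LZ7
import Pool.Agent.ANC.LZQ

/-! LZ8: assembly.  θ x v := the z of JP.surj (J x z = v).  zero, inj, surj from JP.  C := max of Z.C and the constant of JP.trans.
unif / loc with R0 small: JP.locsurj, JP.loc, and Loc.cmp (dist along the forward orbit small implies SRel x y (Cc dist x y)).
lip, inv: push forward by f^n until the vectors are small (mu_le, le_mu), use JP.loc there and come back with SRel.bwd_iter. -/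

open Set Metric Function

namespace Pool.Agent.ANC

open Pool.Agent.ANO (Loc Trans SRel SParam)

variable {M : Type} [MetricSpace M] [CompactSpace M] {E : Type} [NormedAddCommGroup E] [NormedSpace ℝ E]
  [FiniteDimensional ℝ E]

private theorem lz8_small {a : ℝ} (ha : 0 < a) (T ε : ℝ) (hT : 0 ≤ T) (hε : 0 < ε) :
    ∃ n : ℕ, Real.exp (-(a * n)) * T ≤ ε := by
  obtain ⟨n, hn⟩ := exists_nat_ge (T / (a * ε))
  refine ⟨n, ?_⟩
  have h1 : T ≤ a * ε * n := by
    rw [div_le_iff₀ (by positivity)] at hn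
    linarith
  have h2 : a * n ≤ Real.exp (a * n) := by
    have := Real.add_one_le_exp (a * n)
    linarith
  have h3 : Real.exp (-(a * n)) * Real.exp (a * n) = 1 := by
    rw [← Real.exp_add]; simp
  have hp := Real.exp_pos (-(a * n))
  calc Real.exp (-(a * n)) * T ≤ Real.exp (-(a * n)) * (a * ε * n) := by gcongr
    _ = ε * (Real.exp (-(a * n)) * (a * n)) := by ring
    _ ≤ ε * (Real.exp (-(a * n)) * Real.exp (a * n)) := by gcongr
    _ = ε := by rw [h3, mul_one]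

omit [CompactSpace M] [FiniteDimensional ℝ E] in
private theorem An_sub (H : Loc M E) (n : ℕ) (x : M) (v w : E) :
    An H n x (v - w) = An H n x v - An H n x w := map_sub _ _ _

theorem JP.qparam {H : Loc M E} {a b : ℝ} (ha : 0 < a) (hab : a ≤ b) (ha' : H.l2 < Real.exp (-a))
    (hb' : Real.exp (-b) < H.l1) (Y : JP H a b) (Z : Size H a b) : Nonempty (QParam H a b) := by
  obtain ⟨ρc, hρc, Cc, hCc, hcmp⟩ := H.cmp ha hab ha' hb'
  obtain ⟨CT, hCT, htr⟩ := Y.trans ha hab Z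
  have hYC : 0 < Y.C := lt_of_lt_of_le one_pos Y.hC
  have hZC : 0 < Z.C := lt_of_lt_of_le one_pos Z.hC
  have hex : ∀ (x : M) (v : H.Es x), ∃ z, (∃ t, SRel H.f a b x z t) ∧ Y.J x z = v := by
    intro x v
    obtain ⟨z, t, h1, h2⟩ := Y.surj x v v.2
    exact ⟨z, ⟨t, h1⟩, h2⟩
  choose θ hθ1 hθ2 using hex
  have hinj' : ∀ (x z : M) (v : H.Es x) (t : ℝ), SRel H.f a b x z t → Y.J x z = v → θ x v = z := by
    intro x z v t hz hJ
    obtain ⟨t', ht'⟩ := hθ1 x v
    exact Y.inj x _ _ t' t ht' hz (by rw [hθ2, hJ])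
  set R0 : ℝ := min Y.r2 (ρc / 2) / Y.C with hR0d
  have hR0 : 0 < R0 := div_pos (lt_min Y.hr2 (by positivity)) hYC
  have hR0a : Y.C * R0 ≤ Y.r2 := by
    rw [hR0d, mul_div_cancel₀ _ hYC.ne']
    exact min_le_left _ _
  have hR0b : Y.C * R0 ≤ ρc / 2 := by
    rw [hR0d, mul_div_cancel₀ _ hYC.ne']
    exact min_le_right _ _
  have hR0c : R0 ≤ Y.r2 := by
    have : 1 * R0 ≤ Y.C * R0 := mul_le_mul_of_nonneg_right Y.hC hR0.le
    linarith
  have hsmall : ∀ (x : M) (v : H.Es x), ‖v‖ ≤ R0 → SRel H.f a b x (θ x v) (Y.C * ‖v‖) := by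
    intro x v hv
    have h1 : Y.C * ‖(v : E)‖ ≤ Y.r2 := by
      refine le_trans ?_ hR0a
      exact mul_le_mul_of_nonneg_left hv hYC.le
    obtain ⟨z, hz, hJ⟩ := Y.locsurj x v v.2 h1
    rw [hinj' x z v _ hz hJ]
    exact hz
  have hsmall2 : ∀ (x : M) (v : H.Es x), ‖v‖ ≤ R0 → SRel H.f a b x (θ x v) Y.r2 := by
    intro x v hv
    refine (hsmall x v hv).mono ?_
    refine le_trans ?_ hR0a
    exact mul_le_mul_of_nonneg_left hv hYC.le
  have hunif : ∀ (x : M) (v w : H.Es x), ‖v‖ ≤ R0 → ‖w‖ ≤ R0 →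
      SRel H.f a b (θ x v) (θ x w) (Cc * Y.C * ‖v - w‖) := by
    intro x v w hv hw
    have h1 := (hsmall x v hv).symm.tri (hsmall x w hw)
    have h2 : Y.C * ‖v‖ + Y.C * ‖w‖ ≤ ρc := by
      have h3 : Y.C * ‖v‖ ≤ Y.C * R0 := mul_le_mul_of_nonneg_left hv hYC.le
      have h4 : Y.C * ‖w‖ ≤ Y.C * R0 := mul_le_mul_of_nonneg_left hw hYC.le
      linarith
    have h5 : ∀ k : ℕ, dist (H.f^[k] (θ x v)) (H.f^[k] (θ x w)) ≤ ρc := by
      intro k
      have h6 := h1.1 k
      have h7 : 1 ≤ Real.exp (a * k) := Real.one_le_exp (by positivity)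
      have h8 : 1 * dist (H.f^[k] (θ x v)) (H.f^[k] (θ x w)) ≤
          Real.exp (a * k) * dist (H.f^[k] (θ x v)) (H.f^[k] (θ x w)) :=
        mul_le_mul_of_nonneg_right h7 dist_nonneg
      linarith
    refine (hcmp _ _ h5).mono ?_
    have h9 := (Y.loc x _ _ (hsmall2 x v hv) (hsmall2 x w hw)).2
    rw [hθ2, hθ2] at h9
    have h10 : ‖(v : E) - (w : E)‖ = ‖v - w‖ := rfl
    rw [h10] at h9
    calc Cc * dist (θ x v) (θ x w) ≤ Cc * (Y.C * ‖v - w‖) :=
          mul_le_mul_of_nonneg_left h9 (by linarith)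
      _ = Cc * Y.C * ‖v - w‖ := by ring
  have hAn : ∀ (n : ℕ) (x : M) (v : H.Es x), Y.J (H.f^[n] x) (H.f^[n] (θ x v)) = An H n x v := by
    intro n x v
    obtain ⟨t, ht⟩ := hθ1 x v
    rw [Y.iter ha hab n ht, hθ2]
  have hpush : ∀ (n : ℕ) (x : M) (v : H.Es x),
      θ (H.f^[n] x) ⟨An H n x v, An_mem H n x v v.2⟩ = H.f^[n] (θ x v) := by
    intro n x v
    obtain ⟨t, ht⟩ := hθ1 x v
    exact hinj' _ _ _ _ (ht.fwd_iter ha hab n) (hAn n x v)
  refine ⟨{ θ := θ
            R0 := R0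
            hR0 := hR0
            K0 := Cc * Y.C
            hK0 := one_le_mul_of_one_le_of_one_le hCc Y.hC
            zero := ?_
            lip := ?_
            inj := ?_
            surj := ?_
            inv := ?_
            unif := hunif
            loc := ?_
            C := max Z.C CT
            hC := le_max_of_le_left Z.hC
            mu := Z.sz
            mu_pos := Z.pos
            mu_le := ?_
            le_mu := ?_
            scal := ?_
            trans := ?_ }⟩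
  · intro x
    exact hinj' x x 0 0 (SRel.refl x) (by rw [Y.self]; rfl)
  · intro x R
    obtain ⟨n, hn⟩ := lz8_small ha (Z.C * Z.C * max R 0) R0 (by positivity) hR0
    refine ⟨Real.exp (b * n) * (Cc * Y.C * (Z.C * Z.sz n x)), ?_, ?_⟩
    · have := Z.pos n x
      have : 0 ≤ Cc := by linarith
      positivity
    intro v w hv hw
    have hb1 : ∀ u : H.Es x, ‖u‖ ≤ R → ‖(⟨An H n x u, An_mem H n x u u.2⟩ : H.Es (H.f^[n] x))‖ ≤ R0 := by
      intro u hu
      change ‖An H n x u‖ ≤ R0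
      have hp := Z.pos n x
      calc ‖An H n x u‖ ≤ Z.C * Z.sz n x * ‖(u : E)‖ := Z.hi n x u u.2
        _ ≤ Z.C * (Z.C * Real.exp (-(a * n))) * max R 0 := by
            have h1 := Z.sz_le n x
            have h2 : ‖(u : E)‖ ≤ max R 0 := le_trans hu (le_max_left _ _)
            gcongr
        _ = Real.exp (-(a * n)) * (Z.C * Z.C * max R 0) := by ring
        _ ≤ R0 := hn
    have h1 := hunif (H.f^[n] x) _ _ (hb1 v hv) (hb1 w hw)
    rw [hpush, hpush] at h1
    have h2 := h1.bwd_iter ha hab n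
    have hLI : ∀ z, H.f.symm^[n] (H.f^[n] z) = z := fun z =>
      (LeftInverse.iterate H.f.symm_apply_apply n) z
    rw [hLI, hLI] at h2
    refine h2.mono ?_
    have h3 : ‖(⟨An H n x v, An_mem H n x v v.2⟩ : H.Es (H.f^[n] x)) - ⟨An H n x w, An_mem H n x w w.2⟩‖ ≤
        Z.C * Z.sz n x * ‖v - w‖ := by
      change ‖An H n x v - An H n x w‖ ≤ _
      rw [← An_sub]
      exact Z.hi n x _ (v - w).2
    have h4 : 0 ≤ Cc := by linarith
    calc Real.exp (b * n) * (Cc * Y.C *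
          ‖(⟨An H n x v, An_mem H n x v v.2⟩ : H.Es (H.f^[n] x)) - ⟨An H n x w, An_mem H n x w w.2⟩‖)
        ≤ Real.exp (b * n) * (Cc * Y.C * (Z.C * Z.sz n x * ‖v - w‖)) := by gcongr
      _ = Real.exp (b * n) * (Cc * Y.C * (Z.C * Z.sz n x)) * ‖v - w‖ := by ring
  · intro x v w h
    apply Subtype.ext
    rw [← hθ2 x v, ← hθ2 x w, h]
  · intro x y t h
    exact ⟨⟨Y.J x y, Y.mem x y t h⟩, hinj' x y _ t h rfl⟩
  · intro x v ε hε
    obtain ⟨t, ht⟩ := hθ1 x v
    have ht0 : 0 ≤ t := dist_nonneg.trans ht.dist_le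
    obtain ⟨n, hn⟩ := lz8_small ha (t + 1) Y.r2 (by positivity) Y.hr2
    have hp := Z.pos n x
    refine ⟨min 1 (ε * Z.sz n x / (2 * Z.C * Y.C)), lt_min one_pos (by positivity), ?_⟩
    intro w hw
    have hw1 := hw.mono (min_le_left _ _)
    have hv2 : SRel H.f a b (H.f^[n] x) (H.f^[n] (θ x v)) Y.r2 := by
      refine (ht.fwd_iter ha hab n).mono (le_trans ?_ hn)
      exact mul_le_mul_of_nonneg_left (by linarith) (Real.exp_pos _).le
    have hw2 : SRel H.f a b (H.f^[n] x) (H.f^[n] (θ x w)) Y.r2 :=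
      ((ht.tri hw1).fwd_iter ha hab n).mono hn
    have h1 := (Y.loc _ _ _ hv2 hw2).1
    have h2 := ((hw.mono (min_le_right _ _)).fwd_iter ha hab n).dist_le
    have h3 : Real.exp (-(a * n)) ≤ 1 := Real.exp_le_one_iff.2 (by
      have : 0 ≤ a * (n : ℝ) := by positivity
      linarith)
    obtain ⟨tw, htw⟩ := hθ1 x w
    have h4 := (Y.scal ha hab Z n ht htw).2
    rw [hθ2, hθ2] at h4
    have h5 : ‖(v : E) - (w : E)‖ = ‖v - w‖ := rfl
    rw [h5] at h4
    have h6 : Z.sz n x * ‖v - w‖ ≤ Z.sz n x * (ε / 2) := by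
      calc Z.sz n x * ‖v - w‖ ≤ Z.C * ‖Y.J (H.f^[n] x) (H.f^[n] (θ x v)) - Y.J (H.f^[n] x) (H.f^[n] (θ x w))‖ := h4
        _ ≤ Z.C * (Y.C * dist (H.f^[n] (θ x v)) (H.f^[n] (θ x w))) := by gcongr
        _ ≤ Z.C * (Y.C * (Real.exp (-(a * n)) * (ε * Z.sz n x / (2 * Z.C * Y.C)))) := by gcongr
        _ ≤ Z.C * (Y.C * (1 * (ε * Z.sz n x / (2 * Z.C * Y.C)))) := by gcongr
        _ = Z.sz n x * (ε / 2) := by field_simp
    have h7 : ‖v - w‖ ≤ ε / 2 := le_of_mul_le_mul_left h6 hp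
    linarith
  · intro x y t htR h
    refine ⟨⟨Y.J x y, Y.mem x y t h⟩, ?_, hinj' x y _ t h rfl⟩
    have h0 : SRel H.f a b x x Y.r2 := (SRel.refl x).mono Y.hr2.le
    have h1 := (Y.loc x y x (h.mono (htR.trans hR0c)) h0).1
    rw [Y.self, sub_zero, dist_comm] at h1
    have h2 := h.dist_le
    have ht0 : 0 ≤ t := dist_nonneg.trans h2
    change ‖Y.J x y‖ ≤ _
    calc ‖Y.J x y‖ ≤ Y.C * dist x y := h1
      _ ≤ Y.C * t := by gcongr
      _ = 1 * (Y.C * t) := by ring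
      _ ≤ Cc * (Y.C * t) := by gcongr
      _ = Cc * Y.C * t := by ring
  · intro n x
    exact (Z.sz_le n x).trans (mul_le_mul_of_nonneg_right (le_max_left _ _) (Real.exp_pos _).le)
  · intro n x
    exact (Z.le_sz n x).trans (mul_le_mul_of_nonneg_right (le_max_left _ _) (Z.pos n x).le)
  · intro n x v w v' w' hv hw
    obtain ⟨t, ht⟩ := hθ1 x v
    obtain ⟨t', ht'⟩ := hθ1 x w
    have h := Y.scal ha hab Z n ht ht'
    rw [← hv, ← hw, hθ2, hθ2, hθ2, hθ2] at h
    have hp := Z.pos n x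
    have hm : Z.C ≤ max Z.C CT := le_max_left _ _
    constructor
    · refine h.1.trans ?_
      exact mul_le_mul_of_nonneg_right (mul_le_mul_of_nonneg_right hm hp.le) (norm_nonneg _)
    · refine h.2.trans ?_
      exact mul_le_mul_of_nonneg_right hm (norm_nonneg _)
  · intro x y t h
    obtain ⟨κ, hκ, h1⟩ := htr x y t h
    refine ⟨κ, hκ, ?_⟩
    intro v w v' w' hv hw
    obtain ⟨t1, ht1⟩ := hθ1 x v
    obtain ⟨t2, ht2⟩ := hθ1 x w
    have h2 := h1 _ _ _ _ ht1 ht2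
    rw [← hv, ← hw, hθ2, hθ2] at h2
    rw [hv, hw, hθ2, hθ2] at h2
    have hm : CT ≤ max Z.C CT := le_max_right _ _
    constructor
    · refine h2.1.trans ?_
      exact mul_le_mul_of_nonneg_right (mul_le_mul_of_nonneg_right hm hκ.le) (norm_nonneg _)
    · refine h2.2.trans ?_
      exact mul_le_mul_of_nonneg_right hm (norm_nonneg _)

theorem exists_qparam (H : Loc M E) {a b : ℝ} (ha : 0 < a) (hab : a ≤ b) (ha' : H.l2 < Real.exp (-a))
    (hb' : Real.exp (-b) < H.l1) (hd : Der2 H) (hq : QConf H H.Es) : Nonempty (QParam H a b) := by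
  obtain ⟨Ps⟩ := H.exists_sparam ha hab ha' hb'
  obtain ⟨Z⟩ := exists_size H ha' hb' hab hq
  obtain ⟨W⟩ := exists_loclin ha hab Ps hd Z
  obtain ⟨Y⟩ := exists_jp ha hab W Z
  exact Y.qparam ha hab ha' hb' Z

end Pool.Agent.ANC
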