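import Mathlib
import Pool.Agent.ANC.LZD

/-! LZS: the inverse.  der2_symm as ANO.Loc.der_symm: with x' = f^-1 x etc., Δ = c x y - c x z, δ = c x' y' - c x' z':
|Δ - A δ| ≤ K (dist x' y' + dist x' z') |δ|, so |A^-1 Δ - δ| ≤ L K (..) |δ|; for small distances |δ| ≤ 2 L |Δ|; and
dist x' y' ≤ C dist x y for small distances (c_le, le_c and the estimate with z = x; uniform continuity of f^-1).
qconf_symm: An H.symm n x v for v ∈ Eu x: v = An H n x' (w), x' = f^-n x, w = An H.symm n x v ∈ Eu x', so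
QConf on Eu at x' gives it (An H.symm n x is the inverse of An H n (f^-n x)). -/

open Set Metric Function

namespace Pool.Agent.ANC

open Pool.Agent.ANO (Loc Trans SRel SParam)

variable {M : Type} [MetricSpace M] [CompactSpace M] {E : Type} [NormedAddCommGroup E] [NormedSpace ℝ E]

theorem der2_symm (H : Loc M E) (hd : Der2 H) : Der2 H.symm := by
  obtain ⟨K, hK, ρ1, hρ1, h0⟩ := hd
  have hL : 0 < H.L := lt_of_lt_of_le one_pos H.hL
  set ρ0 : ℝ := min ρ1 (min H.r (1 / (4 * K * H.L))) with hρ0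
  have hρ0pos : 0 < ρ0 := lt_min hρ1 (lt_min H.hr (by positivity))
  have hρ01 : ρ0 ≤ ρ1 := min_le_left _ _
  have hρ0r : ρ0 ≤ H.r := (min_le_right _ _).trans (min_le_left _ _)
  have hρ0K : H.L * (K * (ρ0 + ρ0)) ≤ 1 / 2 := by
    have h1 : ρ0 ≤ 1 / (4 * K * H.L) := (min_le_right _ _).trans (min_le_right _ _)
    have h2 : H.L * (K * (ρ0 + ρ0)) ≤ H.L * (K * (1 / (4 * K * H.L) + 1 / (4 * K * H.L))) := by gcongr
    have h3 : H.L * (K * (1 / (4 * K * H.L) + 1 / (4 * K * H.L))) = 1 / 2 := by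
      field_simp
      norm_num
    linarith
  have huc : UniformContinuous H.f.symm :=
    CompactSpace.uniformContinuous_of_continuous H.f.symm.continuous
  obtain ⟨δ, hδ, h1⟩ := Metric.uniformContinuous_iff.1 huc ρ0 hρ0pos
  have hmain : ∀ x y z, dist x y ≤ min (δ / 2) H.r → dist x z ≤ min (δ / 2) H.r →
      ‖H.c (H.f.symm x) (H.f.symm y) - H.c (H.f.symm x) (H.f.symm z)‖ ≤ 2 * H.L * ‖H.c x y - H.c x z‖ ∧
      ‖H.c (H.f.symm x) (H.f.symm y) - H.c (H.f.symm x) (H.f.symm z) -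
        (H.A (H.f.symm x)).symm (H.c x y - H.c x z)‖ ≤
        H.L * (K * (dist (H.f.symm x) (H.f.symm y) + dist (H.f.symm x) (H.f.symm z))) *
          ‖H.c (H.f.symm x) (H.f.symm y) - H.c (H.f.symm x) (H.f.symm z)‖ := by
    intro x y z hxy hxz
    have hxy1 : dist x y ≤ δ / 2 := hxy.trans (min_le_left _ _)
    have hxz1 : dist x z ≤ δ / 2 := hxz.trans (min_le_left _ _)
    have hy : dist (H.f.symm x) (H.f.symm y) ≤ ρ0 := (h1 (by linarith)).le
    have hz : dist (H.f.symm x) (H.f.symm z) ≤ ρ0 := (h1 (by linarith)).le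
    have h2 := h0 _ _ _ (hy.trans hρ01) (hz.trans hρ01)
    simp only [Homeomorph.apply_symm_apply] at h2
    set x' := H.f.symm x
    set d := H.c x' (H.f.symm y) - H.c x' (H.f.symm z) with hd
    set D := H.c x y - H.c x z with hD
    set η0 : ℝ := K * (dist x' (H.f.symm y) + dist x' (H.f.symm z)) with hη0
    have hη00 : 0 ≤ η0 := by positivity
    have hη0le : H.L * η0 ≤ 1 / 2 := by
      refine le_trans ?_ hρ0K
      rw [hη0]
      gcongr
    constructor
    · have h4 : ‖d‖ ≤ H.L * ‖H.A x' d‖ := by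
        have := H.A_symm_le x' (H.A x' d)
        rwa [ContinuousLinearEquiv.symm_apply_apply] at this
      have h5 : ‖H.A x' d‖ ≤ ‖D‖ + η0 * ‖d‖ := by
        have h6 : H.A x' d = D - (D - H.A x' d) := by abel
        calc ‖H.A x' d‖ = ‖D - (D - H.A x' d)‖ := by rw [← h6]
          _ ≤ ‖D‖ + ‖D - H.A x' d‖ := norm_sub_le _ _
          _ ≤ ‖D‖ + η0 * ‖d‖ := by gcongr
      have h7 : ‖d‖ ≤ H.L * ‖D‖ + (H.L * η0) * ‖d‖ := by
        calc ‖d‖ ≤ H.L * ‖H.A x' d‖ := h4
          _ ≤ H.L * (‖D‖ + η0 * ‖d‖) := by gcongr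
          _ = _ := by ring
      have h8 : (H.L * η0) * ‖d‖ ≤ 1 / 2 * ‖d‖ :=
        mul_le_mul_of_nonneg_right hη0le (norm_nonneg _)
      nlinarith
    · have h9 : d - (H.A x').symm D = (H.A x').symm (H.A x' d - D) := by
        rw [(H.A x').symm.map_sub (H.A x' d) D, ContinuousLinearEquiv.symm_apply_apply]
      rw [h9]
      calc ‖(H.A x').symm (H.A x' d - D)‖ ≤ H.L * ‖H.A x' d - D‖ := H.A_symm_le _ _
        _ ≤ H.L * (η0 * ‖d‖) := by
            rw [norm_sub_rev]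
            gcongr
        _ = H.L * η0 * ‖d‖ := by ring
  have hdist : ∀ x y, dist x y ≤ min (δ / 2) H.r →
      dist (H.f.symm x) (H.f.symm y) ≤ 2 * H.L ^ 3 * dist x y := by
    intro x y hxy
    have hxy1 : dist x y ≤ δ / 2 := hxy.trans (min_le_left _ _)
    have hxyr : dist x y ≤ H.r := hxy.trans (min_le_right _ _)
    have hy : dist (H.f.symm x) (H.f.symm y) ≤ ρ0 := (h1 (by linarith)).le
    have h0x : dist x x ≤ min (δ / 2) H.r := by
      rw [dist_self]
      exact le_min (by positivity) H.hr.le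
    have h2 := (hmain x y x hxy h0x).1
    have h3 := H.le_c (H.f.symm x) (H.f.symm y) (H.f.symm x) (hy.trans hρ0r) (by rw [dist_self]; exact H.hr.le)
    have h4 := H.c_le x y x hxyr (by rw [dist_self]; exact H.hr.le)
    rw [dist_comm (H.f.symm y) (H.f.symm x)] at h3
    rw [dist_comm y x] at h4
    calc dist (H.f.symm x) (H.f.symm y) ≤ H.L * ‖H.c (H.f.symm x) (H.f.symm y) - H.c (H.f.symm x) (H.f.symm x)‖ := h3
      _ ≤ H.L * (2 * H.L * ‖H.c x y - H.c x x‖) := by gcongr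
      _ ≤ H.L * (2 * H.L * (H.L * dist x y)) := by gcongr
      _ = 2 * H.L ^ 3 * dist x y := by ring
  refine ⟨4 * K * H.L ^ 5, by positivity, min (δ / 2) H.r, lt_min (by positivity) H.hr, ?_⟩
  intro x y z hxy hxz
  change ‖H.c (H.f.symm x) (H.f.symm y) - H.c (H.f.symm x) (H.f.symm z) -
        (H.A (H.f.symm x)).symm (H.c x y - H.c x z)‖ ≤ 4 * K * H.L ^ 5 * (dist x y + dist x z) * ‖H.c x y - H.c x z‖
  obtain ⟨ha, hb⟩ := hmain x y z hxy hxz
  have hy := hdist x y hxy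
  have hz := hdist x z hxz
  calc _ ≤ H.L * (K * (dist (H.f.symm x) (H.f.symm y) + dist (H.f.symm x) (H.f.symm z))) *
          ‖H.c (H.f.symm x) (H.f.symm y) - H.c (H.f.symm x) (H.f.symm z)‖ := hb
    _ ≤ H.L * (K * (2 * H.L ^ 3 * dist x y + 2 * H.L ^ 3 * dist x z)) * (2 * H.L * ‖H.c x y - H.c x z‖) := by
        gcongr
    _ = 4 * K * H.L ^ 5 * (dist x y + dist x z) * ‖H.c x y - H.c x z‖ := by ring

private theorem An_An_symm (H : Loc M E) (n : ℕ) (x : M) (v : E) :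
    An H n (H.f.symm^[n] x) (An H.symm n x v) = v := by
  induction n with
  | zero => rfl
  | succ n ih =>
    rw [An_succ' H.symm, iterate_succ_apply', An_succ]
    have e1 : H.symm.f^[n] x = H.f.symm^[n] x := rfl
    have e2 : H.symm.A (H.symm.f^[n] x) = (H.A (H.f.symm (H.f.symm^[n] x))).symm := rfl
    rw [e2, ContinuousLinearEquiv.apply_symm_apply, Homeomorph.apply_symm_apply]
    exact ih

theorem qconf_symm (H : Loc M E) (hq : QConf H H.Eu) : QConf H.symm H.symm.Es := by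
  obtain ⟨Q, hQ, h⟩ := hq
  refine ⟨Q, hQ, fun x n v w hv hw => ?_⟩
  have hv' : An H.symm n x v ∈ H.Eu (H.f.symm^[n] x) := An_mem H.symm n x v hv
  have hw' : An H.symm n x w ∈ H.Eu (H.f.symm^[n] x) := An_mem H.symm n x w hw
  have h1 := h (H.f.symm^[n] x) n _ _ hw' hv'
  rw [An_An_symm, An_An_symm] at h1
  calc ‖An H.symm n x v‖ * ‖w‖ = ‖w‖ * ‖An H.symm n x v‖ := mul_comm _ _
    _ ≤ Q * (‖v‖ * ‖An H.symm n x w‖) := h1
    _ = Q * (‖An H.symm n x w‖ * ‖v‖) := by ring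

end Pool.Agent.ANC
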