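import Mathlib
import Pool.Agent.ANC.LZ8
import Pool.Agent.ANC.LZS
import Pool.Agent.ANC.QCD

open Set Metric Function

namespace Pool.Agent.ANC

open Pool.Agent.ANO (Loc Trans SRel SParam)

variable {M : Type} [MetricSpace M] {E : Type} [NormedAddCommGroup E] [NormedSpace ℝ E]

private theorem tos_dist {f : M ≃ₜ M} {a b : ℝ} (ha : 0 < a) {x y : M} {t : ℝ}
    (h : SRel f a b x y t) (k : ℕ) : dist (f^[k] x) (f^[k] y) ≤ t := by
  have h1 := h.1 k
  have h2 : (1 : ℝ) ≤ Real.exp (a * k) := Real.one_le_exp (by positivity)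
  have h3 : 0 ≤ dist (f^[k] x) (f^[k] y) := dist_nonneg
  calc dist (f^[k] x) (f^[k] y) = 1 * dist (f^[k] x) (f^[k] y) := (one_mul _).symm
    _ ≤ Real.exp (a * k) * dist (f^[k] x) (f^[k] y) := mul_le_mul_of_nonneg_right h2 h3
    _ ≤ t := h1

/-- From local coordinates to the abstract system, with quasi-similar unstable leaves. -/
theorem exists_sys [CompactSpace M] [FiniteDimensional ℝ E] {H : Loc M E} (T : Trans H) (hd : Der2 H)
    (hq : QConf H H.Eu) {k : ℕ} (hk : 2 ≤ k) (hdim : ∀ x, Module.finrank ℝ (H.Eu x) = k) :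
    ∃ (D : Sys M) (Λ : Leaves M D E) (_ : QC D Λ), D.f = H.f ∧ ∀ x, IsCompl (Λ.Es x) (Λ.Eu x) := by
  have hl1 := H.hl1
  have hl2 : 0 < H.l2 := lt_of_lt_of_le H.hl1 H.hl12
  have hm2 : 0 < H.m2 := lt_trans one_pos H.hm2
  have hm1 : 0 < H.m1 := lt_of_lt_of_le hm2 H.hm12
  have hα : 0 < -Real.log H.l2 := by
    have := Real.log_neg hl2 H.hl2
    linarith
  have hγ : 0 < Real.log H.m2 := Real.log_pos H.hm2
  have hαβ : -Real.log H.l2 ≤ -Real.log H.l1 := by
    have := Real.log_le_log hl1 H.hl12
    linarith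
  have hγδ : Real.log H.m2 ≤ Real.log H.m1 := Real.log_le_log hm2 H.hm12
  obtain ⟨t, ht0, hta, htc⟩ : ∃ t > 0, t < -Real.log H.l2 ∧ t < Real.log H.m2 := by
    refine ⟨min (-Real.log H.l2 / 2) (Real.log H.m2 / 2), lt_min (by linarith) (by linarith), ?_, ?_⟩
    · have := min_le_left (-Real.log H.l2 / 2) (Real.log H.m2 / 2)
      linarith
    · have := min_le_right (-Real.log H.l2 / 2) (Real.log H.m2 / 2)
      linarith
  set a : ℝ := -Real.log H.l2 - t with ha_def
  set b : ℝ := -Real.log H.l1 + t with hb_def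
  set c : ℝ := Real.log H.m2 - t with hc_def
  set e : ℝ := Real.log H.m1 + t with he_def
  have ha : 0 < a := by linarith
  have hab : a ≤ b := by linarith
  have hc : 0 < c := by linarith
  have hce : c ≤ e := by linarith
  have ha' : H.l2 < Real.exp (-a) := by
    rw [← Real.log_lt_iff_lt_exp hl2]
    linarith
  have hb' : Real.exp (-b) < H.l1 := by
    rw [← Real.lt_log_iff_exp_lt hl1]
    linarith
  have hc' : H.symm.l2 < Real.exp (-c) := by
    change H.m2⁻¹ < Real.exp (-c)
    rw [← Real.log_lt_iff_lt_exp (inv_pos.2 hm2), Real.log_inv]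
    linarith
  have he' : Real.exp (-e) < H.symm.l1 := by
    change Real.exp (-e) < H.m1⁻¹
    rw [← Real.lt_log_iff_exp_lt (inv_pos.2 hm1), Real.log_inv]
    linarith
  obtain ⟨Ps⟩ := H.exists_sparam ha hab ha' hb'
  obtain ⟨Pv⟩ := H.symm.exists_sparam hc hce hc' he'
  obtain ⟨Pu⟩ := exists_qparam H.symm hc hce hc' he' (der2_symm H hd) (qconf_symm H hq)
  obtain ⟨ρ1, hρ1, C1, hC1, hcmp1⟩ := H.cmp ha hab ha' hb'
  obtain ⟨ρ2, hρ2, C2, hC2, hcmp2⟩ := H.symm.cmp hc hce hc' he'
  let D : Sys M :=
    { f := H.f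
      S := SRel H.f a b
      U := SRel H.f.symm c e
      a := a
      b := b
      c := c
      e := e
      ha := ha
      hab := hab
      hc := hc
      hce := hce
      S_refl := fun x => SRel.refl x
      S_symm := fun x y t h => h.symm
      S_mono := fun x y t t' ht h => h.mono ht
      S_tri := fun x y z t t' h h' => h.tri h'
      S_dist := fun x y t h => h.dist_le
      S_fwd := fun x y t h => h.fwd ha hab
      S_bwd := fun x y t h => h.bwd ha hab
      U_refl := fun x => SRel.refl x
      U_symm := fun x y t h => h.symm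
      U_mono := fun x y t t' ht h => h.mono ht
      U_tri := fun x y z t t' h h' => h.tri h'
      U_dist := fun x y t h => h.dist_le
      U_bwd := fun x y t h => h.fwd hc hce
      U_fwd := fun x y t h => by
        have h1 := h.bwd hc hce
        simpa using h1
      r := min ρ1 ρ2
      hr := lt_min hρ1 hρ2
      C := max C1 C2
      hC := hC1.trans (le_max_left _ _)
      S_cmp := fun x y h => by
        have h1 := hcmp1 x y (fun k => (tos_dist ha h k).trans (min_le_left _ _))
        exact h1.mono (mul_le_mul_of_nonneg_right (le_max_left _ _) dist_nonneg)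
      U_cmp := fun x y h => by
        have h1 := hcmp2 x y (fun k => (tos_dist hc h k).trans (min_le_right _ _))
        exact SRel.mono (mul_le_mul_of_nonneg_right (le_max_right _ _) dist_nonneg) h1
      S_closed := fun t => SRel.closed t
      U_closed := fun t => SRel.closed t
      br := T.bracket ha hc Ps Pv }
  let Λ : Leaves M D E :=
    { Es := H.Es
      Eu := H.Eu
      θs := Ps.θ
      θu := Pu.θ
      R0 := min Ps.R0 Pu.R0
      hR0 := lt_min Ps.hR0 Pu.hR0
      K0 := max Ps.K0 Pu.K0
      hK0 := Ps.hK0.trans (le_max_left _ _)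
      s_zero := Ps.zero
      u_zero := Pu.zero
      s_lip := Ps.lip
      u_lip := Pu.lip
      s_inj := Ps.inj
      u_inj := Pu.inj
      s_surj := Ps.surj
      u_surj := Pu.surj
      s_inv := Ps.inv
      u_inv := Pu.inv
      s_unif := fun x v w hv hw =>
        (Ps.unif x v w (hv.trans (min_le_left _ _)) (hw.trans (min_le_left _ _))).mono
          (mul_le_mul_of_nonneg_right (le_max_left _ _) (norm_nonneg _))
      u_unif := fun x v w hv hw =>
        SRel.mono (mul_le_mul_of_nonneg_right (le_max_right _ _) (norm_nonneg _))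
          (Pu.unif x v w (hv.trans (min_le_right _ _)) (hw.trans (min_le_right _ _)))
      s_loc := fun x y t ht h => by
        have ht0 : 0 ≤ t := dist_nonneg.trans h.dist_le
        obtain ⟨v, hv, hvy⟩ := Ps.loc x y t (ht.trans (min_le_left _ _)) h
        exact ⟨v, hv.trans (mul_le_mul_of_nonneg_right (le_max_left _ _) ht0), hvy⟩
      u_loc := fun x y t ht h => by
        have ht0 : 0 ≤ t := dist_nonneg.trans h.dist_le
        obtain ⟨v, hv, hvy⟩ := Pu.loc x y t (ht.trans (min_le_right _ _)) h
        exact ⟨v, hv.trans (mul_le_mul_of_nonneg_right (le_max_right _ _) ht0), hvy⟩ }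
  let Q : QC D Λ :=
    { C := Pu.C
      hC := Pu.hC
      k := k
      hk := hk
      dim := hdim
      mu := Pu.mu
      mu_pos := Pu.mu_pos
      mu_le := Pu.mu_le
      le_mu := Pu.le_mu
      scal := Pu.scal
      trans := Pu.trans }
  exact ⟨D, Λ, Q, rfl, H.compl⟩

end Pool.Agent.ANC
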