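import Mathlib
import Pool.Agent.ANC.PWX
import Pool.Agent.ANC.C2E
import Pool.Agent.ANC.TOX
import Pool.Agent.ANC.RNK
import Pool.Agent.ANC.FIA
import Pool.Agent.ANO.CHL
import Pool.Agent.ANO.FMX

open Set Metric Function
open scoped Manifold ContDiff

namespace Pool.Agent.ANC

open Pool.Agent.ANO (Fam Anosov1 Loc Trans)

theorem qc_covering_metric (d : ℕ) (M : Type) [MetricSpace M] [CompactSpace M]
    [ConnectedSpace M] [ChartedSpace (EuclideanSpace ℝ (Fin d)) M] [IsManifold (𝓡 d) ∞ M] (F : Fam d M)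
    (f g : M → M) (hf : ContMDiff (𝓡 d) (𝓡 d) 2 f) (hg : ContMDiff (𝓡 d) (𝓡 d) 2 g)
    (gf : Function.LeftInverse g f) (fg : Function.RightInverse g f)
    (hNW : ∀ V : Set M, IsOpen V → V.Nonempty → ∃ n : ℕ, 1 ≤ n ∧ ∃ x ∈ V, f^[n] x ∈ V)
    (N : ∀ x : M, TangentSpace (𝓡 d) x → ℝ) (hN : CNorm d M N)
    (C μ : ℝ) (hC : 0 < C) (hμ : 0 < μ) (hμ1 : μ < 1)
    (Es Eu : ∀ x : M, Submodule ℝ (TangentSpace (𝓡 d) x))
    (hcompl : ∀ x : M, IsCompl (Es x) (Eu x)) (hdim : ∀ x : M, 2 ≤ Module.finrank ℝ (Eu x))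
    (inv_s : ∀ (x : M) (v : TangentSpace (𝓡 d) x), v ∈ Es x →
      mfderiv (𝓡 d) (𝓡 d) f x v ∈ Es (f x))
    (inv_u : ∀ (x : M) (v : TangentSpace (𝓡 d) x), v ∈ Eu x →
      mfderiv (𝓡 d) (𝓡 d) f x v ∈ Eu (f x))
    (hs : ∀ (x : M) (v : TangentSpace (𝓡 d) x), v ∈ Es x → ∀ k : ℕ,
      N (Nat.iterate f k x) (mfderiv (𝓡 d) (𝓡 d) (Nat.iterate f k) x v) ≤ C * μ ^ k * N x v)
    (hu : ∀ (x : M) (v : TangentSpace (𝓡 d) x), v ∈ Eu x → ∀ k : ℕ,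
      N (Nat.iterate g k x) (mfderiv (𝓡 d) (𝓡 d) (Nat.iterate g k) x v) ≤ C * μ ^ k * N x v)
    (Q : ℝ) (hQ : ∀ (x : M) (v w : TangentSpace (𝓡 d) x), v ∈ Eu x → w ∈ Eu x → ∀ k : ℕ,
      N (Nat.iterate f k x) (mfderiv (𝓡 d) (𝓡 d) (Nat.iterate f k) x v) * N x w ≤
        Q * (N (Nat.iterate f k x) (mfderiv (𝓡 d) (𝓡 d) (Nat.iterate f k) x w) * N x v)) :
    ∃ p : EuclideanSpace ℝ (Fin d) → M, IsCoveringMap p := by
  obtain ⟨𝒜, m, hm, hfm, h2, hqc, hEu⟩ := exists_power F f g hf hg gf fg N hN C μ hC hμ hμ1 Es Eu hcompl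
    inv_s inv_u hs hu Q hQ
  obtain ⟨H, T, e1, e2, e3, e4⟩ := exists_loc 𝒜 F
  have hq : QConf H H.Eu := qconf_of_manifold 𝒜 F hqc H e1 e3 e4
  have hd : Der2 H := by
    obtain ⟨K, hK, ρ, hρ, h⟩ := c2 F 𝒜.f h2
    refine ⟨K, hK, ρ, hρ, fun x y z hy hz => ?_⟩
    rw [e2, e2, e2, e2, e3, e1, e1, e1]
    exact h x y z hy hz
  obtain ⟨x0⟩ := (inferInstance : Nonempty M)
  have hk : 2 ≤ Module.finrank ℝ (H.Eu x0) := by
    rw [finrank_of_manifold 𝒜 F H e4 x0, hEu]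
    exact hdim x0
  obtain ⟨D, Λ, QQ, hDf, hc⟩ := exists_sys T hd hq hk (fun x => rank_const T x x0)
  have : LocallyConnectedSpace M :=
    ChartedSpace.locallyConnectedSpace (EuclideanSpace ℝ (Fin d)) M
  refine QQ.exists_covering ?_ hc
  intro V hV hV'
  obtain ⟨n, hn, x, hx, hx'⟩ := nonwandering_mul hf.continuous hNW m hm V hV hV'
  refine ⟨n, hn, x, hx, ?_⟩
  have : (D.f : M → M) = Nat.iterate f m := by
    funext y
    rw [hDf, e1, hfm]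
  rw [this, ← Function.iterate_mul]
  exact hx'

/-- Transitive (non-wandering) `C^2` Anosov diffeomorphisms which are quasiconformal on the unstable bundle, of
dimension at least two, live on manifolds covered by the Euclidean space. -/
theorem qc_covering (d : ℕ) (M : Type) [TopologicalSpace M] [T2Space M] [CompactSpace M]
    [ConnectedSpace M] [ChartedSpace (EuclideanSpace ℝ (Fin d)) M] [IsManifold (𝓡 d) ∞ M]
    (f g : M → M) (hf : ContMDiff (𝓡 d) (𝓡 d) 2 f) (hg : ContMDiff (𝓡 d) (𝓡 d) 2 g)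
    (gf : Function.LeftInverse g f) (fg : Function.RightInverse g f)
    (hNW : ∀ V : Set M, IsOpen V → V.Nonempty → ∃ n : ℕ, 1 ≤ n ∧ ∃ x ∈ V, f^[n] x ∈ V)
    (N : ∀ x : M, TangentSpace (𝓡 d) x → ℝ) (hN : CNorm d M N)
    (C μ : ℝ) (hC : 0 < C) (hμ : 0 < μ) (hμ1 : μ < 1)
    (Es Eu : ∀ x : M, Submodule ℝ (TangentSpace (𝓡 d) x))
    (hcompl : ∀ x : M, IsCompl (Es x) (Eu x)) (hdim : ∀ x : M, 2 ≤ Module.finrank ℝ (Eu x))
    (inv_s : ∀ (x : M) (v : TangentSpace (𝓡 d) x), v ∈ Es x →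
      mfderiv (𝓡 d) (𝓡 d) f x v ∈ Es (f x))
    (inv_u : ∀ (x : M) (v : TangentSpace (𝓡 d) x), v ∈ Eu x →
      mfderiv (𝓡 d) (𝓡 d) f x v ∈ Eu (f x))
    (hs : ∀ (x : M) (v : TangentSpace (𝓡 d) x), v ∈ Es x → ∀ k : ℕ,
      N (Nat.iterate f k x) (mfderiv (𝓡 d) (𝓡 d) (Nat.iterate f k) x v) ≤ C * μ ^ k * N x v)
    (hu : ∀ (x : M) (v : TangentSpace (𝓡 d) x), v ∈ Eu x → ∀ k : ℕ,
      N (Nat.iterate g k x) (mfderiv (𝓡 d) (𝓡 d) (Nat.iterate g k) x v) ≤ C * μ ^ k * N x v)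
    (Q : ℝ) (hQ : ∀ (x : M) (v w : TangentSpace (𝓡 d) x), v ∈ Eu x → w ∈ Eu x → ∀ k : ℕ,
      N (Nat.iterate f k x) (mfderiv (𝓡 d) (𝓡 d) (Nat.iterate f k) x v) * N x w ≤
        Q * (N (Nat.iterate f k x) (mfderiv (𝓡 d) (𝓡 d) (Nat.iterate f k) x w) * N x v)) :
    ∃ p : EuclideanSpace ℝ (Fin d) → M, IsCoveringMap p := by
  obtain ⟨n, i, hi, hi2, hi3⟩ := exists_embedding_euclidean_of_compact (I := 𝓡 d) (M := M)
  let _ : MetricSpace M := hi2.isEmbedding.comapMetricSpace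
  have : Nonempty M := inferInstance
  obtain ⟨F⟩ := Pool.Agent.ANO.exists_fam (Pool.Agent.ANO.chartLip i hi hi3 (fun x y => rfl))
  exact qc_covering_metric d M F f g hf hg gf fg hNW N hN C μ hC hμ hμ1 Es Eu hcompl hdim inv_s inv_u hs hu Q hQ

end Pool.Agent.ANC
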